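import Mathlib
import Pool.Agent.H80.HM.Fau

set_option autoImplicit false

/-!
# Row Kfd: a non-integral algebraic number is large for some p-adic absolute value

(1) C and PadicAlgCl p are isomorphic as fields: both are algebraically closed of characteristic 0 and of cardinality continuum (IsAlgClosed.ringEquivOfCardinalEqOfCharEq).
 #Q_p <= continuum: Q_p is a quotient of the Cauchy sequences of rationals (a subset of N -> Q); #Q_p >= continuum: continuum_le_cardinal_of_nontriviallyNormedField (Q_p complete).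
 #PadicAlgCl p = max #Q_p aleph0 (algebraic over Q_p: Algebra.IsAlgebraic.cardinalMk_le_max, and the embedding of Q_p).
(2) z algebraic, not integral over Z: the minimal polynomial q = minpoly Q z has a coefficient a that is not an integer (otherwise z is a root of a monic integer polynomial). Let p be a prime
 dividing the denominator of a: the p-adic norm of a is > 1 (padicNorm / Padic.norm_rat_le_one_iff).
(3) q splits over PadicAlgCl p; if all its roots had norm <= 1 then all coefficients would have norm <= 1 (ultrametric: coefficients are sums of products of roots; or: the polynomials whose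
 coefficients have norm <= 1 form a subring containing X - mu), contradiction with norm_extends. So there is a root mu with norm > 1.
(4) Let i0 : C = PadicAlgCl p, z' := i0^{-1} mu: a root of q = minpoly Q z. So z and z' have the same minimal polynomial, exists_aut (HM/Fau.lean) gives an automorphism s of C with s z = z'.
 i := s followed by i0: i z = mu.
-/

namespace H80NA

open Polynomial Cardinal

private theorem Kfd_cardQp (p : ℕ) [Fact p.Prime] : #ℚ_[p] = 𝔠 := by
  apply le_antisymm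
  · have h1 : #(CauSeq ℚ (padicNorm p)) ≤ #(ℕ → ℚ) :=
      Cardinal.mk_le_of_injective (f := fun s : CauSeq ℚ (padicNorm p) => (s : ℕ → ℚ))
        (fun a b h => CauSeq.ext fun n => congrFun h n)
    have h2 : #(ℕ → ℚ) = 𝔠 := by
      rw [← Cardinal.power_def, Cardinal.mk_eq_aleph0 ℚ, Cardinal.mk_eq_aleph0 ℕ,
        Cardinal.aleph0_power_aleph0]
    have h3 : #ℚ_[p] ≤ #(CauSeq ℚ (padicNorm p)) :=
      Cardinal.mk_le_of_surjective (f := fun s => (Quotient.mk _ s : CauSeq.Completion.Cauchy (padicNorm p)))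
        (fun q => Quotient.exists_rep q)
    exact h3.trans (h1.trans h2.le)
  · exact continuum_le_cardinal_of_nontriviallyNormedField ℚ_[p]

private theorem Kfd_card (p : ℕ) [Fact p.Prime] : #(PadicAlgCl p) = 𝔠 := by
  apply le_antisymm
  · refine (Algebra.IsAlgebraic.cardinalMk_le_max ℚ_[p] (PadicAlgCl p)).trans ?_
    rw [Kfd_cardQp]
    exact max_le le_rfl Cardinal.aleph0_le_continuum
  · rw [← Kfd_cardQp p]
    exact Cardinal.mk_le_of_injective (algebraMap ℚ_[p] (PadicAlgCl p)).injective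

private theorem Kfd_iso (p : ℕ) [Fact p.Prime] : Nonempty (ℂ ≃+* PadicAlgCl p) := by
  apply IsAlgClosed.ringEquiv_of_equiv_of_charZero
  · rw [Cardinal.mk_complex]
    exact Cardinal.aleph0_lt_continuum
  · rw [← Cardinal.eq, Cardinal.mk_complex, Kfd_card]

private theorem Kfd_norm {p : ℕ} [Fact p.Prime] {a : ℚ} (h : p ∣ a.den) : 1 < ‖(a : ℚ_[p])‖ := by
  have hd : ‖((a.den : ℤ) : ℚ_[p])‖ < 1 := by
    rw [Padic.norm_intCast_lt_one_iff]
    exact_mod_cast h
  have hn : ‖((a.num : ℤ) : ℚ_[p])‖ = 1 := by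
    apply le_antisymm (Padic.norm_int_le_one _)
    by_contra h1
    rw [not_le, Padic.norm_intCast_lt_one_iff] at h1
    have h2 := a.reduced
    have h3 : p ∣ a.num.natAbs := Int.natCast_dvd.1 h1
    have h4 := Nat.dvd_gcd h3 h
    rw [h2] at h4
    exact (Fact.out : p.Prime).one_lt.ne' (Nat.dvd_one.1 h4)
  have hpos : 0 < ‖((a.den : ℤ) : ℚ_[p])‖ := by
    rw [norm_pos_iff]
    have : a.den ≠ 0 := a.den_nz
    exact_mod_cast this
  have he : ‖(a : ℚ_[p])‖ * ‖((a.den : ℤ) : ℚ_[p])‖ = 1 := by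
    rw [← norm_mul, ← hn]
    congr 1
    have := Rat.mul_den_eq_num a
    exact_mod_cast this
  by_contra h1
  rw [not_lt] at h1
  have h5 : ‖(a : ℚ_[p])‖ * ‖((a.den : ℤ) : ℚ_[p])‖ ≤ 1 * ‖((a.den : ℤ) : ℚ_[p])‖ :=
    mul_le_mul_of_nonneg_right h1 hpos.le
  linarith

private theorem Kfd_roots {p : ℕ} [Fact p.Prime] (q : (PadicAlgCl p)[X]) (hq : q.Monic)
    (h : ∀ μ, q.IsRoot μ → ‖μ‖ ≤ 1) (n : ℕ) : ‖q.coeff n‖ ≤ 1 := by
  obtain ⟨O, hO⟩ : ∃ O : Subring (PadicAlgCl p), ∀ x, x ∈ O ↔ ‖x‖ ≤ 1 :=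
    ⟨(Valued.v : Valuation (PadicAlgCl p) NNReal).integer, fun x => by
      rw [Valuation.mem_integer_iff, PadicAlgCl.valuation_def]
      exact Iff.rfl⟩
  have h1 : q ∈ lifts O.subtype := by
    have hs := IsAlgClosed.splits q
    rw [hs.eq_prod_roots_of_monic hq]
    apply Subsemiring.multiset_prod_mem
    intro f hf
    obtain ⟨μ, hμ, rfl⟩ := Multiset.mem_map.1 hf
    have h2 : ‖μ‖ ≤ 1 := h μ (isRoot_of_mem_roots hμ)
    rw [sub_eq_add_neg, ← C_neg]
    apply add_mem (X_mem_lifts _)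
    exact C'_mem_lifts ⟨⟨-μ, (hO _).2 (by rwa [norm_neg])⟩, rfl⟩
  obtain ⟨a, ha⟩ := (lifts_iff_coeff_lifts _).1 h1 n
  rw [← ha]
  exact (hO _).1 a.2

theorem nonint {z : ℂ} (ha : IsAlgebraic ℚ z) (hz : ¬ IsIntegral ℤ z) :
    ∃ (p : ℕ) (_ : Fact p.Prime) (i : ℂ ≃+* PadicAlgCl p), 1 < ‖i z‖ := by
  have hint : IsIntegral ℚ z := ha.isIntegral
  obtain ⟨n, hn⟩ : ∃ n, ((minpoly ℚ z).coeff n).den ≠ 1 := by
    by_contra hcon
    push Not at hcon
    apply hz
    have h1 : minpoly ℚ z ∈ lifts (Int.castRingHom ℚ) := by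
      rw [lifts_iff_coeff_lifts]
      intro n
      exact ⟨((minpoly ℚ z).coeff n).num, Rat.coe_int_num_of_den_eq_one (hcon n)⟩
    obtain ⟨P, hP, -, hm⟩ := lifts_and_natDegree_eq_and_monic h1 (minpoly.monic hint)
    refine ⟨P, hm, ?_⟩
    have h2 := minpoly.aeval ℚ z
    rw [← hP, aeval_def, eval₂_map] at h2
    rw [← h2]
    congr 1
  obtain ⟨p, hp, hpd⟩ := Nat.exists_prime_and_dvd hn
  have hF : Fact p.Prime := ⟨hp⟩
  obtain ⟨i0⟩ := Kfd_iso p
  obtain ⟨Q, hQ⟩ : ∃ Q : (PadicAlgCl p)[X], Q = (minpoly ℚ z).map (Rat.castHom (PadicAlgCl p)) := ⟨_, rfl⟩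
  have hQm : Q.Monic := by
    rw [hQ]
    exact (minpoly.monic hint).map _
  obtain ⟨μ, hμ, hμ1⟩ : ∃ μ, Q.IsRoot μ ∧ 1 < ‖μ‖ := by
    by_contra hcon
    push Not at hcon
    have h1 := Kfd_roots Q hQm hcon n
    rw [hQ, coeff_map] at h1
    have h2 : Rat.castHom (PadicAlgCl p) ((minpoly ℚ z).coeff n) =
        algebraMap ℚ_[p] (PadicAlgCl p) (((minpoly ℚ z).coeff n : ℚ) : ℚ_[p]) := by
      rw [map_ratCast]
      rfl
    rw [h2] at h1
    have h3 := PadicAlgCl.norm_extends p (((minpoly ℚ z).coeff n : ℚ) : ℚ_[p])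
    have h4 := Kfd_norm hpd
    rw [← h3] at h4
    exact absurd h1 (not_le.2 h4)
  have hr : aeval (i0.symm μ) (minpoly ℚ z) = 0 := by
    rw [IsRoot, hQ, eval_map] at hμ
    have h1 := congrArg i0.symm hμ
    rw [map_zero] at h1
    have h2 := hom_eval₂ (minpoly ℚ z) (Rat.castHom (PadicAlgCl p)) (i0.symm : PadicAlgCl p →+* ℂ) μ
    rw [← h1, aeval_def]
    refine Eq.trans ?_ h2.symm
    congr 1
    exact Subsingleton.elim _ _
  have hmin : minpoly ℚ z = minpoly ℚ (i0.symm μ) :=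
    minpoly.eq_of_irreducible_of_monic (minpoly.irreducible hint) hr (minpoly.monic hint)
  obtain ⟨s, hs⟩ := H80HM.exists_aut (z := z) (z' := i0.symm μ) (fun P => by
    rw [← minpoly.dvd_iff, ← minpoly.dvd_iff, hmin])
  refine ⟨p, hF, s.trans i0, ?_⟩
  rw [RingEquiv.trans_apply, hs, RingEquiv.apply_symm_apply]
  exact hμ1

end H80NA
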