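import Pool.Agent.H80.NA.Nu
import Pool.Agent.H80.HM.Iin

set_option autoImplicit false

/-!
# Row Iiv: the block shift representation, eigenvalues

Copy of the proof of theorem induced in Pool/Agent/H80/HM/Iin.lean (landed, complete; its non private lemmas may be used) with the last clause replaced by the equality of the sets of eigenvalues:
the spectrum of BD u is the union over j of the spectra of rho(sg^j u), and rho(sg^j u) is conjugate to rho(u) (Chr for the automorphism sg^j). (This is exactly what the proof there shows before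
passing to Mo; roots of the charpoly = spectrum by Matrix.mem_spectrum_iff_isRoot_charpoly.)
-/

namespace H80NA

open H80HM Matrix

theorem Iiv_sp {m : ℕ} (M : Mt m) (z : ℂ) : z ∈ M.charpoly.roots ↔ z ∈ spectrum ℂ M := by
  rw [Polynomial.mem_roots (Matrix.charpoly_monic M).ne_zero,
    Matrix.mem_spectrum_iff_isRoot_charpoly]

theorem induced_v {F : Type} [Group F] {d k : ℕ} (hk : 0 < k) (rho : F →* (Mt d)ˣ)
    (hchr : Chr rho) (sg : F ≃* F) (t : F) (hst : sg t = t)
    (hsk : ∀ u, (sg ^ k) u = t⁻¹ * u * t) :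
    ∃ (BD : F →* (Mt (d * k))ˣ) (SH : (Mt (d * k))ˣ),
      (∀ u, SH⁻¹ * BD u * SH = BD (sg u)) ∧ SH ^ k = BD t ∧
      (∀ a : F ≃* F, (∀ u, a (sg u) = sg (a u)) → a t = t →
        ∃ T : (Mt (d * k))ˣ, (∀ u, T * BD u * T⁻¹ = BD (a u)) ∧ T * SH = SH * T) ∧
      ∀ u z, z ∈ ((BD u : (Mt (d * k))ˣ) : Mt (d * k)).charpoly.roots ↔
        z ∈ ((rho u : (Mt d)ˣ) : Mt d).charpoly.roots := by
  have hsgt : ∀ j : ℕ, (sg ^ j) t = t := by
    intro j
    induction j with
    | zero => rfl
    | succ j ih => rw [pow_succ, MulAut.mul_apply, hst, ih]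
  -- the block diagonal homomorphism
  let B0 : F →* Matrix (Fin k) (Fin k) (Mt d) :=
    { toFun := fun u => diagonal fun j : Fin k => ((rho ((sg ^ (j : ℕ)) u) : (Mt d)ˣ) : Mt d)
      map_one' := by
        simp only [map_one, Units.val_one]
        exact diagonal_one
      map_mul' := fun u v => by
        rw [diagonal_mul_diagonal]
        simp only [map_mul, Units.val_mul] }
  have hB0 : ∀ u, B0 u = diagonal fun j : Fin k =>
      ((rho ((sg ^ (j : ℕ)) u) : (Mt d)ˣ) : Mt d) := fun u => rfl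
  let Ψ := Iin_Psi d k
  let Φ : (Matrix (Fin k) (Fin k) (Mt d))ˣ →* (Mt (d * k))ˣ := Units.map (Ψ : _ →* _)
  let B1 : F →* (Matrix (Fin k) (Fin k) (Mt d))ˣ := B0.toHomUnits
  have hB1 : ∀ u, ((B1 u : (Matrix (Fin k) (Fin k) (Mt d))ˣ) : Matrix (Fin k) (Fin k) (Mt d)) =
      B0 u := fun u => MonoidHom.coe_toHomUnits B0 u
  -- the shift
  have hpow : Iin_S k ((rho t : (Mt d)ˣ) : Mt d) ^ k = B0 t := by
    rw [Iin_S_powk, hB0]
    congr 1
    funext j
    rw [hsgt]
  have hSu : IsUnit (Iin_S k ((rho t : (Mt d)ˣ) : Mt d)) := by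
    rw [← isUnit_pow_iff hk.ne', hpow, ← hB1]
    exact Units.isUnit _
  obtain ⟨S1, hS1⟩ := hSu
  have key1 : ∀ u, B1 u * S1 = S1 * B1 (sg u) := by
    intro u
    ext1
    rw [Units.val_mul, Units.val_mul, hB1, hB1, hS1, hB0, hB0]
    apply Iin_diag_S
    · intro j j' hj
      rw [← hj, pow_succ, MulAut.mul_apply]
    · intro j j' hj hj'
      rw [hj, pow_zero, MulAut.one_apply]
      have h1 : (sg ^ (j' : ℕ)) (sg u) = t⁻¹ * u * t := by
        rw [← MulAut.mul_apply, ← pow_succ, hj', hsk]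
      rw [h1, ← Units.val_mul, ← Units.val_mul, ← map_mul, ← map_mul]
      congr 2
      group
  have key2 : S1 ^ k = B1 t := by
    ext1
    rw [Units.val_pow_eq_pow_val, hS1, hpow, hB1]
  refine ⟨Φ.comp B1, Φ S1, ?_, ?_, ?_, ?_⟩
  · intro u
    rw [MonoidHom.comp_apply, MonoidHom.comp_apply, ← map_inv, ← map_mul, ← map_mul, mul_assoc,
      key1, inv_mul_cancel_left]
  · rw [MonoidHom.comp_apply, ← map_pow, key2]
  · intro a ha hat
    obtain ⟨h, hh⟩ := hchr a
    let T1 : (Matrix (Fin k) (Fin k) (Mt d))ˣ :=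
      Units.map (Matrix.scalar (Fin k) : Mt d →+* _).toMonoidHom h
    have hT1 : (T1 : Matrix (Fin k) (Fin k) (Mt d)) = diagonal fun _ => (h : Mt d) := rfl
    have hac : ∀ (j : ℕ) (u : F), (sg ^ j) (a u) = a ((sg ^ j) u) := by
      intro j
      induction j with
      | zero => intro u; rfl
      | succ j ih =>
        intro u
        rw [pow_succ, MulAut.mul_apply, MulAut.mul_apply, ← ha, ih]
    have hh' : ∀ x, (h : Mt d) * ((rho x : (Mt d)ˣ) : Mt d) =
        ((rho (a x) : (Mt d)ˣ) : Mt d) * (h : Mt d) := by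
      intro x
      rw [hh x, Units.val_mul, Units.val_mul, mul_assoc, mul_assoc, Units.inv_mul, mul_one]
    have k1 : ∀ u, T1 * B1 u = B1 (a u) * T1 := by
      intro u
      ext1
      rw [Units.val_mul, Units.val_mul, hB1, hB1, hT1, hB0, hB0, diagonal_mul_diagonal,
        diagonal_mul_diagonal]
      congr 1
      funext j
      rw [hac, hh']
    have k2 : T1 * S1 = S1 * T1 := by
      ext1
      rw [Units.val_mul, Units.val_mul, hS1, hT1]
      apply Iin_diag_S
      · intro j j' _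
        rfl
      · intro j j' _ _
        rw [hh', hat]
    refine ⟨Φ T1, ?_, ?_⟩
    · intro u
      rw [MonoidHom.comp_apply, MonoidHom.comp_apply, ← map_inv, ← map_mul, ← map_mul, k1,
        mul_inv_cancel_right]
    · rw [← map_mul, k2, map_mul]
  · intro u z
    have e1 : (((Φ.comp B1) u : (Mt (d * k))ˣ) : Mt (d * k)) = Ψ (B0 u) := by
      rw [← hB1]
      rfl
    rw [e1, Iiv_sp, Iiv_sp, AlgEquiv.spectrum_eq Ψ, hB0]
    have hsp : ∀ j : ℕ, spectrum ℂ ((rho ((sg ^ j) u) : (Mt d)ˣ) : Mt d) =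
        spectrum ℂ ((rho u : (Mt d)ˣ) : Mt d) := by
      intro j
      obtain ⟨g, hg⟩ := hchr (sg ^ j)
      rw [hg u, Units.val_mul, Units.val_mul, spectrum.units_conjugate]
    rw [Iin_spec]
    constructor
    · rintro ⟨j, hj⟩
      rwa [hsp] at hj
    · intro hz
      exact ⟨⟨0, hk⟩, by rw [hsp]; exact hz⟩

end H80NA
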