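import Pool.Agent.H80.NA.Nu

set_option autoImplicit false

/-!
# Row Mvx: matrices all of whose eigenvalues have nu z = 1

Copy of the proofs of mo_conj, mo_one, mo_pow, mo_inv, mo_dvd in Pool/Agent/H80/HM/Mox.lean (landed) with the norm of C replaced by the multiplicative function nu:
Mv nu M <-> for all z in spectrum C M, nu z = 1; nu(z^k) = nu(z)^k; nu(z^-1) = nu(z)^-1 for z <> 0; x >= 0 and x^k = 1, k > 0 imply x = 1.
(For z = 0: eigenvalues of invertible matrices are non zero; in mv_pow a zero eigenvalue z of M gives the eigenvalue 0 of M^k; nu 0 is arbitrary in Mf, so mv_pow is stated for units.)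
-/

namespace H80NA

open H80HM Matrix

variable {m : ℕ} {nu : ℂ → ℝ}

private theorem Mvx_iff (M : Mt m) : Mv nu M ↔ ∀ z ∈ spectrum ℂ M, nu z = 1 := by
  unfold Mv
  refine forall_congr' fun z => ?_
  rw [Polynomial.mem_roots (Matrix.charpoly_monic M).ne_zero,
    Matrix.mem_spectrum_iff_isRoot_charpoly]

private theorem Mvx_nupow (hn : Mf nu) (z : ℂ) (k : ℕ) : nu (z ^ k) = nu z ^ k := by
  induction k with
  | zero => rw [pow_zero, pow_zero, hn.one]
  | succ k ih => rw [pow_succ, pow_succ, hn.mul, ih]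

theorem mv_conj {M : Mt m} (T : (Mt m)ˣ) :
    Mv nu ((T : Mt m) * M * ((T⁻¹ : (Mt m)ˣ) : Mt m)) ↔ Mv nu M := by
  rw [Mvx_iff, Mvx_iff, spectrum.units_conjugate]

theorem mv_one (hn : Mf nu) : Mv nu (1 : Mt m) := by
  rw [Mvx_iff]
  intro z hz
  by_contra h
  apply hz
  rw [spectrum.mem_resolventSet_iff]
  have hz1 : z - 1 ≠ 0 := by
    intro h1
    apply h
    rw [sub_eq_zero.1 h1, hn.one]
  have e : algebraMap ℂ (Mt m) z - 1 = algebraMap ℂ (Mt m) (z - 1) := by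
    rw [map_sub, map_one]
  rw [e]
  exact (IsUnit.mk0 _ hz1).map _

theorem mv_pow (hn : Mf nu) {M : (Mt m)ˣ} {k : ℕ} (hk : 0 < k) :
    Mv nu ((M ^ k : (Mt m)ˣ) : Mt m) ↔ Mv nu (M : Mt m) := by
  rw [Mvx_iff, Mvx_iff, Units.val_pow_eq_pow_val, spectrum.map_pow_of_pos (M : Mt m) hk]
  constructor
  · intro h z hz
    have h1 := h (z ^ k) ⟨z, hz, rfl⟩
    rw [Mvx_nupow hn] at h1
    have hz0 : z ≠ 0 := spectrum.ne_zero_of_mem_of_unit hz
    exact (pow_eq_one_iff_of_nonneg (hn.pos z hz0).le hk.ne').1 h1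
  · rintro h _ ⟨z, hz, rfl⟩
    change nu (z ^ k) = 1
    rw [Mvx_nupow hn, h z hz, one_pow]

theorem mv_inv (hn : Mf nu) {M : (Mt m)ˣ} (h : Mv nu (M : Mt m)) :
    Mv nu ((M⁻¹ : (Mt m)ˣ) : Mt m) := by
  rw [Mvx_iff] at h ⊢
  intro z hz
  have hz0 : z ≠ 0 := spectrum.ne_zero_of_mem_of_unit hz
  have h1 := (spectrum.inv_mem_iff (R := ℂ) (r := Units.mk0 z hz0) (a := M⁻¹)).1 hz
  rw [inv_inv] at h1
  have h2 := h _ h1
  rw [Units.val_inv_eq_inv_val, Units.val_mk0] at h2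
  have h3 := hn.mul z z⁻¹
  rw [mul_inv_cancel₀ hz0, hn.one, h2, mul_one] at h3
  exact h3.symm

theorem mv_dvd {m' : ℕ} {M : Mt m} {N : Mt m'} (hd : M.charpoly ∣ N.charpoly) (h : Mv nu N) :
    Mv nu M := by
  intro z hz
  exact h z (Multiset.mem_of_le (Polynomial.roots.le_of_dvd
    (Matrix.charpoly_monic N).ne_zero hd) hz)

end H80NA
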