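import Pool.Agent.H80.NA.Stv
import Pool.Agent.H80.NA.Mvx

set_option autoImplicit false

/-!
# Row Pfv: proper free factors, for nu

Copy of Pool/Agent/H80/HM/Pfc.lean (landed, complete; its lemmas are private, so copy them) with Mo replaced by Mv nu, stepA by stepA_v hn, mo_conj by mv_conj.
-/

namespace H80NA

open H80HM Matrix

/-- multiply one free generator by an element -/
private def Pfv_f {I : Type} [DecidableEq I] (i0 : I) (l : FreeGroup I) :
    FreeGroup I →* FreeGroup I :=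
  FreeGroup.lift fun i => if i = i0 then FreeGroup.of i0 * l else FreeGroup.of i

private theorem Pfv_f0 {I : Type} [DecidableEq I] (i0 : I) (l : FreeGroup I) :
    Pfv_f i0 l (FreeGroup.of i0) = FreeGroup.of i0 * l := by
  unfold Pfv_f
  rw [FreeGroup.lift_apply_of, if_pos rfl]

private theorem Pfv_f1 {I : Type} [DecidableEq I] (i0 : I) (l : FreeGroup I) {i : I}
    (h : i ≠ i0) : Pfv_f i0 l (FreeGroup.of i) = FreeGroup.of i := by
  unfold Pfv_f
  rw [FreeGroup.lift_apply_of, if_neg h]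

private theorem Pfv_fix {I : Type} [DecidableEq I] (i0 : I) (l : FreeGroup I) {x : FreeGroup I}
    (hx : x ∈ Subgroup.closure (FreeGroup.of '' {i : I | i ≠ i0})) : Pfv_f i0 l x = x := by
  have h1 : Subgroup.closure (FreeGroup.of '' {i : I | i ≠ i0}) ≤
      (Pfv_f i0 l).eqLocus (MonoidHom.id _) := by
    rw [Subgroup.closure_le]
    rintro y ⟨i, hi, rfl⟩
    exact Pfv_f1 i0 l hi
  exact h1 hx

private theorem Pfv_comp {I : Type} [DecidableEq I] (i0 : I) {l l' : FreeGroup I}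
    (hl : l ∈ Subgroup.closure (FreeGroup.of '' {i : I | i ≠ i0})) (h : l' * l = 1) :
    (Pfv_f i0 l').comp (Pfv_f i0 l) = MonoidHom.id _ := by
  refine FreeGroup.ext_hom _ _ fun i => ?_
  rw [MonoidHom.comp_apply, MonoidHom.id_apply]
  by_cases hi : i = i0
  · subst hi
    rw [Pfv_f0, map_mul, Pfv_f0, Pfv_fix i l' hl, mul_assoc, h, mul_one]
  · rw [Pfv_f1 i0 l hi, Pfv_f1 i0 l' hi]

theorem factor_mv {nu : ℂ → ℝ} (hn : Mf nu) {I : Type} [Fintype I] [DecidableEq I] {d : ℕ}
    (rho : FreeGroup I →* (Mt d)ˣ) (hchr : Chr rho)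
    (hmo : ∀ i, Mv nu ((rho (FreeGroup.of i) : (Mt d)ˣ) : Mt d)) (i0 : I)
    (th : FreeGroup I ≃* FreeGroup I) (l : FreeGroup I)
    (hl : l ∈ Subgroup.closure (FreeGroup.of '' {i : I | i ≠ i0})) :
    Mv nu ((rho (th l) : (Mt d)ˣ) : Mt d) := by
  set S := Subgroup.closure (FreeGroup.of '' {i : I | i ≠ i0}) with hS
  have hl' : l⁻¹ ∈ S := S.inv_mem hl
  let s : FreeGroup I ≃* FreeGroup I := MonoidHom.toMulEquiv (Pfv_f i0 l) (Pfv_f i0 l⁻¹)
    (Pfv_comp i0 hl (inv_mul_cancel l)) (Pfv_comp i0 hl' (mul_inv_cancel l))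
  have hs : ∀ x, s x = Pfv_f i0 l x := fun x => rfl
  obtain ⟨g, hg⟩ := hchr s
  -- the subgroup is the image of a free group
  let e := (Fintype.equivFin {i : I // i ≠ i0}).symm
  let j : FreeGroup (Fin (Fintype.card {i : I // i ≠ i0})) →* FreeGroup I :=
    FreeGroup.map fun a => (e a : I)
  have hj : ∀ a, j (FreeGroup.of a) = FreeGroup.of (e a : I) := fun a => FreeGroup.map.of
  have hjS : ∀ w, j w ∈ S := by
    intro w
    have h1 : (⊤ : Subgroup (FreeGroup (Fin (Fintype.card {i : I // i ≠ i0})))) ≤ S.comap j := by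
      rw [← FreeGroup.closure_range_of, Subgroup.closure_le]
      rintro y ⟨a, rfl⟩
      show j (FreeGroup.of a) ∈ S
      rw [hj]
      exact Subgroup.subset_closure ⟨_, (e a).2, rfl⟩
    exact h1 (Subgroup.mem_top w)
  have hlj : l ∈ j.range := by
    have h1 : S ≤ j.range := by
      rw [hS, Subgroup.closure_le]
      rintro y ⟨i, hi, rfl⟩
      refine ⟨FreeGroup.of (e.symm ⟨i, hi⟩), ?_⟩
      rw [hj, Equiv.apply_symm_apply]
    exact h1 hl
  obtain ⟨w, hw⟩ := hlj
  have hmol : Mv nu ((rho l : (Mt d)ˣ) : Mt d) := by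
    rw [← hw]
    refine stepA_v hn (rho.comp j) (fun i => ?_) (rho (FreeGroup.of i0)) g w (fun h => ?_) ?_
    · rw [MonoidHom.comp_apply, hj]
      exact hmo _
    · have h1 := hg (j h)
      rw [hs, Pfv_fix i0 l (hjS h)] at h1
      rw [MonoidHom.comp_apply]
      exact (eq_mul_inv_iff_mul_eq.1 h1).symm
    · have h1 := hg (FreeGroup.of i0)
      rw [hs, Pfv_f0, map_mul] at h1
      rw [MonoidHom.comp_apply, hw]
      have h2 := eq_mul_inv_iff_mul_eq.1 h1
      rw [mul_assoc, ← h2, mul_assoc, inv_mul_cancel_left]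
  obtain ⟨g', hg'⟩ := hchr th
  rw [hg', Units.val_mul, Units.val_mul]
  exact (mv_conj g').2 hmol

end H80NA
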