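import Pool.Agent.H80.NA.Prv
import Pool.Agent.H80.NA.Pfv
import Pool.Agent.H80.NA.Iiv
import Pool.Agent.H80.HM.Au3
import Pool.Agent.H80.HM.Sub
import Pool.Agent.H80.HM.Shf

set_option autoImplicit false

/-!
# Row Mtv: reduction to the free group on three letters, for nu

Adaptation of Pool/Agent/H80/HM/Mth.lean (landed, complete; Mth_chr can be copied). For FG k e (k = n/2, e = n%2) exactly as in Mth_aux: factor_mv gives Mv nu (rho' l) for l in L1 .. L5 (Pf, sub5),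
shift_ex, induced_v (Mv nu (BD u) <-> Mv nu (rho' u) from the equality of the roots), prs_v gives Mp5v nu, au3 gives Tw6. Instead of thn: output pi = pi3 (BD X) (BD Y) SH, D' = d k, and for every w
an element g with pi g = BD(..): the argument htop at the end of Mth_aux (BD u in the range of pi for all u), so the roots of rho w are roots of pi g.
Everything up to here does not depend on nu except Mv nu: pi is chosen BEFORE nu, so the statement quantifies over nu inside (needed because it is used for all nu with the same pi).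
-/

namespace H80NA

open H80HM Matrix

theorem Mtv_chr {F F' : Type} [Group F] [Group F'] {d : ℕ} (rho : F →* (Mt d)ˣ) (hchr : Chr rho)
    (phi : F' ≃* F) : Chr (rho.comp (phi : F' →* F)) := by
  intro s
  obtain ⟨g, hg⟩ := hchr (phi.symm.trans (s.trans phi))
  refine ⟨g, fun x => ?_⟩
  have h := hg (phi x)
  simpa using h

theorem Mtv_aux {k e d : ℕ} (hk : 0 < k) (he : e ≤ 1) (hke : 2 ≤ k ∨ e = 1)
    (rho : FG k e →* (Mt d)ˣ) (hchr : Chr rho) :
    ∃ (D' : ℕ) (pi : FreeGroup (Fin 3) →* (Mt D')ˣ), Tw6 pi ∧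
      (∀ nu : ℂ → ℝ, Mf nu → (∀ i, Mv nu ((rho (FreeGroup.of i) : (Mt d)ˣ) : Mt d)) →
        Mp5v nu pi) ∧
      ∀ w, ∃ g, ∀ z ∈ ((rho w : (Mt d)ˣ) : Mt d).charpoly.roots,
        z ∈ ((pi g : (Mt D')ˣ) : Mt D').charpoly.roots := by
  obtain ⟨p1, p2, p3, p4, p5⟩ := sub5 hk he hke
  obtain ⟨sg, hS, hX, hY⟩ := shift_ex hk he
  obtain ⟨BD, SH, h1, h2, h3, h4⟩ := induced_v hk rho hchr sg (tt k e) hS.st hS.sk
  have h6 := au3 hS BD SH h1 h3
  refine ⟨d * k, pi3 (BD (Xb ⟨0, hk⟩)) (BD (Yb ⟨0, hk⟩)) SH, h6, ?_, ?_⟩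
  · intro nu hn hmo
    have hPf : ∀ L : Subgroup (FG k e), Pf L → ∀ l ∈ L, Mv nu ((rho l : (Mt d)ˣ) : Mt d) := by
      intro L hL l hl
      obtain ⟨i0, th, h⟩ := hL
      obtain ⟨l', hl', rfl⟩ := h l hl
      exact factor_mv hn rho hchr hmo i0 th l' hl'
    have hB : ∀ L : Subgroup (FG k e), Pf L → ∀ l ∈ L,
        Mv nu ((BD l : (Mt (d * k))ˣ) : Mt (d * k)) := by
      intro L hL l hl z hz
      exact hPf L hL l hl z ((h4 l z).1 hz)
    exact prs_v hn hk hS.st hS.sk hX hY BD SH h1 h2 (hB _ p1) (hB _ p2) (hB _ p3) (hB _ p4)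
      (hB _ p5)
  · set pi := pi3 (BD (Xb ⟨0, hk⟩)) (BD (Yb ⟨0, hk⟩)) SH with hpi
    have hpx : pi xx = BD (Xb ⟨0, hk⟩) := by simp [hpi, pi3, xx]
    have hpy : pi yy = BD (Yb ⟨0, hk⟩) := by simp [hpi, pi3, yy]
    have hpp : pi pp = SH := by simp [hpi, pi3, pp]
    have hSr : SH ∈ pi.range := ⟨pp, hpp⟩
    have hstep : ∀ u, BD u ∈ pi.range → BD (sg u) ∈ pi.range := by
      intro u hu
      rw [← h1 u]
      exact pi.range.mul_mem (pi.range.mul_mem (pi.range.inv_mem hSr) hu) hSr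
    have hsteps : ∀ (j : ℕ) (u : FG k e), BD u ∈ pi.range → BD ((sg ^ j) u) ∈ pi.range := by
      intro j
      induction j with
      | zero => intro u hu; exact hu
      | succ j ih =>
        intro u hu
        rw [Shf_ps1]
        exact hstep _ (ih u hu)
    have htop : (⊤ : Subgroup (FG k e)) ≤ pi.range.comap BD := by
      rw [← FreeGroup.closure_range_of, Subgroup.closure_le]
      rintro y ⟨i, rfl⟩
      show BD (FreeGroup.of i) ∈ pi.range
      rcases i with (j | j) | i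
      · have h8 := hsteps (j : ℕ) (Xb ⟨0, hk⟩) ⟨xx, hpx⟩
        rw [hX j] at h8
        exact h8
      · have h8 := hsteps (j : ℕ) (Yb ⟨0, hk⟩) ⟨yy, hpy⟩
        rw [hY j] at h8
        exact h8
      · rw [Shf_gen he i, ← h2]
        exact pi.range.pow_mem hSr k
    intro u
    obtain ⟨g, hg⟩ := htop (Subgroup.mem_top u)
    refine ⟨g, fun z hz => ?_⟩
    have h9 : BD u = pi g := hg.symm
    rw [← h9]
    exact (h4 u z).2 hz

theorem red3 {n d : ℕ} (hn : 3 ≤ n) (rho : FreeGroup (Fin n) →* (Mt d)ˣ) (hchr : Chr rho) :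
    ∃ (D' : ℕ) (pi : FreeGroup (Fin 3) →* (Mt D')ˣ), Tw6 pi ∧
      (∀ nu : ℂ → ℝ, Mf nu → (∀ i, Mv nu ((rho (FreeGroup.of i) : (Mt d)ˣ) : Mt d)) →
        Mp5v nu pi) ∧
      ∀ w, ∃ g, ∀ z ∈ ((rho w : (Mt d)ˣ) : Mt d).charpoly.roots,
        z ∈ ((pi g : (Mt D')ˣ) : Mt D').charpoly.roots := by
  have hcard : Fintype.card (Ix (n / 2) (n % 2)) = n := by
    simp only [Ix, Fintype.card_sum, Fintype.card_fin]
    omega
  let c : Ix (n / 2) (n % 2) ≃ Fin n := Fintype.equivFinOfCardEq hcard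
  let phi : FG (n / 2) (n % 2) ≃* FreeGroup (Fin n) := FreeGroup.freeGroupCongr c
  obtain ⟨D', pi, h1, h2, h3⟩ := Mtv_aux (k := n / 2) (e := n % 2) (by omega) (by omega) (by omega)
    (rho.comp (phi : FG (n / 2) (n % 2) →* FreeGroup (Fin n))) (Mtv_chr rho hchr phi)
  refine ⟨D', pi, h1, fun nu hnu hmo => h2 nu hnu (fun i => ?_), fun w => ?_⟩
  · have h4 : (rho.comp (phi : FG (n / 2) (n % 2) →* FreeGroup (Fin n))) (FreeGroup.of i) =
        rho (FreeGroup.of (c i)) := by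
      simp [phi]
    rw [h4]
    exact hmo _
  · obtain ⟨g, hg⟩ := h3 (phi.symm w)
    refine ⟨g, fun z hz => hg z ?_⟩
    simpa using hz

end H80NA
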