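import Pool.Agent.H80.NA.Nu

set_option autoImplicit false

/-!
# Row Dsc: matrices over a subfield

H := the set of units M of Mt D with all entries of M and of M^-1 in k: a subgroup (products of matrices over k have entries in k). For M in H the matrix over k with the entries of M, and that of
M^-1, are inverse to each other (the coercion k -> C is injective); La M := Matrix.toLin' of it as a linear equivalence (LinearEquiv.ofLinear or Matrix.toLinearEquiv'...). La is multiplicative: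
compare after coercion to C (injective).
-/

namespace H80NA

open H80HM Matrix

/-- matrices over k as complex matrices -/
private noncomputable def Dsc_f (D' : ℕ) (k : Subfield ℂ) : (Matrix (Fin D') (Fin D') k)ˣ →* (Mt D')ˣ :=
  Units.map ((k.subtype.mapMatrix : Matrix (Fin D') (Fin D') k →+* Mt D') :
    Matrix (Fin D') (Fin D') k →* Mt D')

private theorem Dsc_f_apply (D' : ℕ) (k : Subfield ℂ) (u : (Matrix (Fin D') (Fin D') k)ˣ) (i j : Fin D') :
    ((Dsc_f D' k u : (Mt D')ˣ) : Mt D') i j = (((u : Matrix (Fin D') (Fin D') k) i j : k) : ℂ) := rfl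

private theorem Dsc_inj (D' : ℕ) (k : Subfield ℂ) : Function.Injective (Dsc_f D' k) := by
  intro u v h
  apply Units.ext
  ext i j
  rw [← Dsc_f_apply, ← Dsc_f_apply, h]

private theorem Dsc_mem (D' : ℕ) (k : Subfield ℂ) (M : (Mt D')ˣ) :
    M ∈ (Dsc_f D' k).range ↔
      ∀ i j, (M : Mt D') i j ∈ k ∧ ((M⁻¹ : (Mt D')ˣ) : Mt D') i j ∈ k := by
  constructor
  · rintro ⟨u, rfl⟩ i j
    rw [← map_inv, Dsc_f_apply, Dsc_f_apply]
    exact ⟨SetLike.coe_mem _, SetLike.coe_mem _⟩
  · intro h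
    have hinj : Function.Injective (k.subtype.mapMatrix : Matrix (Fin D') (Fin D') k →+* Mt D') := by
      intro A B hAB
      ext i j
      have h1 := congrFun (congrFun hAB i) j
      exact h1
    let A : Matrix (Fin D') (Fin D') k := fun i j => ⟨(M : Mt D') i j, (h i j).1⟩
    let B : Matrix (Fin D') (Fin D') k := fun i j => ⟨((M⁻¹ : (Mt D')ˣ) : Mt D') i j, (h i j).2⟩
    have hA : (k.subtype.mapMatrix : Matrix (Fin D') (Fin D') k →+* Mt D') A = (M : Mt D') := rfl
    have hB : (k.subtype.mapMatrix : Matrix (Fin D') (Fin D') k →+* Mt D') B =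
        ((M⁻¹ : (Mt D')ˣ) : Mt D') := rfl
    refine ⟨⟨A, B, ?_, ?_⟩, ?_⟩
    · apply hinj
      rw [map_mul, hA, hB, map_one]
      exact M.mul_inv
    · apply hinj
      rw [map_mul, hA, hB, map_one]
      exact M.inv_mul
    · apply Units.ext
      exact hA

theorem desc (D' : ℕ) (k : Subfield ℂ) :
    ∃ (H : Subgroup (Mt D')ˣ) (La : H →* ((Fin D' → k) ≃ₗ[k] (Fin D' → k))),
      (∀ M : (Mt D')ˣ, M ∈ H ↔ ∀ i j, (M : Mt D') i j ∈ k ∧ ((M⁻¹ : (Mt D')ˣ) : Mt D') i j ∈ k) ∧
      ∀ (M : H) (x : Fin D' → k) (i : Fin D'),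
        ((La M x i : k) : ℂ) = (((M : (Mt D')ˣ) : Mt D') *ᵥ fun j => (x j : ℂ)) i := by
  let e : (Matrix (Fin D') (Fin D') k)ˣ ≃* (Dsc_f D' k).range := MonoidHom.ofInjective (Dsc_inj D' k)
  let T : (Matrix (Fin D') (Fin D') k)ˣ →* ((Fin D' → k) ≃ₗ[k] (Fin D' → k)) :=
    (LinearMap.GeneralLinearGroup.generalLinearEquiv k (Fin D' → k)).toMonoidHom.comp
      (Matrix.GeneralLinearGroup.toLin (n := Fin D') (R := k)).toMonoidHom
  refine ⟨(Dsc_f D' k).range, T.comp e.symm.toMonoidHom, Dsc_mem D' k, ?_⟩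
  intro M x i
  obtain ⟨u, hu⟩ : ∃ u, u = e.symm M := ⟨_, rfl⟩
  have hM : M = e u := by rw [hu, MulEquiv.apply_symm_apply]
  have h1 : (T.comp e.symm.toMonoidHom) M = T u := by
    rw [hu]
    rfl
  have h2 : T u x = (u : Matrix (Fin D') (Fin D') k) *ᵥ x := rfl
  have h3 : (M : (Mt D')ˣ) = Dsc_f D' k u := by
    rw [hM]
    rfl
  rw [h1, h2, h3]
  simp only [Matrix.mulVec, dotProduct, Dsc_f_apply]
  push_cast
  rfl

end H80NA
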