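import Pool.Agent.H80.NA.Nu

set_option autoImplicit false

/-!
# Row Ivx: extension of invariant norms

W1 invariant, N1 invariant norm on W1, N2 invariant norm on W / W1. Choose a linear section s : W/W1 -> W (Submodule.exists_isCompl or: the quotient map has a linear right inverse,
LinearMap.exists_rightInverse_of_surjective) and put P(x) := x - s(mk x) in W1 (linear). For g in G: P(T g x) = T1 g (P x) + c_g(mk x) with c_g : W/W1 -> W1 linear,
c_g(z) = P(T g (s z)) [T g x = T g (P x) + T g (s(mk x)), P(T g (P x)) = T g(P x)].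
For every g there is M_g >= 0 with N1(c_g z) <= M_g N2(z) for all z: take a basis z_j of W/W1: z = sum f_j(z) z_j, N1(c_g z) <= max_j nu(f_j z) N1(c_g z_j), and nu(f_j z) <= c N2(z) by lo.
Let C > 0 be larger than M_g for g in S and g^-1, g in S (finite set S generating G), N(x) := max (N1 (P x)) (C * N2 (mk x)).
N(T g x) = max (N1(T1 g (P x) + c_g(mk x))) (C N2(mk x)) <= max (max (N1(P x)) (M_g N2(mk x))) (C N2(mk x)) = N(x) for g in S or g^-1 in S. So N(T g x) = N(x) for these g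
(apply to g^-1 and T g x), hence for all g in the closure of S (Subgroup.closure_induction). add, smul: clear (nu c >= 0). lo: f(x) = f(P x) + f(s(mk x)): nu <= max (c1 N1(P x)) (c2 N2(mk x)) <= c N(x).
-/

namespace H80NA

open H80HM

theorem Ivx_nu {nu : ℂ → ℝ} (hn : Na nu) (z : ℂ) : 0 ≤ nu z := by
  by_cases hz : z = 0
  · rw [hz, hn.zero]
  · exact (hn.mf.pos z hz).le

theorem Ivx_zero {nu : ℂ → ℝ} (hn : Na nu) {G W : Type} [Group G] [AddCommGroup W] [Module ℂ W]
    {T : G →* Module.End ℂ W} {N : W → ℝ} (hN : Inw nu T N) : N 0 = 0 := by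
  have h := hN.smul 0 0
  rwa [zero_smul, hn.zero, zero_mul] at h

theorem Ivx_nonneg {nu : ℂ → ℝ} (hn : Na nu) {G W : Type} [Group G] [AddCommGroup W] [Module ℂ W]
    {T : G →* Module.End ℂ W} {N : W → ℝ} (hN : Inw nu T N) (x : W) : 0 ≤ N x := by
  have h1 : nu (-1) = 1 := by
    have h2 : nu (-1) * nu (-1) = 1 := by
      rw [← hn.mf.mul, neg_mul_neg, one_mul, hn.mf.one]
    have h3 : 0 < nu (-1) := hn.mf.pos _ (by norm_num)
    nlinarith
  have h4 : N (-x) = N x := by
    have h := hN.smul (-1) x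
    rwa [neg_one_smul, h1, one_mul] at h
  have h5 := hN.add x (-x)
  rwa [add_neg_cancel, Ivx_zero hn hN, h4, max_self] at h5

theorem Ivx_sum {nu : ℂ → ℝ} (hn : Na nu) {G W : Type} [Group G] [AddCommGroup W] [Module ℂ W]
    {T : G →* Module.End ℂ W} {N : W → ℝ} (hN : Inw nu T N) {ι : Type} (s : Finset ι) (v : ι → W)
    {B : ℝ} (hB : 0 ≤ B) (h : ∀ j ∈ s, N (v j) ≤ B) : N (∑ j ∈ s, v j) ≤ B := by
  classical
  induction s using Finset.induction_on with
  | empty => rw [Finset.sum_empty, Ivx_zero hn hN]; exact hB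
  | insert a s ha ih =>
    rw [Finset.sum_insert ha]
    exact (hN.add _ _).trans (max_le (h a (Finset.mem_insert_self a s))
      (ih fun j hj => h j (Finset.mem_insert_of_mem hj)))

theorem Ivx_bound {nu : ℂ → ℝ} (hn : Na nu) {G W Q : Type} [Group G] [AddCommGroup W] [Module ℂ W]
    [AddCommGroup Q] [Module ℂ Q] [FiniteDimensional ℂ Q]
    {T : G →* Module.End ℂ W} {N : W → ℝ} (hN : Inw nu T N)
    {T' : G →* Module.End ℂ Q} {N' : Q → ℝ} (hN' : Inw nu T' N') (c : Q →ₗ[ℂ] W) :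
    ∃ M : ℝ, 0 ≤ M ∧ ∀ z, N (c z) ≤ M * N' z := by
  let b := Module.finBasis ℂ Q
  choose k hk0 hk using fun j => hN'.lo (b.coord j)
  have hterm : ∀ j, 0 ≤ k j * N (c (b j)) := fun j =>
    mul_nonneg (hk0 j).le (Ivx_nonneg hn hN _)
  refine ⟨∑ j, k j * N (c (b j)), Finset.sum_nonneg fun j _ => hterm j, fun z => ?_⟩
  have hz : c z = ∑ j, (b.coord j z) • c (b j) := by
    conv_lhs => rw [← b.sum_repr z]
    rw [map_sum]
    refine Finset.sum_congr rfl fun j _ => ?_
    rw [map_smul]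
    rfl
  rw [hz]
  refine Ivx_sum hn hN _ _ (mul_nonneg (Finset.sum_nonneg fun j _ => hterm j)
    (Ivx_nonneg hn hN' z)) fun j _ => ?_
  rw [hN.smul]
  calc nu (b.coord j z) * N (c (b j)) ≤ (k j * N' z) * N (c (b j)) :=
        mul_le_mul_of_nonneg_right (hk j z) (Ivx_nonneg hn hN _)
    _ = (k j * N (c (b j))) * N' z := by ring
    _ ≤ (∑ j, k j * N (c (b j))) * N' z :=
        mul_le_mul_of_nonneg_right
          (Finset.single_le_sum (fun j _ => hterm j) (Finset.mem_univ j)) (Ivx_nonneg hn hN' z)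

theorem inv_ext {nu : ℂ → ℝ} (hn : Na nu) {G W : Type} [Group G] [AddCommGroup W] [Module ℂ W]
    [FiniteDimensional ℂ W] (T : G →* Module.End ℂ W) (S : Finset G)
    (hS : Subgroup.closure (S : Set G) = ⊤) (W1 : Submodule ℂ W)
    (T1 : G →* Module.End ℂ W1) (h1 : ∀ g (x : W1), ((T1 g x : W1) : W) = T g x)
    (T2 : G →* Module.End ℂ (W ⧸ W1)) (h2 : ∀ g x, T2 g (W1.mkQ x) = W1.mkQ (T g x))
    (e1 : ∃ N, Inw nu T1 N) (e2 : ∃ N, Inw nu T2 N) : ∃ N, Inw nu T N := by
  obtain ⟨N1, hN1⟩ := e1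
  obtain ⟨N2, hN2⟩ := e2
  obtain ⟨s, hs⟩ := W1.mkQ.exists_rightInverse_of_surjective W1.range_mkQ
  have hs' : ∀ z, W1.mkQ (s z) = z := fun z => LinearMap.congr_fun hs z
  let P : W →ₗ[ℂ] W1 := LinearMap.codRestrict W1
      ((LinearMap.id : W →ₗ[ℂ] W) - s.comp W1.mkQ) (fun x => by
    have h0 : x - s (W1.mkQ x) ∈ LinearMap.ker W1.mkQ := by
      rw [LinearMap.mem_ker, map_sub, hs', sub_self]
    have hk : LinearMap.ker W1.mkQ = W1 := W1.ker_mkQ
    exact hk.le h0)
  have hP : ∀ x, ((P x : W1) : W) = x - s (W1.mkQ x) := fun x => rfl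
  have hP1 : ∀ y : W1, P (y : W) = y := by
    intro y
    apply Subtype.ext
    have h0 : W1.mkQ (y : W) = 0 := by
      rw [← LinearMap.mem_ker, W1.ker_mkQ]
      exact y.2
    rw [hP, h0, map_zero, sub_zero]
  let c : G → (W ⧸ W1) →ₗ[ℂ] W1 := fun g => P.comp ((T g).comp s)
  have hc : ∀ g x, P (T g x) = T1 g (P x) + c g (W1.mkQ x) := by
    intro g x
    have hx : T g x = ((T1 g (P x) : W1) : W) + T g (s (W1.mkQ x)) := by
      rw [h1, hP, map_sub, sub_add_cancel]
    rw [hx, map_add, hP1]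
    rfl
  choose M hM0 hM using fun g => Ivx_bound hn hN1 hN2 (c g)
  obtain ⟨C, hC0, hC⟩ : ∃ C : ℝ, 0 < C ∧ ∀ g ∈ S, M g ≤ C ∧ M g⁻¹ ≤ C := by
    have hterm : ∀ g ∈ S, 0 ≤ M g + M g⁻¹ := fun g _ => add_nonneg (hM0 g) (hM0 g⁻¹)
    have h3 : 0 ≤ ∑ g ∈ S, (M g + M g⁻¹) := Finset.sum_nonneg hterm
    refine ⟨1 + ∑ g ∈ S, (M g + M g⁻¹), by linarith, fun g hg => ?_⟩
    have h4 := Finset.single_le_sum hterm hg
    have h5 := hM0 g
    have h6 := hM0 g⁻¹
    constructor <;> linarith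
  have n1 := fun x => Ivx_nonneg hn hN1 x
  have n2 := fun x => Ivx_nonneg hn hN2 x
  let N : W → ℝ := fun x => max (N1 (P x)) (C * N2 (W1.mkQ x))
  have hNd : ∀ x, N x = max (N1 (P x)) (C * N2 (W1.mkQ x)) := fun x => rfl
  have hstep : ∀ g, M g ≤ C → ∀ x, N (T g x) ≤ N x := by
    intro g hg x
    rw [hNd (T g x), hc, ← h2, hN2.inv]
    refine max_le ?_ (le_max_right _ _)
    refine (hN1.add _ _).trans (max_le ?_ ?_)
    · rw [hN1.inv]; exact le_max_left _ _
    · exact (hM g _).trans ((mul_le_mul_of_nonneg_right hg (n2 _)).trans (le_max_right _ _))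
  have hTi : ∀ g x, T g⁻¹ (T g x) = x := by
    intro g x
    rw [← Module.End.mul_apply, ← map_mul, inv_mul_cancel, map_one, Module.End.one_apply]
  have hinv : ∀ g x, N (T g x) = N x := by
    intro g
    have hg : g ∈ Subgroup.closure (S : Set G) := by rw [hS]; trivial
    induction hg using Subgroup.closure_induction with
    | mem g hg =>
      intro x
      obtain ⟨ha, hb⟩ := hC g hg
      refine le_antisymm (hstep g ha x) ?_
      have h := hstep g⁻¹ hb (T g x)
      rwa [hTi] at h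
    | one => intro x; rw [map_one, Module.End.one_apply]
    | mul a b _ _ iha ihb =>
      intro x
      rw [map_mul, Module.End.mul_apply, iha, ihb]
    | inv a _ iha =>
      intro x
      have h := iha (T a⁻¹ x)
      have h' : T a (T a⁻¹ x) = x := by
        rw [← Module.End.mul_apply, ← map_mul, mul_inv_cancel, map_one, Module.End.one_apply]
      rw [h'] at h
      exact h.symm
  refine ⟨N, ?_, ?_, ?_, hinv⟩
  · intro x y
    rw [hNd (x + y), map_add, map_add]
    refine max_le ((hN1.add _ _).trans (max_le_max (le_max_left _ _) (le_max_left _ _))) ?_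
    have h3 := mul_le_mul_of_nonneg_left (hN2.add (W1.mkQ x) (W1.mkQ y)) hC0.le
    rw [mul_max_of_nonneg _ _ hC0.le] at h3
    exact h3.trans (max_le_max (le_max_right _ _) (le_max_right _ _))
  · intro a x
    rw [hNd, hNd, map_smul, map_smul, hN1.smul, hN2.smul, mul_max_of_nonneg _ _ (Ivx_nu hn a)]
    congr 1
    ring
  · intro f
    obtain ⟨k1, hk1, hf1⟩ := hN1.lo (f.comp W1.subtype)
    obtain ⟨k2, hk2, hf2⟩ := hN2.lo (f.comp s)
    refine ⟨k1 + k2 / C, by positivity, fun x => ?_⟩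
    have hNx : 0 ≤ N x := (n1 _).trans (le_max_left _ _)
    have hfx : f x = f.comp W1.subtype (P x) + f.comp s (W1.mkQ x) := by
      rw [LinearMap.comp_apply, LinearMap.comp_apply, Submodule.subtype_apply, hP, ← map_add,
        sub_add_cancel]
    have a1 : N1 (P x) ≤ N x := le_max_left _ _
    have a2 : C * N2 (W1.mkQ x) ≤ N x := le_max_right _ _
    rw [hfx]
    refine (hn.add _ _).trans (max_le ?_ ?_)
    · refine (hf1 _).trans ?_
      calc k1 * N1 (P x) ≤ k1 * N x := mul_le_mul_of_nonneg_left a1 hk1.le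
        _ ≤ (k1 + k2 / C) * N x := by
          refine mul_le_mul_of_nonneg_right ?_ hNx
          have : 0 ≤ k2 / C := by positivity
          linarith
    · refine (hf2 _).trans ?_
      calc k2 * N2 (W1.mkQ x) = (k2 / C) * (C * N2 (W1.mkQ x)) := by field_simp
        _ ≤ (k2 / C) * N x := mul_le_mul_of_nonneg_left a2 (by positivity)
        _ ≤ (k1 + k2 / C) * N x := mul_le_mul_of_nonneg_right (by linarith) hNx

end H80NA
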