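import Pool.Agent.H80.NA.Ivb
import Pool.Agent.H80.NA.Ivx
import Pool.Agent.H80.HM.Sta

set_option autoImplicit false

/-!
# Row Ivn: invariant norms for finitely generated groups with eigenvalues of absolute value 1

Strong induction on n = finrank C W: every finitely generated T : G ->* End W all of whose eigenvalues have nu = 1 has an invariant norm (Inw). n = 0: N = 0. If the only invariant subspaces are
bot and top: inv_irr. Otherwise an invariant W1, not bot, not top: T1 := restriction, T2 := quotient (Submodule.mapQ), as monoid homomorphisms; the charpoly of T g is the product of those of T1 g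
and T2 g (Sta_cp in HM/Sta.lean), so their eigenvalues have nu = 1; smaller dimensions; inv_ext.
inv_norm: W = Fin k -> C, T g = Matrix.mulVecLin / toLin' of r g (charpoly: Sta_toLin in HM/Sta.lean). Inm from Inw: lo with the coordinate functionals (one constant: the maximum over i); up:
x = sum x_i e_i, N x <= max nu(x_i) N(e_i) <= c b.

NOTE (helper62): for k = 0 the field Inm.up cannot hold (take b = -1), so inv_norm has the hypothesis 0 < k; Ivn_norm is the version
without it, with 0 <= b in the upper bound. If Inm.up in Nu.lean gets the hypothesis 0 <= b, then inv_norm without hk is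
(Ivn_norm hn S hS r hr) repacked.
-/

namespace H80NA

open H80HM Matrix

/-- restriction of a representation to an invariant subspace -/
noncomputable def Ivn_res {G W : Type} [Group G] [AddCommGroup W] [Module ℂ W]
    (T : G →* Module.End ℂ W) (U : Submodule ℂ W) (hU : ∀ g, U ≤ U.comap (T g)) :
    G →* Module.End ℂ U where
  toFun g := Sta_r (T g) U (hU g)
  map_one' := by
    apply LinearMap.ext
    intro x
    apply Subtype.ext
    rw [Sta_r_apply, map_one]
    rfl
  map_mul' a b := by
    apply LinearMap.ext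
    intro x
    apply Subtype.ext
    rw [Sta_r_apply, map_mul, Module.End.mul_apply, Module.End.mul_apply, Sta_r_apply, Sta_r_apply]

/-- quotient of a representation by an invariant subspace -/
noncomputable def Ivn_quo {G W : Type} [Group G] [AddCommGroup W] [Module ℂ W]
    (T : G →* Module.End ℂ W) (U : Submodule ℂ W) (hU : ∀ g, U ≤ U.comap (T g)) :
    G →* Module.End ℂ (W ⧸ U) where
  toFun g := U.mapQ U (T g) (hU g)
  map_one' := by
    apply Submodule.linearMap_qext
    apply LinearMap.ext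
    intro x
    simp
  map_mul' a b := by
    apply Submodule.linearMap_qext
    apply LinearMap.ext
    intro x
    simp

theorem Ivn_main {nu : ℂ → ℝ} (hn : Na nu) {G : Type} [Group G] (S : Finset G)
    (hS : Subgroup.closure (S : Set G) = ⊤) (n : ℕ) :
    ∀ (W : Type) [AddCommGroup W] [Module ℂ W] [FiniteDimensional ℂ W],
      Module.finrank ℂ W = n → ∀ (T : G →* Module.End ℂ W),
      (∀ g, ∀ z ∈ (LinearMap.charpoly (T g)).roots, nu z = 1) → ∃ N, Inw nu T N := by
  induction n using Nat.strong_induction_on with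
  | _ n ih =>
    intro W _ _ _ hW T hT
    rcases Nat.eq_zero_or_pos n with h0 | hpos
    · have hs : Subsingleton W := Module.finrank_zero_iff.1 (hW.trans h0)
      refine ⟨fun _ => 0, ⟨fun x y => by simp, fun c x => by simp, fun f => ⟨1, one_pos, fun x => ?_⟩,
        fun g x => rfl⟩⟩
      rw [Subsingleton.elim x 0, map_zero, hn.zero, mul_zero]
    · have hnt : Nontrivial W := Module.finrank_pos_iff.1 (by omega : 0 < Module.finrank ℂ W)
      by_cases hirr : ∀ U : Submodule ℂ W, (∀ g, U ≤ U.comap (T g)) → U = ⊥ ∨ U = ⊤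
      · exact inv_irr hn T hT hirr
      · push Not at hirr
        obtain ⟨U, hU, hb, ht⟩ := hirr
        have h1 : Module.finrank ℂ U < n := by
          rw [← hW]
          exact Submodule.finrank_lt ht
        have h2 : Module.finrank ℂ (W ⧸ U) < n := by
          have h3 := U.finrank_quotient_add_finrank
          have h4 : 1 ≤ Module.finrank ℂ U := Submodule.one_le_finrank_iff.2 hb
          omega
        refine inv_ext hn T S hS U (Ivn_res T U hU) (fun g x => rfl) (Ivn_quo T U hU)
          (fun g x => rfl) ?_ ?_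
        · refine ih _ h1 U rfl _ fun g z hz => hT g z ?_
          rw [Sta_roots (T g) U (hU g)]
          exact Multiset.mem_add.2 (Or.inl hz)
        · refine ih _ h2 (W ⧸ U) rfl _ fun g z hz => hT g z ?_
          rw [Sta_roots (T g) U (hU g)]
          exact Multiset.mem_add.2 (Or.inr hz)

/-- a representation by matrices, acting on column vectors -/
noncomputable def Ivn_T {G : Type} [Group G] {k : ℕ} (r : G →* (Mt k)ˣ) :
    G →* Module.End ℂ (Fin k → ℂ) where
  toFun g := Matrix.toLin' ((r g : (Mt k)ˣ) : Mt k)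
  map_one' := by
    rw [map_one, Units.val_one, Matrix.toLin'_one]
    rfl
  map_mul' a b := by
    rw [map_mul, Units.val_mul, Matrix.toLin'_mul]
    rfl

theorem Ivn_nonneg {nu : ℂ → ℝ} (hn : Na nu) {z : ℂ} : 0 ≤ nu z := by
  rcases eq_or_ne z 0 with h | h
  · rw [h, hn.zero]
  · exact (hn.mf.pos z h).le

theorem Ivn_sum {k : ℕ} {N : (Fin k → ℂ) → ℝ}
    (hadd : ∀ x y, N (x + y) ≤ max (N x) (N y)) (h0 : N 0 = 0) (v : Fin k → (Fin k → ℂ)) {c : ℝ}
    (hc : 0 ≤ c) (s : Finset (Fin k)) (hv : ∀ i ∈ s, N (v i) ≤ c) : N (∑ i ∈ s, v i) ≤ c := by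
  classical
  induction s using Finset.induction_on with
  | empty => rw [Finset.sum_empty, h0]; exact hc
  | insert a s ha ih =>
    rw [Finset.sum_insert ha]
    exact (hadd _ _).trans (max_le (hv a (Finset.mem_insert_self a s))
      (ih fun i hi => hv i (Finset.mem_insert_of_mem hi)))

theorem Ivn_norm {nu : ℂ → ℝ} (hn : Na nu) {G : Type} [Group G] (S : Finset G)
    (hS : Subgroup.closure (S : Set G) = ⊤) {k : ℕ} (r : G →* (Mt k)ˣ)
    (hr : ∀ g, Mv nu ((r g : (Mt k)ˣ) : Mt k)) : ∃ N : (Fin k → ℂ) → ℝ,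
    (∀ x y, N (x + y) ≤ max (N x) (N y)) ∧ (∀ (c : ℂ) (x), N (c • x) = nu c * N x) ∧
    (∃ c : ℝ, 0 < c ∧ ∀ x i, nu (x i) ≤ c * N x) ∧
    (∃ c : ℝ, 0 < c ∧ ∀ x : Fin k → ℂ, ∀ b : ℝ, 0 ≤ b → (∀ i, nu (x i) ≤ b) → N x ≤ c * b) ∧
    (∀ g x, N (((r g : (Mt k)ˣ) : Mt k) *ᵥ x) = N x) := by
  obtain ⟨N, hN⟩ := Ivn_main hn S hS _ (Fin k → ℂ) rfl (Ivn_T r) (fun g z hz => by
    have h : LinearMap.charpoly (Ivn_T r g) = ((r g : (Mt k)ˣ) : Mt k).charpoly := Sta_toLin _
    rw [h] at hz
    exact hr g z hz)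
  have hNn : ∀ x, 0 ≤ N x := by
    intro x
    obtain ⟨c, hc, h⟩ := hN.lo 0
    have h1 := h x
    rw [LinearMap.zero_apply, hn.zero] at h1
    exact nonneg_of_mul_nonneg_right h1 hc
  have h0 : N 0 = 0 := by
    have h := hN.smul 0 0
    rw [smul_zero, hn.zero, zero_mul] at h
    exact h
  refine ⟨N, hN.add, hN.smul, ?_, ?_, ?_⟩
  · choose c hc h using fun i : Fin k => hN.lo (LinearMap.proj i)
    have hs : 0 ≤ ∑ i, c i := Finset.sum_nonneg fun i _ => (hc i).le
    refine ⟨1 + ∑ i, c i, by linarith, fun x i => ?_⟩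
    have h1 : c i ≤ ∑ j, c j := Finset.single_le_sum (fun j _ => (hc j).le) (Finset.mem_univ i)
    have h2 := h i x
    rw [LinearMap.proj_apply] at h2
    exact h2.trans (mul_le_mul_of_nonneg_right (by linarith) (hNn x))
  · classical
    have hs : 0 ≤ ∑ i : Fin k, N (Pi.single i 1) := Finset.sum_nonneg fun i _ => hNn _
    refine ⟨1 + ∑ i : Fin k, N (Pi.single i 1), by linarith, fun x b hb hx => ?_⟩
    have hx1 : x = ∑ i, x i • (Pi.single i (1 : ℂ) : Fin k → ℂ) := by
      conv_lhs => rw [pi_eq_sum_univ' x]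
    rw [hx1]
    refine Ivn_sum hN.add h0 _ (mul_nonneg (by linarith) hb) _ fun i _ => ?_
    rw [hN.smul]
    have h1 : N (Pi.single i 1) ≤ ∑ j : Fin k, N (Pi.single j 1) :=
      Finset.single_le_sum (f := fun j : Fin k => N (Pi.single j 1)) (fun j _ => hNn _)
        (Finset.mem_univ i)
    calc nu (x i) * N (Pi.single i 1) ≤ b * N (Pi.single i 1) :=
          mul_le_mul_of_nonneg_right (hx i) (hNn _)
      _ ≤ b * (1 + ∑ j : Fin k, N (Pi.single j 1)) :=
          mul_le_mul_of_nonneg_left (by linarith) hb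
      _ = _ := mul_comm _ _
  · intro g x
    exact hN.inv g x

theorem inv_norm {nu : ℂ → ℝ} (hn : Na nu) {G : Type} [Group G] (S : Finset G)
    (hS : Subgroup.closure (S : Set G) = ⊤) {k : ℕ} (hk : 0 < k) (r : G →* (Mt k)ˣ)
    (hr : ∀ g, Mv nu ((r g : (Mt k)ˣ) : Mt k)) : ∃ N, Inm nu r N := by
  obtain ⟨N, h1, h2, h3, ⟨c, hc, h4⟩, h5⟩ := Ivn_norm hn S hS r hr
  exact ⟨N, h1, h2, h3, ⟨c, hc, fun x b hb =>
    h4 x b ((Ivn_nonneg hn).trans (hb ⟨0, hk⟩)) hb⟩, h5⟩

end H80NA
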