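import Pool.Agent.H50.NA.Defs
import Pool.Agent.H80.HM.Def2

set_option autoImplicit false

/-!
# MP_b319aa_NA: classes of equivariant maps on the pillowcase rectangle (shared by blocks X, S, C)

D = [0,1] x [0,1/2], U its interior, P the six punctures (H80HM.Defs). X a metric space, A B C isometries of X.
Maps f : R x R -> X, only the values on D minus P matter.
-/

namespace H50NA

open MeasureTheory Set Filter Topology
open H80HM (D U P f1 f2)

noncomputable section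

/-- the closed square (sup norm ball) around (1/4,1/4) on which maps are prescribed -/
def Zr (r : ℝ) : Set (ℝ × ℝ) := Metric.closedBall (1/4, 1/4) r

/-- the domain of the regularised problem -/
def Gd (r : ℝ) : Set (ℝ × ℝ) := D \ (P ∪ Zr r)

section

variable {X : Type} [MetricSpace X]

/-- gluing conditions of a map that is only used on the subset S of D -/
structure Glu (A B C : X ≃ᵢ X) (f : ℝ × ℝ → X) : Prop where
  glC : ∀ v ∈ Ioo (0:ℝ) (1/2), f (1, v) = C (f (0, v))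
  glA : ∀ u ∈ Ioo (0:ℝ) (1/2), f (1 - u, 0) = A (f (u, 0))
  glB : ∀ u ∈ Ioo (0:ℝ) (1/2), f (1 - u, 1/2) = B (f (u, 1/2))

/-- the class of maps of finite energy -/
structure Clx (A B C : X ≃ᵢ X) (f : ℝ × ℝ → X) : Prop where
  lip : Lpo f (D \ P)
  glu : Glu A B C f
  fin : IntegrableOn (fun x => sp f (1, 0) x ^ 2 + sp f (0, 1) x ^ 2) U

/-- the class of maps with value o on the square Zr r -/
structure Cl0 (A B C : X ≃ᵢ X) (r : ℝ) (o : X) (f : ℝ × ℝ → X) : Prop where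
  cl : Clx A B C f
  eq : ∀ x ∈ Zr r, f x = o

/-- energy at the point x + i y of the upper half plane -/
def Ex (x y : ℝ) (f : ℝ × ℝ → X) : ℝ :=
  ∫ z in U, (sp f (f1 x y) z ^ 2 + sp f (f2 x y) z ^ 2)

/-- infimum of the energy -/
def EX (A B C : X ≃ᵢ X) (x y : ℝ) : ℝ := sInf {e | ∃ f, Clx A B C f ∧ e = Ex x y f}

/-- infimum of the energy over the maps with value o on the square -/
def E0 (A B C : X ≃ᵢ X) (r : ℝ) (o : X) (x y : ℝ) : ℝ :=
  sInf {e | ∃ f, Cl0 A B C r o f ∧ e = Ex x y f}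

/-- near-minimisers -/
def Nr (A B C : X ≃ᵢ X) (r : ℝ) (o : X) (x y ep : ℝ) (f : ℝ × ℝ → X) : Prop :=
  Cl0 A B C r o f ∧ Ex x y f ≤ E0 A B C r o x y + ep

/-- limits of near-minimisers at x + i y (interface of X4 - X6): locally Lipschitz on Gd r, glued, and
near-minimisers can be chosen equal to u on any compact subset of Gd r -/
structure Lim (A B C : X ≃ᵢ X) (r : ℝ) (o : X) (x y : ℝ) (u : ℝ × ℝ → X) : Prop where
  lip : Lpo u (Gd r)
  glu : Glu A B C u
  app : ∀ S ⊆ Gd r, IsCompact S → ∀ ep : ℝ, 0 < ep →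
    ∃ f, Nr A B C r o x y ep f ∧ ∀ z ∈ S, f z = u z

/-- the affine involutions and translations of the seams. Index 0: interior (not used);
1: right side, 2: left side, 3: bottom left half, 4: bottom right half, 5: top left half, 6: top right half -/
def Rs : Fin 7 → ℝ × ℝ → ℝ × ℝ :=
  ![fun x => x, fun x => (x.1 - 1, x.2), fun x => (x.1 + 1, x.2), fun x => (1 - x.1, -x.2),
    fun x => (1 - x.1, -x.2), fun x => (1 - x.1, 1 - x.2), fun x => (1 - x.1, 1 - x.2)]

/-- the sign of the linear part of Rs -/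
def sg : Fin 7 → ℝ := ![1, 1, 1, -1, -1, -1, -1]

/-- the isometries of the seams: values outside D are gs s (f (Rs s x)) -/
def gs (A B C : X ≃ᵢ X) : Fin 7 → X ≃ᵢ X :=
  ![IsometryEquiv.refl X, C, C.symm, A.symm, A, B.symm, B]

/-- the open rectangle, minus punctures, in which the extension across seam s lives:
0: U; otherwise a neighbourhood of the open seam segment -/
def Ws : Fin 7 → Set (ℝ × ℝ) :=
  ![U, Ioo (1/2:ℝ) (3/2) ×ˢ Ioo (0:ℝ) (1/2), Ioo (-1/2:ℝ) (1/2) ×ˢ Ioo (0:ℝ) (1/2),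
    Ioo (0:ℝ) (1/2) ×ˢ Ioo (-1/2:ℝ) (1/2), Ioo (1/2:ℝ) 1 ×ˢ Ioo (-1/2:ℝ) (1/2),
    Ioo (0:ℝ) (1/2) ×ˢ Ioo (0:ℝ) 1, Ioo (1/2:ℝ) 1 ×ˢ Ioo (0:ℝ) 1]

open Classical in
/-- the retraction of Ws s to D -/
def rt (s : Fin 7) (x : ℝ × ℝ) : ℝ × ℝ := if x ∈ D then x else Rs s x

open Classical in
/-- extension across the seam s -/
def ext (A B C : X ≃ᵢ X) (s : Fin 7) (f : ℝ × ℝ → X) (x : ℝ × ℝ) : X :=
  if x ∈ D then f x else gs A B C s (f (Rs s x))

/-- the part of Ws s over Gd r -/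
def Wg (r : ℝ) (s : Fin 7) : Set (ℝ × ℝ) := {x | x ∈ Ws s ∧ rt s x ∉ Zr r}

/-- linear coordinates in which the energy at x + i y is the standard energy -/
def Lt (x y : ℝ) (z : ℂ) : ℝ × ℝ := z.re • f1 x y + z.im • f2 x y

/-- real functions that are invariant under the gluing -/
structure Sy (l : ℝ × ℝ → ℝ) : Prop where
  sC : ∀ v ∈ Icc (0:ℝ) (1/2), l (1, v) = l (0, v)
  sA : ∀ u ∈ Icc (0:ℝ) 1, l (1 - u, 0) = l (u, 0)
  sB : ∀ u ∈ Icc (0:ℝ) 1, l (1 - u, 1/2) = l (u, 1/2)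

end

end

end H50NA
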