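import Pool.Agent.H80.NA.Cls
import Pool.Agent.H98.NX.Ek

set_option autoImplicit false

/-!
# Row Csx: maps of small energy near the cusp; conjugation

cusp_x: f(u,v) := gm p1 p2 (h v), h v = max 0 (min 1 (4v - 1/2)) (0 for v <= 1/8, 1 for v >= 5/8: take instead h v := max 0 (min 1 (4v - 1/2)) which is 0 for v <= 1/8 and 1 for v >= 3/8; 4-Lipschitz,
h 0 = 0, h (1/2) = 1). dist(f z)(f z') = |h v - h v'| dist p1 p2 (gm_dist, row Na of H98/NX): globally Lipschitz. glC: f(1,v) = f(0,v) and C (gm p1 p2 t) = gm (C p1)(C p2) t = gm p1 p2 t (gm_iso).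
glA: f(1-u,0) = gm p1 p2 0 = p1 = A p1 = A f(u,0) (hX.zero). glB: hX.one. Speeds: sp f (a,b) z <= 4 |b| dist p1 p2 (f only depends on v; the difference quotients are <= 4 |b| dist; limsup of a bounded
sequence of nonnegative numbers) and >= 0 (sp_nonneg, row Eb), measurable (sp_meas), so the densities are bounded: integrable. f1 x y = (sqrt y, 0): speed 0 ; f2 x y has second coordinate 1/sqrt y:
Ex x y f <= vol(U) 16 dist^2 / y. c := 16 dist p1 p2 ^2.
ex_conj: f -> g o f is a bijection of Clx A B C onto Clx (gAg^-1)(gBg^-1)(gCg^-1) preserving speeds (sp_isom) and energies: the sets in the infimum are equal. E0: with o -> g o.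
-/

namespace H50NA

open MeasureTheory Set Filter Topology
open H80HM (D U P f1 f2)

variable {X : Type} [MetricSpace X] {gm : X → X → ℝ → X} {A B C : X ≃ᵢ X}

/-- the profile of the map -/
noncomputable def Csx_h (v : ℝ) : ℝ := max 0 (min 1 (4 * v - 1 / 2))

theorem Csx_h0 (v : ℝ) : 0 ≤ Csx_h v ∧ Csx_h v ≤ 1 :=
  ⟨le_max_left _ _, max_le zero_le_one (min_le_left _ _)⟩

theorem Csx_lip (v w : ℝ) : |Csx_h v - Csx_h w| ≤ 4 * |v - w| := by
  have h1 : |Csx_h v - Csx_h w| ≤ |min 1 (4 * v - 1 / 2) - min 1 (4 * w - 1 / 2)| := by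
    unfold Csx_h
    rw [max_comm 0, max_comm 0]
    exact abs_max_sub_max_le_abs _ _ _
  have h2 : |min 1 (4 * v - 1 / 2) - min 1 (4 * w - 1 / 2)| ≤ |(4 * v - 1 / 2) - (4 * w - 1 / 2)| := by
    have h3 := abs_min_sub_min_le_max 1 (4 * v - 1 / 2) 1 (4 * w - 1 / 2)
    rw [sub_self, abs_zero, max_eq_right (abs_nonneg _)] at h3
    exact h3
  refine h1.trans (h2.trans (le_of_eq ?_))
  have e : (4 * v - 1 / 2) - (4 * w - 1 / 2) = 4 * (v - w) := by ring
  rw [e, abs_mul]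
  norm_num

theorem Csx_le {u : ℕ → ℝ} (hu : ∀ n, 0 ≤ u n) {a : ℝ} (h : ∀ n, u n ≤ a) :
    Filter.limsup u atTop ≤ a := by
  rw [Filter.limsup_eq]
  refine csInf_le ⟨0, ?_⟩ (Eventually.of_forall h)
  intro b hb
  have hb' : ∀ᶠ n in (atTop : Filter ℕ), u n ≤ b := hb
  obtain ⟨n, hn⟩ := hb'.exists
  exact (hu n).trans hn

theorem Csx_dist (hX : Npc X gm) (p1 p2 : X) (z w : ℝ × ℝ) :
    dist (gm p1 p2 (Csx_h z.2)) (gm p1 p2 (Csx_h w.2)) ≤ 4 * dist p1 p2 * |z.2 - w.2| := by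
  rw [H98NX.gm_dist hX p1 p2 (Csx_h0 _).1 (Csx_h0 _).2 (Csx_h0 _).1 (Csx_h0 _).2]
  have h1 := mul_le_mul_of_nonneg_right (Csx_lip z.2 w.2) (dist_nonneg (x := p1) (y := p2))
  linarith

theorem Csx_sp (hX : Npc X gm) (p1 p2 : X) (t x : ℝ × ℝ) :
    sp (fun z : ℝ × ℝ => gm p1 p2 (Csx_h z.2)) t x ≤ 4 * dist p1 p2 * |t.2| := by
  unfold sp
  refine Csx_le (fun n => mul_nonneg (by positivity) dist_nonneg) fun n => ?_
  have h0 : (0 : ℝ) < (n : ℝ) + 1 := by positivity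
  have h1 := mul_le_mul_of_nonneg_left
    (Csx_dist hX p1 p2 (x + (1 / ((n : ℝ) + 1)) • t) x) h0.le
  refine h1.trans (le_of_eq ?_)
  have e : (x + (1 / ((n : ℝ) + 1)) • t).2 - x.2 = 1 / ((n : ℝ) + 1) * t.2 := by
    rw [Prod.snd_add, Prod.smul_snd, smul_eq_mul]
    ring
  rw [e, abs_mul, abs_of_pos (by positivity : 0 < 1 / ((n : ℝ) + 1))]
  field_simp

theorem Csx_vol : volume U ≠ ⊤ ∧ volume.real U ≤ 1 := by
  have h1 : volume U = ENNReal.ofReal 1 * ENNReal.ofReal (1 / 2) := by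
    unfold U
    rw [Measure.volume_eq_prod, Measure.prod_prod, Real.volume_Ioo, Real.volume_Ioo, sub_zero,
      sub_zero]
  constructor
  · rw [h1]
    exact ENNReal.mul_ne_top ENNReal.ofReal_ne_top ENNReal.ofReal_ne_top
  · rw [Measure.real, h1, ENNReal.toReal_mul, ENNReal.toReal_ofReal zero_le_one,
      ENNReal.toReal_ofReal (by norm_num)]
    norm_num

theorem Csx_open : IsOpen U := isOpen_Ioo.prod isOpen_Ioo

theorem Csx_fin (hX : Npc X gm) (p1 p2 : X) :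
    IntegrableOn (fun x => sp (fun z : ℝ × ℝ => gm p1 p2 (Csx_h z.2)) (1, 0) x ^ 2 +
      sp (fun z : ℝ × ℝ => gm p1 p2 (Csx_h z.2)) (0, 1) x ^ 2) U := by
  obtain ⟨f, hf⟩ : ∃ f : ℝ × ℝ → X, f = fun z : ℝ × ℝ => gm p1 p2 (Csx_h z.2) := ⟨_, rfl⟩
  rw [← hf]
  have hlip : LipschitzWith (Real.toNNReal (4 * dist p1 p2)) f := by
    refine LipschitzWith.of_dist_le_mul fun z w => ?_
    rw [hf]
    refine (Csx_dist hX p1 p2 z w).trans ?_
    refine mul_le_mul (Real.le_coe_toNNReal _) ?_ (abs_nonneg _) (NNReal.coe_nonneg _)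
    rw [← Real.dist_eq]
    exact le_max_right _ _
  have hm := fun t => H98NX.sp_meas Csx_open hlip.continuous.continuousOn t
  have hb : ∀ t x, sp f t x ≤ 4 * dist p1 p2 * |t.2| := by
    intro t x
    rw [hf]
    exact Csx_sp hX p1 p2 t x
  have h1 : IntegrableOn (fun x => U.indicator (sp f (1, 0)) x ^ 2 + U.indicator (sp f (0, 1)) x ^ 2)
      U := by
    refine Measure.integrableOn_of_bounded (M := (4 * dist p1 p2) ^ 2) Csx_vol.1
      (((hm (1, 0)).pow_const 2).add ((hm (0, 1)).pow_const 2)).aestronglyMeasurable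
      (Eventually.of_forall fun x => ?_)
    have hd : 0 ≤ dist p1 p2 := dist_nonneg
    by_cases hx : x ∈ U
    · rw [indicator_of_mem hx, indicator_of_mem hx]
      have b1 := hb (1, 0) x
      have b2 := hb (0, 1) x
      have n1 := H98NX.sp_nonneg f (1, 0) x
      have n2 := H98NX.sp_nonneg f (0, 1) x
      simp only [abs_zero, mul_zero, abs_one, mul_one] at b1 b2
      have e1 : sp f (1, 0) x = 0 := le_antisymm b1 n1
      rw [e1, Real.norm_eq_abs, abs_of_nonneg (by positivity)]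
      have := pow_le_pow_left₀ n2 b2 2
      linarith
    · rw [indicator_of_notMem hx, indicator_of_notMem hx]
      simp only [ne_eq, OfNat.ofNat_ne_zero, not_false_eq_true, zero_pow, add_zero, norm_zero]
      positivity
  refine h1.congr_fun (fun x hx => ?_) Csx_open.measurableSet
  simp only [indicator_of_mem hx]

theorem Csx_conj (g : X ≃ᵢ X) {f : ℝ × ℝ → X} (hf : Clx A B C f) :
    Clx (g * A * g⁻¹) (g * B * g⁻¹) (g * C * g⁻¹) (fun z => g (f z)) := by
  have hsp : ∀ t x, sp (fun z => g (f z)) t x = sp f t x := fun t x =>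
    H98NX.sp_isom f g (fun a b => g.dist_eq a b) t x
  refine ⟨H98NX.lpo_isom g (fun a b => g.dist_eq a b) hf.lip, ⟨?_, ?_, ?_⟩, ?_⟩
  · intro v hv
    rw [IsometryEquiv.mul_apply, IsometryEquiv.mul_apply, IsometryEquiv.inv_apply_self,
      hf.glu.glC v hv]
  · intro v hv
    rw [IsometryEquiv.mul_apply, IsometryEquiv.mul_apply, IsometryEquiv.inv_apply_self,
      hf.glu.glA v hv]
  · intro v hv
    rw [IsometryEquiv.mul_apply, IsometryEquiv.mul_apply, IsometryEquiv.inv_apply_self,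
      hf.glu.glB v hv]
  · simp only [hsp]
    exact hf.fin

theorem Csx_ex (g : X ≃ᵢ X) (f : ℝ × ℝ → X) (x y : ℝ) :
    Ex x y (fun z => g (f z)) = Ex x y f := by
  have hsp : ∀ t x, sp (fun z => g (f z)) t x = sp f t x := fun t x =>
    H98NX.sp_isom f g (fun a b => g.dist_eq a b) t x
  unfold Ex
  simp only [hsp]

theorem cusp_x (hX : Npc X gm) {p1 p2 : X} (h1 : A p1 = p1) (h2 : C p1 = p1) (h3 : B p2 = p2)
    (h4 : C p2 = p2) : ∃ (f : ℝ × ℝ → X) (c : ℝ), Clx A B C f ∧ 0 ≤ c ∧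
      ∀ x y : ℝ, 0 < y → Ex x y f ≤ c / y := by
  have hd : 0 ≤ dist p1 p2 := dist_nonneg
  have e0 : Csx_h 0 = 0 := by
    unfold Csx_h
    norm_num
  have e1 : Csx_h (1 / 2) = 1 := by
    unfold Csx_h
    norm_num
  refine ⟨fun z => gm p1 p2 (Csx_h z.2), 16 * dist p1 p2 ^ 2, ⟨?_, ⟨?_, ?_, ?_⟩, Csx_fin hX p1 p2⟩,
    by positivity, ?_⟩
  · intro K _ _
    refine ⟨4 * dist p1 p2, fun z _ w _ => (Csx_dist hX p1 p2 z w).trans ?_⟩
    refine mul_le_mul_of_nonneg_left ?_ (by positivity)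
    rw [← Real.dist_eq]
    exact le_max_right _ _
  · intro v _
    change gm p1 p2 (Csx_h v) = C (gm p1 p2 (Csx_h v))
    rw [H98NX.gm_iso hX C (fun a b => C.dist_eq a b) p1 p2 (Csx_h0 v).1 (Csx_h0 v).2, h2, h4]
  · intro u _
    change gm p1 p2 (Csx_h 0) = A (gm p1 p2 (Csx_h 0))
    rw [e0, hX.zero, h1]
  · intro u _
    change gm p1 p2 (Csx_h (1 / 2)) = B (gm p1 p2 (Csx_h (1 / 2)))
    rw [e1, hX.one, h3]
  · intro x y hy
    have hsy : 0 < Real.sqrt y := Real.sqrt_pos.2 hy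
    obtain ⟨f, hf⟩ : ∃ f : ℝ × ℝ → X, f = fun z : ℝ × ℝ => gm p1 p2 (Csx_h z.2) := ⟨_, rfl⟩
    rw [← hf]
    have hb : ∀ t x, sp f t x ≤ 4 * dist p1 p2 * |t.2| := by
      intro t x
      rw [hf]
      exact Csx_sp hX p1 p2 t x
    have h5 : ∀ z ∈ U, ‖sp f (f1 x y) z ^ 2 + sp f (f2 x y) z ^ 2‖ ≤ 16 * dist p1 p2 ^ 2 / y := by
      intro z _
      have b1 := hb (f1 x y) z
      have b2 := hb (f2 x y) z
      have n1 := H98NX.sp_nonneg f (f1 x y) z
      have n2 := H98NX.sp_nonneg f (f2 x y) z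
      have e3 : |(f1 x y).2| = 0 := abs_zero
      have e4 : |(f2 x y).2| = 1 / Real.sqrt y := by
        change |1 / Real.sqrt y| = 1 / Real.sqrt y
        exact abs_of_pos (one_div_pos.2 hsy)
      rw [e3, mul_zero] at b1
      rw [e4] at b2
      have e5 : sp f (f1 x y) z = 0 := le_antisymm b1 n1
      rw [e5, Real.norm_eq_abs, abs_of_nonneg (by positivity)]
      have h6 := pow_le_pow_left₀ n2 b2 2
      have e6 : (4 * dist p1 p2 * (1 / Real.sqrt y)) ^ 2 = 16 * dist p1 p2 ^ 2 / y := by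
        rw [mul_pow, mul_pow, div_pow, Real.sq_sqrt hy.le]
        ring
      rw [e6] at h6
      linarith
    have h6 := norm_setIntegral_le_of_norm_le_const (lt_top_iff_ne_top.2 Csx_vol.1) h5
    have h7 : Ex x y f ≤ ‖Ex x y f‖ := le_abs_self _
    refine h7.trans (h6.trans ?_)
    have h8 : 0 ≤ 16 * dist p1 p2 ^ 2 / y := by positivity
    have h9 := mul_le_mul_of_nonneg_left Csx_vol.2 h8
    rwa [mul_one] at h9

theorem ex_conj (g : X ≃ᵢ X) (x y : ℝ) :
    EX (g * A * g⁻¹) (g * B * g⁻¹) (g * C * g⁻¹) x y = EX A B C x y := by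
  unfold EX
  congr 1
  ext e
  constructor
  · rintro ⟨f, hf, he⟩
    refine ⟨fun z => g⁻¹ (f z), ?_, ?_⟩
    · have h1 := Csx_conj g⁻¹ hf
      have e1 : ∀ T : X ≃ᵢ X, g⁻¹ * (g * T * g⁻¹) * g⁻¹⁻¹ = T := by
        intro T
        group
      rw [e1, e1, e1] at h1
      exact h1
    · rw [he, Csx_ex g⁻¹ f x y]
  · rintro ⟨f, hf, he⟩
    exact ⟨fun z => g (f z), Csx_conj g hf, by rw [he, Csx_ex g f x y]⟩

end H50NA
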