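import Pool.Agent.H80.NA.Cls
import Pool.Agent.H80.HM.Gln
import Pool.Agent.H98.NX.Ee
import Pool.Agent.H98.NX.Eh

set_option autoImplicit false

/-!
# Row Dpl: zero energy gives small displacement

Let f in Clx with Ex x y f <= del (EX = 0 is an infimum of a non empty set of numbers >= 0). I := int_U Fn, Fn := sp f (1,0)^2 + sp f (0,1)^2 <= kappa del with kappa = kappa(x,y): a.e. (sp_pair, md_ae, row Eh)
sp f (a,b)^2 = a^2 S1 + 2ab Bf + b^2 S2, |Bf| <= sqrt(S1 S2). With f1 = (sqrt y, 0), f2 = (-x/sqrt y, 1/sqrt y): e := sp f f1^2 + sp f f2^2 = y S1 + (x^2 S1 - 2x Bf + S2)/y. So S1 <= e/y, and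
(0,1) = sqrt y f2 + (x/sqrt y) f1, so sqrt S2 <= sqrt y sqrt e + |x|/sqrt y sqrt e (the square root of a positive semidefinite quadratic form is a seminorm; or S2 <= 2 y e + 2 x^2/y e by
 (a+b)^2 <= 2a^2+2b^2 for the form). kappa := 1/y + 2y + 2x^2/y.
Let K := 12 I + del' (positive, del' -> 0 with del), so the exceptional set of good_lines (HM/Gln.lean) has measure <= 3I/K <= 1/4 < 1/2 = volume U. line_ae-type statement: for a.e. (u,v) in U the estimate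
 line_le (row Ee of H98/NX, O = U) holds along the three lines: precisely, for a.e. z in U and all h >= 0 with the segment from z to z + h t in U: dist(f(z+ht))(f z) <= int_0^h sp f t (z+st) ds, for
 t = (1,0), (-1,0)?, (0,1): use t = (1,0) and (0,1) only: by Fubini for a.e. u the estimate along the vertical line holds for a.e. starting height v', and by continuity of f and of the integral
 (speeds are locally bounded) for all 0 < v' < v'' < 1/2: dist(f(u,v'))(f(u,v'')) <= int_{v'}^{v''} sp f (0,1)(u,s) ds <= (1/2)^{1/2} (int_0^{1/2} sp f (0,1)(u,s)^2 ds)^{1/2} <= sqrt K. The same for horizontal lines.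
 For u in (0,1), u <> 1/2, f is continuous on the closed segment {u} x [0,1/2] (compact subset of D \ P), so the estimate holds for 0 <= v' <= v'' <= 1/2; for 0 < v < 1/2 the same on [0,1] x {v}.
Choose a good point p0 = (u,v) in U, u <> 1/2, outside all exceptional sets, p := f p0. All distances along the vertical lines {u}, {1-u} and the horizontal line {v} are <= sqrt K.
 C: dist p (f(1,v)) <= sqrt K, f(1,v) = C f(0,v), dist(C f(0,v))(C p) = dist(f(0,v))(p) <= sqrt K: dist p (C p) <= 2 sqrt K.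
 A, u < 1/2: p -> f(1-u,v) -> f(1-u,0) = A f(u,0) -> A p: <= 3 sqrt K. u > 1/2: with u' = 1-u < 1/2: f(u,0) = f(1-u',0) = A f(u',0): p -> f(u,0) = A f(1-u,0) -> A f(1-u,v) -> A p: <= 3 sqrt K. B: the same at
 height 1/2. K -> 0 with del.
-/

namespace H50NA

open MeasureTheory Set Filter Topology
open H80HM (D U P f1 f2)

variable {X : Type} [MetricSpace X] {gm : X → X → ℝ → X} {A B C : X ≃ᵢ X}

theorem Dpl_exists {a s eta : ℝ} {p : ℝ → Prop} (hs : 0 ≤ s) (heta : 0 < eta) (hsa : s + eta ≤ a)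
    (hp : ∀ᵐ r ∂(volume.restrict (Ioo (0:ℝ) a)), p r) : ∃ r, s < r ∧ r < s + eta ∧ p r := by
  have hsub : Ioo s (s + eta) ⊆ Ioo (0:ℝ) a := Ioo_subset_Ioo hs hsa
  have h1 : ∀ᵐ r ∂(volume.restrict (Ioo s (s + eta))), p r := ae_restrict_of_ae_restrict_of_subset hsub hp
  have hne : (ae (volume.restrict (Ioo s (s + eta)))).NeBot := by
    rw [ae_neBot, Ne, Measure.restrict_eq_zero, Real.volume_Ioo, ENNReal.ofReal_eq_zero, not_le]
    linarith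
  obtain ⟨r, h2, h3⟩ := (h1.and (ae_restrict_mem measurableSet_Ioo)).exists
  exact ⟨r, h3.1, h3.2, h2⟩

theorem Dpl_line {g : ℝ → X} {a : ℝ} (ha : 0 < a) (ha1 : a ≤ 1) {L : ℝ} (hL0 : 0 ≤ L)
    (hg : ∀ s ∈ Icc (0:ℝ) a, ∀ s' ∈ Icc (0:ℝ) a, dist (g s) (g s') ≤ L * |s - s'|)
    {F w : ℝ → ℝ} {K : ℝ} (hF : IntervalIntegrable F volume 0 a) (hK : ∫ s in (0:ℝ)..a, F s ≤ K)
    (hw : ∀ s, w s ^ 2 ≤ F s)
    (hl : ∀ᵐ s ∂(volume.restrict (Ioo (0:ℝ) a)), ∀ h : ℝ, 0 ≤ h → s + h < a →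
      IntervalIntegrable (fun r : ℝ => w (s + r)) volume 0 h ∧
      IntervalIntegrable (fun r : ℝ => w (s + r) ^ 2) volume 0 h ∧
      dist (g (s + h)) (g s) ≤ ∫ r in (0:ℝ)..h, w (s + r)) :
    ∀ s ∈ Icc (0:ℝ) a, ∀ s' ∈ Icc (0:ℝ) a, dist (g s) (g s') ≤ Real.sqrt K := by
  have hF0 : ∀ s, 0 ≤ F s := fun s => (sq_nonneg _).trans (hw s)
  have key : ∀ᵐ s ∂(volume.restrict (Ioo (0:ℝ) a)), ∀ h : ℝ, 0 ≤ h → s + h < a →
      dist (g (s + h)) (g s) ≤ Real.sqrt K := by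
    filter_upwards [hl, ae_restrict_mem measurableSet_Ioo] with s hs hsI h hh hsh
    obtain ⟨h1, h2, h3⟩ := hs h hh hsh
    apply Real.le_sqrt_of_sq_le
    have hF' : IntervalIntegrable F volume s (s + h) := by
      refine hF.mono_set ?_
      rw [uIcc_of_le ha.le, uIcc_of_le (by linarith)]
      exact Icc_subset_Icc hsI.1.le hsh.le
    have hF2 : IntervalIntegrable (fun r : ℝ => F (s + r)) volume 0 h := by
      have := hF'.comp_add_left s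
      simpa using this
    have h4 : ∫ r in (0:ℝ)..h, w (s + r) ^ 2 ≤ ∫ r in (0:ℝ)..h, F (s + r) :=
      intervalIntegral.integral_mono_on hh h2 hF2 (fun r _ => hw _)
    have h5 : ∫ r in (0:ℝ)..h, F (s + r) = ∫ r in s..(s + h), F r := by
      rw [intervalIntegral.integral_comp_add_left]
      simp
    have h6 : ∫ r in s..(s + h), F r ≤ ∫ r in (0:ℝ)..a, F r :=
      intervalIntegral.integral_mono_interval hsI.1.le (by linarith) hsh.le
        (Eventually.of_forall fun r => hF0 r) hF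
    have h7 := H98NX.Ee_cs hh h1 h2
    have h8 : 0 ≤ ∫ r in (0:ℝ)..h, w (s + r) ^ 2 :=
      intervalIntegral.integral_nonneg hh (fun r _ => sq_nonneg _)
    calc dist (g (s + h)) (g s) ^ 2 ≤ (∫ r in (0:ℝ)..h, w (s + r)) ^ 2 :=
          pow_le_pow_left₀ dist_nonneg h3 2
      _ ≤ h * ∫ r in (0:ℝ)..h, w (s + r) ^ 2 := h7
      _ ≤ 1 * K := by
          refine mul_le_mul ?_ ?_ h8 (by norm_num)
          · linarith [hsI.1]
          · exact h4.trans (h5.le.trans (h6.trans hK))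
      _ = K := one_mul K
  have main : ∀ s s' : ℝ, 0 ≤ s → s < s' → s' ≤ a → dist (g s) (g s') ≤ Real.sqrt K := by
    intro s s' hs0 hss hs'
    apply le_of_forall_pos_le_add
    intro e he
    have hL1 : 0 < 2 * (L + 1) := by linarith
    obtain ⟨eta, h1, h2, h3⟩ : ∃ eta : ℝ, 0 < eta ∧ eta ≤ (s' - s) / 4 ∧ 2 * L * eta ≤ e := by
      refine ⟨min ((s' - s) / 4) (e / (2 * (L + 1))), ?_, min_le_left _ _, ?_⟩
      · exact lt_min (by linarith) (div_pos he hL1)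
      · have h4 : min ((s' - s) / 4) (e / (2 * (L + 1))) ≤ e / (2 * (L + 1)) := min_le_right _ _
        calc 2 * L * min ((s' - s) / 4) (e / (2 * (L + 1))) ≤ 2 * L * (e / (2 * (L + 1))) :=
              mul_le_mul_of_nonneg_left h4 (by linarith)
          _ ≤ 2 * (L + 1) * (e / (2 * (L + 1))) :=
              mul_le_mul_of_nonneg_right (by linarith) (div_pos he hL1).le
          _ = e := mul_div_cancel₀ e hL1.ne'
    obtain ⟨r, hr1, hr2, hr3⟩ := Dpl_exists hs0 h1 (by linarith) key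
    have h5 := hr3 (s' - eta - r) (by linarith) (by linarith)
    have e1 : r + (s' - eta - r) = s' - eta := by ring
    rw [e1] at h5
    have h6 := hg s ⟨hs0, by linarith⟩ r ⟨by linarith, by linarith⟩
    have h7 := hg (s' - eta) ⟨by linarith, by linarith⟩ s' ⟨by linarith, hs'⟩
    have h8 : |s - r| ≤ eta := by rw [abs_le]; constructor <;> linarith
    have h9 : |s' - eta - s'| ≤ eta := by rw [abs_le]; constructor <;> linarith
    have h10 := mul_le_mul_of_nonneg_left h8 hL0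
    have h11 := mul_le_mul_of_nonneg_left h9 hL0
    have h12 := dist_triangle4 (g s) (g r) (g (s' - eta)) (g s')
    rw [dist_comm (g (s' - eta)) (g r)] at h5
    linarith
  intro s hs s' hs'
  rcases lt_trichotomy s s' with h | h | h
  · exact main s s' hs.1 h hs'.2
  · rw [h, dist_self]
    exact Real.sqrt_nonneg K
  · rw [dist_comm]
    exact main s' s hs'.1 h hs.2

theorem Dpl_alg {x y b s1 s2 : ℝ} (hy : 0 < y)
    (hb : |b| ≤ s1 * s2) : 0 ≤ x ^ 2 * s1 ^ 2 - 2 * x * b + s2 ^ 2 ∧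
    s1 ^ 2 + s2 ^ 2 ≤ (1 / y + 2 * y + 2 * x ^ 2 / y) *
      (y * s1 ^ 2 + (x ^ 2 * s1 ^ 2 - 2 * x * b + s2 ^ 2) / y) ∧
    y * s1 ^ 2 + (x ^ 2 * s1 ^ 2 - 2 * x * b + s2 ^ 2) / y ≤
      (y + 2 * x ^ 2 / y + 2 / y) * (s1 ^ 2 + s2 ^ 2) := by
  have hxb : |2 * x * b| ≤ 2 * |x| * (s1 * s2) := by
    rw [abs_mul, abs_mul, abs_of_pos (by norm_num : (0:ℝ) < 2)]
    exact mul_le_mul_of_nonneg_left hb (by positivity)
  have h1 := (le_abs_self _).trans hxb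
  have h1' := (neg_le_abs _).trans hxb
  have hsq := sq_abs x
  have h2 : 2 * |x| * (s1 * s2) ≤ x ^ 2 * s1 ^ 2 + s2 ^ 2 := by
    rw [← hsq]
    nlinarith [sq_nonneg (|x| * s1 - s2)]
  have h3 : 2 * |x| * (s1 * s2) ≤ 2 * (x ^ 2 * s1 ^ 2) + s2 ^ 2 / 2 := by
    rw [← hsq]
    nlinarith [sq_nonneg (2 * (|x| * s1) - s2)]
  have hq : 0 ≤ x ^ 2 * s1 ^ 2 - 2 * x * b + s2 ^ 2 := by linarith
  refine ⟨hq, ?_, ?_⟩
  · obtain ⟨q, hqd⟩ : ∃ q, q = x ^ 2 * s1 ^ 2 - 2 * x * b + s2 ^ 2 := ⟨_, rfl⟩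
    rw [← hqd] at hq ⊢
    have h4 : s2 ^ 2 ≤ 2 * q + 2 * (x ^ 2 * s1 ^ 2) := by linarith
    have e1 : (1 / y + 2 * y + 2 * x ^ 2 / y) * (y * s1 ^ 2 + q / y) =
        s1 ^ 2 + (2 * q + 2 * (x ^ 2 * s1 ^ 2)) +
          (q / y ^ 2 + 2 * y ^ 2 * s1 ^ 2 + 2 * x ^ 2 * q / y ^ 2) := by
      field_simp
      ring
    rw [e1]
    have h5 : 0 ≤ q / y ^ 2 + 2 * y ^ 2 * s1 ^ 2 + 2 * x ^ 2 * q / y ^ 2 := by positivity
    linarith
  · have e1 : (y + 2 * x ^ 2 / y + 2 / y) * (s1 ^ 2 + s2 ^ 2) =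
        y * s1 ^ 2 + (2 * (x ^ 2 * s1 ^ 2) + 2 * s2 ^ 2) / y +
          (y * s2 ^ 2 + 2 * x ^ 2 / y * s2 ^ 2 + 2 / y * s1 ^ 2) := by
      field_simp
      ring
    rw [e1]
    have h5 : 0 ≤ y * s2 ^ 2 + 2 * x ^ 2 / y * s2 ^ 2 + 2 / y * s1 ^ 2 := by positivity
    have h6 : (x ^ 2 * s1 ^ 2 - 2 * x * b + s2 ^ 2) / y ≤
        (2 * (x ^ 2 * s1 ^ 2) + 2 * s2 ^ 2) / y :=
      div_le_div_of_nonneg_right (by linarith) hy.le
    linarith

theorem Dpl_isOpen : IsOpen U := isOpen_Ioo.prod isOpen_Ioo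

theorem Dpl_sub : U ⊆ D \ P := by
  rintro ⟨u, v⟩ ⟨⟨h1, h2⟩, h3, h4⟩
  refine ⟨⟨⟨h1.le, h2.le⟩, h3.le, h4.le⟩, ?_⟩
  rintro ⟨-, h5⟩
  simp only [mem_insert_iff, mem_singleton_iff] at h5 h3 h4
  rcases h5 with h5 | h5
  · exact h3.ne' h5
  · exact h4.ne h5

theorem Dpl_int (hX : Npc X gm) {f : ℝ × ℝ → X} (hf : Clx A B C f) {x y : ℝ} (hy : 0 < y) :
    ∫ z in U, (sp f (1, 0) z ^ 2 + sp f (0, 1) z ^ 2) ≤
      (1 / y + 2 * y + 2 * x ^ 2 / y) * Ex x y f := by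
  have hU : MeasurableSet U := Dpl_isOpen.measurableSet
  have hlip : Lpo f U := H98NX.lpo_mono Dpl_sub hf.lip
  have hmeas : ∀ t : ℝ × ℝ, AEStronglyMeasurable (fun z => sp f t z ^ 2) (volume.restrict U) := by
    intro t
    have h1 := H98NX.sp_meas Dpl_isOpen (H98NX.lpo_cont Dpl_isOpen hlip) t
    refine (h1.pow_const 2).aestronglyMeasurable.congr ?_
    filter_upwards [ae_restrict_mem hU] with z hz
    rw [indicator_of_mem hz]
  have hpt : ∀ᵐ z ∂(volume.restrict U),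
      0 ≤ sp f (f1 x y) z ^ 2 + sp f (f2 x y) z ^ 2 ∧
      sp f (1, 0) z ^ 2 + sp f (0, 1) z ^ 2 ≤ (1 / y + 2 * y + 2 * x ^ 2 / y) *
        (sp f (f1 x y) z ^ 2 + sp f (f2 x y) z ^ 2) ∧
      sp f (f1 x y) z ^ 2 + sp f (f2 x y) z ^ 2 ≤
        (y + 2 * x ^ 2 / y + 2 / y) * (sp f (1, 0) z ^ 2 + sp f (0, 1) z ^ 2) := by
    filter_upwards [ae_restrict_of_ae (H98NX.md_ae volume hX Dpl_isOpen hlip),
      ae_restrict_mem hU] with z hz hzU
    obtain ⟨b, hb, hq⟩ := H98NX.sp_pair (hz hzU)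
    have hsy : Real.sqrt y ^ 2 = y := Real.sq_sqrt hy.le
    have hsy0 : Real.sqrt y ≠ 0 := (Real.sqrt_pos.2 hy).ne'
    have e1 : sp f (f1 x y) z ^ 2 = y * sp f (1, 0) z ^ 2 := by
      unfold f1
      rw [hq, hsy]
      ring
    have e2 : sp f (f2 x y) z ^ 2 = (x ^ 2 * sp f (1, 0) z ^ 2 - 2 * x * b +
        sp f (0, 1) z ^ 2) / y := by
      unfold f2
      rw [hq, div_pow, div_pow, hsy]
      have e3 : 2 * (-x / Real.sqrt y) * (1 / Real.sqrt y) * b = - (2 * x * b) / y := by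
        rw [show y = Real.sqrt y ^ 2 from hsy.symm, Real.sqrt_sq (Real.sqrt_nonneg y)]
        field_simp
      rw [e3]
      field_simp
      ring
    rw [e1, e2]
    obtain ⟨a1, a2, a3⟩ := Dpl_alg (x := x) hy hb
    exact ⟨by positivity, a2, a3⟩
  have hint : IntegrableOn (fun z => sp f (f1 x y) z ^ 2 + sp f (f2 x y) z ^ 2) U := by
    refine Integrable.mono' (hf.fin.const_mul (y + 2 * x ^ 2 / y + 2 / y))
      ((hmeas _).add (hmeas _)) ?_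
    filter_upwards [hpt] with z hz
    rw [Real.norm_eq_abs, abs_of_nonneg hz.1]
    exact hz.2.2
  unfold Ex
  rw [← integral_const_mul]
  refine integral_mono_ae hf.fin (hint.const_mul _) ?_
  filter_upwards [hpt] with z hz
  exact hz.2.1

/-- Lipschitz constant on a closed line in the rectangle -/
theorem Dpl_lip {f : ℝ × ℝ → X} (hf : Lpo f (D \ P)) {ga : ℝ → ℝ × ℝ} {a : ℝ}
    (hga : Continuous ga) (hd : ∀ s s' : ℝ, dist (ga s) (ga s') = |s - s'|)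
    (hmem : ∀ s ∈ Icc (0:ℝ) a, ga s ∈ D \ P) :
    ∃ L : ℝ, 0 ≤ L ∧ ∀ s ∈ Icc (0:ℝ) a, ∀ s' ∈ Icc (0:ℝ) a,
      dist (f (ga s)) (f (ga s')) ≤ L * |s - s'| := by
  have hK : IsCompact (ga '' Icc (0:ℝ) a) := isCompact_Icc.image hga
  obtain ⟨L, hL⟩ := hf (ga '' Icc (0:ℝ) a) (by rintro _ ⟨s, hs, rfl⟩; exact hmem s hs) hK
  refine ⟨max L 0, le_max_right _ _, fun s hs s' hs' => ?_⟩
  have h1 := hL (ga s) ⟨s, hs, rfl⟩ (ga s') ⟨s', hs', rfl⟩
  rw [hd] at h1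
  exact h1.trans (mul_le_mul_of_nonneg_right (le_max_left _ _) (abs_nonneg _))

/-- the estimate on a vertical line -/
theorem Dpl_vert {f : ℝ × ℝ → X} (hf : Lpo f (D \ P)) {u K : ℝ} (hu0 : 0 < u) (hu1 : u < 1)
    (hu : u ≠ 1 / 2)
    (hF : IntervalIntegrable (fun v => sp f (1, 0) (u, v) ^ 2 + sp f (0, 1) (u, v) ^ 2)
      volume 0 (1 / 2))
    (hK : ∫ v in (0:ℝ)..(1 / 2), (sp f (1, 0) (u, v) ^ 2 + sp f (0, 1) (u, v) ^ 2) ≤ K)
    (hl : ∀ᵐ v ∂(volume.restrict (Ioo (0:ℝ) (1 / 2))), ∀ h : ℝ, 0 ≤ h →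
      (∀ s : ℝ, 0 ≤ s → s ≤ h → (u, v) + s • ((0, 1) : ℝ × ℝ) ∈ U) →
      IntervalIntegrable (fun s : ℝ => sp f (0, 1) ((u, v) + s • ((0, 1) : ℝ × ℝ))) volume 0 h ∧
      IntervalIntegrable (fun s : ℝ => sp f (0, 1) ((u, v) + s • ((0, 1) : ℝ × ℝ)) ^ 2) volume 0 h ∧
      dist (f ((u, v) + h • ((0, 1) : ℝ × ℝ))) (f (u, v)) ≤
        ∫ s in (0:ℝ)..h, sp f (0, 1) ((u, v) + s • ((0, 1) : ℝ × ℝ))) :
    ∀ s ∈ Icc (0:ℝ) (1 / 2), ∀ s' ∈ Icc (0:ℝ) (1 / 2),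
      dist (f (u, s)) (f (u, s')) ≤ Real.sqrt K := by
  obtain ⟨L, hL0, hL⟩ := Dpl_lip (ga := fun s => (u, s)) (a := 1 / 2) hf (by fun_prop)
    (fun s s' => by simp [Prod.dist_eq, Real.dist_eq]) (by
      intro s hs
      refine ⟨⟨⟨hu0.le, hu1.le⟩, hs⟩, ?_⟩
      rintro ⟨h5, -⟩
      simp only [mem_insert_iff, mem_singleton_iff] at h5
      rcases h5 with h5 | h5 | h5
      · exact hu0.ne' h5
      · exact hu h5
      · exact hu1.ne h5)
  have e : ∀ v s : ℝ, (u, v) + s • ((0, 1) : ℝ × ℝ) = (u, v + s) := fun v s => by simp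
  simp only [e] at hl
  refine Dpl_line (g := fun s => f (u, s)) (by norm_num) (by norm_num) hL0 hL hF hK
    (w := fun s => sp f (0, 1) (u, s)) (fun s => ?_) ?_
  · have := sq_nonneg (sp f (1, 0) (u, s))
    linarith
  · filter_upwards [hl, ae_restrict_mem measurableSet_Ioo] with v hv hvI h hh hvh
    exact hv h hh (fun s hs0 hsh => ⟨⟨hu0, hu1⟩, by
      show 0 < v + s
      linarith [hvI.1], by
      show v + s < 1 / 2
      linarith⟩)

/-- the estimate on a horizontal line -/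
theorem Dpl_hor {f : ℝ × ℝ → X} (hf : Lpo f (D \ P)) {v K : ℝ} (hv0 : 0 < v) (hv1 : v < 1 / 2)
    (hF : IntervalIntegrable (fun u => sp f (1, 0) (u, v) ^ 2 + sp f (0, 1) (u, v) ^ 2)
      volume 0 1)
    (hK : ∫ u in (0:ℝ)..1, (sp f (1, 0) (u, v) ^ 2 + sp f (0, 1) (u, v) ^ 2) ≤ K)
    (hl : ∀ᵐ u ∂(volume.restrict (Ioo (0:ℝ) 1)), ∀ h : ℝ, 0 ≤ h →
      (∀ s : ℝ, 0 ≤ s → s ≤ h → (u, v) + s • ((1, 0) : ℝ × ℝ) ∈ U) →
      IntervalIntegrable (fun s : ℝ => sp f (1, 0) ((u, v) + s • ((1, 0) : ℝ × ℝ))) volume 0 h ∧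
      IntervalIntegrable (fun s : ℝ => sp f (1, 0) ((u, v) + s • ((1, 0) : ℝ × ℝ)) ^ 2) volume 0 h ∧
      dist (f ((u, v) + h • ((1, 0) : ℝ × ℝ))) (f (u, v)) ≤
        ∫ s in (0:ℝ)..h, sp f (1, 0) ((u, v) + s • ((1, 0) : ℝ × ℝ))) :
    ∀ s ∈ Icc (0:ℝ) 1, ∀ s' ∈ Icc (0:ℝ) 1, dist (f (s, v)) (f (s', v)) ≤ Real.sqrt K := by
  obtain ⟨L, hL0, hL⟩ := Dpl_lip (ga := fun s => (s, v)) (a := 1) hf (by fun_prop)
    (fun s s' => by simp [Prod.dist_eq, Real.dist_eq]) (by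
      intro s hs
      refine ⟨⟨hs, hv0.le, hv1.le⟩, ?_⟩
      rintro ⟨-, h5⟩
      simp only [mem_insert_iff, mem_singleton_iff] at h5
      rcases h5 with h5 | h5
      · exact hv0.ne' h5
      · exact hv1.ne h5)
  have e : ∀ u s : ℝ, (u, v) + s • ((1, 0) : ℝ × ℝ) = (u + s, v) := fun u s => by simp
  simp only [e] at hl
  refine Dpl_line (g := fun s => f (s, v)) (by norm_num) le_rfl hL0 hL hF hK
    (w := fun s => sp f (1, 0) (s, v)) (fun s => ?_) ?_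
  · have := sq_nonneg (sp f (0, 1) (s, v))
    linarith
  · filter_upwards [hl, ae_restrict_mem measurableSet_Ioo] with u hu huI h hh huh
    exact hu h hh (fun s hs0 hsh => ⟨⟨by
      show 0 < u + s
      linarith [huI.1], by
      show u + s < 1
      linarith⟩, hv0, hv1⟩)

/-- one involution -/
theorem Dpl_inv {f : ℝ × ℝ → X} {W : X ≃ᵢ X} {w v u k : ℝ} (hu0 : 0 < u) (hu1 : u < 1)
    (hu : u ≠ 1 / 2) (hw : w ∈ Icc (0:ℝ) (1 / 2)) (hv : v ∈ Icc (0:ℝ) (1 / 2))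
    (hgl : ∀ u ∈ Ioo (0:ℝ) (1 / 2), f (1 - u, w) = W (f (u, w)))
    (h1 : ∀ s ∈ Icc (0:ℝ) (1 / 2), ∀ s' ∈ Icc (0:ℝ) (1 / 2), dist (f (u, s)) (f (u, s')) ≤ k)
    (h2 : ∀ s ∈ Icc (0:ℝ) (1 / 2), ∀ s' ∈ Icc (0:ℝ) (1 / 2),
      dist (f (1 - u, s)) (f (1 - u, s')) ≤ k)
    (h3 : ∀ s ∈ Icc (0:ℝ) 1, ∀ s' ∈ Icc (0:ℝ) 1, dist (f (s, v)) (f (s', v)) ≤ k) :
    dist (f (u, v)) (W (f (u, v))) ≤ 3 * k := by
  rcases lt_or_gt_of_ne hu with h | h
  · have e := hgl u ⟨hu0, h⟩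
    have a1 := h3 u ⟨hu0.le, hu1.le⟩ (1 - u) ⟨by linarith, by linarith⟩
    have a2 := h2 v hv w hw
    have a3 : dist (W (f (u, w))) (W (f (u, v))) ≤ k := by
      rw [W.dist_eq]
      exact h1 w hw v hv
    rw [← e] at a3
    have a4 := dist_triangle4 (f (u, v)) (f (1 - u, v)) (f (1 - u, w)) (W (f (u, v)))
    linarith
  · have e := hgl (1 - u) ⟨by linarith, by linarith⟩
    rw [sub_sub_cancel] at e
    have a1 := h1 v hv w hw
    have a2 : dist (W (f (1 - u, w))) (W (f (1 - u, v))) ≤ k := by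
      rw [W.dist_eq]
      exact h2 w hw v hv
    have a3 : dist (W (f (1 - u, v))) (W (f (u, v))) ≤ k := by
      rw [W.dist_eq]
      exact h3 (1 - u) ⟨by linarith, by linarith⟩ u ⟨hu0.le, hu1.le⟩
    rw [← e] at a2
    have a4 := dist_triangle4 (f (u, v)) (f (u, w)) (W (f (1 - u, v))) (W (f (u, v)))
    linarith

theorem Dpl_volU : volume U = ENNReal.ofReal (1 / 2) := by
  have h : volume U = volume (Ioo (0:ℝ) 1) * volume (Ioo (0:ℝ) (1 / 2)) := by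
    unfold H80HM.U
    rw [Measure.volume_eq_prod, Measure.prod_prod]
  rw [h, Real.volume_Ioo, Real.volume_Ioo]
  simp

theorem Dpl_half : volume {z : ℝ × ℝ | z.1 = 1 / 2} = 0 := by
  have h : {z : ℝ × ℝ | z.1 = 1 / 2} = ({1 / 2} : Set ℝ) ×ˢ (univ : Set ℝ) := by
    ext z
    simp
  rw [h, Measure.volume_eq_prod, Measure.prod_prod]
  simp

theorem displ (hX : Npc X gm) (hne : ∃ f, Clx A B C f) {x y : ℝ} (hy : 0 < y)
    (h : EX A B C x y = 0) {ep : ℝ} (hep : 0 < ep) :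
    ∃ p : X, dist p (A p) ≤ ep ∧ dist p (B p) ≤ ep ∧ dist p (C p) ≤ ep := by
  have hk : 0 < 1 / y + 2 * y + 2 * x ^ 2 / y := by positivity
  obtain ⟨K, hKd⟩ : ∃ K : ℝ, K = (ep / 3) ^ 2 := ⟨_, rfl⟩
  have hK : 0 < K := by rw [hKd]; positivity
  have hsK : Real.sqrt K = ep / 3 := by
    rw [hKd]
    exact Real.sqrt_sq (by positivity)
  obtain ⟨f, hf, hfe⟩ : ∃ f, Clx A B C f ∧ Ex x y f < K / (12 * (1 / y + 2 * y + 2 * x ^ 2 / y)) := by
    have h1 : sInf {e | ∃ f, Clx A B C f ∧ e = Ex x y f} <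
        K / (12 * (1 / y + 2 * y + 2 * x ^ 2 / y)) := by
      have h2 : sInf {e | ∃ f, Clx A B C f ∧ e = Ex x y f} = 0 := h
      rw [h2]
      positivity
    obtain ⟨f0, hf0⟩ := hne
    have hne : {e | ∃ f, Clx A B C f ∧ e = Ex x y f}.Nonempty := ⟨Ex x y f0, f0, hf0, rfl⟩
    obtain ⟨e, ⟨f, hf, rfl⟩, he⟩ := exists_lt_of_csInf_lt hne h1
    exact ⟨f, hf, he⟩
  obtain ⟨I, hI⟩ : ∃ I : ℝ, I = ∫ z in U, (sp f (1, 0) z ^ 2 + sp f (0, 1) z ^ 2) := ⟨_, rfl⟩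
  have hIK : 12 * I ≤ K := by
    have h1 := Dpl_int (x := x) hX hf hy
    rw [← hI] at h1
    have h2 : (1 / y + 2 * y + 2 * x ^ 2 / y) * Ex x y f ≤ K / 12 := by
      calc (1 / y + 2 * y + 2 * x ^ 2 / y) * Ex x y f ≤ (1 / y + 2 * y + 2 * x ^ 2 / y) *
            (K / (12 * (1 / y + 2 * y + 2 * x ^ 2 / y))) := mul_le_mul_of_nonneg_left hfe.le hk.le
        _ = K / 12 := by
            have := hk.ne'
            rw [mul_div_assoc', mul_comm (12:ℝ), mul_div_mul_left _ _ this]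
    linarith
  obtain ⟨S, hSU, hSm, hSv, hS⟩ := H80HM.good_lines hf.fin
    (Eventually.of_forall fun z => by positivity) (le_of_eq hI.symm) hK
  have hlip : Lpo f U := H98NX.lpo_mono Dpl_sub hf.lip
  obtain ⟨S1, hS1U, hS1m, hS1v, hS1⟩ := H80HM.line_ae
    (ae_restrict_of_ae (H98NX.line_le volume Dpl_isOpen hlip (0, 1)))
  obtain ⟨S2, hS2U, hS2m, hS2v, hS2⟩ := H80HM.line_ae
    (ae_restrict_of_ae (H98NX.line_le volume Dpl_isOpen hlip (1, 0)))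
  obtain ⟨z, hzU, hzS⟩ : ∃ z ∈ U, z ∉ ((S ∪ S1) ∪ S2) ∪ {z : ℝ × ℝ | z.1 = 1 / 2} := by
    by_contra hcon
    push Not at hcon
    have h1 : volume U ≤ volume (((S ∪ S1) ∪ S2) ∪ {z : ℝ × ℝ | z.1 = 1 / 2}) :=
      measure_mono hcon
    have h2 : volume (((S ∪ S1) ∪ S2) ∪ {z : ℝ × ℝ | z.1 = 1 / 2}) ≤ ENNReal.ofReal (1 / 4) := by
      calc volume (((S ∪ S1) ∪ S2) ∪ {z : ℝ × ℝ | z.1 = 1 / 2})
          ≤ ((volume S + volume S1) + volume S2) + volume {z : ℝ × ℝ | z.1 = 1 / 2} :=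
            (measure_union_le _ _).trans (add_le_add_left ((measure_union_le _ _).trans
              (add_le_add_left (measure_union_le _ _) _)) _)
        _ = volume S := by rw [hS1v, hS2v, Dpl_half, add_zero, add_zero, add_zero]
        _ ≤ ENNReal.ofReal (3 * I / K) := hSv
        _ ≤ ENNReal.ofReal (1 / 4) := by
            apply ENNReal.ofReal_le_ofReal
            rw [div_le_iff₀ hK]
            linarith
    rw [Dpl_volU] at h1
    have h3 := h1.trans h2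
    rw [ENNReal.ofReal_le_ofReal_iff (by norm_num)] at h3
    norm_num at h3
  obtain ⟨u, v⟩ := z
  have hz1 : (u, v) ∈ U \ S := ⟨hzU, fun h => hzS (Or.inl (Or.inl (Or.inl h)))⟩
  have hz2 : (u, v) ∈ U \ S1 := ⟨hzU, fun h => hzS (Or.inl (Or.inl (Or.inr h)))⟩
  have hz3 : (u, v) ∈ U \ S2 := ⟨hzU, fun h => hzS (Or.inl (Or.inr h))⟩
  have hu : u ≠ 1 / 2 := fun h => hzS (Or.inr h)
  obtain ⟨⟨hu0, hu1⟩, hv0, hv1⟩ := hzU
  simp only at hu0 hu1 hv0 hv1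
  obtain ⟨⟨a1, a2⟩, ⟨b1, b2⟩, c1, c2⟩ := hS _ hz1
  obtain ⟨a3, b3, -⟩ := hS1 _ hz2
  obtain ⟨-, -, c3⟩ := hS2 _ hz3
  have hV1 := Dpl_vert hf.lip hu0 hu1 hu a1 a2 a3
  have hV2 := Dpl_vert hf.lip (u := 1 - u) (by linarith) (by linarith)
    (fun h => hu (by linarith)) b1 b2 b3
  have hH := Dpl_hor hf.lip hv0 hv1 c1 c2 c3
  rw [hsK] at hV1 hV2 hH
  have hvI : v ∈ Icc (0:ℝ) (1 / 2) := ⟨hv0.le, hv1.le⟩
  refine ⟨f (u, v), ?_, ?_, ?_⟩
  · have := Dpl_inv (W := A) hu0 hu1 hu ⟨le_rfl, by norm_num⟩ hvI hf.glu.glA hV1 hV2 hH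
    linarith
  · have := Dpl_inv (W := B) hu0 hu1 hu ⟨by norm_num, le_rfl⟩ hvI hf.glu.glB hV1 hV2 hH
    linarith
  · have e := hf.glu.glC v ⟨hv0, hv1⟩
    have d1 := hH u ⟨hu0.le, hu1.le⟩ 1 ⟨by norm_num, le_rfl⟩
    have d2 : dist (C (f (0, v))) (C (f (u, v))) ≤ ep / 3 := by
      rw [C.dist_eq]
      exact hH 0 ⟨le_rfl, by norm_num⟩ u ⟨hu0.le, hu1.le⟩
    rw [← e] at d2
    have d3 := dist_triangle (f (u, v)) (f (1, v)) (C (f (u, v)))
    linarith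

end H50NA
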