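import Pool.Agent.H80.NA.Exl

set_option autoImplicit false

/-!
# Row Ms1: the move S for maps into X

g(u,v) := f(1-v, u) if u <= 1/2, B f(v, 1-u) if u > 1/2. (Adaptation of Pool/Agent/H80/HM/Mvs.lean, which treats matrix valued metrics.) Class of (B C^-1, B, B A^-1).
* Lipschitz on compact subsets of D \ P: lpo_loc (row Ea of H98/NX). u0 < 1/2: near z0 in D, g = f o R1, R1(u,v) = (1-v,u), an isometry of the sup norm with R1 z0 in D \ P. u0 > 1/2: g = B o f o R2,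
  R2(u,v) = (v,1-u). u0 = 1/2: z0 = (1/2,v0), 0 < v0 < 1/2, R1 z0 = (1-v0,1/2): top side, right half: ext A B C 6 f = f on D and B f(1-x,1-y) off D: (ext 6 f)(R1 z) = g z near z0: for u > 1/2,
  R1 z = (1-v,u) is off D and B f(1-(1-v), 1-u) = B f(v,1-u). So g = (ext 6 f) o R1 near z0, ext_lip.
* side (0<v<1/2): g(1,v) = B f(v,0), g(0,v) = f(1-v,0) = A f(v,0), so g(1,v) = B A^-1 g(0,v).
* bottom (0<u<1/2): g(u,0) = f(1,u) = C f(0,u), g(1-u,0) = B f(0,u) = B C^-1 g(u,0).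
* top (0<u<1/2): g(u,1/2) = f(1/2,u), g(1-u,1/2) = B f(1/2,u).
* speeds: u < 1/2: sp g t z = sp f (R t)(R1 z), R(a,b) = (-b,a) the linear part of R1; u > 1/2: sp g t z = sp f (-R t)(R2 z), and sp f (-t) = sp f t a.e. (sp_smul of row Ed at points with Dlim). With
  x' = -x/(x^2+y^2), y' = y/(x^2+y^2): int over a pair of orthonormal frames: the quadratic form of Ex x y g at z is sp f (R f1)^2 + sp f (R f2)^2 with R f1 = (0, sqrt y), R f2 = (-1/sqrt y, -x/sqrt y), and that of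
  Ex x' y' f is sp f (sqrt y',0)^2 + sp f (-x'/sqrt y', 1/sqrt y')^2. By sp_pair (a.e.: sp f (a,b)^2 = a^2 S1 + 2ab Bf + b^2 S2) the first is y S2 + (S1 + 2 x Bf + x^2 S2)/y, the second is
  y' S1 + (x'^2 S1 - 2x' Bf + S2)/y'. With y' = y/(x^2+y^2), x'/y' = -x/y, 1/y' = (x^2+y^2)/y, x'^2/y' = x^2/(y (x^2+y^2)): = S1 (y^2 + x^2)/(y(x^2+y^2)) + 2x Bf/y + (x^2+y^2) S2/y: equal.
* integrals: R1 maps {u<1/2} cap U onto {first coordinate > 1/2} cap U, R2 maps {u>1/2} cap U onto {first coordinate < 1/2} cap U, measure preserving.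
-/

namespace H50NA

open MeasureTheory Set Filter Topology
open H80HM (D U P f1 f2)

/-- left and right squares -/
def Ms1_L : Set (ℝ × ℝ) := Ioo (0:ℝ) (1/2) ×ˢ Ioo (0:ℝ) (1/2)
def Ms1_R : Set (ℝ × ℝ) := Ioo (1/2:ℝ) 1 ×ˢ Ioo (0:ℝ) (1/2)

def Ms1_rho (x : ℝ × ℝ) : ℝ × ℝ := (1 - x.2, x.1)
def Ms1_sig (x : ℝ × ℝ) : ℝ × ℝ := (x.2, 1 - x.1)

theorem Ms1_mpR : MeasurePreserving Ms1_rho volume volume := by
  have h1 : MeasurePreserving (Prod.swap : ℝ × ℝ → ℝ × ℝ) volume volume :=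
    Measure.measurePreserving_swap
  have h2 : MeasurePreserving (Prod.map (fun a : ℝ => 1 - a) (id : ℝ → ℝ)) volume volume :=
    (Measure.measurePreserving_sub_left (volume : Measure ℝ) 1).prod (MeasurePreserving.id _)
  exact h2.comp h1

theorem Ms1_mpS : MeasurePreserving Ms1_sig volume volume := by
  have h1 : MeasurePreserving (Prod.swap : ℝ × ℝ → ℝ × ℝ) volume volume :=
    Measure.measurePreserving_swap
  have h2 : MeasurePreserving (Prod.map (id : ℝ → ℝ) (fun a : ℝ => 1 - a)) volume volume :=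
    (MeasurePreserving.id _).prod (Measure.measurePreserving_sub_left (volume : Measure ℝ) 1)
  exact h2.comp h1

theorem Ms1_contR : Continuous Ms1_rho := (continuous_const.sub continuous_snd).prodMk continuous_fst

theorem Ms1_contS : Continuous Ms1_sig := continuous_snd.prodMk (continuous_const.sub continuous_fst)

theorem Ms1_emR : MeasurableEmbedding Ms1_rho := by
  apply Ms1_contR.measurableEmbedding
  intro x y h
  have h1 := congrArg Prod.fst h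
  have h2 := congrArg Prod.snd h
  simp only [Ms1_rho] at h1 h2
  exact Prod.ext h2 (by linarith)

theorem Ms1_emS : MeasurableEmbedding Ms1_sig := by
  apply Ms1_contS.measurableEmbedding
  intro x y h
  have h1 := congrArg Prod.fst h
  have h2 := congrArg Prod.snd h
  simp only [Ms1_sig] at h1 h2
  exact Prod.ext (by linarith) h1

theorem Ms1_preR : Ms1_rho ⁻¹' Ms1_R = Ms1_L := by
  ext x
  simp only [Ms1_rho, Ms1_R, Ms1_L, mem_preimage, mem_prod, mem_Ioo]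
  constructor <;> intro h <;> refine ⟨⟨?_, ?_⟩, ⟨?_, ?_⟩⟩ <;> linarith [h.1.1, h.1.2, h.2.1, h.2.2]

theorem Ms1_preS : Ms1_sig ⁻¹' Ms1_L = Ms1_R := by
  ext x
  simp only [Ms1_sig, Ms1_R, Ms1_L, mem_preimage, mem_prod, mem_Ioo]
  constructor <;> intro h <;> refine ⟨⟨?_, ?_⟩, ⟨?_, ?_⟩⟩ <;> linarith [h.1.1, h.1.2, h.2.1, h.2.2]

theorem Ms1_measL : MeasurableSet Ms1_L := measurableSet_Ioo.prod measurableSet_Ioo
theorem Ms1_measR : MeasurableSet Ms1_R := measurableSet_Ioo.prod measurableSet_Ioo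

theorem Ms1_subL : Ms1_L ⊆ U := by
  intro x hx
  exact ⟨⟨hx.1.1, by linarith [hx.1.2]⟩, hx.2⟩

theorem Ms1_subR : Ms1_R ⊆ U := by
  intro x hx
  exact ⟨⟨by linarith [hx.1.1], hx.1.2⟩, hx.2⟩

theorem Ms1_disj : Disjoint Ms1_L Ms1_R := by
  rw [Set.disjoint_left]
  intro x h1 h2
  linarith [h1.1.2, h2.1.1]

theorem Ms1_ae : U =ᵐ[volume] (Ms1_L ∪ Ms1_R : Set (ℝ × ℝ)) := by
  have h0 : volume (({1/2} : Set ℝ) ×ˢ (univ : Set ℝ)) = 0 := by
    rw [Measure.volume_eq_prod, Measure.prod_prod, Real.volume_singleton, zero_mul]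
  have h1 : ∀ᵐ x ∂(volume : Measure (ℝ × ℝ)), x ∉ ({1/2} : Set ℝ) ×ˢ (univ : Set ℝ) :=
    compl_mem_ae_iff.2 h0
  filter_upwards [h1] with x hx
  apply propext
  change x ∈ U ↔ x ∈ Ms1_L ∪ Ms1_R
  have hne : x.1 ≠ 1/2 := fun h => hx ⟨h, mem_univ _⟩
  constructor
  · intro h
    rcases lt_or_gt_of_ne hne with h2 | h2
    · exact Or.inl ⟨⟨h.1.1, h2⟩, h.2⟩
    · exact Or.inr ⟨⟨h2, h.1.2⟩, h.2⟩
  · rintro (h | h)
    · exact Ms1_subL h
    · exact Ms1_subR h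

theorem Ms1_int {f : ℝ × ℝ → ℝ} (hL : IntegrableOn f Ms1_L) (hR : IntegrableOn f Ms1_R) :
    IntegrableOn f U ∧ ∫ x in U, f x = (∫ x in Ms1_L, f x) + ∫ x in Ms1_R, f x := by
  refine ⟨(hL.union hR).congr_set_ae Ms1_ae, ?_⟩
  rw [setIntegral_congr_set Ms1_ae, setIntegral_union Ms1_disj Ms1_measR hL hR]

/-- transfer of the integral of a density -/
theorem Ms1_tr {f g : ℝ × ℝ → ℝ}
    (hL : ∀ᵐ x ∂(volume.restrict Ms1_L), f x = g (Ms1_rho x))
    (hR : ∀ᵐ x ∂(volume.restrict Ms1_R), f x = g (Ms1_sig x)) :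
    (IntegrableOn g U → IntegrableOn f U) ∧ ∫ x in U, f x = ∫ x in U, g x := by
  have iL : IntegrableOn f Ms1_L ↔ IntegrableOn g Ms1_R := by
    have h1 : IntegrableOn (g ∘ Ms1_rho) Ms1_L ↔ IntegrableOn g Ms1_R := by
      rw [← Ms1_preR]
      exact Ms1_mpR.integrableOn_comp_preimage Ms1_emR
    rw [← h1]
    exact integrable_congr hL
  have iR : IntegrableOn f Ms1_R ↔ IntegrableOn g Ms1_L := by
    have h1 : IntegrableOn (g ∘ Ms1_sig) Ms1_R ↔ IntegrableOn g Ms1_L := by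
      rw [← Ms1_preS]
      exact Ms1_mpS.integrableOn_comp_preimage Ms1_emS
    rw [← h1]
    exact integrable_congr hR
  have e1 : ∫ x in Ms1_L, f x = ∫ x in Ms1_R, g x := by
    rw [integral_congr_ae hL, ← Ms1_mpR.setIntegral_preimage_emb Ms1_emR g Ms1_R, Ms1_preR]
  have e2 : ∫ x in Ms1_R, f x = ∫ x in Ms1_L, g x := by
    rw [integral_congr_ae hR, ← Ms1_mpS.setIntegral_preimage_emb Ms1_emS g Ms1_L, Ms1_preS]
  by_cases hg : IntegrableOn g U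
  · have gL := hg.mono_set Ms1_subL
    have gR := hg.mono_set Ms1_subR
    obtain ⟨h1, h2⟩ := Ms1_int (iL.2 gR) (iR.2 gL)
    obtain ⟨-, h3⟩ := Ms1_int gL gR
    exact ⟨fun _ => h1, by rw [h2, h3, e1, e2, add_comm]⟩
  · have hf : ¬ IntegrableOn f U := by
      intro hf
      apply hg
      exact (Ms1_int (iR.1 (hf.mono_set Ms1_subR)) (iL.1 (hf.mono_set Ms1_subL))).1
    exact ⟨fun h => absurd h hg, by rw [integral_undef hf, integral_undef hg]⟩

theorem Ms1_dist (x y : ℝ × ℝ) : dist x y = max |x.1 - y.1| |x.2 - y.2| := by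
  rw [Prod.dist_eq, Real.dist_eq, Real.dist_eq]

theorem Ms1_distR (x y : ℝ × ℝ) : dist (Ms1_rho x) (Ms1_rho y) = dist x y := by
  rw [Ms1_dist, Ms1_dist, max_comm]
  simp only [Ms1_rho]
  have h1 : (1 - x.2) - (1 - y.2) = -(x.2 - y.2) := by ring
  rw [h1, abs_neg]

theorem Ms1_distS (x y : ℝ × ℝ) : dist (Ms1_sig x) (Ms1_sig y) = dist x y := by
  rw [Ms1_dist, Ms1_dist, max_comm]
  simp only [Ms1_sig]
  have h1 : (1 - x.1) - (1 - y.1) = -(x.1 - y.1) := by ring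
  rw [h1, abs_neg]

theorem Ms1_memP {a b : ℝ} (ha : a = 0 ∨ a = 1/2 ∨ a = 1) (hb : b = 0 ∨ b = 1/2) :
    ((a, b) : ℝ × ℝ) ∈ P := by
  refine ⟨?_, ?_⟩
  · simpa using ha
  · simpa using hb

theorem Ms1_P {p : ℝ × ℝ} (hp : p ∈ P) : (p.1 = 0 ∨ p.1 = 1/2 ∨ p.1 = 1) ∧
    (p.2 = 0 ∨ p.2 = 1/2) := by
  obtain ⟨h1, h2⟩ := hp
  refine ⟨?_, ?_⟩
  · simpa using h1
  · simpa using h2

theorem Ms1_rhoD {x : ℝ × ℝ} (hx : x ∈ D \ P) (h : x.1 ≤ 1/2) : Ms1_rho x ∈ D \ P := by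
  obtain ⟨hx, hxP⟩ := hx
  refine ⟨⟨⟨?_, ?_⟩, ⟨?_, ?_⟩⟩, ?_⟩
  · change 0 ≤ 1 - x.2
    linarith [hx.2.2]
  · change 1 - x.2 ≤ 1
    linarith [hx.2.1]
  · exact hx.1.1
  · exact h
  · intro hp
    apply hxP
    obtain ⟨h1, h2⟩ := Ms1_P hp
    simp only [Ms1_rho] at h1 h2
    have h3 := hx.2.2
    refine Ms1_memP (a := x.1) (b := x.2) ?_ ?_
    · tauto
    · rcases h1 with h1 | h1 | h1
      · exfalso
        linarith
      · right
        linarith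
      · left
        linarith

theorem Ms1_sigD {x : ℝ × ℝ} (hx : x ∈ D \ P) (h' : 1/2 ≤ x.1) : Ms1_sig x ∈ D \ P := by
  obtain ⟨hx, hxP⟩ := hx
  refine ⟨⟨⟨?_, ?_⟩, ⟨?_, ?_⟩⟩, ?_⟩
  · exact hx.2.1
  · change x.2 ≤ 1
    linarith [hx.2.2]
  · change 0 ≤ 1 - x.1
    linarith [hx.1.2]
  · change 1 - x.1 ≤ 1/2
    linarith
  · intro hp
    apply hxP
    obtain ⟨h1, h2⟩ := Ms1_P hp
    simp only [Ms1_sig] at h1 h2
    have h3 := hx.2.2
    refine Ms1_memP (a := x.1) (b := x.2) ?_ ?_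
    · rcases h2 with h2 | h2
      · right; right
        linarith
      · right; left
        linarith
    · rcases h1 with h1 | h1 | h1
      · left
        exact h1
      · right
        exact h1
      · exfalso
        linarith

theorem Ms1_tend (x t : ℝ × ℝ) :
    Tendsto (fun n : ℕ => x + (1 / ((n : ℝ) + 1)) • t) atTop (𝓝 x) := by
  have h1 : Tendsto (fun n : ℕ => (1 / ((n : ℝ) + 1)) • t) atTop (𝓝 ((0:ℝ) • t)) :=
    tendsto_one_div_add_atTop_nhds_zero_nat.smul_const t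
  have h2 := (tendsto_const_nhds (x := x)).add h1
  rw [zero_smul, add_zero] at h2
  exact h2

variable {X : Type} [MetricSpace X] {gm : X → X → ℝ → X} {A B C : X ≃ᵢ X}

/-- the new map -/
noncomputable def Ms1_G (B : X ≃ᵢ X) (f : ℝ × ℝ → X) (x : ℝ × ℝ) : X :=
  if x.1 ≤ 1/2 then f (Ms1_rho x) else B (f (Ms1_sig x))

theorem Ms1_spL (B : X ≃ᵢ X) (f : ℝ × ℝ → X) {x : ℝ × ℝ} (hx : x.1 < 1/2) (t : ℝ × ℝ) :
    sp (Ms1_G B f) t x = sp f (-t.2, t.1) (Ms1_rho x) := by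
  have h1 : ∀ᶠ y : ℝ × ℝ in 𝓝 x, y.1 < 1/2 :=
    (isOpen_lt continuous_fst continuous_const).mem_nhds hx
  unfold sp
  apply Filter.limsup_congr
  filter_upwards [(Ms1_tend x t).eventually h1] with n hn
  rw [Ms1_G, Ms1_G, if_pos hn.le, if_pos hx.le]
  congr 3
  apply Prod.ext
  · simp only [Ms1_rho, Prod.snd_add, Prod.smul_snd, Prod.fst_add, Prod.smul_fst, smul_eq_mul]
    ring
  · simp only [Ms1_rho, Prod.snd_add, Prod.smul_snd, Prod.fst_add, Prod.smul_fst, smul_eq_mul]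

theorem Ms1_spR (B : X ≃ᵢ X) (f : ℝ × ℝ → X) {x : ℝ × ℝ} (hx : 1/2 < x.1) (t : ℝ × ℝ) :
    sp (Ms1_G B f) t x = sp f (t.2, -t.1) (Ms1_sig x) := by
  have h1 : ∀ᶠ y : ℝ × ℝ in 𝓝 x, 1/2 < y.1 :=
    (isOpen_lt continuous_const continuous_fst).mem_nhds hx
  unfold sp
  apply Filter.limsup_congr
  filter_upwards [(Ms1_tend x t).eventually h1] with n hn
  rw [Ms1_G, Ms1_G, if_neg (not_le.2 hn), if_neg (not_le.2 hx), B.dist_eq]
  congr 3
  apply Prod.ext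
  · simp only [Ms1_sig, Prod.snd_add, Prod.smul_snd, Prod.fst_add, Prod.smul_fst, smul_eq_mul]
  · simp only [Ms1_sig, Prod.snd_add, Prod.smul_snd, Prod.fst_add, Prod.smul_fst, smul_eq_mul]
    ring

theorem Ms1_UD : U ⊆ D \ P := by
  intro x hx
  refine ⟨⟨⟨hx.1.1.le, hx.1.2.le⟩, ⟨hx.2.1.le, hx.2.2.le⟩⟩, ?_⟩
  intro hp
  rcases (Ms1_P hp).2 with h | h
  · linarith [hx.2.1]
  · linarith [hx.2.2]

theorem Ms1_Uo : IsOpen U := isOpen_Ioo.prod isOpen_Ioo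

theorem Ms1_md (hX : Npc X gm) {f : ℝ × ℝ → X} (hf : Clx A B C f) :
    (∀ᵐ x ∂(volume.restrict Ms1_L), H98NX.MD f (Ms1_rho x)) ∧
      ∀ᵐ x ∂(volume.restrict Ms1_R), H98NX.MD f (Ms1_sig x) := by
  have h0 : ∀ᵐ x ∂(volume : Measure (ℝ × ℝ)), x ∈ U → H98NX.MD f x :=
    H98NX.md_ae volume hX Ms1_Uo (H98NX.lpo_mono Ms1_UD hf.lip)
  have hR : ∀ᵐ x ∂(volume.restrict Ms1_R), H98NX.MD f x := by
    rw [ae_restrict_iff' Ms1_measR]
    filter_upwards [h0] with x hx hx'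
    exact hx (Ms1_subR hx')
  have hL : ∀ᵐ x ∂(volume.restrict Ms1_L), H98NX.MD f x := by
    rw [ae_restrict_iff' Ms1_measL]
    filter_upwards [h0] with x hx hx'
    exact hx (Ms1_subL hx')
  constructor
  · have h2 := Ms1_mpR.restrict_preimage Ms1_measR
    rw [Ms1_preR] at h2
    exact h2.quasiMeasurePreserving.ae hR
  · have h2 := Ms1_mpS.restrict_preimage Ms1_measL
    rw [Ms1_preS] at h2
    exact h2.quasiMeasurePreserving.ae hL

theorem Ms1_seam {f : ℝ × ℝ → X} (hf : Clx A B C f) {w : ℝ × ℝ} (hw : w ∈ D \ P) (h1 : w.1 = 1/2) :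
    Ms1_G B f w = B (f (Ms1_sig w)) := by
  have hv : w.2 ∈ Ioo (0:ℝ) (1/2) := by
    obtain ⟨hD, hP⟩ := hw
    constructor
    · refine lt_of_le_of_ne hD.2.1 fun h => hP ?_
      exact Ms1_memP (a := w.1) (b := w.2) (Or.inr (Or.inl h1)) (Or.inl h.symm)
    · refine lt_of_le_of_ne hD.2.2 fun h => hP ?_
      exact Ms1_memP (a := w.1) (b := w.2) (Or.inr (Or.inl h1)) (Or.inr h)
  rw [Ms1_G, if_pos h1.le]
  have h2 := hf.glu.glB w.2 hv
  have e1 : Ms1_rho w = (1 - w.2, 1/2) := by rw [Ms1_rho, h1]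
  have e2 : Ms1_sig w = (w.2, 1/2) := by
    rw [Ms1_sig, h1]
    norm_num
  rw [e1, e2, h2]

theorem Ms1_lip {f : ℝ × ℝ → X} (hf : Clx A B C f) : Lpo (Ms1_G B f) (D \ P) := by
  apply H98NX.lpo_loc
  intro z0 hz0
  have hPf : P.Finite := by
    have h1 : ({0, 1/2, 1} : Set ℝ).Finite := (Set.finite_singleton _).insert _ |>.insert _
    have h2 : ({0, 1/2} : Set ℝ).Finite := (Set.finite_singleton _).insert _
    exact h1.prod h2
  have hPo : Pᶜ ∈ 𝓝 z0 := hPf.isClosed.isOpen_compl.mem_nhds hz0.2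
  obtain ⟨r, hr, hrP⟩ := Metric.nhds_basis_closedBall.mem_iff.1 hPo
  have hDc : IsCompact D := isCompact_Icc.prod isCompact_Icc
  have hK : IsCompact (D ∩ Metric.closedBall z0 r) := hDc.inter_right Metric.isClosed_closedBall
  have hKL : IsCompact (D ∩ Metric.closedBall z0 r ∩ {x | x.1 ≤ 1/2}) :=
    hK.inter_right (isClosed_le continuous_fst continuous_const)
  have hKR : IsCompact (D ∩ Metric.closedBall z0 r ∩ {x | 1/2 ≤ x.1}) :=
    hK.inter_right (isClosed_le continuous_const continuous_fst)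
  have hKD : ∀ x ∈ D ∩ Metric.closedBall z0 r, x ∈ D \ P := fun x hx => ⟨hx.1, hrP hx.2⟩
  obtain ⟨L1, hL1⟩ := hf.lip (Ms1_rho '' (D ∩ Metric.closedBall z0 r ∩ {x | x.1 ≤ 1/2})) (by
    rintro _ ⟨x, hx, rfl⟩
    exact Ms1_rhoD (hKD x hx.1) hx.2) (hKL.image Ms1_contR)
  obtain ⟨L2, hL2⟩ := hf.lip (Ms1_sig '' (D ∩ Metric.closedBall z0 r ∩ {x | 1/2 ≤ x.1})) (by
    rintro _ ⟨x, hx, rfl⟩
    exact Ms1_sigD (hKD x hx.1) hx.2) (hKR.image Ms1_contS)
  have lL : ∀ x ∈ D ∩ Metric.closedBall z0 r, x.1 ≤ 1/2 → ∀ y ∈ D ∩ Metric.closedBall z0 r, y.1 ≤ 1/2 →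
      dist (Ms1_G B f x) (Ms1_G B f y) ≤ |L1| * dist x y := by
    intro x hx h y hy h'
    rw [Ms1_G, Ms1_G, if_pos h, if_pos h']
    refine (hL1 _ ⟨x, ⟨hx, h⟩, rfl⟩ _ ⟨y, ⟨hy, h'⟩, rfl⟩).trans ?_
    rw [Ms1_distR]
    exact mul_le_mul_of_nonneg_right (le_abs_self _) dist_nonneg
  have gR : ∀ x ∈ D ∩ Metric.closedBall z0 r, 1/2 ≤ x.1 → Ms1_G B f x = B (f (Ms1_sig x)) := by
    intro x hx h
    rcases h.lt_or_eq with h1 | h1
    · rw [Ms1_G, if_neg (not_le.2 h1)]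
    · exact Ms1_seam hf (hKD x hx) h1.symm
  have lR : ∀ x ∈ D ∩ Metric.closedBall z0 r, 1/2 ≤ x.1 → ∀ y ∈ D ∩ Metric.closedBall z0 r, 1/2 ≤ y.1 →
      dist (Ms1_G B f x) (Ms1_G B f y) ≤ |L2| * dist x y := by
    intro x hx h y hy h'
    rw [gR x hx h, gR y hy h', B.dist_eq]
    refine (hL2 _ ⟨x, ⟨hx, h⟩, rfl⟩ _ ⟨y, ⟨hy, h'⟩, rfl⟩).trans ?_
    rw [Ms1_distS]
    exact mul_le_mul_of_nonneg_right (le_abs_self _) dist_nonneg
  have mixed : ∀ x ∈ D ∩ Metric.closedBall z0 r, x.1 ≤ 1/2 → ∀ y ∈ D ∩ Metric.closedBall z0 r, 1/2 ≤ y.1 →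
      dist (Ms1_G B f x) (Ms1_G B f y) ≤ (|L1| + |L2|) * dist x y := by
    intro x hx h y hy h'
    have hzd : dist x (1/2, x.2) ≤ dist x y := by
      rw [Ms1_dist, Ms1_dist]
      apply max_le
      · refine le_trans ?_ (le_max_left _ _)
        rw [abs_of_nonpos (by simp only; linarith), abs_of_nonpos (by linarith)]
        simp only
        linarith
      · simp
    have hyd : dist (1/2, x.2) y ≤ dist x y := by
      rw [Ms1_dist, Ms1_dist]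
      apply max_le
      · refine le_trans ?_ (le_max_left _ _)
        rw [abs_of_nonpos (by simp only; linarith), abs_of_nonpos (by linarith)]
        simp only
        linarith
      · exact le_max_right _ _
    have hz : ((1/2, x.2) : ℝ × ℝ) ∈ D ∩ Metric.closedBall z0 r := by
      refine ⟨⟨⟨by norm_num, by norm_num⟩, hx.1.2⟩, ?_⟩
      have h1 := hx.2
      have h2 := hy.2
      rw [Metric.mem_closedBall, Ms1_dist, max_le_iff, abs_le] at h1 h2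
      rw [Metric.mem_closedBall, Ms1_dist, max_le_iff, abs_le]
      refine ⟨⟨?_, ?_⟩, h1.2⟩
      · simp only
        linarith [h1.1.1]
      · simp only
        linarith [h2.1.2]
    have e1 := lL x hx h (1/2, x.2) hz le_rfl
    have e2 := lR (1/2, x.2) hz le_rfl y hy h'
    calc dist (Ms1_G B f x) (Ms1_G B f y) ≤
          dist (Ms1_G B f x) (Ms1_G B f (1/2, x.2)) + dist (Ms1_G B f (1/2, x.2)) (Ms1_G B f y) :=
            dist_triangle _ _ _
      _ ≤ |L1| * dist x (1/2, x.2) + |L2| * dist (1/2, x.2) y := add_le_add e1 e2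
      _ ≤ |L1| * dist x y + |L2| * dist x y :=
            add_le_add (mul_le_mul_of_nonneg_left hzd (abs_nonneg _))
              (mul_le_mul_of_nonneg_left hyd (abs_nonneg _))
      _ = (|L1| + |L2|) * dist x y := by ring
  refine ⟨r, hr, |L1| + |L2|, ?_⟩
  rintro x ⟨hx, hxb⟩ y ⟨hy, hyb⟩
  have hx' : x ∈ D ∩ Metric.closedBall z0 r := ⟨hx.1, Metric.ball_subset_closedBall hxb⟩
  have hy' : y ∈ D ∩ Metric.closedBall z0 r := ⟨hy.1, Metric.ball_subset_closedBall hyb⟩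
  have h1 := abs_nonneg L1
  have h2 := abs_nonneg L2
  rcases le_total x.1 (1/2) with h | h <;> rcases le_total y.1 (1/2) with h' | h'
  · exact (lL x hx' h y hy' h').trans (mul_le_mul_of_nonneg_right (by linarith) dist_nonneg)
  · exact mixed x hx' h y hy' h'
  · rw [dist_comm, dist_comm x y]
    exact mixed y hy' h' x hx' h
  · exact (lR x hx' h y hy' h').trans (mul_le_mul_of_nonneg_right (by linarith) dist_nonneg)

theorem Ms1_glu {f : ℝ × ℝ → X} (hf : Clx A B C f) : Glu (B * C⁻¹) B (B * A⁻¹) (Ms1_G B f) := by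
  have hinv : ∀ (F : X ≃ᵢ X) (x : X), (B * F⁻¹) (F x) = B x := by
    intro F x
    change B (F.symm (F x)) = B x
    rw [IsometryEquiv.symm_apply_apply]
  refine ⟨?_, ?_, ?_⟩
  · intro v hv
    have e1 : Ms1_G B f (1, v) = B (f (v, 0)) := by
      rw [Ms1_G, if_neg (by norm_num)]
      simp [Ms1_sig]
    have e2 : Ms1_G B f (0, v) = A (f (v, 0)) := by
      rw [Ms1_G, if_pos (by norm_num), ← hf.glu.glA v hv]
      rfl
    rw [e1, e2, hinv]
  · intro u hu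
    have e1 : Ms1_G B f (1 - u, 0) = B (f (0, u)) := by
      rw [Ms1_G, if_neg (by simp only; linarith [hu.2])]
      simp [Ms1_sig]
    have e2 : Ms1_G B f (u, 0) = C (f (0, u)) := by
      rw [Ms1_G, if_pos hu.2.le, ← hf.glu.glC u hu]
      simp [Ms1_rho]
    rw [e1, e2, hinv]
  · intro u hu
    have e1 : Ms1_G B f (1 - u, 1/2) = B (f (1/2, u)) := by
      rw [Ms1_G, if_neg (by simp only; linarith [hu.2])]
      simp [Ms1_sig]
    have e2 : Ms1_G B f (u, 1/2) = f (1/2, u) := by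
      rw [Ms1_G, if_pos hu.2.le]
      simp only [Ms1_rho]
      norm_num
    rw [e1, e2]

theorem Ms1_q {f : ℝ × ℝ → X} {w : ℝ × ℝ} (h : H98NX.MD f w) {x y : ℝ} (hy : 0 < y) :
    (sp f (-(f1 x y).2, (f1 x y).1) w ^ 2 + sp f (-(f2 x y).2, (f2 x y).1) w ^ 2 =
      sp f (f1 (-x / (x ^ 2 + y ^ 2)) (y / (x ^ 2 + y ^ 2))) w ^ 2 +
        sp f (f2 (-x / (x ^ 2 + y ^ 2)) (y / (x ^ 2 + y ^ 2))) w ^ 2) ∧
    (sp f ((f1 x y).2, -(f1 x y).1) w ^ 2 + sp f ((f2 x y).2, -(f2 x y).1) w ^ 2 =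
      sp f (f1 (-x / (x ^ 2 + y ^ 2)) (y / (x ^ 2 + y ^ 2))) w ^ 2 +
        sp f (f2 (-x / (x ^ 2 + y ^ 2)) (y / (x ^ 2 + y ^ 2))) w ^ 2) := by
  obtain ⟨b, -, hb⟩ := H98NX.sp_pair h
  obtain ⟨s, hs⟩ : ∃ s, s = x ^ 2 + y ^ 2 := ⟨_, rfl⟩
  have hs0 : 0 < s := by
    rw [hs]
    positivity
  obtain ⟨c, hc⟩ : ∃ c, c = Real.sqrt y := ⟨_, rfl⟩
  have hc0 : 0 < c := by
    rw [hc]
    exact Real.sqrt_pos.2 hy
  have hc2 : c ^ 2 = y := by
    rw [hc]
    exact Real.sq_sqrt hy.le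
  obtain ⟨c', hc'⟩ : ∃ c', c' = Real.sqrt (y / s) := ⟨_, rfl⟩
  have hys : 0 < y / s := div_pos hy hs0
  have hc0' : 0 < c' := by
    rw [hc']
    exact Real.sqrt_pos.2 hys
  have hc2' : c' ^ 2 = y / s := by
    rw [hc']
    exact Real.sq_sqrt hys.le
  rw [← hs]
  simp only [f1, f2, ← hc, ← hc']
  have k1 : c' ^ 2 + (-(-x / s) / c') ^ 2 = 1 / y := by
    rw [div_pow, hc2', hs]
    rw [← hs]
    field_simp
    rw [hs]
    ring
  have k2 : (-(-x / s) / c') * (1 / c') = x / y := by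
    have : (-(-x / s) / c') * (1 / c') = (x / s) / c' ^ 2 := by
      field_simp
    rw [this, hc2']
    field_simp
  have k3 : (1 / c') ^ 2 = s / y := by
    rw [div_pow, hc2']
    field_simp
  have k4 : (1 / c) ^ 2 = 1 / y := by
    rw [div_pow, hc2, one_pow]
  have k5 : (-x / c) ^ 2 + c ^ 2 = s / y := by
    rw [div_pow, hc2, hs]
    field_simp
  have k6 : (-x / c) * (1 / c) = -x / y := by
    have : (-x / c) * (1 / c) = -x / c ^ 2 := by
      field_simp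
    rw [this, hc2]
  have g1 := hb (-0) c
  have g2 := hb (-(1 / c)) (-x / c)
  have g3 := hb c' 0
  have g4 := hb (-(-x / s) / c') (1 / c')
  have g5 := hb 0 (-c)
  have g6 := hb (1 / c) (-(-x / c))
  constructor
  · linear_combination g1 + g2 - g3 - g4 + (sp f (1, 0) w ^ 2) * (k4 - k1) + 2 * b * (-k6 - k2) +
      (sp f (0, 1) w ^ 2) * (k5 - k3)
  · linear_combination g5 + g6 - g3 - g4 + (sp f (1, 0) w ^ 2) * (k4 - k1) + 2 * b * (-k6 - k2) +
      (sp f (0, 1) w ^ 2) * (k5 - k3)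

theorem moveS_x (hX : Npc X gm) {f : ℝ × ℝ → X} (hf : Clx A B C f) :
    ∃ g : ℝ × ℝ → X, Clx (B * C⁻¹) B (B * A⁻¹) g ∧ ∀ x y : ℝ, 0 < y →
      Ex x y g = Ex (-x / (x ^ 2 + y ^ 2)) (y / (x ^ 2 + y ^ 2)) f := by
  obtain ⟨mL, mR⟩ := Ms1_md hX hf
  refine ⟨Ms1_G B f, ⟨Ms1_lip hf, Ms1_glu hf, ?_⟩, ?_⟩
  · refine (Ms1_tr ?_ ?_).1 hf.fin
    · filter_upwards [mL, ae_restrict_mem Ms1_measL] with z hm hz
      rw [Ms1_spL B f hz.1.2, Ms1_spL B f hz.1.2]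
      obtain ⟨b, -, hb⟩ := H98NX.sp_pair hm
      have g1 := hb (-(0:ℝ)) 1
      have g2 := hb (-(1:ℝ)) 0
      change sp f (-(0:ℝ), (1:ℝ)) (Ms1_rho z) ^ 2 + sp f (-(1:ℝ), (0:ℝ)) (Ms1_rho z) ^ 2 = _
      rw [g1, g2]
      ring
    · filter_upwards [mR, ae_restrict_mem Ms1_measR] with z hm hz
      rw [Ms1_spR B f hz.1.1, Ms1_spR B f hz.1.1]
      obtain ⟨b, -, hb⟩ := H98NX.sp_pair hm
      have g1 := hb (0:ℝ) (-1)
      have g2 := hb (1:ℝ) (-0)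
      change sp f ((0:ℝ), (-1:ℝ)) (Ms1_sig z) ^ 2 + sp f ((1:ℝ), (-0:ℝ)) (Ms1_sig z) ^ 2 = _
      rw [g1, g2]
      ring
  · intro x y hy
    refine (Ms1_tr ?_ ?_).2
    · filter_upwards [mL, ae_restrict_mem Ms1_measL] with z hm hz
      rw [Ms1_spL B f hz.1.2, Ms1_spL B f hz.1.2]
      exact (Ms1_q hm hy).1
    · filter_upwards [mR, ae_restrict_mem Ms1_measR] with z hm hz
      rw [Ms1_spR B f hz.1.1, Ms1_spR B f hz.1.1]
      exact (Ms1_q hm hy).2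

end H50NA
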