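import Pool.Agent.H80.NA.Exl
import Pool.Agent.H80.HM.Mvt

set_option autoImplicit false

/-!
# Row Mt1: the move T for maps into X

g(z) := f(u+v, v) if u+v <= 1, C f(u+v-1, v) if u+v > 1 (z = (u,v)). (Adaptation of Pool/Agent/H80/HM/Mvt.lean, which treats matrix valued metrics.)
* g is Lipschitz on compact subsets of D \ P: lpo_loc (row Ea of H98/NX): local condition at every z0 in D \ P. Write Sz = (u+v,v), a linear bijection. u0+v0 < 1: near z0 in D, g = f o S, S z0 in D \ P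
  (second coordinate 0: S z0 = z0; second coordinate 1/2: S z0 = (u0+1/2,1/2), in P only if u0 = 0 (z0 in P) or u0 = 1/2 (excluded by u0+v0<1)); the points S z, z in D near z0, lie in a compact subset of
  D \ P (closed ball around S z0 intersected with D). u0+v0 > 1: g = C o f o (S - (1,0)); same argument. u0+v0 = 1: then 0 < v0 < 1/2 (v0 = 0: z0 = (1,0), v0 = 1/2: z0 = (1/2,1/2), both in P), S z0 =
  (1,v0) in Ws 1, and g = (ext A B C 1 f) o S near z0 (ext 1 f x = f x if x in D, C f(x - (1,0)) otherwise), ext_lip with S = D \ P.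
* side: g(1,v) = C f(v,v) = C g(0,v). * bottom: g(u,0) = f(u,0). * top, 0<u<1/2: g(u,1/2) = f(u+1/2,1/2), g(1-u,1/2) = C f(1/2-u,1/2); f(1/2+u,1/2) = B f(1/2-u,1/2) (glB at 1/2-u: 1-(1/2-u) = 1/2+u),
  so g(1-u,1/2) = C B^-1 g(u,1/2).
* speeds: for z in U with u+v < 1: sp g t z = sp f (St) (Sz) (sp_loc, sp_lin of row Eb); for u+v > 1: sp g t z = sp f (St)(Sz - (1,0)) (sp_isom). S f1 x y = f1 (x-1) y, S f2 x y = f2 (x-1) y (components:
  (-x/sqrt y + 1/sqrt y, 1/sqrt y)). S(1,0) = (1,0), S(0,1) = (1,1), and sp f (1,1)^2 <= 2 sp f (1,0)^2 + 2 sp f (0,1)^2 a.e. (sp_pair, md_ae of row Eh).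
* integrals: U is up to null sets the disjoint union of {u+v<1}, {u+v>1}; S maps the first onto {u > v} cap U, S - (1,0) maps the second onto {u < v} cap U, both measure preserving (as in Mvt.lean: change
  of variables of determinant 1). So int_U (sp g f1^2 + sp g f2^2) = int_U (same for f with x - 1), also integrability.
-/

namespace H50NA

open MeasureTheory Set Filter Topology
open H80HM (D U P f1 f2)

variable {X : Type} [MetricSpace X] {gm : X → X → ℝ → X} {A B C : X ≃ᵢ X}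

/-- Lipschitz away from the punctures -/
def Mt1_Lz (f : ℝ × ℝ → X) : Prop :=
  ∀ d : ℝ, 0 < d → ∃ K : ℝ, ∀ x ∈ H80HM.Dd d, ∀ y ∈ H80HM.Dd d, dist (f x) (f y) ≤ K * dist x y

theorem Mt1_of_lpo {f : ℝ × ℝ → X} (hf : Lpo f (D \ P)) : Mt1_Lz f := fun d hd =>
  hf _ (H80HM.dd_sub hd) (H80HM.dd_compact d)

theorem Mt1_to_lpo {f : ℝ × ℝ → X} (hf : Mt1_Lz f) : Lpo f (D \ P) := by
  intro K hK hKc
  have hP : IsClosed (P : Set (ℝ × ℝ)) := by
    apply Set.Finite.isClosed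
    exact Set.Finite.prod (Set.toFinite _) (Set.toFinite _)
  have hdis : Disjoint K P := Set.disjoint_left.2 fun x hx hxP => (hK hx).2 hxP
  obtain ⟨d, hd, hdd⟩ := hdis.exists_cthickenings hKc hP
  obtain ⟨L, hL⟩ := hf d hd
  have hsub : K ⊆ H80HM.Dd d := by
    intro x hx
    refine ⟨(hK hx).1, fun p hp => ?_⟩
    by_contra hcon
    rw [not_le] at hcon
    have h1 : x ∈ Metric.cthickening d K := Metric.self_subset_cthickening K hx
    have h2 : x ∈ Metric.cthickening d P := Metric.mem_cthickening_of_dist_le x p d P hp hcon.le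
    exact Set.disjoint_left.1 hdd h1 h2
  exact ⟨L, fun x hx y hy => hL x (hsub hx) y (hsub hy)⟩

open Classical in
/-- the new map -/
noncomputable def Mt1_g (C : X ≃ᵢ X) (f : ℝ × ℝ → X) (z : ℝ × ℝ) : X :=
  if z.1 + z.2 ≤ 1 then f (H80HM.Mvt_S z) else C (f (H80HM.Mvt_T z))

theorem Mt1_diam {x y : ℝ × ℝ} (hx : x ∈ D) (hy : y ∈ D) : dist x y ≤ 1 := by
  simp only [D, mem_prod, mem_Icc] at hx hy
  rw [H80HM.Mvt_dist_le]
  simp only [abs_le]
  obtain ⟨⟨a1, a2⟩, a3, a4⟩ := hx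
  obtain ⟨⟨b1, b2⟩, b3, b4⟩ := hy
  refine ⟨⟨by linarith, by linarith⟩, by linarith, by linarith⟩

theorem Mt1_p0 {d : ℝ} (hd : d ≤ 1 / 4) : ((1 / 4, 1 / 4) : ℝ × ℝ) ∈ H80HM.Dd d := by
  refine ⟨?_, fun p hp => ?_⟩
  · simp only [D, mem_prod, mem_Icc]
    norm_num
  · refine hd.trans ?_
    simp only [P, mem_prod, mem_insert_iff, mem_singleton_iff] at hp
    obtain ⟨-, hp2⟩ := hp
    rw [Prod.dist_eq]
    refine le_max_of_le_right ?_
    rw [Real.dist_eq]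
    rcases hp2 with h | h
    · rw [h]
      norm_num
    · rw [h]
      norm_num [abs_le]

theorem Mt1_lip {f : ℝ × ℝ → X} (hf : Mt1_Lz f)
    (glC : ∀ v ∈ Ioo (0:ℝ) (1/2), f (1, v) = C (f (0, v))) : Mt1_Lz (Mt1_g C f) := by
  intro d hd
  obtain ⟨δ, hδ⟩ : ∃ δ, δ = min (d / 2 / 2) (1 / 4) := ⟨_, rfl⟩
  have hδ0 : 0 < δ := by rw [hδ]; exact lt_min (by linarith) (by norm_num)
  have hδ1 : δ ≤ 1 / 4 := by rw [hδ]; exact min_le_right _ _
  obtain ⟨K1, hK1⟩ := hf δ hδ0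
  obtain ⟨R, hR⟩ : ∃ R, R = dist (f (1 / 4, 1 / 4)) (C (f (1 / 4, 1 / 4))) := ⟨_, rfl⟩
  have hR0 : 0 ≤ R := by rw [hR]; exact dist_nonneg
  have mS : ∀ x ∈ H80HM.Dd (d / 2), x.1 + x.2 ≤ 1 → H80HM.Mvt_S x ∈ H80HM.Dd δ := fun x hx h => by
    rw [hδ]; exact H80HM.Mvt_Smem hx h
  have mT : ∀ x ∈ H80HM.Dd (d / 2), 1 ≤ x.1 + x.2 → H80HM.Mvt_T x ∈ H80HM.Dd δ := fun x hx h => by
    rw [hδ]; exact H80HM.Mvt_Tmem hx h
  have mono : ∀ x ∈ H80HM.Dd d, x ∈ H80HM.Dd (d / 2) := fun x hx =>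
    H80HM.Mvt_dd_mono (by linarith) hx
  have l0 : ∀ x ∈ H80HM.Dd δ, ∀ y ∈ H80HM.Dd δ, dist (f x) (f y) ≤ |K1| * dist x y :=
    fun x hx y hy => (hK1 x hx y hy).trans (mul_le_mul_of_nonneg_right (le_abs_self _) dist_nonneg)
  have lS : ∀ x ∈ H80HM.Dd (d / 2), ∀ y ∈ H80HM.Dd (d / 2), x.1 + x.2 ≤ 1 → y.1 + y.2 ≤ 1 →
      dist (f (H80HM.Mvt_S x)) (f (H80HM.Mvt_S y)) ≤ 2 * |K1| * dist x y := by
    intro x hx y hy h1 h2
    refine (l0 _ (mS x hx h1) _ (mS y hy h2)).trans ?_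
    have h3 := mul_le_mul_of_nonneg_left (H80HM.Mvt_Sd x y) (abs_nonneg K1)
    linarith
  have lT : ∀ x ∈ H80HM.Dd (d / 2), ∀ y ∈ H80HM.Dd (d / 2), 1 ≤ x.1 + x.2 → 1 ≤ y.1 + y.2 →
      dist (C (f (H80HM.Mvt_T x))) (C (f (H80HM.Mvt_T y))) ≤ 2 * |K1| * dist x y := by
    intro x hx y hy h1 h2
    rw [C.isometry.dist_eq]
    refine (l0 _ (mT x hx h1) _ (mT y hy h2)).trans ?_
    have h3 := mul_le_mul_of_nonneg_left (H80HM.Mvt_Td x y) (abs_nonneg K1)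
    linarith
  obtain ⟨K, hK⟩ : ∃ K, K = 4 * |K1| + 4 / d * (2 * |K1| + R) := ⟨_, rfl⟩
  have hq : 0 ≤ 4 / d * (2 * |K1| + R) := by positivity
  have hK1' : 2 * |K1| ≤ K := by rw [hK]; linarith [abs_nonneg K1]
  have hK3' : 4 * |K1| ≤ K := by rw [hK]; linarith
  have hK4' : 4 / d * (2 * |K1| + R) ≤ K := by rw [hK]; linarith [abs_nonneg K1]
  have key : ∀ x ∈ H80HM.Dd d, ∀ y ∈ H80HM.Dd d, x.1 + x.2 ≤ 1 → 1 < y.1 + y.2 →
      dist (f (H80HM.Mvt_S x)) (C (f (H80HM.Mvt_T y))) ≤ K * dist x y := by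
    intro x hx y hy h1 h2
    rcases lt_or_ge (dist x y) (d / 4) with h3 | h3
    · obtain ⟨v, hv, hz, e1, e2⟩ := H80HM.Mvt_seam hd hx hy h1 h2 h3
      have g : f (H80HM.Mvt_S (1 - v, v)) = C (f (H80HM.Mvt_T (1 - v, v))) := by
        have g1 : H80HM.Mvt_S (1 - v, v) = (1, v) := by simp [H80HM.Mvt_S]
        have g2 : H80HM.Mvt_T (1 - v, v) = (0, v) := by simp [H80HM.Mvt_T]
        rw [g1, g2]
        exact glC v hv
      have q1 := lS x (mono x hx) (1 - v, v) hz h1 (by simp)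
      have q2 := lT (1 - v, v) hz y (mono y hy) (by simp) h2.le
      rw [← g] at q2
      have q3 := dist_triangle (f (H80HM.Mvt_S x)) (f (H80HM.Mvt_S (1 - v, v)))
        (C (f (H80HM.Mvt_T y)))
      have q4 : 2 * |K1| * dist x (1 - v, v) ≤ 2 * |K1| * dist x y :=
        mul_le_mul_of_nonneg_left e1 (by positivity)
      have q5 : 2 * |K1| * dist (1 - v, v) y ≤ 2 * |K1| * dist x y :=
        mul_le_mul_of_nonneg_left e2 (by positivity)
      have q6 : 4 * |K1| * dist x y ≤ K * dist x y :=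
        mul_le_mul_of_nonneg_right hK3' dist_nonneg
      linarith
    · have m1 := mS x (mono x hx) h1
      have m2 := mT y (mono y hy) h2.le
      have m0 := Mt1_p0 hδ1
      have q1 : dist (f (H80HM.Mvt_S x)) (f (1 / 4, 1 / 4)) ≤ |K1| := by
        refine (l0 _ m1 _ m0).trans ?_
        have := mul_le_mul_of_nonneg_left (Mt1_diam m1.1 m0.1) (abs_nonneg K1)
        linarith
      have q2 : dist (C (f (1 / 4, 1 / 4))) (C (f (H80HM.Mvt_T y))) ≤ |K1| := by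
        rw [C.isometry.dist_eq]
        refine (l0 _ m0 _ m2).trans ?_
        have := mul_le_mul_of_nonneg_left (Mt1_diam m0.1 m2.1) (abs_nonneg K1)
        linarith
      have q3 := dist_triangle4 (f (H80HM.Mvt_S x)) (f (1 / 4, 1 / 4)) (C (f (1 / 4, 1 / 4)))
        (C (f (H80HM.Mvt_T y)))
      rw [← hR] at q3
      have q4 : dist (f (H80HM.Mvt_S x)) (C (f (H80HM.Mvt_T y))) ≤ 2 * |K1| + R := by linarith
      refine q4.trans ?_
      calc 2 * |K1| + R = 4 / d * (2 * |K1| + R) * (d / 4) := by field_simp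
        _ ≤ 4 / d * (2 * |K1| + R) * dist x y := mul_le_mul_of_nonneg_left h3 hq
        _ ≤ _ := mul_le_mul_of_nonneg_right hK4' dist_nonneg
  refine ⟨K, fun x hx y hy => ?_⟩
  unfold Mt1_g
  rcases le_or_gt (x.1 + x.2) 1 with h1 | h1 <;> rcases le_or_gt (y.1 + y.2) 1 with h2 | h2
  · rw [if_pos h1, if_pos h2]
    exact (lS x (mono x hx) y (mono y hy) h1 h2).trans
      (mul_le_mul_of_nonneg_right hK1' dist_nonneg)
  · rw [if_pos h1, if_neg (not_le.2 h2)]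
    exact key x hx y hy h1 h2
  · rw [if_neg (not_le.2 h1), if_pos h2, dist_comm, dist_comm x y]
    exact key y hy x hx h2 h1
  · rw [if_neg (not_le.2 h1), if_neg (not_le.2 h2)]
    exact (lT x (mono x hx) y (mono y hy) h1.le h2.le).trans
      (mul_le_mul_of_nonneg_right hK1' dist_nonneg)

/-- the shear as a linear map -/
def Mt1_L : (ℝ × ℝ) →ₗ[ℝ] (ℝ × ℝ) where
  toFun := H80HM.Mvt_S
  map_add' x y := by
    ext
    · simp [H80HM.Mvt_S]
      ring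
    · simp [H80HM.Mvt_S]
  map_smul' c x := by
    ext
    · simp [H80HM.Mvt_S]
      ring
    · simp [H80HM.Mvt_S]

theorem Mt1_spS (f : ℝ × ℝ → X) (t z : ℝ × ℝ) :
    sp (fun y => f (H80HM.Mvt_S y)) t z = sp f (H80HM.Mvt_S t) (H80HM.Mvt_S z) :=
  H98NX.sp_lin f H80HM.Mvt_S Mt1_L (fun x y => Mt1_L.map_add x y) t z

theorem Mt1_spT (f : ℝ × ℝ → X) (t z : ℝ × ℝ) :
    sp (fun y => f (H80HM.Mvt_T y)) t z = sp f (H80HM.Mvt_S t) (H80HM.Mvt_T z) := by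
  refine H98NX.sp_lin f H80HM.Mvt_T Mt1_L (fun x y => ?_) t z
  change H80HM.Mvt_T (x + y) = H80HM.Mvt_T x + H80HM.Mvt_S y
  ext
  · simp [H80HM.Mvt_S, H80HM.Mvt_T]
    ring
  · simp [H80HM.Mvt_S, H80HM.Mvt_T]

theorem Mt1_sp1 (f : ℝ × ℝ → X) (t : ℝ × ℝ) {z : ℝ × ℝ} (hz : z ∈ H80HM.Mvt_U1) :
    sp (Mt1_g C f) t z = sp f (H80HM.Mvt_S t) (H80HM.Mvt_S z) := by
  rw [← Mt1_spS]
  apply H98NX.sp_loc
  have hV : IsOpen {y : ℝ × ℝ | y.1 + y.2 < 1} := isOpen_lt (by fun_prop) (by fun_prop)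
  filter_upwards [hV.mem_nhds hz.2] with y hy
  exact if_pos (le_of_lt hy)

theorem Mt1_sp2 (f : ℝ × ℝ → X) (t : ℝ × ℝ) {z : ℝ × ℝ} (hz : z ∈ H80HM.Mvt_U2) :
    sp (Mt1_g C f) t z = sp f (H80HM.Mvt_S t) (H80HM.Mvt_T z) := by
  rw [← Mt1_spT, ← H98NX.sp_isom (fun y => f (H80HM.Mvt_T y)) C (fun a b => C.isometry.dist_eq a b)]
  apply H98NX.sp_loc
  have hV : IsOpen {y : ℝ × ℝ | 1 < y.1 + y.2} := isOpen_lt (by fun_prop) (by fun_prop)
  filter_upwards [hV.mem_nhds hz.2] with y hy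
  exact if_neg (not_le.2 hy)

/-- integrability of the squared speed in every direction -/
theorem Mt1_int (hX : Npc X gm) {f : ℝ × ℝ → X} (hf : Clx A B C f) (t : ℝ × ℝ) :
    IntegrableOn (fun z => sp f t z ^ 2) U := by
  have hU : IsOpen U := H80HM.Mea_isOpen
  have hUD : U ⊆ D \ P := by
    intro z hz
    simp only [U, mem_prod, mem_Ioo] at hz
    obtain ⟨⟨h1, h2⟩, h3, h4⟩ := hz
    refine ⟨?_, fun hP => ?_⟩
    · simp only [D, mem_prod, mem_Icc]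
      exact ⟨⟨h1.le, h2.le⟩, h3.le, h4.le⟩
    · simp only [P, mem_prod, mem_insert_iff, mem_singleton_iff] at hP
      rcases hP.2 with h5 | h5 <;> linarith
  have hfU : Lpo f U := H98NX.lpo_mono hUD hf.lip
  have hmeas : AEStronglyMeasurable (fun z => sp f t z ^ 2) (volume.restrict U) := by
    have h1 := ((H98NX.sp_meas hU (H98NX.lpo_cont hU hfU) t).pow_const 2).aestronglyMeasurable
      (μ := volume.restrict U)
    refine h1.congr ?_
    rw [Filter.EventuallyEq, ae_restrict_iff' hU.measurableSet]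
    filter_upwards with x hx
    rw [indicator_of_mem hx]
  have hb : ∀ᵐ z ∂(volume.restrict U), ‖sp f t z ^ 2‖ ≤
      2 * (t.1 ^ 2 + t.2 ^ 2) * (sp f (1, 0) z ^ 2 + sp f (0, 1) z ^ 2) := by
    rw [ae_restrict_iff' hU.measurableSet]
    filter_upwards [H98NX.md_ae volume hX hU hfU] with z hz hzU
    obtain ⟨b, hb1, hb2⟩ := H98NX.sp_pair (hz hzU)
    have e := hb2 t.1 t.2
    rw [Real.norm_eq_abs, abs_of_nonneg (sq_nonneg _)]
    change sp f (t.1, t.2) z ^ 2 ≤ _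
    rw [e]
    have h1 := H98NX.sp_nonneg f (1, 0) z
    have h2 := H98NX.sp_nonneg f (0, 1) z
    rw [abs_le] at hb1
    have h3 : 2 * t.1 * t.2 * b ≤ 2 * |t.1 * t.2| * (sp f (1, 0) z * sp f (0, 1) z) := by
      have h4 : t.1 * t.2 * b ≤ |t.1 * t.2 * b| := le_abs_self _
      have h5 : |t.1 * t.2 * b| ≤ |t.1 * t.2| * (sp f (1, 0) z * sp f (0, 1) z) := by
        rw [abs_mul]
        exact mul_le_mul_of_nonneg_left (abs_le.2 hb1) (abs_nonneg _)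
      linarith
    have h6 : 2 * |t.1 * t.2| ≤ t.1 ^ 2 + t.2 ^ 2 := by
      rw [abs_mul]
      nlinarith [sq_nonneg (|t.1| - |t.2|), sq_abs t.1, sq_abs t.2]
    have h7 : sp f (1, 0) z * sp f (0, 1) z ≤ sp f (1, 0) z ^ 2 + sp f (0, 1) z ^ 2 := by
      nlinarith [sq_nonneg (sp f (1, 0) z - sp f (0, 1) z)]
    have h8 : 2 * |t.1 * t.2| * (sp f (1, 0) z * sp f (0, 1) z) ≤
        (t.1 ^ 2 + t.2 ^ 2) * (sp f (1, 0) z ^ 2 + sp f (0, 1) z ^ 2) :=
      mul_le_mul h6 h7 (mul_nonneg h1 h2) (by positivity)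
    nlinarith [mul_nonneg (sq_nonneg t.1) (sq_nonneg (sp f (0, 1) z)),
      mul_nonneg (sq_nonneg t.2) (sq_nonneg (sp f (1, 0) z))]
  exact (hf.fin.const_mul _).mono' hmeas hb

theorem moveT_x (hX : Npc X gm) {f : ℝ × ℝ → X} (hf : Clx A B C f) :
    ∃ g : ℝ × ℝ → X, Clx A (C * B⁻¹) C g ∧ ∀ x y : ℝ, 0 < y → Ex x y g = Ex (x - 1) y f := by
  have cov : ∀ t t' : ℝ × ℝ, IntegrableOn (fun z => sp (Mt1_g C f) t z ^ 2 +
      sp (Mt1_g C f) t' z ^ 2) U ∧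
      ∫ z in U, (sp (Mt1_g C f) t z ^ 2 + sp (Mt1_g C f) t' z ^ 2) =
      ∫ z in U, (sp f (H80HM.Mvt_S t) z ^ 2 + sp f (H80HM.Mvt_S t') z ^ 2) := by
    intro t t'
    refine H80HM.Mvt_cov (g := fun z => sp f (H80HM.Mvt_S t) z ^ 2 + sp f (H80HM.Mvt_S t') z ^ 2)
      ((Mt1_int hX hf _).add (Mt1_int hX hf _)) (fun z hz => ?_) ?_
    · rw [Mt1_sp1 f t hz, Mt1_sp1 f t' hz]
    · filter_upwards [ae_restrict_mem H80HM.Mvt_U2_open.measurableSet] with z hz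
      rw [Mt1_sp2 f t hz, Mt1_sp2 f t' hz]
  refine ⟨Mt1_g C f, ⟨Mt1_to_lpo (Mt1_lip (Mt1_of_lpo hf.lip) hf.glu.glC), ⟨?_, ?_, ?_⟩,
    (cov (1, 0) (0, 1)).1⟩, ?_⟩
  · intro v hv
    have h1 : ¬ ((1:ℝ) + v ≤ 1) := by linarith [hv.1]
    have h2 : (0:ℝ) + v ≤ 1 := by linarith [hv.2]
    simp only [Mt1_g, H80HM.Mvt_T, H80HM.Mvt_S, if_neg h1, if_pos h2]
    congr 3 <;> simp
  · intro u hu
    have h1 : (1 - u) + 0 ≤ 1 := by linarith [hu.1]
    have h2 : u + 0 ≤ 1 := by linarith [hu.2]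
    simp only [Mt1_g, H80HM.Mvt_S, if_pos h1, if_pos h2]
    simp only [add_zero]
    exact hf.glu.glA u hu
  · intro u hu
    have h1 : ¬ ((1 - u) + 1 / 2 ≤ 1) := by linarith [hu.2]
    have h2 : u + 1 / 2 ≤ 1 := by linarith [hu.2]
    simp only [Mt1_g, H80HM.Mvt_T, H80HM.Mvt_S, if_neg h1, if_pos h2]
    have h3 := hf.glu.glB (1 / 2 - u) ⟨by linarith [hu.2], by linarith [hu.1]⟩
    have h4 : (1 - (1 / 2 - u), (1 / 2 : ℝ)) = (u + 1 / 2, 1 / 2) := by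
      ext <;> simp; ring
    have h5 : ((1 - u + 1 / 2 - 1 : ℝ), (1 / 2 : ℝ)) = (1 / 2 - u, 1 / 2) := by
      ext <;> simp; ring
    rw [h4] at h3
    rw [h5, h3, IsometryEquiv.mul_apply, IsometryEquiv.inv_apply_self]
  · intro x y hy
    have h1 := (cov (f1 x y) (f2 x y)).2
    have e1 : H80HM.Mvt_S (f1 x y) = f1 (x - 1) y := by
      simp [H80HM.Mvt_S, f1]
    have e2 : H80HM.Mvt_S (f2 x y) = f2 (x - 1) y := by
      simp only [H80HM.Mvt_S, f2]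
      refine Prod.ext ?_ rfl
      simp only
      ring
    rw [e1, e2] at h1
    exact h1

end H50NA
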