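import Pool.Agent.H80.HM.Mxf

/-!
# Row Mxl: maximum principle for limits of functions with VS

(1) As in HM/Mxf.lean (landed): f(x,y) := max_i F i x y is continuous on the upper half plane, >= 0, -> 0 at the cusp, f(x,y) <= f(x-1,y), f(z) <= f(Sz), hence invariant under z -> z+1 and z -> -1/z (copy
 that part of the proof). g_n(x,y) := max_i G i n x y is continuous with VS g_n, and g_n -> f locally uniformly (|max a - max b| <= max |a-b|).
(2) Maximum principle with approximation. Suppose f is not 0. As in HM/Mxp.lean (landed): f attains its maximum m > 0 at some z* = (x*,y*), F(y) := max over x of f(x,y) is continuous, F <= m, F(y*) = m,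
 F(y) -> 0 as y -> oo. Choose 0 < y1 < y* < y2 with F(y2) < m and L affine with L(y1) = m, L(y2) = (m+F(y2))/2, so L(y*) < m. Let
 psi(x,y) := f(x,y) - L(y) + eta y^2 - (eta/4)(x - x*)^2 on the box Q = [x*-1,x*+1] x [y1,y2]. psi(x*,y*) = m - L(y*) + eta y*^2. On y = y1: psi <= eta y1^2 < eta y*^2 <= ... (f <= m = L(y1)); on y = y2:
 psi <= F(y2) - L(y2) + eta y2^2 = -(m-F(y2))/2 + eta y2^2 < 0 for small eta; on |x-x*| = 1: psi <= psi without the last term - eta/4; hmm, this needs care: choose (x*,y*) differently: let Phi(y) := F(y) - L(y)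
 + eta y^2 on [y1,y2], with maximum value M1 at an interior point y0 (its values at y1, y2 are smaller than at y*), and x0 with f(x0,y0) = F(y0). Use x0 in place of x*:
 psi(x,y) := f(x,y) - L(y) + eta y^2 - (eta/4)(x-x0)^2. Then psi(x,y) <= Phi(y) - (eta/4)(x-x0)^2 <= M1 - (eta/4)(x-x0)^2 with psi(x0,y0) = M1. On the sides |x-x0| = 1: psi <= M1 - eta/4; on y = y1 or y2:
 psi <= max(Phi(y1),Phi(y2)) < M1. So there is del > 0 with psi <= M1 - del on the boundary of Q.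
(3) n large: |g_n - f| <= del/4 on Q. psi_n := g_n - L + eta y^2 - (eta/4)(x-x0)^2 is continuous on Q, <= M1 - 3del/4 on the boundary, >= M1 - del/4 at (x0,y0): it has an interior maximum point (x',y').
 VS g_n at (x',y') with ep = eta y'^2/2 =: e: for small s, 4 g_n(x',y') - e s^2 <= sum of g_n at the four points (in Q for small s), and g_n(x,y) <= g_n(x',y') + [L(y) - L(y')] - eta (y^2 - y'^2)
 + (eta/4)((x-x0)^2 - (x'-x0)^2). Four points: (x', y'e^s), (x', y'e^-s), (x' -+ y' tanh s, y'/cosh s). Sum of y_k - 4y' = 2y'(cosh s - 1)^2/cosh s <= C s^4 (see HM/Mxp.lean header), sum of y_k^2 - 4y'^2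
 >= 2 y'^2 s^2, sum of (x_k-x0)^2 - (x'-x0)^2 = 2 y'^2 tanh^2 s <= 2 y'^2 s^2. So
 -e s^2 <= |k| C s^4 - 2 eta y'^2 s^2 + (eta/2) y'^2 s^2 = |k| C s^4 - (3/2) eta y'^2 s^2, k = slope of L: false for small s > 0 since e = eta y'^2/2.
-/

set_option autoImplicit false

namespace H50NA

open H80HM

open Set Filter Topology

private lemma Mxl_inv {f : ℝ → ℝ → ℝ} (hT : ∀ x y : ℝ, 0 < y → f (x + 1) y = f x y)
    (hS : ∀ x y : ℝ, 0 < y → f (-x / (x ^ 2 + y ^ 2)) (y / (x ^ 2 + y ^ 2)) = f x y)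
    (g : Matrix.SpecialLinearGroup (Fin 2) ℤ) :
    ∀ z : UpperHalfPlane, f (g • z).re (g • z).im = f z.re z.im := by
  have hg : g ∈ Subgroup.closure {ModularGroup.S, ModularGroup.T} := by
    rw [SpecialLinearGroup.SL2Z_generators]
    exact Subgroup.mem_top g
  induction hg using Subgroup.closure_induction with
  | one =>
    intro z
    rw [one_smul]
  | mem g hg =>
    intro z
    rcases hg with rfl | hg
    · rw [UpperHalfPlane.modular_S_smul]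
      have h1 : (UpperHalfPlane.mk (-z : ℂ)⁻¹ z.im_inv_neg_coe_pos).re =
          -z.re / (z.re ^ 2 + z.im ^ 2) := by
        change ((-z : ℂ)⁻¹).re = _
        rw [Complex.inv_re, Complex.normSq_neg, Complex.normSq_apply, Complex.neg_re,
          UpperHalfPlane.coe_re, UpperHalfPlane.coe_im]
        congr 1
        ring
      have h2 : (UpperHalfPlane.mk (-z : ℂ)⁻¹ z.im_inv_neg_coe_pos).im =
          z.im / (z.re ^ 2 + z.im ^ 2) := by
        change ((-z : ℂ)⁻¹).im = _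
        rw [Complex.inv_im, Complex.normSq_neg, Complex.normSq_apply, Complex.neg_im, neg_neg,
          UpperHalfPlane.coe_re, UpperHalfPlane.coe_im]
        congr 1
        ring
      rw [h1, h2]
      exact hS _ _ z.im_pos
    · rw [mem_singleton_iff] at hg
      rw [hg, ModularGroup.re_T_smul, ModularGroup.im_T_smul]
      exact hT _ _ z.im_pos
  | mul g h _ _ ig ih =>
    intro z
    rw [mul_smul, ig, ih]
  | inv g _ ig =>
    intro z
    have h1 := ig (g⁻¹ • z)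
    rw [smul_inv_smul] at h1
    exact h1.symm

private lemma Mxl_fd {f : ℝ → ℝ → ℝ} (hT : ∀ x y : ℝ, 0 < y → f (x + 1) y = f x y)
    (hS : ∀ x y : ℝ, 0 < y → f (-x / (x ^ 2 + y ^ 2)) (y / (x ^ 2 + y ^ 2)) = f x y)
    (x y : ℝ) (hy : 0 < y) : ∃ x' y' : ℝ, |x'| ≤ 1 / 2 ∧ 1 / 2 ≤ y' ∧ f x' y' = f x y := by
  obtain ⟨z, hzr, hzi⟩ : ∃ z : UpperHalfPlane, z.re = x ∧ z.im = y :=
    ⟨UpperHalfPlane.mk ⟨x, y⟩ hy, rfl, rfl⟩
  obtain ⟨g, hg⟩ := ModularGroup.exists_smul_mem_fd z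
  refine ⟨(g • z).re, (g • z).im, hg.2, ?_, ?_⟩
  · have h1 := ModularGroup.three_le_four_mul_im_sq_of_mem_fd hg
    have h2 := (g • z).im_pos
    nlinarith
  · rw [Mxl_inv hT hS g z, hzr, hzi]

private lemma Mxl_per {f : ℝ → ℝ → ℝ} (hT : ∀ x y : ℝ, 0 < y → f (x + 1) y = f x y)
    (x y : ℝ) (hy : 0 < y) : ∃ x' : ℝ, |x'| ≤ 1 / 2 ∧ f x' y = f x y := by
  have hp : Function.Periodic (fun x => f x y) 1 := fun x => hT x y hy
  refine ⟨x - round x, abs_sub_round x, ?_⟩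
  have h1 := hp.sub_int_mul_eq (x := x) (round x)
  simp only [mul_one] at h1
  exact h1

private lemma Mxl_hyp {s : ℝ} (hs : 0 < s) :
    s ^ 2 ≤ Real.sinh s ^ 2 ∧ Real.tanh s ^ 2 ≤ Real.sinh s ^ 2 ∧
    2 * Real.sinh s ^ 2 ≤ Real.exp s ^ 2 + Real.exp (-s) ^ 2 + 2 * (1 / Real.cosh s) ^ 2 - 4 ∧
      4 ≤ Real.exp s + Real.exp (-s) + 2 * (1 / Real.cosh s) := by
  have hc1 : 1 ≤ Real.cosh s := Real.one_le_cosh s
  have hc0 : 0 < Real.cosh s := Real.cosh_pos s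
  have hc : Real.exp s + Real.exp (-s) = 2 * Real.cosh s := by
    rw [Real.cosh_eq]
    ring
  have hAB : Real.exp s * Real.exp (-s) = 1 := by rw [← Real.exp_add, add_neg_cancel, Real.exp_zero]
  have hsh : s ≤ Real.sinh s := Real.self_le_sinh_iff.2 hs.le
  have hcs : Real.cosh s ^ 2 = Real.sinh s ^ 2 + 1 := Real.cosh_sq s
  refine ⟨pow_le_pow_left₀ hs.le hsh 2, ?_, ?_, ?_⟩
  · rw [Real.tanh_eq_sinh_div_cosh, div_pow]
    apply div_le_self (sq_nonneg _)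
    nlinarith
  · have h1 : Real.exp s ^ 2 + Real.exp (-s) ^ 2 = 4 * Real.cosh s ^ 2 - 2 := by
      have : (Real.exp s + Real.exp (-s)) ^ 2 = 4 * Real.cosh s ^ 2 := by rw [hc]; ring
      nlinarith
    have h2 : 1 - Real.sinh s ^ 2 ≤ (1 / Real.cosh s) ^ 2 := by
      rw [div_pow, one_pow, le_div_iff₀ (by positivity), hcs]
      nlinarith [sq_nonneg (Real.sinh s ^ 2)]
    rw [h1, hcs]
    nlinarith
  · rw [hc]
    have h1 : 2 - Real.cosh s ≤ 1 / Real.cosh s := by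
      rw [le_div_iff₀ hc0]
      nlinarith [sq_nonneg (Real.cosh s - 1)]
    linarith

/-- the four points stay in a box -/
private lemma Mxl_four {x0 y1 y2 x' y' : ℝ} (hy1 : 0 < y1) (hxa : x0 - 1 < x') (hxb : x' < x0 + 1)
    (hya : y1 < y') (hyb : y' < y2) {s0 : ℝ} (hs0 : 0 < s0) : ∃ s : ℝ, 0 < s ∧ s < s0 ∧
      y' * Real.exp s ≤ y2 ∧ y1 ≤ y' * Real.exp (-s) ∧ y' ≤ y' * Real.exp s ∧
      y' * Real.exp (-s) ≤ y' ∧ y1 ≤ y' / Real.cosh s ∧ y' / Real.cosh s ≤ y' ∧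
      x0 - 1 ≤ x' - y' * Real.tanh s ∧ x' - y' * Real.tanh s ≤ x0 + 1 ∧
      x0 - 1 ≤ x' + y' * Real.tanh s ∧ x' + y' * Real.tanh s ≤ x0 + 1 := by
  have hy' : 0 < y' := hy1.trans hya
  have ct : Continuous fun s : ℝ => Real.tanh s := by
    have h : (fun s : ℝ => Real.tanh s) = fun s => Real.sinh s / Real.cosh s :=
      funext Real.tanh_eq_sinh_div_cosh
    rw [h]
    exact Real.continuous_sinh.div Real.continuous_cosh (fun s => (Real.cosh_pos s).ne')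
  have c1 : Filter.Tendsto (fun s : ℝ => y' * Real.exp s) (nhds 0) (nhds y') := by
    have hc : Continuous fun s : ℝ => y' * Real.exp s := continuous_const.mul Real.continuous_exp
    have h := hc.tendsto 0
    simp only [Real.exp_zero, mul_one] at h
    exact h
  have c2 : Filter.Tendsto (fun s : ℝ => y' * Real.exp (-s)) (nhds 0) (nhds y') := by
    have hc : Continuous fun s : ℝ => y' * Real.exp (-s) :=
      continuous_const.mul (Real.continuous_exp.comp continuous_neg)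
    have h := hc.tendsto 0
    simp only [neg_zero, Real.exp_zero, mul_one] at h
    exact h
  have c3 : Filter.Tendsto (fun s : ℝ => y' / Real.cosh s) (nhds 0) (nhds y') := by
    have hc : Continuous fun s : ℝ => y' / Real.cosh s :=
      continuous_const.div Real.continuous_cosh (fun s => (Real.cosh_pos s).ne')
    have h := hc.tendsto 0
    simp only [Real.cosh_zero, div_one] at h
    exact h
  have c4 : Filter.Tendsto (fun s : ℝ => x' - y' * Real.tanh s) (nhds 0) (nhds x') := by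
    have hc : Continuous fun s : ℝ => x' - y' * Real.tanh s :=
      continuous_const.sub (continuous_const.mul ct)
    have h := hc.tendsto 0
    simp only [Real.tanh_zero, mul_zero, sub_zero] at h
    exact h
  have c5 : Filter.Tendsto (fun s : ℝ => x' + y' * Real.tanh s) (nhds 0) (nhds x') := by
    have hc : Continuous fun s : ℝ => x' + y' * Real.tanh s :=
      continuous_const.add (continuous_const.mul ct)
    have h := hc.tendsto 0
    simp only [Real.tanh_zero, mul_zero, add_zero] at h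
    exact h
  have hev : ∀ᶠ s in nhds (0 : ℝ), y' * Real.exp s < y2 ∧ y1 < y' * Real.exp (-s) ∧
      y1 < y' / Real.cosh s ∧
      x0 - 1 < x' - y' * Real.tanh s ∧ x' - y' * Real.tanh s < x0 + 1 ∧
      x0 - 1 < x' + y' * Real.tanh s ∧ x' + y' * Real.tanh s < x0 + 1 := by
    filter_upwards [c1.eventually_lt_const hyb, c2.eventually_const_lt hya,
      c3.eventually_const_lt hya, c4.eventually_const_lt hxa, c4.eventually_lt_const hxb,
      c5.eventually_const_lt hxa, c5.eventually_lt_const hxb] with s a1 a2 a3 a4 a5 a6 a7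
    exact ⟨a1, a2, a3, a4, a5, a6, a7⟩
  rw [Metric.eventually_nhds_iff] at hev
  obtain ⟨r, hr, hb⟩ := hev
  have hmin : 0 < min (s0 / 2) (r / 2) := lt_min (by linarith) (by linarith)
  obtain ⟨a1, a2, a3, a4, a5, a6, a7⟩ := hb (y := min (s0 / 2) (r / 2)) (by
    rw [Real.dist_eq, sub_zero, abs_of_pos hmin]
    exact lt_of_le_of_lt (min_le_right _ _) (by linarith))
  refine ⟨min (s0 / 2) (r / 2), hmin, lt_of_le_of_lt (min_le_left _ _) (by linarith), a1.le,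
    a2.le, ?_, ?_, a3.le, ?_, a4.le, a5.le, a6.le, a7.le⟩
  · exact le_mul_of_one_le_right hy'.le (Real.one_le_exp hmin.le)
  · exact mul_le_of_le_one_right hy'.le (Real.exp_le_one_iff.2 (by linarith))
  · exact div_le_self hy'.le (Real.one_le_cosh _)

/-- the key step: an interior maximum of `g - L + η y^2 - κ (x - x0)^2` is impossible -/
private lemma Mxl_key {g : ℝ → ℝ → ℝ} (hv : VS g) {x0 y1 y2 m k η x' y' : ℝ} (hy1 : 0 < y1)
    (hk : k ≤ 0) (hη : 0 < η)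
    (hxa : x0 - 1 < x') (hxb : x' < x0 + 1) (hya : y1 < y') (hyb : y' < y2)
    (hmax : ∀ x t : ℝ, x0 - 1 ≤ x → x ≤ x0 + 1 → y1 ≤ t → t ≤ y2 →
      g x t - (m + k * (t - y1)) + η * t ^ 2 - η / 4 * (x - x0) ^ 2 ≤
      g x' y' - (m + k * (y' - y1)) + η * y' ^ 2 - η / 4 * (x' - x0) ^ 2) : False := by
  have hy' : 0 < y' := hy1.trans hya
  obtain ⟨s0, hs0, hvs⟩ := hv x' y' hy' (η * y' ^ 2) (by positivity)
  obtain ⟨s, hs, hss0, b1, b2, b3, b4, b5, b6, b7, b8, b9, b10⟩ :=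
    Mxl_four hy1 hxa hxb hya hyb hs0
  have q := hvs s hs hss0
  have q1 := hmax x' (y' * Real.exp s) hxa.le hxb.le (hya.le.trans b3) b1
  have q2 := hmax x' (y' * Real.exp (-s)) hxa.le hxb.le b2 (b4.trans hyb.le)
  have q3 := hmax (x' - y' * Real.tanh s) (y' / Real.cosh s) b7 b8 b5 (b6.trans hyb.le)
  have q4 := hmax (x' + y' * Real.tanh s) (y' / Real.cosh s) b9 b10 b5 (b6.trans hyb.le)
  obtain ⟨r1, r2, r3, r4⟩ := Mxl_hyp hs
  have hcs : y' / Real.cosh s = y' * (1 / Real.cosh s) := by ring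
  rw [hcs] at q q3 q4
  obtain ⟨E1, hE1⟩ : ∃ z, z = Real.exp s := ⟨_, rfl⟩
  obtain ⟨E2, hE2⟩ : ∃ z, z = Real.exp (-s) := ⟨_, rfl⟩
  obtain ⟨C, hC⟩ : ∃ z, z = 1 / Real.cosh s := ⟨_, rfl⟩
  obtain ⟨t, ht⟩ : ∃ z, z = Real.tanh s := ⟨_, rfl⟩
  obtain ⟨S, hS⟩ : ∃ z, z = Real.sinh s := ⟨_, rfl⟩
  rw [← hE1, ← hE2, ← hC, ← ht] at q
  rw [← hE1] at q1
  rw [← hE2] at q2
  rw [← hC, ← ht] at q3 q4
  rw [← hS] at r1
  rw [← ht, ← hS] at r2
  rw [← hE1, ← hE2, ← hC, ← hS] at r3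
  rw [← hE1, ← hE2, ← hC] at r4
  have e1 : k * (y' * (E1 + E2 + 2 * C - 4)) ≤ 0 :=
    mul_nonpos_of_nonpos_of_nonneg hk (mul_nonneg hy'.le (by linarith))
  have hp : 0 < η * y' ^ 2 := by positivity
  have e2 : η * y' ^ 2 * (2 * S ^ 2) ≤ η * y' ^ 2 * (E1 ^ 2 + E2 ^ 2 + 2 * C ^ 2 - 4) :=
    mul_le_mul_of_nonneg_left r3 hp.le
  have e3 : η * y' ^ 2 * t ^ 2 ≤ η * y' ^ 2 * S ^ 2 := mul_le_mul_of_nonneg_left r2 hp.le
  have e4 : η * y' ^ 2 * s ^ 2 ≤ η * y' ^ 2 * S ^ 2 := mul_le_mul_of_nonneg_left r1 hp.le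
  have e5 : 0 < η * y' ^ 2 * s ^ 2 := by positivity
  have hsum : 4 * g x' y' - η * y' ^ 2 * s ^ 2 ≤ 4 * g x' y' +
      k * (y' * (E1 + E2 + 2 * C - 4)) - η * y' ^ 2 * (E1 ^ 2 + E2 ^ 2 + 2 * C ^ 2 - 4) +
      1 / 2 * (η * y' ^ 2 * t ^ 2) := by
    linarith [q, q1, q2, q3, q4]
  linarith

private theorem Mxl_princ {f : ℝ → ℝ → ℝ} {g : ℕ → ℝ → ℝ → ℝ}
    (hc : ContinuousOn (fun z : ℝ × ℝ => f z.1 z.2) {z : ℝ × ℝ | 0 < z.2})
    (hT : ∀ x y : ℝ, 0 < y → f (x + 1) y = f x y)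
    (hS : ∀ x y : ℝ, 0 < y → f (-x / (x ^ 2 + y ^ 2)) (y / (x ^ 2 + y ^ 2)) = f x y)
    (h0 : ∀ x y : ℝ, 0 < y → 0 ≤ f x y)
    (hcusp : ∀ ep : ℝ, 0 < ep → ∃ Y : ℝ, ∀ x y : ℝ, |x| ≤ 1 / 2 → Y ≤ y → f x y ≤ ep)
    (hG : ∀ n, ContinuousOn (fun z : ℝ × ℝ => g n z.1 z.2) {z : ℝ × ℝ | 0 < z.2})
    (hv : ∀ n, VS (g n))
    (hlim : ∀ S : Set (ℝ × ℝ), IsCompact S → S ⊆ {z : ℝ × ℝ | 0 < z.2} → ∀ ep : ℝ, 0 < ep →
      ∃ N : ℕ, ∀ n ≥ N, ∀ z ∈ S, |g n z.1 z.2 - f z.1 z.2| ≤ ep) :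
    ∀ x y : ℝ, 0 < y → f x y = 0 := by
  intro a b hb
  by_contra hne
  have hm0 : 0 < f a b := lt_of_le_of_ne (h0 a b hb) (Ne.symm hne)
  -- the maximum
  obtain ⟨Y, hY⟩ := hcusp (f a b / 2) (by linarith)
  obtain ⟨a', b', ha', hb', hab⟩ := Mxl_fd hT hS a b hb
  have hb'Y : b' < max Y 1 := by
    by_contra hcon
    have h1 := hY a' b' ha' ((le_max_left _ _).trans (not_lt.1 hcon))
    rw [hab] at h1
    linarith
  have hK : IsCompact (Icc (-(1/2) : ℝ) (1/2) ×ˢ Icc (1/2 : ℝ) (max Y 1)) :=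
    isCompact_Icc.prod isCompact_Icc
  have hKc : ContinuousOn (fun z : ℝ × ℝ => f z.1 z.2)
      (Icc (-(1/2) : ℝ) (1/2) ×ˢ Icc (1/2 : ℝ) (max Y 1)) := by
    apply hc.mono
    intro z hz
    exact lt_of_lt_of_le (by norm_num) hz.2.1
  obtain ⟨⟨xs, ys⟩, hzs, hmax⟩ := hK.exists_isMaxOn
    ⟨(a', b'), ⟨abs_le.1 ha', ⟨hb', hb'Y.le⟩⟩⟩ hKc
  obtain ⟨m, hm⟩ : ∃ m : ℝ, m = f xs ys := ⟨_, rfl⟩
  have hys : 0 < ys := lt_of_lt_of_le (by norm_num) hzs.2.1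
  have hmab : f a b ≤ m := by
    rw [← hab, hm]
    exact hmax (show (a', b') ∈ _ from ⟨abs_le.1 ha', ⟨hb', hb'Y.le⟩⟩)
  have hmpos : 0 < m := hm0.trans_le hmab
  have hle : ∀ x y : ℝ, 0 < y → f x y ≤ m := by
    intro x y hy
    obtain ⟨x', y', hx', hy', hxy⟩ := Mxl_fd hT hS x y hy
    rw [← hxy]
    rcases le_or_gt y' (max Y 1) with h | h
    · rw [hm]
      exact hmax (show (x', y') ∈ _ from ⟨abs_le.1 hx', ⟨hy', h⟩⟩)
    · have h1 := hY x' y' hx' ((le_max_left _ _).trans h.le)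
      linarith
  -- the barrier
  obtain ⟨Y2, hY2⟩ := hcusp (m / 2) (by linarith)
  obtain ⟨y2, hy2a, hy2b⟩ : ∃ y2, Y2 ≤ y2 ∧ ys < y2 :=
    ⟨max Y2 (ys + 1), le_max_left _ _, lt_of_lt_of_le (by linarith) (le_max_right _ _)⟩
  have hy2 : 0 < y2 := hys.trans hy2b
  have hfy2 : ∀ x, f x y2 ≤ m / 2 := by
    intro x
    obtain ⟨x', hx', h⟩ := Mxl_per hT x y2 hy2
    rw [← h]
    exact hY2 x' y2 hx' hy2a
  obtain ⟨y1, hy1, hy1s⟩ : ∃ y1, 0 < y1 ∧ y1 < ys := ⟨ys / 2, by linarith, by linarith⟩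
  have hy12 : 0 < y2 - y1 := by linarith
  obtain ⟨k, hk⟩ : ∃ k : ℝ, k = -(m / 4) / (y2 - y1) := ⟨_, rfl⟩
  have hk0 : k < 0 := by
    rw [hk]
    exact div_neg_of_neg_of_pos (by linarith) hy12
  have hk2 : k * (y2 - y1) = -(m / 4) := by
    rw [hk]
    field_simp
  obtain ⟨δ, hδ⟩ : ∃ δ : ℝ, δ = -(k * (ys - y1)) := ⟨_, rfl⟩
  have hδ0 : 0 < δ := by
    rw [hδ]
    have := mul_neg_of_neg_of_pos hk0 (show 0 < ys - y1 by linarith)
    linarith
  obtain ⟨η, hη⟩ : ∃ η : ℝ, η = δ / (2 * y2 ^ 2) := ⟨_, rfl⟩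
  have hη0 : 0 < η := by rw [hη]; positivity
  have hη2 : η * y2 ^ 2 = δ / 2 := by
    rw [hη]
    field_simp
  obtain ⟨Φ, hΦ⟩ : ∃ Φ : ℝ × ℝ → ℝ,
      ∀ z, Φ z = f z.1 z.2 - (m + k * (z.2 - y1)) + η * z.2 ^ 2 := ⟨_, fun _ => rfl⟩
  have hK2 : IsCompact (Icc (-(1/2) : ℝ) (1/2) ×ˢ Icc y1 y2) := isCompact_Icc.prod isCompact_Icc
  have hΦc : ContinuousOn Φ (Icc (-(1/2) : ℝ) (1/2) ×ˢ Icc y1 y2) := by
    have h1 : Φ = fun z : ℝ × ℝ => f z.1 z.2 - (m + k * (z.2 - y1)) + η * z.2 ^ 2 := funext hΦ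
    rw [h1]
    apply ContinuousOn.add
    · apply ContinuousOn.sub
      · apply hc.mono
        intro z hz
        exact lt_of_lt_of_le hy1 hz.2.1
      · fun_prop
    · fun_prop
  have hxs : |xs| ≤ 1 / 2 := abs_le.2 hzs.1
  have hzK : (xs, ys) ∈ Icc (-(1/2) : ℝ) (1/2) ×ˢ Icc y1 y2 := ⟨hzs.1, hy1s.le, hy2b.le⟩
  obtain ⟨⟨x0, y0⟩, hz0, hmax2⟩ := hK2.exists_isMaxOn ⟨(xs, ys), hzK⟩ hΦc
  have hΦs : δ < Φ (xs, ys) := by
    rw [hΦ]
    simp only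
    rw [← hm]
    have : 0 < η * ys ^ 2 := by positivity
    rw [hδ]
    linarith
  have hΦ0 : δ < Φ (x0, y0) := hΦs.trans_le (hmax2 hzK)
  have hy0pos : 0 < y0 := hy1.trans_le hz0.2.1
  have hy0a : y1 < y0 := by
    rcases hz0.2.1.eq_or_lt with h | h
    · exfalso
      have h' : y0 = y1 := h.symm
      rw [hΦ] at hΦ0
      simp only at hΦ0
      rw [h'] at hΦ0
      have h1 := hle x0 y1 hy1
      have h2 : η * y1 ^ 2 ≤ η * y2 ^ 2 := by
        have : y1 ≤ y2 := by linarith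
        gcongr
      rw [sub_self, mul_zero] at hΦ0
      linarith
    · exact h
  have hy0b : y0 < y2 := by
    rcases hz0.2.2.eq_or_lt with h | h
    · exfalso
      have h' : y0 = y2 := h
      rw [hΦ] at hΦ0
      simp only at hΦ0
      rw [h', hk2] at hΦ0
      have h1 := hfy2 x0
      linarith
    · exact h
  -- comparison
  have hcmp : ∀ x t : ℝ, y1 ≤ t → t ≤ y2 →
      f x t ≤ Φ (x0, y0) + (m + k * (t - y1)) - η * t ^ 2 := by
    intro x t h1 h2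
    obtain ⟨x', hx', h⟩ := Mxl_per hT x t (hy1.trans_le h1)
    have h3 := hmax2 (show (x', t) ∈ _ from ⟨abs_le.1 hx', h1, h2⟩)
    simp only [Set.mem_ofPred_eq] at h3
    rw [hΦ (x', t)] at h3
    simp only at h3
    rw [h] at h3
    linarith
  have hb1 : ∀ x, Φ (x, y1) ≤ δ / 2 := by
    intro x
    rw [hΦ]
    simp only
    have h1 := hle x y1 hy1
    have h2 : η * y1 ^ 2 ≤ η * y2 ^ 2 := by
      have : y1 ≤ y2 := by linarith
      gcongr
    rw [sub_self, mul_zero]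
    linarith
  have hb2 : ∀ x, Φ (x, y2) ≤ δ / 2 := by
    intro x
    rw [hΦ]
    simp only
    rw [hk2]
    have h1 := hfy2 x
    linarith
  obtain ⟨del, hdel0, hdel1, hdel2⟩ : ∃ del : ℝ, 0 < del ∧ del ≤ η / 4 ∧
      del ≤ Φ (x0, y0) - δ / 2 :=
    ⟨min (η / 4) (Φ (x0, y0) - δ / 2), lt_min (by linarith) (by linarith), min_le_left _ _,
      min_le_right _ _⟩
  have hQ : IsCompact (Icc (x0 - 1) (x0 + 1) ×ˢ Icc y1 y2) := isCompact_Icc.prod isCompact_Icc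
  have hQs : (Icc (x0 - 1) (x0 + 1) ×ˢ Icc y1 y2) ⊆ {z : ℝ × ℝ | 0 < z.2} := by
    intro z hz
    exact lt_of_lt_of_le hy1 hz.2.1
  obtain ⟨n, hn⟩ := hlim _ hQ hQs (del / 4) (by linarith)
  have hgf := hn n le_rfl
  have hψc : ContinuousOn (fun z : ℝ × ℝ => g n z.1 z.2 - (m + k * (z.2 - y1)) + η * z.2 ^ 2 -
      η / 4 * (z.1 - x0) ^ 2) (Icc (x0 - 1) (x0 + 1) ×ˢ Icc y1 y2) := by
    apply ContinuousOn.sub
    · apply ContinuousOn.add
      · apply ContinuousOn.sub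
        · exact (hG n).mono hQs
        · fun_prop
      · fun_prop
    · fun_prop
  have hz0Q : (x0, y0) ∈ Icc (x0 - 1) (x0 + 1) ×ˢ Icc y1 y2 :=
    ⟨⟨by simp, by simp⟩, hz0.2⟩
  obtain ⟨⟨x', y'⟩, hz', hmax3⟩ := hQ.exists_isMaxOn ⟨(x0, y0), hz0Q⟩ hψc
  have hm3 : ∀ x t : ℝ, x0 - 1 ≤ x → x ≤ x0 + 1 → y1 ≤ t → t ≤ y2 →
      g n x t - (m + k * (t - y1)) + η * t ^ 2 - η / 4 * (x - x0) ^ 2 ≤
      g n x' y' - (m + k * (y' - y1)) + η * y' ^ 2 - η / 4 * (x' - x0) ^ 2 := by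
    intro x t h1 h2 h3 h4
    exact hmax3 (show (x, t) ∈ _ from ⟨⟨h1, h2⟩, ⟨h3, h4⟩⟩)
  have hlow := hm3 x0 y0 (by linarith) (by linarith) hz0.2.1 hz0.2.2
  have hg0 := abs_le.1 (hgf (x0, y0) hz0Q)
  have hg1 := abs_le.1 (hgf (x', y') hz')
  simp only at hg0 hg1
  have hΦ00 := hΦ (x0, y0)
  simp only at hΦ00
  have hΦ11 := hΦ (x', y')
  simp only at hΦ11
  have hcm := hcmp x' y' hz'.2.1 hz'.2.2
  have hlow2 : Φ (x0, y0) - del / 2 ≤ Φ (x', y') - η / 4 * (x' - x0) ^ 2 := by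
    rw [sub_self] at hlow
    linarith [hg0.1, hg1.2]
  have hΦ' : Φ (x', y') ≤ Φ (x0, y0) := by
    linarith
  refine Mxl_key (hv n) hy1 hk0.le hη0 ?_ ?_ ?_ ?_ hm3
  · rcases hz'.1.1.eq_or_lt with h | h
    · exfalso
      have h' : x' = x0 - 1 := h.symm
      rw [h'] at hlow2 hΦ'
      have e : η / 4 * (x0 - 1 - x0) ^ 2 = η / 4 := by ring
      rw [e] at hlow2
      linarith
    · exact h
  · rcases hz'.1.2.eq_or_lt with h | h
    · exfalso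
      have h' : x' = x0 + 1 := h
      rw [h'] at hlow2 hΦ'
      have e : η / 4 * (x0 + 1 - x0) ^ 2 = η / 4 := by ring
      rw [e] at hlow2
      linarith
    · exact h
  · rcases hz'.2.1.eq_or_lt with h | h
    · exfalso
      have h' : y' = y1 := h.symm
      rw [h'] at hlow2
      have h5 := hb1 x'
      have h6 : 0 ≤ η / 4 * (x' - x0) ^ 2 := by positivity
      linarith
    · exact h
  · rcases hz'.2.2.eq_or_lt with h | h
    · exfalso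
      have h' : y' = y2 := h
      rw [h'] at hlow2
      have h5 := hb2 x'
      have h6 : 0 ≤ η / 4 * (x' - x0) ^ 2 := by positivity
      linarith
    · exact h

private theorem Mxl_S_S {x y : ℝ} (hy : 0 < y) :
    -(-x / (x ^ 2 + y ^ 2)) / ((-x / (x ^ 2 + y ^ 2)) ^ 2 + (y / (x ^ 2 + y ^ 2)) ^ 2) = x ∧
    (y / (x ^ 2 + y ^ 2)) / ((-x / (x ^ 2 + y ^ 2)) ^ 2 + (y / (x ^ 2 + y ^ 2)) ^ 2) = y := by
  have hr : 0 < x ^ 2 + y ^ 2 := by positivity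
  have h1 : (-x / (x ^ 2 + y ^ 2)) ^ 2 + (y / (x ^ 2 + y ^ 2)) ^ 2 = 1 / (x ^ 2 + y ^ 2) := by
    field_simp
  rw [h1]
  constructor <;> field_simp

private theorem Mxl_rel {x y : ℝ} (hy : 0 < y) :
    -(-x / (x ^ 2 + y ^ 2) - 1) / ((-x / (x ^ 2 + y ^ 2) - 1) ^ 2 + (y / (x ^ 2 + y ^ 2)) ^ 2) - 1 =
      -(x + 1) / ((x + 1) ^ 2 + y ^ 2) ∧
    (y / (x ^ 2 + y ^ 2)) / ((-x / (x ^ 2 + y ^ 2) - 1) ^ 2 + (y / (x ^ 2 + y ^ 2)) ^ 2) =
      y / ((x + 1) ^ 2 + y ^ 2) := by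
  have hr : 0 < x ^ 2 + y ^ 2 := by positivity
  have hq : 0 < (x + 1) ^ 2 + y ^ 2 := by positivity
  have h1 : (-x / (x ^ 2 + y ^ 2) - 1) ^ 2 + (y / (x ^ 2 + y ^ 2)) ^ 2 =
      ((x + 1) ^ 2 + y ^ 2) / (x ^ 2 + y ^ 2) := by
    field_simp
    ring
  rw [h1]
  constructor
  · field_simp
    ring
  · field_simp

theorem max_family_lim {ι : Type} [Fintype ι] {F : ι → ℝ → ℝ → ℝ} {G : ι → ℕ → ℝ → ℝ → ℝ}
    (hc : ∀ i, ContinuousOn (fun z : ℝ × ℝ => F i z.1 z.2) {z : ℝ × ℝ | 0 < z.2})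
    (h0 : ∀ i, ∀ x y : ℝ, 0 < y → 0 ≤ F i x y)
    (hcusp : ∀ i, ∀ ep : ℝ, 0 < ep → ∃ Y : ℝ, ∀ x y : ℝ, |x| ≤ 1 / 2 → Y ≤ y → F i x y ≤ ep)
    (hG : ∀ i n, ContinuousOn (fun z : ℝ × ℝ => G i n z.1 z.2) {z : ℝ × ℝ | 0 < z.2})
    (hv : ∀ i n, VS (G i n))
    (hlim : ∀ i, ∀ S : Set (ℝ × ℝ), IsCompact S → S ⊆ {z : ℝ × ℝ | 0 < z.2} → ∀ ep : ℝ, 0 < ep →
      ∃ N : ℕ, ∀ n ≥ N, ∀ z ∈ S, |G i n z.1 z.2 - F i z.1 z.2| ≤ ep)
    (hT : ∀ j, ∃ i, ∀ x y : ℝ, 0 < y → F j x y ≤ F i (x - 1) y)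
    (hS : ∀ j, ∃ i, ∀ x y : ℝ, 0 < y →
      F j x y ≤ F i (-x / (x ^ 2 + y ^ 2)) (y / (x ^ 2 + y ^ 2))) :
    ∀ i, ∀ x y : ℝ, 0 < y → F i x y = 0 := by
  intro i₀
  have hne : (Finset.univ : Finset ι).Nonempty := ⟨i₀, Finset.mem_univ _⟩
  let f : ℝ → ℝ → ℝ := fun x y => Finset.univ.sup' hne fun j => F j x y
  have hle : ∀ j x y, F j x y ≤ f x y := fun j x y =>
    Finset.le_sup' (fun j => F j x y) (Finset.mem_univ j)
  have hex : ∀ x y, ∃ j, f x y = F j x y := by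
    intro x y
    obtain ⟨j, _, hj⟩ := Finset.exists_mem_eq_sup' hne fun j => F j x y
    exact ⟨j, hj⟩
  have hfT : ∀ x y : ℝ, 0 < y → f x y ≤ f (x - 1) y := by
    intro x y hy
    obtain ⟨j, hj⟩ := hex x y
    obtain ⟨i, hi⟩ := hT j
    rw [hj]
    exact (hi x y hy).trans (hle i _ _)
  have hfS1 : ∀ x y : ℝ, 0 < y → f x y ≤ f (-x / (x ^ 2 + y ^ 2)) (y / (x ^ 2 + y ^ 2)) := by
    intro x y hy
    obtain ⟨j, hj⟩ := hex x y
    obtain ⟨i, hi⟩ := hS j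
    rw [hj]
    exact (hi x y hy).trans (hle i _ _)
  have hpos : ∀ x y : ℝ, 0 < y → 0 < y / (x ^ 2 + y ^ 2) := by
    intro x y hy
    positivity
  have hfS : ∀ x y : ℝ, 0 < y → f (-x / (x ^ 2 + y ^ 2)) (y / (x ^ 2 + y ^ 2)) = f x y := by
    intro x y hy
    apply le_antisymm _ (hfS1 x y hy)
    have h := hfS1 (-x / (x ^ 2 + y ^ 2)) (y / (x ^ 2 + y ^ 2)) (hpos x y hy)
    rwa [(Mxl_S_S hy).1, (Mxl_S_S hy).2] at h
  have hfT' : ∀ x y : ℝ, 0 < y → f (x + 1) y = f x y := by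
    intro x y hy
    apply le_antisymm
    · have h := hfT (x + 1) y hy
      rwa [add_sub_cancel_right] at h
    · have hb := hpos x y hy
      have h1 := hfT (-x / (x ^ 2 + y ^ 2)) (y / (x ^ 2 + y ^ 2)) hb
      rw [hfS x y hy, ← hfS (-x / (x ^ 2 + y ^ 2) - 1) (y / (x ^ 2 + y ^ 2)) hb] at h1
      have h2 := hfT (-(-x / (x ^ 2 + y ^ 2) - 1) /
        ((-x / (x ^ 2 + y ^ 2) - 1) ^ 2 + (y / (x ^ 2 + y ^ 2)) ^ 2))
        ((y / (x ^ 2 + y ^ 2)) /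
        ((-x / (x ^ 2 + y ^ 2) - 1) ^ 2 + (y / (x ^ 2 + y ^ 2)) ^ 2))
        (hpos _ _ hb)
      rw [(Mxl_rel hy).1, (Mxl_rel hy).2, hfS (x + 1) y hy] at h2
      rw [(Mxl_rel hy).2] at h1
      exact h1.trans h2
  have hfc : ContinuousOn (fun z : ℝ × ℝ => f z.1 z.2) {z : ℝ × ℝ | 0 < z.2} :=
    ContinuousOn.finset_sup'_apply hne fun j _ => hc j
  have hf0 : ∀ x y : ℝ, 0 < y → 0 ≤ f x y := fun x y hy => (h0 i₀ x y hy).trans (hle i₀ x y)
  have hfcusp : ∀ ep : ℝ, 0 < ep → ∃ Y : ℝ, ∀ x y : ℝ, |x| ≤ 1 / 2 → Y ≤ y → f x y ≤ ep := by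
    intro ep hep
    choose Y hY using fun i => hcusp i ep hep
    refine ⟨Finset.univ.sup' hne Y, fun x y hx hy => ?_⟩
    obtain ⟨j, hj⟩ := hex x y
    rw [hj]
    exact hY j x y hx ((Finset.le_sup' Y (Finset.mem_univ j)).trans hy)
  let g : ℕ → ℝ → ℝ → ℝ := fun n x y => Finset.univ.sup' hne fun j => G j n x y
  have hleg : ∀ j n x y, G j n x y ≤ g n x y := fun j n x y =>
    Finset.le_sup' (fun j => G j n x y) (Finset.mem_univ j)
  have hexg : ∀ n x y, ∃ j, g n x y = G j n x y := by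
    intro n x y
    obtain ⟨j, _, hj⟩ := Finset.exists_mem_eq_sup' hne fun j => G j n x y
    exact ⟨j, hj⟩
  have hgc : ∀ n, ContinuousOn (fun z : ℝ × ℝ => g n z.1 z.2) {z : ℝ × ℝ | 0 < z.2} :=
    fun n => ContinuousOn.finset_sup'_apply hne fun j _ => hG j n
  have hgv : ∀ n, VS (g n) := by
    intro n x y hy ep hep
    obtain ⟨j, hj⟩ := hexg n x y
    obtain ⟨s0, hs0, h⟩ := hv j n x y hy ep hep
    refine ⟨s0, hs0, fun s hs hss => ?_⟩
    rw [hj]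
    have h1 := h s hs hss
    have a1 := hleg j n x (y * Real.exp s)
    have a2 := hleg j n x (y * Real.exp (-s))
    have a3 := hleg j n (x - y * Real.tanh s) (y / Real.cosh s)
    have a4 := hleg j n (x + y * Real.tanh s) (y / Real.cosh s)
    linarith
  have hglim : ∀ S : Set (ℝ × ℝ), IsCompact S → S ⊆ {z : ℝ × ℝ | 0 < z.2} → ∀ ep : ℝ, 0 < ep →
      ∃ N : ℕ, ∀ n ≥ N, ∀ z ∈ S, |g n z.1 z.2 - f z.1 z.2| ≤ ep := by
    intro S hSc hSs ep hep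
    choose N hN using fun i => hlim i S hSc hSs ep hep
    refine ⟨Finset.univ.sup' hne N, fun n hn z hz => ?_⟩
    have hNi : ∀ i, |G i n z.1 z.2 - F i z.1 z.2| ≤ ep := fun i =>
      hN i n ((Finset.le_sup' N (Finset.mem_univ i)).trans hn) z hz
    rw [abs_le]
    constructor
    · obtain ⟨j, hj⟩ := hex z.1 z.2
      have h1 := (abs_le.1 (hNi j)).1
      have h2 := hleg j n z.1 z.2
      rw [hj]
      linarith
    · obtain ⟨j, hj⟩ := hexg n z.1 z.2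
      have h1 := (abs_le.1 (hNi j)).2
      have h2 := hle j z.1 z.2
      rw [hj]
      linarith
  intro x y hy
  have h := Mxl_princ hfc hfT' hfS hf0 hfcusp hgc hgv hglim x y hy
  exact le_antisymm ((hle i₀ x y).trans h.le) (h0 i₀ x y hy)

end H50NA
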