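import Pool.Agent.H80.NA.Vs
import Pool.Agent.H80.NA.Mt1
import Pool.Agent.H80.NA.Ms1
import Pool.Agent.H80.NA.Csx
import Pool.Agent.H80.NA.Mxl
import Pool.Agent.H80.NA.Dpl
import Pool.Agent.H46.XB.Vi
import Pool.Agent.H36.NAA.C7

set_option autoImplicit false

/-!
# NA3: the analytic theorem (assembled by helper80 from blocks G, X, B, S, C)

Finite family of triples (a i, b i, c i) of linear automorphisms permuted by the two moves up to conjugation, all pairs (a i, c i), (b i, c i) preserve a splittable norm.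
Then every triple preserves a splittable norm. Product in V ≃ₗ[K] V is composition.
-/

namespace H50NA

open MeasureTheory Set Filter Topology
open H80HM (D U P f1 f2 VS)

section

variable {K : Type} [Field K] (F : VF K) {V : Type} [AddCommGroup V] [Module K V] [Module.Finite K V]

theorem Na3_mul (a b : V ≃ₗ[K] V) : act F (a * b) = act F a * act F b := by
  ext p
  rw [act_mul]
  rfl

theorem Na3_inv (a : V ≃ₗ[K] V) : act F a⁻¹ = (act F a)⁻¹ := by
  ext p
  show act F a.symm p = (act F a).symm p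
  rw [act_symm]

theorem Na3_fix {a : V ≃ₗ[K] V} {p : V → ℝ} (hp : SN F p) (h : ∀ x, p (a x) = p x) :
    act F a ⟨p, hp⟩ = ⟨p, hp⟩ := by
  apply Subtype.ext
  funext x
  rw [act_val]
  show p (a.symm x) = p x
  rw [← h (a.symm x), LinearEquiv.apply_symm_apply]

theorem Na3_fix' {a : V ≃ₗ[K] V} {p : Nm F V} (h : act F a p = p) (x : V) : p.1 (a x) = p.1 x := by
  have h1 := act_val F a p (a x)
  rw [h, LinearEquiv.symm_apply_apply] at h1
  exact h1

theorem Na3_le {X : Type} [MetricSpace X] {A B C A' B' C' : X ≃ᵢ X} {x y x' y' : ℝ}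
    (hne : ∃ f, Clx A B C f)
    (h : ∀ f, Clx A B C f → ∃ g, Clx A' B' C' g ∧ Ex x' y' g = Ex x y f) :
    EX A' B' C' x' y' ≤ EX A B C x y := by
  obtain ⟨f0, hf0⟩ := hne
  refine le_csInf ⟨_, f0, hf0, rfl⟩ ?_
  rintro e ⟨f, hf, rfl⟩
  obtain ⟨g, hg, he⟩ := h f hf
  rw [← he]
  exact H46XB.EX_le hg x' y'

end

theorem na3 {K : Type} [Field K] (F : VF K) (hF : Rf F) {V : Type} [AddCommGroup V] [Module K V]
    [FiniteDimensional K V] {ι : Type} [Fintype ι] (a b c : ι → (V ≃ₗ[K] V))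
    (h1 : ∀ i, ∃ p : V → ℝ, SN F p ∧ (∀ x, p (a i x) = p x) ∧ ∀ x, p (c i x) = p x)
    (h2 : ∀ i, ∃ p : V → ℝ, SN F p ∧ (∀ x, p (b i x) = p x) ∧ ∀ x, p (c i x) = p x)
    (hT : ∀ j, ∃ (i : ι) (g : V ≃ₗ[K] V), a i = g * a j * g⁻¹ ∧ c i * (b i)⁻¹ = g * b j * g⁻¹ ∧
      c i = g * c j * g⁻¹)
    (hS : ∀ j, ∃ (i : ι) (g : V ≃ₗ[K] V), b i * (c i)⁻¹ = g * a j * g⁻¹ ∧
      b i = g * b j * g⁻¹ ∧ b i * (a i)⁻¹ = g * c j * g⁻¹) (i : ι) :
    ∃ p : V → ℝ, SN F p ∧ (∀ x, p (a i x) = p x) ∧ (∀ x, p (b i x) = p x) ∧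
      ∀ x, p (c i x) = p x := by
  classical
  have hX := npcN F (V := V)
  obtain ⟨o', ho', _, _⟩ := h1 i
  set o : Nm F V := ⟨o', ho'⟩ with ho
  -- cusp
  have hcu : ∀ i, ∃ (f : ℝ × ℝ → Nm F V) (C : ℝ), Clx (act F (a i)) (act F (b i)) (act F (c i)) f ∧
      0 ≤ C ∧ ∀ x y : ℝ, 0 < y → Ex x y f ≤ C / y := by
    intro i
    obtain ⟨p1, hp1, hpa, hpc⟩ := h1 i
    obtain ⟨p2, hp2, hpb, hpc'⟩ := h2 i
    exact cusp_x hX (Na3_fix F hp1 hpa) (Na3_fix F hp1 hpc) (Na3_fix F hp2 hpb) (Na3_fix F hp2 hpc')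
  have hne : ∀ i, ∃ f, Clx (act F (a i)) (act F (b i)) (act F (c i)) f := fun i => by
    obtain ⟨f, C, hf, _⟩ := hcu i
    exact ⟨f, hf⟩
  -- radii
  set rj : ℕ → ℝ := fun n => 1 / ((n : ℝ) + 9) with hrj
  have hr0 : ∀ n, 0 < rj n := fun n => by positivity
  have hr8 : ∀ n, rj n < 1 / 8 := fun n => by
    have h3 : (0 : ℝ) ≤ n := Nat.cast_nonneg n
    exact one_div_lt_one_div_of_lt (by norm_num) (by linarith)
  have hr4 : ∀ n, rj n < 1 / 4 := fun n => (hr8 n).trans (by norm_num)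
  have hra : Antitone rj := by
    intro m n hmn
    have h3 : (m : ℝ) ≤ n := Nat.cast_le.2 hmn
    have h4 : (0 : ℝ) ≤ m := Nat.cast_nonneg m
    exact one_div_le_one_div_of_le (by linarith) (by linarith)
  have hrl : Tendsto rj atTop (𝓝 0) := by
    have h3 : Tendsto (fun n : ℕ => (n : ℝ) + 9) atTop atTop :=
      tendsto_atTop_add_const_right _ _ tendsto_natCast_atTop_atTop
    have h4 := h3.inv_tendsto_atTop
    refine h4.congr fun n => ?_
    simp [hrj]
  have hzero := max_family_lim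
    (F := fun i x y => EX (act F (a i)) (act F (b i)) (act F (c i)) x y)
    (G := fun i n x y => E0 (act F (a i)) (act F (b i)) (act F (c i)) (rj n) o x y)
    (fun i => H46XB.EX_cont hX) (fun i x y _ => H46XB.EX_nonneg x y) ?_
    (fun i n => H46XB.E0_cont hX (rj n) o) (fun i n => vs_fin F hF (a i) (b i) (c i) o (hr0 n) (hr8 n))
    ?_ ?_ ?_
  · obtain ⟨p, hp1, hp2, hp3⟩ := H36NA.c7 F (a i) (b i) (c i) fun ep hep =>
      displ hX (hne i) one_pos (hzero i 0 1 one_pos) hep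
    exact ⟨p.1, p.2, Na3_fix' F hp1, Na3_fix' F hp2, Na3_fix' F hp3⟩
  · intro i ep hep
    obtain ⟨f, C, hf, hC, hfC⟩ := hcu i
    refine ⟨C / ep + 1, fun x y _ hY => ?_⟩
    have hy : 0 < y := lt_of_lt_of_le (by positivity) hY
    refine (H46XB.EX_le hf x y).trans ((hfC x y hy).trans ?_)
    rw [div_le_iff₀ hy]
    have h3 : C / ep ≤ y := by linarith
    rw [div_le_iff₀ hep] at h3
    linarith
  · intro i S hS hSs ep hep
    have hl := H46XB.E0_lim_loc (A := act F (a i)) (B := act F (b i)) (C := act F (c i)) hX o hr0 hr4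
      hra hrl
    have hopen : IsOpen {p : ℝ × ℝ | 0 < p.2} := isOpen_lt continuous_const continuous_snd
    have hu := (tendstoLocallyUniformlyOn_iff_forall_isCompact hopen).1 hl S hSs hS
    rw [Metric.tendstoUniformlyOn_iff] at hu
    obtain ⟨N, hN⟩ := eventually_atTop.1 (hu ep hep)
    refine ⟨N, fun n hn z hz => ?_⟩
    have h3 := hN n hn z hz
    rw [dist_comm, Real.dist_eq] at h3
    exact h3.le
  · intro j
    obtain ⟨i, g, ha, hb, hc⟩ := hT j
    refine ⟨i, fun x y hy => ?_⟩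
    show EX (act F (a j)) (act F (b j)) (act F (c j)) x y ≤
      EX (act F (a i)) (act F (b i)) (act F (c i)) (x - 1) y
    rw [← ex_conj (A := act F (a j)) (B := act F (b j)) (C := act F (c j)) (act F g) x y]
    have ea : act F g * act F (a j) * (act F g)⁻¹ = act F (a i) := by
      rw [ha, Na3_mul, Na3_mul, Na3_inv]
    have eb : act F g * act F (b j) * (act F g)⁻¹ = act F (c i) * (act F (b i))⁻¹ := by
      rw [← Na3_inv, ← Na3_inv, ← Na3_mul, ← Na3_mul, ← Na3_mul, ← hb]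
    have ec : act F g * act F (c j) * (act F g)⁻¹ = act F (c i) := by
      rw [hc, Na3_mul, Na3_mul, Na3_inv]
    rw [ea, eb, ec]
    refine Na3_le (hne i) fun f hf => ?_
    obtain ⟨g', hg', he⟩ := moveT_x hX hf
    exact ⟨g', hg', he x y hy⟩
  · intro j
    obtain ⟨i, g, ha, hb, hc⟩ := hS j
    refine ⟨i, fun x y hy => ?_⟩
    show EX (act F (a j)) (act F (b j)) (act F (c j)) x y ≤
      EX (act F (a i)) (act F (b i)) (act F (c i)) (-x / (x ^ 2 + y ^ 2)) (y / (x ^ 2 + y ^ 2))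
    rw [← ex_conj (A := act F (a j)) (B := act F (b j)) (C := act F (c j)) (act F g) x y]
    have ea : act F g * act F (a j) * (act F g)⁻¹ = act F (b i) * (act F (c i))⁻¹ := by
      rw [← Na3_inv, ← Na3_inv, ← Na3_mul, ← Na3_mul, ← Na3_mul, ← ha]
    have eb : act F g * act F (b j) * (act F g)⁻¹ = act F (b i) := by
      rw [hb, Na3_mul, Na3_mul, Na3_inv]
    have ec : act F g * act F (c j) * (act F g)⁻¹ = act F (b i) * (act F (a i))⁻¹ := by
      rw [← Na3_inv, ← Na3_inv, ← Na3_mul, ← Na3_mul, ← Na3_mul, ← hc]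
    rw [ea, eb, ec]
    refine Na3_le (hne i) fun f hf => ?_
    obtain ⟨g', hg', he⟩ := moveS_x hX hf
    exact ⟨g', hg', he x y hy⟩

end H50NA
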