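import Pool.Agent.H80.HM.Def5

set_option autoImplicit false

/-!
# MP_b319aa_NA, block A: multiplicative functions and nonarchimedean absolute values on the complex numbers
-/

namespace H80NA

open H80HM Matrix

noncomputable section

/-- multiplicative functions, positive on non zero numbers -/
structure Mf (nu : ℂ → ℝ) : Prop where
  mul : ∀ z w, nu (z * w) = nu z * nu w
  one : nu 1 = 1
  pos : ∀ z, z ≠ 0 → 0 < nu z

/-- nonarchimedean absolute values -/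
structure Na (nu : ℂ → ℝ) : Prop where
  mf : Mf nu
  zero : nu 0 = 0
  add : ∀ z w, nu (z + w) ≤ max (nu z) (nu w)

/-- all eigenvalues z satisfy nu z = 1 -/
def Mv (nu : ℂ → ℝ) {m : ℕ} (M : Mt m) : Prop := ∀ z ∈ M.charpoly.roots, nu z = 1

/-- Mpr with Mv nu in place of Mo -/
def Mprv (nu : ℂ → ℝ) {D' : ℕ} (pi : FreeGroup (Fin 3) →* (Mt D')ˣ) (v w : FreeGroup (Fin 3)) :
    Prop :=
  ∀ g ∈ Subgroup.closure ({v, w} : Set (FreeGroup (Fin 3))), Mv nu ((pi g : (Mt D')ˣ) : Mt D')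

/-- the five pairs -/
def Mp5v (nu : ℂ → ℝ) {D' : ℕ} (pi : FreeGroup (Fin 3) →* (Mt D')ˣ) : Prop :=
  Mprv nu pi yy pp ∧ Mprv nu pi xx yy ∧ Mprv nu pi xx pp ∧
    Mprv nu pi (yy * pp⁻¹) (xx * pp⁻¹) ∧ Mprv nu pi yy (xx * pp⁻¹)

/-- invariant nonarchimedean norm of a representation -/
structure Inm (nu : ℂ → ℝ) {G : Type} [Group G] {k : ℕ} (r : G →* (Mt k)ˣ)
    (N : (Fin k → ℂ) → ℝ) : Prop where
  add : ∀ x y, N (x + y) ≤ max (N x) (N y)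
  smul : ∀ (c : ℂ) (x), N (c • x) = nu c * N x
  lo : ∃ c : ℝ, 0 < c ∧ ∀ x i, nu (x i) ≤ c * N x
  up : ∃ c : ℝ, 0 < c ∧ ∀ x : Fin k → ℂ, ∀ b : ℝ, (∀ i, nu (x i) ≤ b) → N x ≤ c * b
  inv : ∀ g x, N (((r g : (Mt k)ˣ) : Mt k) *ᵥ x) = N x

/-- invariant nonarchimedean norm, coordinate free -/
structure Inw (nu : ℂ → ℝ) {G W : Type} [Group G] [AddCommGroup W] [Module ℂ W]
    (T : G →* Module.End ℂ W) (N : W → ℝ) : Prop where
  add : ∀ x y, N (x + y) ≤ max (N x) (N y)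
  smul : ∀ (c : ℂ) (x), N (c • x) = nu c * N x
  lo : ∀ f : W →ₗ[ℂ] ℂ, ∃ c : ℝ, 0 < c ∧ ∀ x, nu (f x) ≤ c * N x
  inv : ∀ g x, N (T g x) = N x

end

end H80NA
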