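import Pool.Agent.H50.NA.Defs
import Pool.Agent.H80.NA.Nu

set_option autoImplicit false

/-!
# Row Vfk: finitely generated subfields are discretely valued with finite residue field

Let k' := IntermediateField.adjoin Q_p (i S) inside PadicAlgCl p, of finite degree n over Q_p (finitely many algebraic elements: IntermediateField.finiteDimensional_adjoin or
 IntermediateField.finiteDimensional_iSup..), k := the preimage of k' under i (Subfield.comap). v x := - log of the norm of i x (and v 0 := - log 0 = 0).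
(1) mul: log of a product; add: ultrametric (PadicAlgCl.isNonarchimedean), - log is antitone.
(2) dis: w := (log p)/n! . For x in k', x <> 0, let q be its minimal polynomial over Q_p, of degree m <= n, so m divides n!. The norm is invariant under automorphisms over Q_p (spectralNorm_eq_of_equiv
 or: spectralNorm depends only on the minimal polynomial, and all roots of q in PadicAlgCl p have the minimal polynomial q), so all roots of q have the same norm, and norm(x)^m = norm(q(0)) (product of the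
 roots up to sign), which is an integral power of p (Padic.norm_eq_zpow_neg_valuation; q(0) <> 0). So m v(x) is an integral multiple of log p, v x in wZ.
(3) Rf: k' with the induced norm is a finite dimensional normed space over the locally compact field Q_p, so it is proper (FiniteDimensional.proper Q_p k', instance ProperSpace of Q_p in Mathlib) and
 the closed unit ball is compact; it is covered by the open balls of radius 1 around its points: finitely many r_1..r_N suffice. Every x with v x >= 0 (norm <= 1) has norm(x - r_j) < 1 for some j,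
 i.e. x = r_j or v(x - r_j) > 0.
-/

namespace H80NA

open H50NA

theorem Vfk_log (p : ℕ) [Fact p.Prime] (x : PadicAlgCl p) (hx : x ≠ 0) (n : ℕ)
    (hn : (minpoly ℚ_[p] x).natDegree ≤ n) :
    ∃ N : ℤ, - Real.log ‖x‖ = N * (Real.log p / (n.factorial : ℝ)) := by
  have hint : IsIntegral ℚ_[p] x := Algebra.IsIntegral.isIntegral x
  have hm : 0 < (minpoly ℚ_[p] x).natDegree := minpoly.natDegree_pos hint
  have h1 : ‖x‖ = ‖(minpoly ℚ_[p] x).coeff 0‖ ^ (1 / (minpoly ℚ_[p] x).natDegree : ℝ) := by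
    rw [← PadicAlgCl.spectralNorm_eq]
    exact spectralNorm.spectralNorm_eq_norm_coeff_zero_rpow ℚ_[p] (PadicAlgCl p) x
  have hc : (minpoly ℚ_[p] x).coeff 0 ≠ 0 := minpoly.coeff_zero_ne_zero hint hx
  have hc' : 0 < ‖(minpoly ℚ_[p] x).coeff 0‖ := norm_pos_iff.2 hc
  have hp1 : (1 : ℝ) < p := by
    exact_mod_cast (Fact.out (p := p.Prime)).one_lt
  obtain ⟨m, hmd⟩ : ∃ m, m = (minpoly ℚ_[p] x).natDegree := ⟨_, rfl⟩
  rw [← hmd] at h1 hm hn
  obtain ⟨c, hcd⟩ := Nat.dvd_factorial hm hn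
  refine ⟨((minpoly ℚ_[p] x).coeff 0).valuation * c, ?_⟩
  have hm' : (m : ℝ) ≠ 0 := by exact_mod_cast hm.ne'
  have hc0 : (c : ℝ) ≠ 0 := by
    intro h0
    have h0' : c = 0 := by exact_mod_cast h0
    rw [h0', mul_zero] at hcd
    exact n.factorial_ne_zero hcd
  rw [h1, Real.log_rpow hc', Padic.norm_eq_zpow_neg_valuation hc, Real.log_zpow, hcd]
  push_cast
  field_simp

theorem Vfk_cov (p : ℕ) [Fact p.Prime] (E : Submodule ℚ_[p] (PadicAlgCl p))
    (hE : FiniteDimensional ℚ_[p] E) :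
    ∃ t : Set (PadicAlgCl p), t.Finite ∧ (∀ y ∈ t, y ∈ E) ∧
      ∀ x ∈ E, ‖x‖ ≤ 1 → ∃ y ∈ t, ‖x - y‖ < 1 := by
  have hprop : ProperSpace E := FiniteDimensional.proper ℚ_[p] E
  obtain ⟨t, _, ht, hcov⟩ := (isCompact_closedBall (0 : E) 1).finite_cover_balls one_pos
  refine ⟨Subtype.val '' t, ht.image _, ?_, ?_⟩
  · rintro y ⟨z, _, rfl⟩
    exact z.2
  · intro x hx hx1
    have h1 : (⟨x, hx⟩ : E) ∈ Metric.closedBall (0 : E) 1 := by
      rw [mem_closedBall_zero_iff]
      exact hx1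
    obtain ⟨y, hy⟩ := Set.mem_iUnion.1 (hcov h1)
    obtain ⟨hyt, hy1⟩ := Set.mem_iUnion.1 hy
    refine ⟨y, ⟨y, hyt, rfl⟩, ?_⟩
    rw [mem_ball_iff_norm] at hy1
    exact hy1

theorem vf_sub (p : ℕ) [Fact p.Prime] (i : ℂ ≃+* PadicAlgCl p) (S : Finset ℂ) :
    ∃ (k : Subfield ℂ) (F : VF k), (S : Set ℂ) ⊆ k ∧
      (∀ x : k, x ≠ 0 → F.v x = - Real.log ‖i (x : ℂ)‖) ∧ Rf F := by
  classical
  obtain ⟨k', hk'⟩ : ∃ k' : IntermediateField ℚ_[p] (PadicAlgCl p),
      k' = IntermediateField.adjoin ℚ_[p] ((S.image i : Finset (PadicAlgCl p)) : Set (PadicAlgCl p)) :=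
    ⟨_, rfl⟩
  have hfin : FiniteDimensional ℚ_[p] k' := by
    rw [hk']
    exact IntermediateField.finiteDimensional_adjoin fun x _ => Algebra.IsIntegral.isIntegral x
  obtain ⟨n, hn⟩ : ∃ n, n = Module.finrank ℚ_[p] k' := ⟨_, rfl⟩
  obtain ⟨k, hk⟩ : ∃ k : Subfield ℂ, ∀ x, x ∈ k ↔ i x ∈ k' :=
    ⟨k'.toSubfield.comap (i : ℂ →+* PadicAlgCl p), fun x => Iff.rfl⟩
  have hdeg : ∀ x ∈ k', (minpoly ℚ_[p] x).natDegree ≤ n := by
    intro x hx
    have h1 := minpoly.natDegree_le (A := ℚ_[p]) (⟨x, hx⟩ : k')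
    rw [hn]
    have h2 : minpoly ℚ_[p] (⟨x, hx⟩ : k') = minpoly ℚ_[p] x :=
      IntermediateField.minpoly_eq (⟨x, hx⟩ : k')
    rw [← h2]
    exact h1
  have hp1 : (1 : ℝ) < p := by
    exact_mod_cast (Fact.out (p := p.Prime)).one_lt
  have hne : ∀ x : k, x ≠ 0 → i (x : ℂ) ≠ 0 := by
    intro x hx h
    apply hx
    have h1 : (x : ℂ) = 0 := by
      have h2 := congrArg i.symm h
      rwa [RingEquiv.symm_apply_apply, map_zero] at h2
    exact Subtype.ext h1
  have hpos : ∀ x : k, x ≠ 0 → 0 < ‖i (x : ℂ)‖ := fun x hx => norm_pos_iff.2 (hne x hx)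
  obtain ⟨F, hF⟩ : ∃ F : VF k, ∀ x, F.v x = - Real.log ‖i (x : ℂ)‖ := by
    refine ⟨⟨fun x => - Real.log ‖i (x : ℂ)‖, Real.log p / (n.factorial : ℝ),
      div_pos (Real.log_pos hp1) (by exact_mod_cast n.factorial_pos), ?_, ?_, ?_⟩, fun x => rfl⟩
    · intro x y hx hy
      change - Real.log ‖i ((x : ℂ) * (y : ℂ))‖ = _
      rw [map_mul, norm_mul, Real.log_mul (hpos x hx).ne' (hpos y hy).ne']
      ring
    · intro x y hx hy hxy
      have h1 : ‖i ((x : ℂ) + (y : ℂ))‖ ≤ max ‖i (x : ℂ)‖ ‖i (y : ℂ)‖ := by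
        rw [map_add]
        exact PadicAlgCl.isNonarchimedean p _ _
      have h0 : 0 < ‖i ((x : ℂ) + (y : ℂ))‖ := hpos (x + y) hxy
      change min (- Real.log ‖i (x : ℂ)‖) (- Real.log ‖i (y : ℂ)‖) ≤ - Real.log ‖i ((x : ℂ) + (y : ℂ))‖
      rcases le_total ‖i (x : ℂ)‖ ‖i (y : ℂ)‖ with h2 | h2
      · rw [max_eq_right h2] at h1
        exact (min_le_right _ _).trans (neg_le_neg (Real.log_le_log h0 h1))
      · rw [max_eq_left h2] at h1
        exact (min_le_left _ _).trans (neg_le_neg (Real.log_le_log h0 h1))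
    · intro x hx
      exact Vfk_log p (i (x : ℂ)) (hne x hx) n (hdeg _ ((hk _).1 x.2))
  refine ⟨k, F, ?_, fun x _ => hF x, ?_⟩
  · intro x hx
    rw [SetLike.mem_coe, hk, hk']
    refine IntermediateField.subset_adjoin _ _ ?_
    exact Finset.mem_coe.2 (Finset.mem_image_of_mem i hx)
  · obtain ⟨t, ht, htE, hcov⟩ := Vfk_cov p k'.toSubalgebra.toSubmodule hfin
    refine ⟨ht.toFinset.attach.image (fun y : {y // y ∈ ht.toFinset} => (⟨i.symm y.1, by
      rw [hk, RingEquiv.apply_symm_apply]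
      exact htE y ((Set.Finite.mem_toFinset ht).1 y.2)⟩ : k)), ?_⟩
    intro x hx hv
    have hx1 : ‖i (x : ℂ)‖ ≤ 1 := by
      rw [hF] at hv
      by_contra hcon
      push Not at hcon
      have := Real.log_pos hcon
      linarith
    obtain ⟨y, hyt, hy⟩ := hcov (i (x : ℂ)) ((hk _).1 x.2) hx1
    refine ⟨⟨i.symm y, by
      rw [hk, RingEquiv.apply_symm_apply]
      exact htE y hyt⟩, ?_, ?_⟩
    · rw [Finset.mem_image]
      exact ⟨⟨y, (Set.Finite.mem_toFinset ht).2 hyt⟩, Finset.mem_attach _ _, rfl⟩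
    · by_cases hxy : x = ⟨i.symm y, by
        rw [hk, RingEquiv.apply_symm_apply]
        exact htE y hyt⟩
      · exact Or.inl hxy
      · right
        have h1 := hpos _ (sub_ne_zero.2 hxy)
        rw [hF]
        have h2 : i (((x - ⟨i.symm y, by
            rw [hk, RingEquiv.apply_symm_apply]
            exact htE y hyt⟩ : k)) : ℂ) = i (x : ℂ) - y := by
          change i ((x : ℂ) - i.symm y) = _
          rw [map_sub, RingEquiv.apply_symm_apply]
        rw [h2] at h1 ⊢
        have := Real.log_neg h1 hy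
        linarith

theorem na_padic (p : ℕ) [Fact p.Prime] (i : ℂ ≃+* PadicAlgCl p) : Na (fun z => ‖i z‖) := by
  refine ⟨⟨fun z w => ?_, ?_, fun z hz => ?_⟩, ?_, fun z w => ?_⟩
  · rw [map_mul, norm_mul]
  · rw [map_one, norm_one]
  · rw [norm_pos_iff]
    exact (map_ne_zero i).2 hz
  · rw [map_zero, norm_zero]
  · rw [map_add]
    exact PadicAlgCl.isNonarchimedean p _ _

end H80NA
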