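import Pool.Agent.H80.NA.Sdf
import Pool.Agent.H46.XB.Vc

set_option autoImplicit false

/-!
# Row Ske: the energies at the four points tau_k(s)

Almost every z in U is a point with MD f z (md_ae, H98NX.Eh) and sp_pair gives B with sp f (a,b) z ^2 = a^2 S1 + 2ab B + b^2 S2 for all a, b (S1 = sp f (1,0) z ^2, S2 = sp f (0,1) z ^2).
f1 x y = (sqrt y, 0), f2 x y = (-x/sqrt y, 1/sqrt y) (H80HM.Def2), so e2 x' y' f z = ((x'^2+y'^2) S1 - 2 x' B + S2)/y' for y' > 0, and everything is a linear combination of S1, B, S2.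
e2_tau: for k = 0: x' = x, y' = y e^s = y (cosh s + sinh s) (1/y' = (cosh s - sinh s)/y); k = 2 with -s; k = 1: x' = x - y tanh s, y' = y/cosh s: (x'^2 + y'^2)/y' = (x^2 cosh s - 2 x y sinh s + y^2 sinh^2 s/cosh s + y^2/cosh s)/y = ..., use sinh^2 + 1 = cosh^2; k = 3 likewise.
 cc 0 = sp f1^2 - sp f2^2 = y S1 - (x^2 S1 - 2xB + S2)/y; cc 1 = sp(f1+f2)^2 - sp f1^2 - sp f2^2 = 2 (-x S1 + B) (the polar form of f1, f2: f1.1 f2.1 S1 + (f1.1 f2.2 + f1.2 f2.1) B + f1.2 f2.2 S2 = -x S1 + B); cc 2 = - cc 0, cc 3 = - cc 1.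
cc_rot: fe x y th = cos th f1 + sin th f2, ff = - sin th f1 + cos th f2, th4 = 0, pi/4, pi/2, -pi/4: cos^2 - sin^2 = cos (2 th), 2 sin cos = sin (2 th): sp fe^2 - sp ff^2 = cos(2th) (sp f1^2 - sp f2^2) + sin(2th) 2 (polar form).
 (Real.cos_pi_div_four, Real.sin_pi_div_four = sqrt 2/2.)
cc_sum: pk, rk sum to zero (Fin.sum_univ_four).  cc_int: sp_all_int (Vb) for Lpo f U and the integrability of Clx.  ex_tau, ex_tau_hk: integrate e2_tau (integral_congr_ae on U) and e2_frame (Vb): cosh s + sinh s = e^s.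
The two last theorems are hk of near_two in the form used there.
-/

namespace H50NA

open MeasureTheory Set Filter Topology
open H80HM (D U P f1 f2 pk rk)
open H98NX (ip e2 fe ff)

variable {X : Type} [MetricSpace X] {gm : X → X → ℝ → X} {A B C : X ≃ᵢ X}

theorem ty_pos {y : ℝ} (hy : 0 < y) (s : ℝ) (k : Fin 4) : 0 < ty y s k := by
  have hc := Real.cosh_pos s
  fin_cases k
  · show 0 < y * Real.exp s
    positivity
  · show 0 < y / Real.cosh s
    positivity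
  · show 0 < y * Real.exp (-s)
    positivity
  · show 0 < y / Real.cosh s
    positivity

theorem clx_lpo {f : ℝ × ℝ → X} (hf : Clx A B C f) : Lpo f U := by
  exact H98NX.lpo_mono H46XB.U_sub hf.lip

section Ske_aux

variable {f : ℝ × ℝ → X} {z : ℝ × ℝ} {S1 S2 B' : ℝ}

theorem Ske_fe (hB : ∀ a b : ℝ, sp f (a, b) z ^ 2 = a ^ 2 * S1 + 2 * a * b * B' + b ^ 2 * S2)
    (x : ℝ) {y : ℝ} (hy : 0 < y) (th : ℝ) : sp f (fe x y th) z ^ 2 =
      Real.cos th ^ 2 * (y * S1) + Real.sin th ^ 2 * ((x ^ 2 * S1 - 2 * x * B' + S2) / y) +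
        2 * (Real.cos th * Real.sin th) * (B' - x * S1) := by
  have h1 : fe x y th = (Real.cos th * Real.sqrt y + Real.sin th * (-x / Real.sqrt y),
      Real.sin th * (1 / Real.sqrt y)) := by
    simp [fe, f1, f2]
  rw [h1, hB]
  have hr : Real.sqrt y ^ 2 = y := Real.sq_sqrt hy.le
  have hr0 : Real.sqrt y ≠ 0 := (Real.sqrt_pos.2 hy).ne'
  generalize Real.sqrt y = r at hr hr0
  subst hr
  field_simp
  ring

theorem Ske_ff (hB : ∀ a b : ℝ, sp f (a, b) z ^ 2 = a ^ 2 * S1 + 2 * a * b * B' + b ^ 2 * S2)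
    (x : ℝ) {y : ℝ} (hy : 0 < y) (th : ℝ) : sp f (ff x y th) z ^ 2 =
      Real.sin th ^ 2 * (y * S1) + Real.cos th ^ 2 * ((x ^ 2 * S1 - 2 * x * B' + S2) / y) -
        2 * (Real.cos th * Real.sin th) * (B' - x * S1) := by
  have h1 : ff x y th = (-Real.sin th * Real.sqrt y + Real.cos th * (-x / Real.sqrt y),
      Real.cos th * (1 / Real.sqrt y)) := by
    simp [ff, f1, f2]
  rw [h1, hB]
  have hr : Real.sqrt y ^ 2 = y := Real.sq_sqrt hy.le
  have hr0 : Real.sqrt y ≠ 0 := (Real.sqrt_pos.2 hy).ne'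
  generalize Real.sqrt y = r at hr hr0
  subst hr
  field_simp
  ring

theorem Ske_f1 (hB : ∀ a b : ℝ, sp f (a, b) z ^ 2 = a ^ 2 * S1 + 2 * a * b * B' + b ^ 2 * S2)
    (x : ℝ) {y : ℝ} (hy : 0 < y) : sp f (f1 x y) z ^ 2 = y * S1 := by
  have h := Ske_fe hB x hy 0
  have h1 : fe x y 0 = f1 x y := by simp [fe]
  rw [h1] at h
  rw [h]
  simp

theorem Ske_f2 (hB : ∀ a b : ℝ, sp f (a, b) z ^ 2 = a ^ 2 * S1 + 2 * a * b * B' + b ^ 2 * S2)
    (x : ℝ) {y : ℝ} (hy : 0 < y) :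
    sp f (f2 x y) z ^ 2 = (x ^ 2 * S1 - 2 * x * B' + S2) / y := by
  have h := Ske_ff hB x hy 0
  have h1 : ff x y 0 = f2 x y := by simp [ff]
  rw [h1] at h
  rw [h]
  simp

theorem Ske_f12 (hB : ∀ a b : ℝ, sp f (a, b) z ^ 2 = a ^ 2 * S1 + 2 * a * b * B' + b ^ 2 * S2)
    (x : ℝ) {y : ℝ} (hy : 0 < y) : sp f (f1 x y + f2 x y) z ^ 2 =
      y * S1 + (x ^ 2 * S1 - 2 * x * B' + S2) / y + 2 * (B' - x * S1) := by
  have h1 : f1 x y + f2 x y = (Real.sqrt y + (-x / Real.sqrt y), 1 / Real.sqrt y) := by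
    simp [f1, f2]
  rw [h1, hB]
  have hr : Real.sqrt y ^ 2 = y := Real.sq_sqrt hy.le
  have hr0 : Real.sqrt y ≠ 0 := (Real.sqrt_pos.2 hy).ne'
  generalize Real.sqrt y = r at hr hr0
  subst hr
  field_simp
  ring

theorem Ske_cc (hB : ∀ a b : ℝ, sp f (a, b) z ^ 2 = a ^ 2 * S1 + 2 * a * b * B' + b ^ 2 * S2)
    (x : ℝ) {y : ℝ} (hy : 0 < y) (k : Fin 4) : cc k x y f z =
      pk k * (y * S1 - (x ^ 2 * S1 - 2 * x * B' + S2) / y) + rk k * (2 * (B' - x * S1)) := by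
  unfold cc
  rw [Ske_f12 hB x hy, Ske_f1 hB x hy, Ske_f2 hB x hy]
  ring

end Ske_aux

theorem e2_tau (hX : Npc X gm) {f : ℝ × ℝ → X} (hf : Lpo f U) (x : ℝ) {y : ℝ} (hy : 0 < y) (s : ℝ)
    (k : Fin 4) : ∀ᵐ z ∂(volume : Measure (ℝ × ℝ)), z ∈ U →
      e2 (tx x y s k) (ty y s k) f z = Real.cosh s * e2 x y f z + Real.sinh s * cc k x y f z := by
  filter_upwards [H46XB.Vb_pair hX hf] with z hz hzU
  obtain ⟨B', -, hB⟩ := hz hzU
  generalize sp f (1, 0) z ^ 2 = S1 at hB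
  generalize sp f (0, 1) z ^ 2 = S2 at hB
  have hk := ty_pos hy s k
  have e0 : ∀ (x' : ℝ) {y' : ℝ}, 0 < y' → e2 x' y' f z =
      y' * S1 + (x' ^ 2 * S1 - 2 * x' * B' + S2) / y' := fun x' y' hy' => by
    unfold H98NX.e2
    rw [Ske_f1 hB x' hy', Ske_f2 hB x' hy']
  rw [e0 _ hk, e0 x hy, Ske_cc hB x hy]
  have hcp := Real.cosh_pos s
  have hcs := Real.cosh_sq s
  have hye : Real.exp s = Real.cosh s + Real.sinh s := (Real.cosh_add_sinh s).symm
  have hyn : Real.exp (-s) = Real.cosh s - Real.sinh s := (Real.cosh_sub_sinh s).symm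
  have hee : Real.exp s * Real.exp (-s) = 1 := by rw [← Real.exp_add]; simp
  have p1 : 0 < Real.exp s := Real.exp_pos _
  have p2 : 0 < Real.exp (-s) := Real.exp_pos _
  fin_cases k
  · change y * Real.exp s * S1 + (x ^ 2 * S1 - 2 * x * B' + S2) / (y * Real.exp s) =
      Real.cosh s * (y * S1 + (x ^ 2 * S1 - 2 * x * B' + S2) / y) + Real.sinh s *
        (1 * (y * S1 - (x ^ 2 * S1 - 2 * x * B' + S2) / y) + 0 * (2 * (B' - x * S1)))
    have h1 : (x ^ 2 * S1 - 2 * x * B' + S2) / (y * Real.exp s) =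
        Real.exp (-s) * ((x ^ 2 * S1 - 2 * x * B' + S2) / y) := by
      rw [div_eq_iff (by positivity)]
      field_simp
      linear_combination (-(x ^ 2 * S1 - 2 * x * B' + S2)) * hee
    rw [h1, hye, hyn]
    ring
  · change y / Real.cosh s * S1 + ((x - y * Real.tanh s) ^ 2 * S1 - 2 * (x - y * Real.tanh s) * B' + S2) /
      (y / Real.cosh s) = Real.cosh s * (y * S1 + (x ^ 2 * S1 - 2 * x * B' + S2) / y) + Real.sinh s *
        (0 * (y * S1 - (x ^ 2 * S1 - 2 * x * B' + S2) / y) + 1 * (2 * (B' - x * S1)))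
    rw [Real.tanh_eq_sinh_div_cosh]
    field_simp
    linear_combination (-(y ^ 2 * S1)) * hcs
  · change y * Real.exp (-s) * S1 + (x ^ 2 * S1 - 2 * x * B' + S2) / (y * Real.exp (-s)) =
      Real.cosh s * (y * S1 + (x ^ 2 * S1 - 2 * x * B' + S2) / y) + Real.sinh s *
        (-1 * (y * S1 - (x ^ 2 * S1 - 2 * x * B' + S2) / y) + 0 * (2 * (B' - x * S1)))
    have h1 : (x ^ 2 * S1 - 2 * x * B' + S2) / (y * Real.exp (-s)) =
        Real.exp s * ((x ^ 2 * S1 - 2 * x * B' + S2) / y) := by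
      rw [div_eq_iff (by positivity)]
      field_simp
      linear_combination (-(x ^ 2 * S1 - 2 * x * B' + S2)) * hee
    rw [h1, hye, hyn]
    ring
  · change y / Real.cosh s * S1 + ((x + y * Real.tanh s) ^ 2 * S1 - 2 * (x + y * Real.tanh s) * B' + S2) /
      (y / Real.cosh s) = Real.cosh s * (y * S1 + (x ^ 2 * S1 - 2 * x * B' + S2) / y) + Real.sinh s *
        (0 * (y * S1 - (x ^ 2 * S1 - 2 * x * B' + S2) / y) + -1 * (2 * (B' - x * S1)))
    rw [Real.tanh_eq_sinh_div_cosh]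
    field_simp
    linear_combination (-(y ^ 2 * S1)) * hcs

theorem cc_rot (hX : Npc X gm) {f : ℝ × ℝ → X} (hf : Lpo f U) (x : ℝ) {y : ℝ} (hy : 0 < y)
    (k : Fin 4) : ∀ᵐ z ∂(volume : Measure (ℝ × ℝ)), z ∈ U →
      cc k x y f z = sp f (fe x y (th4 k)) z ^ 2 - sp f (ff x y (th4 k)) z ^ 2 := by
  filter_upwards [H46XB.Vb_pair hX hf] with z hz hzU
  obtain ⟨B', -, hB⟩ := hz hzU
  rw [Ske_cc hB x hy, Ske_fe hB x hy, Ske_ff hB x hy]
  have h2 : Real.sqrt 2 ^ 2 = 2 := Real.sq_sqrt (by norm_num)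
  generalize (x ^ 2 * sp f (1, 0) z ^ 2 - 2 * x * B' + sp f (0, 1) z ^ 2) / y = A2
  generalize y * sp f (1, 0) z ^ 2 = A1
  generalize B' - x * sp f (1, 0) z ^ 2 = PP
  fin_cases k
  · change 1 * (A1 - A2) + 0 * (2 * PP) = Real.cos 0 ^ 2 * A1 + Real.sin 0 ^ 2 * A2 +
      2 * (Real.cos 0 * Real.sin 0) * PP - (Real.sin 0 ^ 2 * A1 + Real.cos 0 ^ 2 * A2 -
      2 * (Real.cos 0 * Real.sin 0) * PP)
    rw [Real.cos_zero, Real.sin_zero]
    ring
  · change 0 * (A1 - A2) + 1 * (2 * PP) = Real.cos (Real.pi / 4) ^ 2 * A1 + Real.sin (Real.pi / 4) ^ 2 * A2 +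
      2 * (Real.cos (Real.pi / 4) * Real.sin (Real.pi / 4)) * PP - (Real.sin (Real.pi / 4) ^ 2 * A1 +
      Real.cos (Real.pi / 4) ^ 2 * A2 -
      2 * (Real.cos (Real.pi / 4) * Real.sin (Real.pi / 4)) * PP)
    rw [Real.cos_pi_div_four, Real.sin_pi_div_four]
    linear_combination (-PP) * h2
  · change -1 * (A1 - A2) + 0 * (2 * PP) = Real.cos (Real.pi / 2) ^ 2 * A1 + Real.sin (Real.pi / 2) ^ 2 * A2 +
      2 * (Real.cos (Real.pi / 2) * Real.sin (Real.pi / 2)) * PP - (Real.sin (Real.pi / 2) ^ 2 * A1 +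
      Real.cos (Real.pi / 2) ^ 2 * A2 -
      2 * (Real.cos (Real.pi / 2) * Real.sin (Real.pi / 2)) * PP)
    rw [Real.cos_pi_div_two, Real.sin_pi_div_two]
    ring
  · change 0 * (A1 - A2) + -1 * (2 * PP) = Real.cos (-(Real.pi / 4)) ^ 2 * A1 +
      Real.sin (-(Real.pi / 4)) ^ 2 * A2 +
      2 * (Real.cos (-(Real.pi / 4)) * Real.sin (-(Real.pi / 4))) * PP -
      (Real.sin (-(Real.pi / 4)) ^ 2 * A1 + Real.cos (-(Real.pi / 4)) ^ 2 * A2 -
      2 * (Real.cos (-(Real.pi / 4)) * Real.sin (-(Real.pi / 4))) * PP)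
    rw [Real.cos_neg, Real.sin_neg, Real.cos_pi_div_four, Real.sin_pi_div_four]
    linear_combination PP * h2

theorem cc_sum (x y : ℝ) (f : ℝ × ℝ → X) (z : ℝ × ℝ) : ∑ k, cc k x y f z = 0 := by
  rw [Fin.sum_univ_four]
  unfold cc
  have p0 : pk 0 = 1 := rfl
  have p1 : pk 1 = 0 := rfl
  have p2 : pk 2 = -1 := rfl
  have p3 : pk 3 = 0 := rfl
  have r0 : rk 0 = 0 := rfl
  have r1 : rk 1 = 1 := rfl
  have r2 : rk 2 = 0 := rfl
  have r3 : rk 3 = -1 := rfl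
  rw [p0, p1, p2, p3, r0, r1, r2, r3]
  ring

theorem cc_int (hX : Npc X gm) {f : ℝ × ℝ → X} (hf : Clx A B C f) (x y : ℝ) (k : Fin 4) :
    IntegrableOn (cc k x y f) U := by
  have hl := clx_lpo hf
  have h1 := H46XB.sp_all_int hX hl hf.fin (f1 x y)
  have h2 := H46XB.sp_all_int hX hl hf.fin (f2 x y)
  have h3 := H46XB.sp_all_int hX hl hf.fin (f1 x y + f2 x y)
  exact ((h1.sub h2).const_mul (pk k)).add (((h3.sub h1).sub h2).const_mul (rk k))

theorem ex_tau (hX : Npc X gm) {f : ℝ × ℝ → X} (hf : Clx A B C f) (x : ℝ) {y : ℝ} (hy : 0 < y)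
    (s : ℝ) (k : Fin 4) :
    Ex (tx x y s k) (ty y s k) f = Real.cosh s * Ex x y f + Real.sinh s * ∫ z in U, cc k x y f z := by
  have hl := clx_lpo hf
  have hU : MeasurableSet (U : Set (ℝ × ℝ)) := H46XB.Vb_open.measurableSet
  have h1 : Ex (tx x y s k) (ty y s k) f = ∫ z in U, (Real.cosh s * e2 x y f z +
      Real.sinh s * cc k x y f z) := by
    unfold Ex
    refine setIntegral_congr_ae hU ?_
    filter_upwards [e2_tau hX hl x hy s k] with z hz hzU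
    exact hz hzU
  rw [h1, integral_add ((H46XB.e2_int hX hl hf.fin x y).const_mul _) ((cc_int hX hf x y k).const_mul _),
    integral_const_mul, integral_const_mul]
  rfl

theorem ex_tau_hk (hX : Npc X gm) {f : ℝ × ℝ → X} (hf : Clx A B C f) (x : ℝ) {y : ℝ} (hy : 0 < y)
    (s : ℝ) (k : Fin 4) :
    Ex (tx x y s k) (ty y s k) f = ∫ z in U, (Real.exp s * sp f (fe x y (th4 k)) z ^ 2 +
      Real.exp (-s) * sp f (ff x y (th4 k)) z ^ 2) := by
  have hl := clx_lpo hf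
  have hU : MeasurableSet (U : Set (ℝ × ℝ)) := H46XB.Vb_open.measurableSet
  unfold Ex
  refine setIntegral_congr_ae hU ?_
  filter_upwards [e2_tau hX hl x hy s k, cc_rot hX hl x hy k, H46XB.e2_frame hX hl x y (th4 k)]
    with z h1 h2 h3 hzU
  have e1 := h1 hzU
  have e2' := h2 hzU
  have e3 := h3 hzU
  rw [e2', ← e3] at e1
  change e2 (tx x y s k) (ty y s k) f z = _
  rw [e1, (Real.cosh_add_sinh s).symm, (Real.cosh_sub_sinh s).symm]
  ring

end H50NA
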