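import Pool.Agent.H50.NA.Defs

set_option autoImplicit false

/-!
# MP_b319aa_NA: charts (shared by blocks B and S)

A chart of u on O: an internal decomposition E of V, functions T b of class C^1 with pairwise different derivatives at
every point of O, such that u y is split along E and its restriction to E b is the translate by T b y - T b z of that of u z.
-/

namespace H50NA

noncomputable section

variable {K : Type} [Field K] (F : VF K) {V : Type} [AddCommGroup V] [Module K V]

/-- charts -/
structure Chart {W : Type} [NormedAddCommGroup W] [NormedSpace ℝ W] (u : W → Nm F V) (O : Set W)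
    {N : ℕ} (E : Fin N → Submodule K V) (T : Fin N → W → ℝ) : Prop where
  opn : IsOpen O
  int : DirectSum.IsInternal E
  nz : ∀ b, E b ≠ ⊥
  cd : ∀ b, ContDiffOn ℝ 1 (T b) O
  dis : ∀ y ∈ O, ∀ b b', b ≠ b' → fderiv ℝ (T b) y ≠ fderiv ℝ (T b') y
  spl : ∀ y ∈ O, SpD E (u y).1
  cst : ∀ y ∈ O, ∀ z ∈ O, ∀ b, rs (E b) (u z).1 = trl (rs (E b) (u y).1) (T b z - T b y)

/-- x has a chart neighbourhood -/
def HasChart {W : Type} [NormedAddCommGroup W] [NormedSpace ℝ W] (u : W → Nm F V) (x : W) : Prop :=
  ∃ (O : Set W) (N : ℕ) (E : Fin N → Submodule K V) (T : Fin N → W → ℝ), x ∈ O ∧ Chart F u O E T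

end

end H50NA
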