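import Pool.Agent.H50.NA.Act
import Pool.Agent.H80.NA.Cls
import Pool.Agent.H80.NA.Chd
import Pool.Agent.H98.NX.Xd

set_option autoImplicit false

/-!
# MP_b319aa_NA, block S: definitions

The four points tau_k(s) at hyperbolic distance s from x + i y, the forms cc k, the displacement functions of components.
-/

namespace H50NA

open MeasureTheory Set Filter Topology
open H80HM (D U P f1 f2 pk rk)
open H98NX (ip e2)

noncomputable section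

/-- real parts of the four points -/
def tx (x y s : ℝ) : Fin 4 → ℝ := ![x, x - y * Real.tanh s, x, x + y * Real.tanh s]

/-- imaginary parts of the four points -/
def ty (y s : ℝ) : Fin 4 → ℝ :=
  ![y * Real.exp s, y / Real.cosh s, y * Real.exp (-s), y / Real.cosh s]

/-- angles of the first principal direction -/
def th4 : Fin 4 → ℝ := ![0, Real.pi / 4, Real.pi / 2, -(Real.pi / 4)]

section

variable {X : Type} [MetricSpace X]

/-- the trace free form of the direction k: E at tau_k(s) is the integral of cosh s e2 + sinh s cc -/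
def cc (k : Fin 4) (x y : ℝ) (f : ℝ × ℝ → X) (z : ℝ × ℝ) : ℝ :=
  pk k * (sp f (f1 x y) z ^ 2 - sp f (f2 x y) z ^ 2) +
    rk k * (sp f (f1 x y + f2 x y) z ^ 2 - sp f (f1 x y) z ^ 2 - sp f (f2 x y) z ^ 2)

/-- output of the geometric part of block S: S compact set containing the support of l in D, u and w k the limit maps
at x + i y and at tau_k(s) -/
structure PW (gm : X → X → ℝ → X) (l : ℝ × ℝ → ℝ) (S : Set (ℝ × ℝ)) (x y s : ℝ)
    (u : ℝ × ℝ → X) (w : Fin 4 → ℝ × ℝ → X) (Q : Fin 4 → ℝ × ℝ → ℝ × ℝ → ℝ) (J : ℝ × ℝ → ℝ)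
    (om : ℝ × ℝ → ℝ × ℝ → ℝ) : Prop where
  qint : ∀ k, ∀ t ∈ ({f1 x y, f2 x y} : Set (ℝ × ℝ)), IntegrableOn (Q k t) (S ∩ U)
  qnn : ∀ k, ∀ t ∈ ({f1 x y, f2 x y} : Set (ℝ × ℝ)),
    ∀ᵐ z ∂(volume : Measure (ℝ × ℝ)), z ∈ S ∩ U → 0 ≤ Q k t z
  pw1 : ∀ k, ∀ t ∈ ({f1 x y, f2 x y} : Set (ℝ × ℝ)), ∀ h : ℝ, 0 ≤ h → h ≤ 1 →
    ∀ᵐ z ∂(volume : Measure (ℝ × ℝ)), z ∈ S ∩ U →
      sp (ip gm u (w k) (fun _ => h)) t z ^ 2 ≤
        (1 - h) * sp u t z ^ 2 + h * sp (w k) t z ^ 2 - h * (1 - h) * Q k t z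
  pw2 : ∀ᵐ z ∂(volume : Measure (ℝ × ℝ)), z ∈ S ∩ U →
    -(4 * Real.exp (-s) * (l z * J z)) -
        2 * Real.exp s * Real.sinh s ^ 2 * (2 - l z) * e2 x y u z ≤
      ∑ k, (Real.cosh s * (Q k (f1 x y) z + Q k (f2 x y) z) + Real.sinh s * cc k x y (w k) z)
  pw3 : ∀ t ∈ ({f1 x y, f2 x y} : Set (ℝ × ℝ)), ∀ᵐ z ∂(volume : Measure (ℝ × ℝ)), z ∈ S ∩ U →
    om t z ^ 2 ≤ ((dist (u z) (w 0 z) + dist (u z) (w 2 z)) / 2) ^ 2 * ((Q 1 t z + Q 3 t z) / 2)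
  jint : IntegrableOn (fun z => l z * J z) (S ∩ U)
  pw4 : |∫ z in S ∩ U, l z * J z| ≤
    ∫ z in S ∩ U, (|fderiv ℝ l z (f1 x y)| * |om (f2 x y) z| +
      |fderiv ℝ l z (f2 x y)| * |om (f1 x y) z|)

end

section

variable {K : Type} [Field K] (F : VF K) {V : Type} [AddCommGroup V] [Module K V] [Module.Finite K V]

/-- mean displacement of the component W from u to w -/
def Vb (W : Submodule K V) (u w : ℝ × ℝ → Nm F V) (z : ℝ × ℝ) : ℝ :=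
  rd F (rs W (u z).1) (rs W (w z).1) / (Module.finrank K W : ℝ)

/-- X_b -/
def Xb (W : Submodule K V) (u : ℝ × ℝ → Nm F V) (w : Fin 4 → ℝ × ℝ → Nm F V) (z : ℝ × ℝ) : ℝ :=
  (Vb F W u (w 0) z - Vb F W u (w 2) z) / 2

/-- X'_b -/
def Yb (W : Submodule K V) (u : ℝ × ℝ → Nm F V) (w : Fin 4 → ℝ × ℝ → Nm F V) (z : ℝ × ℝ) : ℝ :=
  (Vb F W u (w 1) z - Vb F W u (w 3) z) / 2

/-- the gap of the sharp convexity inequality in direction t -/
def Qc {N : ℕ} (E : Fin N → Submodule K V) (T : Fin N → ℝ × ℝ → ℝ) (u w : ℝ × ℝ → Nm F V)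
    (t z : ℝ × ℝ) : ℝ :=
  (∑ b, nn E b * (fderiv ℝ (Vb F (E b) u w) z t) ^ 2) + sp w t z ^ 2 -
    ∑ b, nn E b * (fderiv ℝ (T b) z t + fderiv ℝ (Vb F (E b) u w) z t) ^ 2

/-- J in a chart -/
def Jc {N : ℕ} (E : Fin N → Submodule K V) (u : ℝ × ℝ → Nm F V) (w : Fin 4 → ℝ × ℝ → Nm F V)
    (e f z : ℝ × ℝ) : ℝ :=
  ∑ b, nn E b * (fderiv ℝ (Xb F (E b) u w) z e * fderiv ℝ (Yb F (E b) u w) z f -
    fderiv ℝ (Xb F (E b) u w) z f * fderiv ℝ (Yb F (E b) u w) z e)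

/-- the one form om in a chart -/
def Oc {N : ℕ} (E : Fin N → Submodule K V) (u : ℝ × ℝ → Nm F V) (w : Fin 4 → ℝ × ℝ → Nm F V)
    (t z : ℝ × ℝ) : ℝ :=
  ∑ b, nn E b * (Xb F (E b) u w z * fderiv ℝ (Yb F (E b) u w) z t)

end

end

end H50NA
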