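import Pool.Agent.H50.NA.Act

/-!
The action of the linear group on the space of norms is in Pool.Agent.H50.NA.Act.
-/
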