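import Pool.Agent.H80.NA.Ske

set_option autoImplicit false

/-!
# Row Llb: the coordinates Lt at the points tau_k(s), and the energies E0 at tau_k(s)

lt_bd. Lt x' y' z = z.re f1 x' y' + z.im f2 x' y', f1 x' y' = (sqrt y', 0), f2 x' y' = (-x'/sqrt y', 1/sqrt y'). For 0 <= s <= 1: y/4 <= ty y s k <= 4 y (exp 1 <= 4, 1 <= cosh s <= 4) and |tx x y s k - x| <= y (|tanh s| <= 1).
 With w = Lt x' y' z: w.2 = z.im/sqrt y', w.1 = z.re sqrt y' - z.im x'/sqrt y', z.im = sqrt y' w.2, z.re = (w.1 + x' w.2)/sqrt y'. All coefficients are bounded by constants depending on x, y. The norm on R x R is the sup norm; |re|, |im| <= norm z <= |re| + |im|.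
lt_near. For each k the coefficients sqrt y', x'/sqrt y', 1/sqrt y' are continuous functions of s with limit at s = 0 the coefficients for (x, y) (tx x y 0 k = x, ty y 0 k = y); choose s1 for each of the four k and take the minimum.
E0_tau_le. f in Cl0: Ex (tau_k) f <= exp s * Ex x y f: a.e. on U e2 (tau_k) f = cosh s e2 + sinh s cc_k (e2_tau), cc_k = sp fe^2 - sp ff^2 (cc_rot) and sp fe^2 + sp ff^2 = e2 (H98NX or H46 e2_frame in Pool.Agent.H46.XB.Vb), so |cc_k| <= e2; sinh s >= 0 for s >= 0; cosh + sinh = exp.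
 Then for every f in Cl0: E0 (tau_k) <= Ex (tau_k) f (E0_le of H46.XB.Vc) <= exp s * Ex x y f; take the infimum over f (if the class is empty both E0 are sInf of the empty set = 0).
-/

namespace H50NA

open MeasureTheory Set Filter Topology Metric
open H80HM (D U P f1 f2 pk rk)

variable {X : Type} [MetricSpace X] {gm : X → X → ℝ → X} {A B C : X ≃ᵢ X}

theorem Llb_cosh_le {s : ℝ} (hs : 0 ≤ s) : Real.cosh s ≤ Real.exp s := by
  rw [Real.cosh_eq]
  have h1 : Real.exp (-s) ≤ Real.exp s := Real.exp_le_exp.2 (by linarith)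
  linarith

theorem Llb_exp_le {s : ℝ} (hs : s ≤ 1) : Real.exp s ≤ 4 := by
  have h1 := Real.exp_le_exp.2 hs
  have h2 := Real.exp_one_lt_d9
  linarith

theorem Llb_tanh (s : ℝ) : |Real.tanh s| ≤ 1 := by
  rw [Real.tanh_eq_sinh_div_cosh, abs_div, abs_of_pos (Real.cosh_pos s), div_le_one (Real.cosh_pos s)]
  rw [abs_le, Real.sinh_eq, Real.cosh_eq]
  constructor
  · linarith [Real.exp_pos s]
  · linarith [Real.exp_pos (-s)]

theorem Llb_ty {y : ℝ} (hy : 0 < y) {s : ℝ} (hs : 0 ≤ s) (hs1 : s ≤ 1) (k : Fin 4) :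
    y / 4 ≤ ty y s k ∧ ty y s k ≤ 4 * y := by
  have h1 := Llb_exp_le hs1
  have h2 : 1 ≤ Real.exp s := Real.one_le_exp hs
  have h3 := Llb_cosh_le hs
  have h4 := Real.one_le_cosh s
  have hc := Real.cosh_pos s
  have he := Real.exp_pos s
  have h5 : y / 4 ≤ y * Real.exp (-s) ∧ y * Real.exp (-s) ≤ 4 * y := by
    rw [Real.exp_neg, ← div_eq_mul_inv]
    constructor
    · exact div_le_div_of_nonneg_left hy.le he h1
    · rw [div_le_iff₀ he]
      nlinarith
  have h6 : y / 4 ≤ y / Real.cosh s ∧ y / Real.cosh s ≤ 4 * y := by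
    constructor
    · exact div_le_div_of_nonneg_left hy.le hc (h3.trans h1)
    · rw [div_le_iff₀ hc]
      nlinarith
  fin_cases k
  · show y / 4 ≤ y * Real.exp s ∧ y * Real.exp s ≤ 4 * y
    constructor <;> nlinarith
  · exact h6
  · exact h5
  · exact h6

theorem Llb_tx (x : ℝ) {y : ℝ} (hy : 0 < y) (s : ℝ) (k : Fin 4) : |tx x y s k| ≤ |x| + y := by
  have h1 := abs_le.1 (Llb_tanh s)
  have h2 := le_abs_self x
  have h3 := neg_abs_le x
  have h4 : -y ≤ y * Real.tanh s ∧ y * Real.tanh s ≤ y := by constructor <;> nlinarith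
  fin_cases k
  · show |x| ≤ |x| + y
    linarith
  · show |x - y * Real.tanh s| ≤ |x| + y
    rw [abs_le]
    constructor <;> linarith
  · show |x| ≤ |x| + y
    linarith
  · show |x + y * Real.tanh s| ≤ |x| + y
    rw [abs_le]
    constructor <;> linarith

theorem Llb_Lt (x y : ℝ) (z : ℂ) : Lt x y z =
    (z.re * Real.sqrt y + z.im * (-x / Real.sqrt y), z.im * (1 / Real.sqrt y)) := by
  simp [Lt, f1, f2]

theorem lt_bd (x : ℝ) {y : ℝ} (hy : 0 < y) : ∃ c : ℝ, 1 ≤ c ∧ ∀ s : ℝ, 0 ≤ s → s ≤ 1 → ∀ (k : Fin 4) (z : ℂ),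
    ‖Lt (tx x y s k) (ty y s k) z‖ ≤ c * ‖z‖ ∧ ‖z‖ ≤ c * ‖Lt (tx x y s k) (ty y s k) z‖ := by
  obtain ⟨m, hm⟩ : ∃ m, m = Real.sqrt (y / 4) := ⟨_, rfl⟩
  obtain ⟨M, hM⟩ : ∃ M, M = Real.sqrt (4 * y) := ⟨_, rfl⟩
  have hm0 : 0 < m := by
    rw [hm]
    exact Real.sqrt_pos.2 (by linarith)
  have hM0 : 0 ≤ M := by
    rw [hM]
    exact Real.sqrt_nonneg _
  obtain ⟨c, hc⟩ : ∃ c, c = 1 + M + (1 + (|x| + y)) / m := ⟨_, rfl⟩
  have hX0 : 0 ≤ |x| + y := by positivity
  have hq : 0 ≤ (1 + (|x| + y)) / m := by positivity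
  refine ⟨c, by rw [hc]; linarith, fun s hs hs1 k z => ?_⟩
  obtain ⟨y', hy'⟩ : ∃ y', y' = ty y s k := ⟨_, rfl⟩
  obtain ⟨x', hx'⟩ : ∃ x', x' = tx x y s k := ⟨_, rfl⟩
  have hty := Llb_ty hy hs hs1 k
  have htx := Llb_tx x hy s k
  rw [← hy'] at hty
  rw [← hx'] at htx
  rw [← hy', ← hx', Llb_Lt]
  have hy'0 : 0 < y' := lt_of_lt_of_le (by linarith) hty.1
  obtain ⟨a, ha⟩ : ∃ a, a = Real.sqrt y' := ⟨_, rfl⟩
  rw [← ha]
  have ha0 : 0 < a := by
    rw [ha]
    exact Real.sqrt_pos.2 hy'0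
  have hma : m ≤ a := by
    rw [hm, ha]
    exact Real.sqrt_le_sqrt hty.1
  have haM : a ≤ M := by
    rw [hM, ha]
    exact Real.sqrt_le_sqrt hty.2
  have hinv : 1 / a ≤ 1 / m := one_div_le_one_div_of_le hm0 hma
  have hinv0 : 0 ≤ 1 / a := by positivity
  have hXa : |x'| / a ≤ (|x| + y) / m := div_le_div₀ hX0 htx hm0 hma
  have hsplit : (1 + (|x| + y)) / m = 1 / m + (|x| + y) / m := add_div _ _ _
  have hre := Complex.abs_re_le_norm z
  have him := Complex.abs_im_le_norm z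
  have hzn := norm_nonneg z
  constructor
  · rw [Prod.norm_def]
    apply max_le
    · rw [Real.norm_eq_abs]
      calc |z.re * a + z.im * (-x' / a)| ≤ |z.re * a| + |z.im * (-x' / a)| := abs_add_le _ _
        _ = |z.re| * a + |z.im| * (|x'| / a) := by
            rw [abs_mul, abs_mul, abs_div, abs_neg, abs_of_pos ha0]
        _ ≤ ‖z‖ * M + ‖z‖ * ((|x| + y) / m) :=
            add_le_add (mul_le_mul hre haM ha0.le hzn) (mul_le_mul him hXa (by positivity) hzn)
        _ ≤ c * ‖z‖ := by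
            have h1 : 0 ≤ 1 / m := by positivity
            rw [hc, hsplit]
            nlinarith
    · rw [Real.norm_eq_abs]
      calc |z.im * (1 / a)| = |z.im| * (1 / a) := by rw [abs_mul, abs_of_nonneg hinv0]
        _ ≤ ‖z‖ * (1 / m) := mul_le_mul him hinv hinv0 hzn
        _ ≤ c * ‖z‖ := by
            have h1 : 0 ≤ (|x| + y) / m := by positivity
            rw [hc, hsplit]
            nlinarith
  · obtain ⟨w, hw⟩ : ∃ w : ℝ × ℝ, w = (z.re * a + z.im * (-x' / a), z.im * (1 / a)) := ⟨_, rfl⟩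
    rw [← hw]
    have h1 : |w.1| ≤ ‖w‖ := by
      rw [← Real.norm_eq_abs]
      exact norm_fst_le w
    have h2 : |w.2| ≤ ‖w‖ := by
      rw [← Real.norm_eq_abs]
      exact norm_snd_le w
    have hwn := norm_nonneg w
    have e1 : z.im = a * w.2 := by
      rw [hw]
      field_simp
    have e2 : z.re = (w.1 + x' * w.2) / a := by
      rw [hw]
      field_simp
      ring
    have h3 : |z.im| ≤ M * ‖w‖ := by
      rw [e1, abs_mul, abs_of_pos ha0]
      exact mul_le_mul haM h2 (abs_nonneg _) hM0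
    have h4 : |z.re| ≤ (1 + (|x| + y)) / m * ‖w‖ := by
      rw [e2, abs_div, abs_of_pos ha0]
      have h5 : |w.1 + x' * w.2| ≤ (1 + (|x| + y)) * ‖w‖ := by
        calc |w.1 + x' * w.2| ≤ |w.1| + |x' * w.2| := abs_add_le _ _
          _ = |w.1| + |x'| * |w.2| := by rw [abs_mul]
          _ ≤ ‖w‖ + (|x| + y) * ‖w‖ := add_le_add h1 (mul_le_mul htx h2 (abs_nonneg _) hX0)
          _ = _ := by ring
      calc |w.1 + x' * w.2| / a ≤ ((1 + (|x| + y)) * ‖w‖) / m :=
            div_le_div₀ (by positivity) h5 hm0 hma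
        _ = _ := by ring
    calc ‖z‖ ≤ |z.re| + |z.im| := Complex.norm_le_abs_re_add_abs_im z
      _ ≤ (1 + (|x| + y)) / m * ‖w‖ + M * ‖w‖ := add_le_add h4 h3
      _ ≤ c * ‖w‖ := by
          rw [hc]
          nlinarith

theorem Llb_cont_tanh : Continuous Real.tanh := by
  have h1 : Real.tanh = fun s => Real.sinh s / Real.cosh s := by
    funext s
    exact Real.tanh_eq_sinh_div_cosh s
  rw [h1]
  exact Real.continuous_sinh.div Real.continuous_cosh fun s => (Real.cosh_pos s).ne'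

theorem Llb_cont_tx (x y : ℝ) (k : Fin 4) : Continuous (fun s => tx x y s k) := by
  have h1 := Llb_cont_tanh
  fin_cases k
  · show Continuous fun _ : ℝ => x
    exact continuous_const
  · show Continuous fun s : ℝ => x - y * Real.tanh s
    fun_prop
  · show Continuous fun _ : ℝ => x
    exact continuous_const
  · show Continuous fun s : ℝ => x + y * Real.tanh s
    fun_prop

theorem Llb_cont_ty (y : ℝ) (k : Fin 4) : Continuous (fun s => ty y s k) := by
  have h1 : Continuous fun s : ℝ => y / Real.cosh s :=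
    continuous_const.div Real.continuous_cosh fun s => (Real.cosh_pos s).ne'
  fin_cases k
  · show Continuous fun s : ℝ => y * Real.exp s
    fun_prop
  · exact h1
  · show Continuous fun s : ℝ => y * Real.exp (-s)
    fun_prop
  · exact h1

theorem Llb_tx0 (x y : ℝ) (k : Fin 4) : tx x y 0 k = x := by
  fin_cases k <;> simp [tx]

theorem Llb_ty0 (y : ℝ) (k : Fin 4) : ty y 0 k = y := by
  fin_cases k <;> simp [ty]

theorem lt_near (x : ℝ) {y : ℝ} (hy : 0 < y) {e : ℝ} (he : 0 < e) :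
    ∃ s1 : ℝ, 0 < s1 ∧ ∀ s : ℝ, 0 ≤ s → s ≤ s1 → ∀ (k : Fin 4) (z : ℂ),
      ‖Lt (tx x y s k) (ty y s k) z - Lt x y z‖ ≤ e * ‖z‖ := by
  have hsy : 0 < Real.sqrt y := Real.sqrt_pos.2 hy
  have key : ∀ k : Fin 4, ∀ᶠ s : ℝ in 𝓝 0,
      |Real.sqrt (ty y s k) - Real.sqrt y| +
        |-tx x y s k / Real.sqrt (ty y s k) - -x / Real.sqrt y| +
        |1 / Real.sqrt (ty y s k) - 1 / Real.sqrt y| < e := by
    intro k
    have c1 : ContinuousAt (fun s => Real.sqrt (ty y s k)) 0 :=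
      (Real.continuous_sqrt.comp (Llb_cont_ty y k)).continuousAt
    have c2 : ContinuousAt (fun s => tx x y s k) 0 := (Llb_cont_tx x y k).continuousAt
    have hne : Real.sqrt (ty y 0 k) ≠ 0 := by
      rw [Llb_ty0]
      exact hsy.ne'
    have c3 : ContinuousAt (fun s : ℝ => |Real.sqrt (ty y s k) - Real.sqrt y| +
        |-tx x y s k / Real.sqrt (ty y s k) - -x / Real.sqrt y| +
        |1 / Real.sqrt (ty y s k) - 1 / Real.sqrt y|) 0 :=
      (((c1.sub continuousAt_const).abs).add (((c2.neg.div c1 hne).sub continuousAt_const).abs)).add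
        (((continuousAt_const.div c1 hne).sub continuousAt_const).abs)
    refine c3.eventually (gt_mem_nhds ?_)
    show |Real.sqrt (ty y 0 k) - Real.sqrt y| +
        |-tx x y 0 k / Real.sqrt (ty y 0 k) - -x / Real.sqrt y| +
        |1 / Real.sqrt (ty y 0 k) - 1 / Real.sqrt y| < e
    rw [Llb_ty0, Llb_tx0]
    simp [he]
  have hall := eventually_all.2 key
  obtain ⟨δ, hδ, h⟩ := Metric.eventually_nhds_iff.1 hall
  refine ⟨δ / 2, by positivity, fun s hs0 hs k z => ?_⟩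
  have h1 := h (y := s) (by
    rw [Real.dist_eq, sub_zero, abs_of_nonneg hs0]
    linarith) k
  rw [Llb_Lt, Llb_Lt]
  obtain ⟨a, ha⟩ : ∃ a, a = Real.sqrt (ty y s k) - Real.sqrt y := ⟨_, rfl⟩
  obtain ⟨b, hb⟩ : ∃ b, b = -tx x y s k / Real.sqrt (ty y s k) - -x / Real.sqrt y := ⟨_, rfl⟩
  obtain ⟨d, hd⟩ : ∃ d, d = 1 / Real.sqrt (ty y s k) - 1 / Real.sqrt y := ⟨_, rfl⟩
  rw [← ha, ← hb, ← hd] at h1
  have e1 : (z.re * Real.sqrt (ty y s k) + z.im * (-tx x y s k / Real.sqrt (ty y s k)),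
      z.im * (1 / Real.sqrt (ty y s k))) -
      (z.re * Real.sqrt y + z.im * (-x / Real.sqrt y), z.im * (1 / Real.sqrt y)) =
      (z.re * a + z.im * b, z.im * d) := by
    rw [Prod.mk_sub_mk, ha, hb, hd]
    congr 1 <;> ring
  rw [e1]
  have hre := Complex.abs_re_le_norm z
  have him := Complex.abs_im_le_norm z
  have hzn := norm_nonneg z
  have ha0 := abs_nonneg a
  have hb0 := abs_nonneg b
  have hd0 := abs_nonneg d
  rw [Prod.norm_def]
  apply max_le
  · rw [Real.norm_eq_abs]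
    calc |z.re * a + z.im * b| ≤ |z.re * a| + |z.im * b| := abs_add_le _ _
      _ = |z.re| * |a| + |z.im| * |b| := by rw [abs_mul, abs_mul]
      _ ≤ ‖z‖ * |a| + ‖z‖ * |b| :=
          add_le_add (mul_le_mul_of_nonneg_right hre ha0) (mul_le_mul_of_nonneg_right him hb0)
      _ ≤ e * ‖z‖ := by nlinarith
  · rw [Real.norm_eq_abs]
    calc |z.im * d| = |z.im| * |d| := abs_mul _ _
      _ ≤ ‖z‖ * |d| := mul_le_mul_of_nonneg_right him hd0
      _ ≤ e * ‖z‖ := by nlinarith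

theorem Llb_ex (hX : Npc X gm) {f : ℝ × ℝ → X} (hf : Clx A B C f) (x : ℝ) {y : ℝ} (hy : 0 < y)
    {s : ℝ} (hs : 0 ≤ s) (k : Fin 4) :
    Ex (tx x y s k) (ty y s k) f ≤ Real.exp s * Ex x y f := by
  have hl := clx_lpo hf
  rw [ex_tau_hk hX hf x hy s k, H46XB.ex_frame hX hl x y (th4 k), ← integral_const_mul]
  have h1 := H46XB.sp_all_int hX hl hf.fin (H98NX.fe x y (th4 k))
  have h2 := H46XB.sp_all_int hX hl hf.fin (H98NX.ff x y (th4 k))
  refine integral_mono_of_nonneg (Eventually.of_forall fun z => ?_) ((h1.add h2).const_mul _)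
    (Eventually.of_forall fun z => ?_)
  · have := Real.exp_pos s
    have := Real.exp_pos (-s)
    show 0 ≤ Real.exp s * sp f (H98NX.fe x y (th4 k)) z ^ 2 +
      Real.exp (-s) * sp f (H98NX.ff x y (th4 k)) z ^ 2
    positivity
  · show Real.exp s * sp f (H98NX.fe x y (th4 k)) z ^ 2 +
      Real.exp (-s) * sp f (H98NX.ff x y (th4 k)) z ^ 2 ≤
      Real.exp s * (sp f (H98NX.fe x y (th4 k)) z ^ 2 + sp f (H98NX.ff x y (th4 k)) z ^ 2)
    have h3 : Real.exp (-s) ≤ Real.exp s := Real.exp_le_exp.2 (by linarith)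
    have h4 := mul_le_mul_of_nonneg_right h3 (sq_nonneg (sp f (H98NX.ff x y (th4 k)) z))
    rw [mul_add]
    linarith

theorem E0_tau_le (hX : Npc X gm) (r : ℝ) (o : X) (x : ℝ) {y : ℝ} (hy : 0 < y) {s : ℝ} (hs : 0 ≤ s)
    (k : Fin 4) :
    E0 A B C r o (tx x y s k) (ty y s k) ≤ Real.exp s * E0 A B C r o x y := by
  by_cases hne : ∃ f, Cl0 A B C r o f
  · have he := Real.exp_pos s
    rw [← div_le_iff₀' he]
    refine le_csInf ?_ ?_
    · obtain ⟨f, hf⟩ := hne
      exact ⟨_, f, hf, rfl⟩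
    · rintro _ ⟨f, hf, rfl⟩
      rw [div_le_iff₀' he]
      exact (H46XB.E0_le hf _ _).trans (Llb_ex hX hf.cl x hy hs k)
  · have h1 : ∀ x' y' : ℝ, E0 A B C r o x' y' = 0 := by
      intro x' y'
      have h2 : {e | ∃ f, Cl0 A B C r o f ∧ e = Ex x' y' f} = ∅ := by
        ext e
        simp only [mem_ofPred_eq, mem_empty_iff_false, iff_false]
        rintro ⟨f, hf, -⟩
        exact hne ⟨f, hf⟩
      unfold E0
      rw [h2, Real.sInf_empty]
    rw [h1, h1, mul_zero]

end H50NA
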