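import Pool.Agent.H80.NA.Si
import Pool.Agent.H80.NA.Ske
import Pool.Agent.H46.XB.Vf
import Pool.Agent.H98.NX.El
import Pool.Agent.H98.NX.Xc

set_option autoImplicit false

/-!
# Row Lld: closeness of the limit maps at (x, y) and at tau_k(s) in the integral sense

lim_close. M := max of the two constants below. Given s in (0,1], k, w a Lim at tau_k(s), S compact in Gd r. By the field app: g in Nr x y (s^2) with g = u on S, G in Nr (tau_k) (s^2) with G = w on S. near_two_dist (H46.XB.Vf; hk from ex_tau_hk of row Ske, r < 1/4) gives int_U dist (g)(G)^2 <= c s^2, near_two_sp gives, for every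
 th', int_U ((sp g fe - sp G fe)^2 + (sp g ff - sp G ff)^2) <= 150 (E0 + 1) s^2 =: c' s^2.
 (1) on S cap U: dist (u z)(w z) = dist (g z)(G z); restrict the integral (nonnegative integrand; integrability on U of dist^2: dist_le of H46.XB.Ve, its first component or near_two_dist; on S cap U: compact subset, H98NX.dist_sq_int).
 (2) t = a f1 + b f2: write (a, b) = rho (cos th, sin th) (rho = sqrt (a^2+b^2); polar form of the complex number a + i b: Complex.abs, Complex.arg, or Real: exists th), so t = rho fe x y th, fe x y th = cos th f1 + sin th f2. Almost everywhere on U minus Zr (open): sp u (rho fe) = rho sp u fe (H98NX.sp_smul for Dlim points, sp_lim of H98NX.Ed),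
 the same for w. Almost everywhere on S cap U: sp u t = sp g t and sp w t = sp G t (H98NX.sp_eq_on with the open set U minus Zr r (all four maps are Lpo there; U minus Zr r is contained in Gd r and in D minus P) and A = S cap U measurable). So the integral over S cap U is
 rho^2 int_{S cap U} (sp g fe - sp G fe)^2 <= (a^2+b^2) c' s^2 (drop the nonnegative second term, monotonicity in the set; integrability of (sp g fe - sp G fe)^2 on U: mt_int and (sp - sp)^2 <= mt, measurability from sp_meas; or sp_all_int of H46.XB.Vb).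
 The integrability statement: (sp u t - sp w t)^2 on S cap U: sp^2 integrable on compact subsets (H98NX.sp_sq_int / ext_int of Xc with s = 0), or almost everywhere equal to the integrable function above.
-/

namespace H50NA

open MeasureTheory Set Filter Topology Metric
open H80HM (D U P f1 f2 pk rk)
open H98NX (e2)

variable {X : Type} [MetricSpace X] {gm : X → X → ℝ → X} {A B C : X ≃ᵢ X}

private theorem Lld_open : IsOpen U := isOpen_Ioo.prod isOpen_Ioo

private theorem Lld_aes {f : ℝ × ℝ → X} (hf : Lpo f U) (t : ℝ × ℝ) :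
    AEStronglyMeasurable (sp f t) (volume.restrict U) :=
  (aestronglyMeasurable_indicator_iff Lld_open.measurableSet).1
    (H98NX.sp_meas Lld_open (H98NX.lpo_cont Lld_open hf) t).aestronglyMeasurable

private theorem Lld_int (hX : Npc X gm) {f g : ℝ × ℝ → X} (hf : Clx A B C f) (hg : Clx A B C g)
    (t : ℝ × ℝ) : IntegrableOn (fun z => (sp f t z - sp g t z) ^ 2) U := by
  refine Integrable.mono' (H46XB.mt_int hX hf hg t)
    (((Lld_aes (clx_lpo hf) t).sub (Lld_aes (clx_lpo hg) t)).pow 2) ?_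
  refine Eventually.of_forall (fun z => ?_)
  rw [Real.norm_of_nonneg (sq_nonneg _)]
  exact le_max_left _ _

private theorem Lld_sub {r : ℝ} : U \ Zr r ⊆ Gd r := by
  rintro z ⟨h1, h2⟩
  have h3 := H98NX.u_sub_D h1
  exact ⟨h3.1, fun h => h.elim h3.2 h2⟩

private theorem Lld_polar (a b : ℝ) : ∃ ρ th : ℝ, 0 ≤ ρ ∧ ρ ^ 2 = a ^ 2 + b ^ 2 ∧
    a = ρ * Real.cos th ∧ b = ρ * Real.sin th := by
  refine ⟨‖(⟨a, b⟩ : ℂ)‖, Complex.arg ⟨a, b⟩, norm_nonneg _, ?_, ?_, ?_⟩
  · rw [Complex.sq_norm, Complex.normSq_mk]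
    ring
  · exact (Complex.norm_mul_cos_arg ⟨a, b⟩).symm
  · exact (Complex.norm_mul_sin_arg ⟨a, b⟩).symm

/-- replacement of a limit map by a map of the class on a part of the domain -/
private theorem Lld_rep {r : ℝ} {f g : ℝ × ℝ → X} (hf : Lpo f (Gd r)) (hg : Clx A B C g)
    {S : Set (ℝ × ℝ)} (hS : IsCompact S) (hSG : S ⊆ Gd r) (h : ∀ z ∈ S, g z = f z)
    (t : ℝ × ℝ) : ∀ᵐ z ∂(volume : Measure (ℝ × ℝ)), z ∈ S ∩ U → sp f t z = sp g t z := by
  have hO : IsOpen (U \ Zr r) := Lld_open.sdiff Metric.isClosed_closedBall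
  refine H98NX.sp_eq_on (volume : Measure (ℝ × ℝ)) hO (H98NX.lpo_mono Lld_sub hf)
    (H98NX.lpo_mono (fun z hz => hz.1) (clx_lpo hg)) (hS.measurableSet.inter Lld_open.measurableSet)
    ?_ (fun z hz => (h z hz.1).symm) t
  rintro z ⟨h1, h2⟩
  exact ⟨h2, fun h3 => (hSG h1).2 (Or.inr h3)⟩

theorem lim_close (hX : Npc X gm) {r : ℝ} {o : X} {x y : ℝ} (hr : 0 < r) (hr8 : r < 1 / 8) (hy : 0 < y)
    {u : ℝ × ℝ → X} (hu : Lim A B C r o x y u) :
    ∃ M : ℝ, 0 ≤ M ∧ ∀ s : ℝ, 0 < s → s ≤ 1 → ∀ (k : Fin 4) (w : ℝ × ℝ → X),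
      Lim A B C r o (tx x y s k) (ty y s k) w → ∀ S ⊆ Gd r, IsCompact S →
        (IntegrableOn (fun z => dist (u z) (w z) ^ 2) (S ∩ U) ∧
          ∫ z in S ∩ U, dist (u z) (w z) ^ 2 ≤ M * s ^ 2) ∧
        ∀ a b : ℝ, IntegrableOn (fun z => (sp u (a • f1 x y + b • f2 x y) z -
            sp w (a • f1 x y + b • f2 x y) z) ^ 2) (S ∩ U) ∧
          ∫ z in S ∩ U, (sp u (a • f1 x y + b • f2 x y) z - sp w (a • f1 x y + b • f2 x y) z) ^ 2 ≤
            M * (a ^ 2 + b ^ 2) * s ^ 2 := by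
  have hr4 : r < 1 / 4 := by linarith
  have hE := H46XB.E0_nonneg (A := A) (B := B) (C := C) r o x y
  refine ⟨max ((1 / (2 * r) + 1 / 2) * H46XB.kap x y * (150 * (E0 A B C r o x y + 1)))
    (150 * (E0 A B C r o x y + 1)), le_max_of_le_right (by positivity), ?_⟩
  intro s hs0 hs1 k w hw S hSG hS
  have hs2 : (0 : ℝ) < s ^ 2 := by positivity
  have hs21 : s ^ 2 ≤ 1 := pow_le_one₀ hs0.le hs1
  obtain ⟨g, hg, hgu⟩ := hu.app S hSG hS (s ^ 2) hs2
  obtain ⟨G, hG, hGw⟩ := hw.app S hSG hS (s ^ 2) hs2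
  have hgC := hg.1.cl
  have hGC := hG.1.cl
  have hk : ∀ h : ℝ × ℝ → X, Clx A B C h → Ex (tx x y s k) (ty y s k) h =
      ∫ z in U, (Real.exp s * sp h (H98NX.fe x y (th4 k)) z ^ 2 +
        Real.exp (-s) * sp h (H98NX.ff x y (th4 k)) z ^ 2) := fun h hh => ex_tau_hk hX hh x hy s k
  have hAm : MeasurableSet (S ∩ U) := hS.measurableSet.inter Lld_open.measurableSet
  constructor
  · have h1 := H46XB.near_two_dist hX hr hr4 hy hs0.le hs1 le_rfl hs21 hk hg hG
    have h2 := (H46XB.dist_le hX hr hr4 hg.1 hG.1 x hy).1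
    have h3 : EqOn (fun z => dist (g z) (G z) ^ 2) (fun z => dist (u z) (w z) ^ 2) (S ∩ U) := by
      intro z hz
      show dist (g z) (G z) ^ 2 = dist (u z) (w z) ^ 2
      rw [hgu z hz.1, hGw z hz.1]
    have h4 : IntegrableOn (fun z => dist (g z) (G z) ^ 2) (S ∩ U) :=
      h2.mono_set inter_subset_right
    refine ⟨h4.congr_fun h3 hAm, ?_⟩
    rw [← setIntegral_congr_fun hAm h3]
    have h5 : ∫ z in S ∩ U, dist (g z) (G z) ^ 2 ≤ ∫ z in U, dist (g z) (G z) ^ 2 :=
      setIntegral_mono_set h2 (Eventually.of_forall (fun z => sq_nonneg _))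
        (HasSubset.Subset.eventuallyLE inter_subset_right)
    refine h5.trans (h1.trans ?_)
    exact mul_le_mul_of_nonneg_right (le_max_left _ _) hs2.le
  · intro a b
    obtain ⟨ρ, th, hρ0, hρ, ha, hb⟩ := Lld_polar a b
    have ht : a • f1 x y + b • f2 x y = ρ • H98NX.fe x y th := by
      rw [H98NX.fe, smul_add, smul_smul, smul_smul, ← ha, ← hb]
    rw [ht]
    have hgd := H98NX.sp_lim (volume : Measure (ℝ × ℝ)) Lld_open (clx_lpo hgC)
    have hGd := H98NX.sp_lim (volume : Measure (ℝ × ℝ)) Lld_open (clx_lpo hGC)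
    have hae : ∀ᵐ z ∂(volume.restrict (S ∩ U)),
        (sp u (ρ • H98NX.fe x y th) z - sp w (ρ • H98NX.fe x y th) z) ^ 2 =
          ρ ^ 2 * (sp g (H98NX.fe x y th) z - sp G (H98NX.fe x y th) z) ^ 2 := by
      rw [ae_restrict_iff' hAm]
      filter_upwards [Lld_rep hu.lip hgC hS hSG hgu (ρ • H98NX.fe x y th),
        Lld_rep hw.lip hGC hS hSG hGw (ρ • H98NX.fe x y th), hgd, hGd] with z h1 h2 h3 h4 hz
      rw [h1 hz, h2 hz, H98NX.sp_smul (h3 hz.2), H98NX.sp_smul (h4 hz.2), abs_of_nonneg hρ0]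
      ring
    have hi := Lld_int hX hgC hGC (H98NX.fe x y th)
    have hi2 := Lld_int hX hgC hGC (H98NX.ff x y th)
    have hiS : IntegrableOn (fun z => ρ ^ 2 * (sp g (H98NX.fe x y th) z - sp G (H98NX.fe x y th) z) ^ 2)
        (S ∩ U) := (hi.mono_set inter_subset_right).const_mul _
    refine ⟨Integrable.congr hiS (hae.mono (fun z hz => hz.symm)), ?_⟩
    rw [integral_congr_ae hae, integral_const_mul]
    have h5 : ∫ z in S ∩ U, (sp g (H98NX.fe x y th) z - sp G (H98NX.fe x y th) z) ^ 2 ≤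
        ∫ z in U, (sp g (H98NX.fe x y th) z - sp G (H98NX.fe x y th) z) ^ 2 :=
      setIntegral_mono_set hi (Eventually.of_forall (fun z => sq_nonneg _))
        (HasSubset.Subset.eventuallyLE inter_subset_right)
    have h6 : ∫ z in U, (sp g (H98NX.fe x y th) z - sp G (H98NX.fe x y th) z) ^ 2 ≤
        ∫ z in U, ((sp g (H98NX.fe x y th) z - sp G (H98NX.fe x y th) z) ^ 2 +
          (sp g (H98NX.ff x y th) z - sp G (H98NX.ff x y th) z) ^ 2) :=
      integral_mono hi (hi.add hi2) (fun z => le_add_of_nonneg_right (sq_nonneg _))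
    have h7 := H46XB.near_two_sp hX hs0.le hs1 le_rfl hs21 hk hg hG th
    have h8 : ∫ z in S ∩ U, (sp g (H98NX.fe x y th) z - sp G (H98NX.fe x y th) z) ^ 2 ≤
        max ((1 / (2 * r) + 1 / 2) * H46XB.kap x y * (150 * (E0 A B C r o x y + 1)))
          (150 * (E0 A B C r o x y + 1)) * s ^ 2 :=
      h5.trans (h6.trans (h7.trans (mul_le_mul_of_nonneg_right (le_max_right _ _) hs2.le)))
    rw [← hρ]
    calc ρ ^ 2 * ∫ z in S ∩ U, (sp g (H98NX.fe x y th) z - sp G (H98NX.fe x y th) z) ^ 2 ≤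
        ρ ^ 2 * (max ((1 / (2 * r) + 1 / 2) * H46XB.kap x y * (150 * (E0 A B C r o x y + 1)))
          (150 * (E0 A B C r o x y + 1)) * s ^ 2) :=
          mul_le_mul_of_nonneg_left h8 (sq_nonneg ρ)
      _ = _ := by ring

end H50NA
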