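import Pool.Agent.H80.NA.Llc
import Pool.Agent.H80.NA.Lld

set_option autoImplicit false

/-!
# Row Lle: closeness on balls of Wg r sg, for the extensions across a seam: integral, and uniform

ext_close. u Lim at (x,y), M from lim_close. S compact in Wg r sg, w a Lim at tau_k(s). S' := (S cap D) u Rs sg '' (S minus U) is compact and contained in Gd r (rt_cpt of H98NX.Xb).
 (1) for z in S: dist (ext u z)(ext w z) = dist (u z)(w z) if z in D, = dist (u (Rs z))(w (Rs z)) if z not in D (gs is an isometry). int_S = int_{S cap U} + int_{S minus D} (D minus U null: vol_DU of Xa2), int_{S minus D} F(Rs z) dz = int_{Rs '' (S minus D)} F (rs_mp, Rs injective: MeasurePreserving.setIntegral_image_emb or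
     as in Xc: ext_int). The two sets S cap U and Rs '' (S minus D) are disjoint subsets of S' cap U (ext_dis), so the sum is at most int_{S' cap U} dist (u)(w)^2 <= M s^2.
 (2) the same with (sp (ext u) t z - sp (ext w) t z)^2: on the open set U: sp (ext u) t z = sp u t z for z in U minus Zr (ext u = u near z: H98NX.sp_loc); for z in S minus D (open complement of D): ext u = gs o u o Rs near z, sp (ext u) t z = sp u (sg • t) (Rs z) (sp_isom, sp_lin of H98NX.Eb with Rs (x+y) = Rs x + sg y),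
     and sp u (-t) = sp u t at Dlim points (sp_smul with c = -1), almost all points of U minus Zr; pull back by the measure preserving Rs.
lim_unif. rho0, L from lim_lip at p (closedBall p rho0 in Wg r sg; L works for w and, with s = 0, k = 0 and tau_zero, for u). rho := rho0/2. Given e > 0: dl := min rho (e/(4 (L+1))); area of a sup-ball: volume (closedBall z dl) = (2 dl)^2 > 0. s1 := min 1 of a number with M s1^2 < (e/2)^2 (2 dl)^2.
 If dist (ext u z0)(ext w z0) > e for some z0 in closedBall p rho, then on closedBall z0 dl (contained in closedBall p rho0) dist (ext u)(ext w) >= e - 2 L dl >= e/2, so int over closedBall z0 dl of dist^2 is >= (e/2)^2 (2 dl)^2 > M s^2, contradiction with ext_close (1) for S = closedBall z0 dl.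
 (volume of the product ball: Real.volume_closedBall and closedBall_prod_same; only positivity is needed: choose s1 with M s1^2 < (e/2)^2 * (volume (closedBall 0 dl)).toReal, which is positive and does not depend on the centre: Measure.addHaar_closedBall_center or translation invariance.)
-/

namespace H50NA

open MeasureTheory Set Filter Topology Metric
open H80HM (D U P f1 f2 pk rk)
open H98NX (e2)

variable {X : Type} [MetricSpace X] {gm : X → X → ℝ → X} {A B C : X ≃ᵢ X}

theorem Lle_pull {r : ℝ} (hr : r < 1 / 4) {sg : Fin 7} {S : Set (ℝ × ℝ)} (hS : IsCompact S)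
    (hSW : S ⊆ Wg r sg) {F F0 : ℝ × ℝ → ℝ} (h0 : ∀ z, 0 ≤ F0 z) (h1 : ∀ z ∈ S ∩ U, F z = F0 z)
    (h2 : ∀ᵐ z ∂(volume : Measure (ℝ × ℝ)), z ∈ S \ D → F z = F0 (Rs sg z))
    (hI : IntegrableOn F0 (((S ∩ D) ∪ Rs sg '' (S \ U)) ∩ U)) :
    IntegrableOn F S ∧ ∫ z in S, F z ≤ ∫ z in ((S ∩ D) ∪ Rs sg '' (S \ U)) ∩ U, F0 z := by
  obtain ⟨m1, m2, dis, hsub⟩ := H98NX.ext_dis hr hS hSW
  have hU : MeasurableSet U := H98NX.u_open.measurableSet
  have hD : MeasurableSet D := H98NX.d_closed.measurableSet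
  have hSD : MeasurableSet (S \ D) := hS.measurableSet.diff hD
  have hemb : MeasurableEmbedding (Rs sg) :=
    (Isometry.of_dist_eq (H98NX.rs_dist sg)).isClosedEmbedding.measurableEmbedding
  have hT : (S ∩ U) ∪ (Rs sg '' (S \ D)) ⊆ ((S ∩ D) ∪ Rs sg '' (S \ U)) ∩ U := by
    intro x hx
    refine ⟨?_, hsub hx⟩
    rcases hx with hx | hx
    · exact Or.inl ⟨hx.1, (H98NX.u_sub_D hx.2).1⟩
    · refine Or.inr (image_mono ?_ hx)
      rintro y ⟨hy1, hy2⟩
      exact ⟨hy1, fun h => hy2 (H98NX.u_sub_D h).1⟩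
  have hIT := hI.mono_set hT
  have hI1 : IntegrableOn F0 (S ∩ U) := hIT.mono_set subset_union_left
  have hI2 : IntegrableOn F0 (Rs sg '' (S \ D)) := hIT.mono_set subset_union_right
  have hI2' : IntegrableOn (fun z => F0 (Rs sg z)) (S \ D) :=
    ((H98NX.rs_mp sg).integrableOn_image hemb).1 hI2
  have hae : ∀ᵐ z ∂(volume.restrict (S \ D) : Measure (ℝ × ℝ)), F z = F0 (Rs sg z) := by
    rw [ae_restrict_iff' hSD]
    exact h2
  have hJ1 : IntegrableOn F (S ∩ U) := hI1.congr_fun (fun z hz => (h1 z hz).symm) m1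
  have hJ2 : IntegrableOn F (S \ D) :=
    hI2'.congr_fun_ae (hae.mono fun z hz => hz.symm)
  have hset : (S : Set (ℝ × ℝ)) =ᵐ[(volume : Measure (ℝ × ℝ))]
      ((S ∩ U) ∪ (S \ D) : Set (ℝ × ℝ)) := by
    rw [ae_eq_set]
    constructor
    · refine measure_mono_null ?_ H98NX.vol_DU
      rintro x ⟨hx1, hx2⟩
      refine ⟨?_, fun h => hx2 (Or.inl ⟨hx1, h⟩)⟩
      by_contra h4
      exact hx2 (Or.inr ⟨hx1, h4⟩)
    · refine measure_mono_null (t := ∅) ?_ measure_empty
      rintro x ⟨hx1 | hx1, hx2⟩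
      · exact hx2 hx1.1
      · exact hx2 hx1.1
  have hdis : Disjoint (S ∩ U) (S \ D) := by
    rw [Set.disjoint_left]
    rintro x ⟨-, hx⟩ ⟨-, hx'⟩
    exact hx' (H98NX.u_sub_D hx).1
  have hJ : IntegrableOn F S := (integrableOn_congr_set_ae hset).2 (hJ1.union hJ2)
  refine ⟨hJ, ?_⟩
  have e1 : ∫ z in S, F z = (∫ z in S ∩ U, F0 z) + ∫ z in Rs sg '' (S \ D), F0 z := by
    rw [setIntegral_congr_set hset, setIntegral_union hdis hSD hJ1 hJ2,
      setIntegral_congr_fun m1 h1, integral_congr_ae hae,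
      (H98NX.rs_mp sg).setIntegral_image_emb hemb]
  rw [e1, ← setIntegral_union dis m2 hI1 hI2]
  exact setIntegral_mono_set hI (ae_of_all _ h0) (LE.le.eventuallyLE hT)

theorem ext_close (hX : Npc X gm) {r : ℝ} {o : X} {x y : ℝ} (hr : 0 < r) (hr8 : r < 1 / 8) (hy : 0 < y)
    {u : ℝ × ℝ → X} (hu : Lim A B C r o x y u) :
    ∃ M : ℝ, 0 ≤ M ∧ ∀ s : ℝ, 0 < s → s ≤ 1 → ∀ (k : Fin 4) (w : ℝ × ℝ → X),
      Lim A B C r o (tx x y s k) (ty y s k) w → ∀ (sg : Fin 7) (S : Set (ℝ × ℝ)), S ⊆ Wg r sg → IsCompact S →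
        (IntegrableOn (fun z => dist (ext A B C sg u z) (ext A B C sg w z) ^ 2) S ∧
          ∫ z in S, dist (ext A B C sg u z) (ext A B C sg w z) ^ 2 ≤ M * s ^ 2) ∧
        ∀ a b : ℝ, IntegrableOn (fun z => (sp (ext A B C sg u) (a • f1 x y + b • f2 x y) z -
            sp (ext A B C sg w) (a • f1 x y + b • f2 x y) z) ^ 2) S ∧
          ∫ z in S, (sp (ext A B C sg u) (a • f1 x y + b • f2 x y) z -
            sp (ext A B C sg w) (a • f1 x y + b • f2 x y) z) ^ 2 ≤ M * (a ^ 2 + b ^ 2) * s ^ 2 := by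
  obtain ⟨M, hM0, hM⟩ := lim_close hX hr hr8 hy hu
  have hr4 : r < 1 / 4 := by linarith
  refine ⟨M, hM0, ?_⟩
  intro s hs hs1 k w hw sg S hSW hS
  obtain ⟨c1, c2, c3, c4⟩ := H98NX.rt_cpt hr4 hS hSW
  have hS'c : IsCompact ((S ∩ D) ∪ Rs sg '' (S \ U)) := c1.union c3
  have hS'G : (S ∩ D) ∪ Rs sg '' (S \ U) ⊆ Gd r := union_subset c2 c4
  obtain ⟨⟨a1, a2⟩, a3⟩ := hM s hs hs1 k w hw _ hS'G hS'c
  constructor
  · obtain ⟨b1, b2⟩ := Lle_pull hr4 hS hSW
      (F := fun z => dist (ext A B C sg u z) (ext A B C sg w z) ^ 2)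
      (F0 := fun z => dist (u z) (w z) ^ 2) (fun z => sq_nonneg _)
      (fun z hz => by
        show dist (ext A B C sg u z) (ext A B C sg w z) ^ 2 = dist (u z) (w z) ^ 2
        rw [H98NX.ext_D (H98NX.u_sub_D hz.2).1, H98NX.ext_D (H98NX.u_sub_D hz.2).1])
      (ae_of_all _ fun z hz => by
        show dist (ext A B C sg u z) (ext A B C sg w z) ^ 2 = dist (u (Rs sg z)) (w (Rs sg z)) ^ 2
        rw [H98NX.ext_nD hz.2, H98NX.ext_nD hz.2, IsometryEquiv.dist_eq])
      a1
    exact ⟨b1, b2.trans a2⟩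
  · intro a b
    obtain ⟨a4, a5⟩ := a3 a b
    obtain ⟨b1, b2⟩ := Lle_pull hr4 hS hSW
      (F := fun z => (sp (ext A B C sg u) (a • f1 x y + b • f2 x y) z -
            sp (ext A B C sg w) (a • f1 x y + b • f2 x y) z) ^ 2)
      (F0 := fun z => (sp u (a • f1 x y + b • f2 x y) z -
            sp w (a • f1 x y + b • f2 x y) z) ^ 2) (fun z => sq_nonneg _)
      (fun z hz => by
        show (sp (ext A B C sg u) (a • f1 x y + b • f2 x y) z -
            sp (ext A B C sg w) (a • f1 x y + b • f2 x y) z) ^ 2 = _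
        rw [H98NX.Xc_U hz.2, H98NX.Xc_U hz.2])
      (by
        filter_upwards [H98NX.Xc_ae (A := A) (B := B) (C := C) hu.lip hSW
            (a • f1 x y + b • f2 x y),
          H98NX.Xc_ae (A := A) (B := B) (C := C) hw.lip hSW (a • f1 x y + b • f2 x y)]
          with z hz1 hz2 hz
        rw [hz1 hz, hz2 hz])
      a4
    exact ⟨b1, b2.trans a5⟩

theorem lim_unif (hX : Npc X gm) {r : ℝ} {o : X} {x y : ℝ} (hr : 0 < r) (hr8 : r < 1 / 8) (hy : 0 < y)
    {u : ℝ × ℝ → X} (hu : Lim A B C r o x y u) {sg : Fin 7} {p : ℝ × ℝ} (hp : p ∈ Wg r sg) :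
    ∃ ρ : ℝ, 0 < ρ ∧ closedBall p ρ ⊆ Wg r sg ∧ ∀ e : ℝ, 0 < e → ∃ s1 : ℝ, 0 < s1 ∧ s1 ≤ 1 ∧
      ∀ s : ℝ, 0 < s → s ≤ s1 → ∀ (k : Fin 4) (w : ℝ × ℝ → X),
        Lim A B C r o (tx x y s k) (ty y s k) w →
          ∀ z ∈ closedBall p ρ, dist (ext A B C sg u z) (ext A B C sg w z) ≤ e := by
  obtain ⟨ρ0, L, hρ0, hL0, hsub, hL⟩ := lim_lip (A := A) (B := B) (C := C) hX o x hr hr8 hy hp
  obtain ⟨M, hM0, hM⟩ := ext_close hX hr hr8 hy hu
  have hLu : ∀ z ∈ closedBall p ρ0, ∀ z' ∈ closedBall p ρ0,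
      dist (ext A B C sg u z) (ext A B C sg u z') ≤ L * dist z z' := by
    obtain ⟨t1, t2⟩ := tau_zero x y
    refine hL 0 le_rfl zero_le_one 0 u ?_
    rw [t1, t2]
    exact hu
  refine ⟨ρ0 / 2, by linarith, (closedBall_subset_closedBall (by linarith)).trans hsub, ?_⟩
  intro e he
  obtain ⟨dl, hdl0, hdl1, hdl2⟩ : ∃ dl : ℝ, 0 < dl ∧ dl ≤ ρ0 / 2 ∧ 2 * L * dl ≤ e / 2 := by
    refine ⟨min (ρ0 / 2) (e / (4 * (L + 1))), lt_min (by linarith) (by positivity),
      min_le_left _ _, ?_⟩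
    calc 2 * L * min (ρ0 / 2) (e / (4 * (L + 1))) ≤ 2 * L * (e / (4 * (L + 1))) :=
          mul_le_mul_of_nonneg_left (min_le_right _ _) (by linarith)
      _ = e / 2 * (L / (L + 1)) := by
          field_simp
          ring
      _ ≤ e / 2 * 1 := by
          refine mul_le_mul_of_nonneg_left ?_ (by linarith)
          rw [div_le_one (by linarith)]
          linarith
      _ = e / 2 := mul_one _
  have hvpos : 0 < (volume : Measure (ℝ × ℝ)).real (closedBall (0 : ℝ × ℝ) dl) :=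
    ENNReal.toReal_pos (measure_closedBall_pos _ _ hdl0).ne' measure_closedBall_lt_top.ne
  set κ : ℝ := (e / 2) ^ 2 * (volume : Measure (ℝ × ℝ)).real (closedBall (0 : ℝ × ℝ) dl) with hκ
  have hκ0 : 0 < κ := by positivity
  refine ⟨min 1 (κ / (M + 1)), lt_min one_pos (by positivity), min_le_left _ _, ?_⟩
  intro s hs hs1 k w hw z0 hz0
  by_contra hcon
  push Not at hcon
  have hs1' : s ≤ 1 := hs1.trans (min_le_left _ _)
  have hs2 : s ≤ κ / (M + 1) := hs1.trans (min_le_right _ _)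
  have hLw := hL s hs.le hs1' k w hw
  have hball : closedBall z0 dl ⊆ closedBall p ρ0 := by
    intro z hz
    rw [mem_closedBall] at hz hz0 ⊢
    calc dist z p ≤ dist z z0 + dist z0 p := dist_triangle _ _ _
      _ ≤ ρ0 := by linarith
  have hz0' : z0 ∈ closedBall p ρ0 := hball (mem_closedBall_self hdl0.le)
  obtain ⟨⟨q1, q2⟩, -⟩ := hM s hs hs1' k w hw sg (closedBall z0 dl) (hball.trans hsub)
    (isCompact_closedBall _ _)
  have hge : ∀ z ∈ closedBall z0 dl, (e / 2) ^ 2 ≤ dist (ext A B C sg u z) (ext A B C sg w z) ^ 2 := by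
    intro z hz
    have g1 := hLu z0 hz0' z (hball hz)
    have g2 := hLw z (hball hz) z0 hz0'
    have g3 : dist z0 z ≤ dl := by rwa [mem_closedBall, dist_comm] at hz
    have g4 := dist_triangle4 (ext A B C sg u z0) (ext A B C sg u z) (ext A B C sg w z)
      (ext A B C sg w z0)
    have g5 : L * dist z0 z ≤ L * dl := mul_le_mul_of_nonneg_left g3 hL0
    rw [dist_comm z z0] at g2
    have g6 : e / 2 ≤ dist (ext A B C sg u z) (ext A B C sg w z) := by linarith
    exact pow_le_pow_left₀ (by linarith) g6 2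
  have hint : κ ≤ ∫ z in closedBall z0 dl, dist (ext A B C sg u z) (ext A B C sg w z) ^ 2 := by
    have hc : IntegrableOn (fun _ : ℝ × ℝ => (e / 2) ^ 2) (closedBall z0 dl) :=
      integrableOn_const measure_closedBall_lt_top.ne
    have := setIntegral_mono_on hc q1 measurableSet_closedBall hge
    rw [setIntegral_const, smul_eq_mul, Measure.real,
      Measure.addHaar_closedBall_center] at this
    rw [hκ, mul_comm]
    exact this
  have h3 : M * s ^ 2 < κ := by
    calc M * s ^ 2 ≤ M * s := by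
          refine mul_le_mul_of_nonneg_left ?_ hM0
          nlinarith
      _ ≤ M * (κ / (M + 1)) := mul_le_mul_of_nonneg_left hs2 hM0
      _ < κ := by
          rw [← mul_div_assoc, div_lt_iff₀ (by linarith)]
          nlinarith
  linarith [hint.trans q2]

end H50NA
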