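import Pool.Agent.H80.NA.Lga
import Pool.Agent.H80.NA.Lle
import Pool.Agent.H80.NA.Llb

set_option autoImplicit false

/-!
# Row Lgb: near a point with a chart the limit maps at tau_k(s) are split along the decomposition of the chart, for small s

Notation: L0 z = Lt x y z, Lk z = Lt (tx x y s k) (ty y s k) z, ut = ext A B C sg u, wt = ext A B C sg w, ze = Li x y p (L0 ze = p). c >= 1 from lt_bd (norm (Lk z) <= c norm z, norm z <= c norm (Lk z); s = 0, k = 0 and tau_zero give the same for L0).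
 rho1 from lim_unif at p. Choose rho2 in (0, rho1] with closedBall p rho2 in O; S := closedBall p rho2: compact, contained in O and in Wg r sg. R := rho2/(2c) : L0 maps closedBall ze R into closedBall p (rho2/2).
 cht_of_chart: Cht F (ut o L0) ze R N E _. pert' (L7) gives r' in (0, R) and ep > 0.
 M from ext_close. d1: dist (ut a)(ut b) <= ep/2 for a, b in S with dist a b <= d1 (ut is Lpo on Wg: H98NX.ext_lpo with hu.lip, hu.glu, so Lipschitz on the compact S). eta > 0 with 2 eta^2 area(ball ze r') <= ep/4. d2 from sp_cont for S, constant c, eta.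
 s1 <= 1 so small that for 0 < s <= s1, all k: (a) norm (Lk z - L0 z) <= e1 norm z (lt_near), e1 so small that e1 (norm ze + R) <= min (rho2/2, d1, d2), e1 <= d2 and c e1 norm ze <= r'/8; (b) lim_unif with e = ep/2; (c) 2 M c1 s^2 <= ep/4 where c1 := bound of a^2 + b^2 below.
 For w a Lim at tau_k(s), v := wt o Lk: for z in ball ze R: Lk z in S (dist (Lk z) p <= norm (Lk z - L0 z) + rho2/2).
 (i) LM v (ball ze r'): lim_lm and lm_mono (XI).  (ii) dist (v z)(ut (L0 z)) <= dist (wt (Lk z))(ut (Lk z)) + dist (ut (Lk z))(ut (L0 z)) <= ep.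
 (iii) norm t = 1: sp v t z = sp wt (Lk t) (Lk z), sp (ut o L0) t z = sp ut (L0 t)(L0 z) (H98NX.sp_lin; Lt additive, homogeneous). (sp wt (Lk t)(Lk z) - sp ut (L0 t)(L0 z))^2 <= 2 (sp wt (Lk t)(Lk z) - sp ut (Lk t)(Lk z))^2 + 2 eta^2 (sp_cont: norm (Lk t), norm (L0 t) <= c, norm (Lk t - L0 t) <= e1 <= d2).
   Lk t = a f1 x y + b f2 x y with a = (Li x y (Lk t)).re, b = im, a^2 + b^2 = norm (Li x y (Lk t))^2 <= (c c)^2 =: c1. int_{ball ze r'} F(Lk z) = int_{Lk '' ball} F <= int_S F (lt_mp of H98NX.Xh measure preserving, Lk injective; F = (sp wt t' - sp ut t')^2 >= 0, integrable on S by ext_close) <= M c1 s^2.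
   Integrability on ball ze r' of the square of the difference: closedBall ze r' is compact in the open set where both maps are Lpo (H98NX.sp_sq_int and sp_meas), (p - q)^2 <= 2p^2 + 2q^2. Total <= ep.
 So SpD E (wt (Lk z)) for z in ball ze (r'/2). For q in closedBall p rho, rho := min rho2 (r'/(8c)): z := Li_k q (Lk z = q): norm (z - ze) <= norm (Li_k q - Li_k p) + norm (Li_k p - ze) <= c rho + c norm (p - Lk ze) = c rho + c norm (L0 ze - Lk ze) <= r'/8 + c e1 norm ze < r'/2.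
-/

namespace H50NA

open MeasureTheory Set Filter Topology Metric
open H80HM (D U P f1 f2 pk rk)

private noncomputable def Lgb_L (x y : ℝ) : ℂ →L[ℝ] ℝ × ℝ :=
  Complex.reCLM.smulRight (f1 x y) + Complex.imCLM.smulRight (f2 x y)

private theorem Lgb_L_apply (x y : ℝ) (z : ℂ) : Lt x y z = Lgb_L x y z := rfl

private theorem Lgb_sub (x y : ℝ) (z w : ℂ) : Lt x y z - Lt x y w = Lt x y (z - w) := by
  rw [Lgb_L_apply, Lgb_L_apply, Lgb_L_apply, map_sub]

private theorem Lgb_sp {X : Type} [MetricSpace X] (x y : ℝ) (f : ℝ × ℝ → X) (t z : ℂ) :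
    sp (fun z => f (Lt x y z)) t z = sp f (Lt x y t) (Lt x y z) :=
  H98NX.sp_lin f (Lt x y) (Lgb_L x y : ℂ →ₗ[ℝ] ℝ × ℝ)
    (fun a b => by rw [H98NX.lt_add]; rfl) t z

private theorem Lgb_emb (x : ℝ) {y : ℝ} (hy : 0 < y) : MeasurableEmbedding (Lt x y) := by
  refine Continuous.measurableEmbedding (Lgb_L x y).continuous ?_
  intro a b h
  have := congrArg (H98NX.Li x y) h
  rwa [H98NX.li_lt hy, H98NX.li_lt hy] at this

private theorem Lgb_int (x : ℝ) {y : ℝ} (hy : 0 < y) {G : ℝ × ℝ → ℝ} (hG : ∀ q, 0 ≤ G q)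
    {S : Set (ℝ × ℝ)} (hi : IntegrableOn G S) {B : Set ℂ} (hB : ∀ z ∈ B, Lt x y z ∈ S) :
    IntegrableOn (fun z => G (Lt x y z)) B ∧ ∫ z in B, G (Lt x y z) ≤ ∫ q in S, G q := by
  have hsub : Lt x y '' B ⊆ S := by
    rintro _ ⟨z, hz, rfl⟩
    exact hB z hz
  have h1 := ((H98NX.lt_mp (x := x) hy).integrableOn_image (Lgb_emb x hy)).1 (hi.mono_set hsub)
  refine ⟨h1, ?_⟩
  rw [← (H98NX.lt_mp (x := x) hy).setIntegral_image_emb (Lgb_emb x hy)]
  exact setIntegral_mono_set hi (ae_of_all _ hG) hsub.eventuallyLE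

/-- splitting of the integral of the square of a difference of speeds -/
private theorem Lgb_sum {D G : ℂ → ℝ} {B : Set ℂ} (hB : MeasurableSet B) (hBf : volume B ≠ ⊤)
    (hD : AEStronglyMeasurable D (volume.restrict B)) (hG : IntegrableOn G B) {eta I : ℝ}
    (h : ∀ z ∈ B, D z ^ 2 ≤ 2 * G z + 2 * eta ^ 2) (hI : ∫ z in B, G z ≤ I) :
    IntegrableOn (fun z => D z ^ 2) B ∧
      ∫ z in B, D z ^ 2 ≤ 2 * I + 2 * eta ^ 2 * volume.real B := by
  have h1 : IntegrableOn (fun z => 2 * G z + 2 * eta ^ 2) B :=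
    (hG.const_mul 2).add (integrableOn_const hBf)
  have h2 : IntegrableOn (fun z => D z ^ 2) B := by
    refine Integrable.mono' h1 (hD.pow 2) ?_
    refine ae_restrict_of_forall_mem hB fun z hz => ?_
    rw [Real.norm_eq_abs, abs_of_nonneg (sq_nonneg _)]
    exact h z hz
  refine ⟨h2, ?_⟩
  have h3 := setIntegral_mono_on h2 h1 hB h
  have h4 : ∫ z in B, (2 * G z + 2 * eta ^ 2) =
      2 * (∫ z in B, G z) + 2 * eta ^ 2 * volume.real B := by
    have hc : Integrable (fun _ : ℂ => 2 * eta ^ 2) (volume.restrict B) := integrableOn_const hBf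
    have e1 : ∫ z in B, 2 * G z = 2 * ∫ z in B, G z := integral_const_mul _ _
    rw [integral_add (hG.const_mul 2) hc, e1, setIntegral_const, smul_eq_mul]
    ring
  rw [h4] at h3
  linarith

variable {K : Type} [Field K] (F : VF K) {V : Type} [AddCommGroup V] [Module K V] [Module.Finite K V]
  {A B C : Nm F V ≃ᵢ Nm F V}

theorem lim_split {r : ℝ} {o : Nm F V} {x y : ℝ} (hr : 0 < r) (hr8 : r < 1 / 8) (hy : 0 < y)
    {u : ℝ × ℝ → Nm F V} (hu : Lim A B C r o x y u) {sg : Fin 7} {O : Set (ℝ × ℝ)} {N : ℕ}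
    {E : Fin N → Submodule K V} {T : Fin N → ℝ × ℝ → ℝ} (hc : Chart F (ext A B C sg u) O E T)
    {p : ℝ × ℝ} (hp : p ∈ O) (hpW : p ∈ Wg r sg) :
    ∃ ρ s1 : ℝ, 0 < ρ ∧ 0 < s1 ∧ closedBall p ρ ⊆ O ∧ closedBall p ρ ⊆ Wg r sg ∧
      ∀ s : ℝ, 0 < s → s ≤ s1 → ∀ (k : Fin 4) (w : ℝ × ℝ → Nm F V),
        Lim A B C r o (tx x y s k) (ty y s k) w →
          ∀ z ∈ closedBall p ρ, SpD E (ext A B C sg w z).1 := by
  have hX := npcN F (V := V)
  have hr4 : r < 1 / 4 := by linarith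
  obtain ⟨c, hc1, hbd⟩ := lt_bd x hy
  have hc0 : 0 < c := by linarith
  have hbd0 : ∀ z : ℂ, ‖Lt x y z‖ ≤ c * ‖z‖ ∧ ‖z‖ ≤ c * ‖Lt x y z‖ := by
    intro z
    have h1 := hbd 0 le_rfl zero_le_one 0 z
    rwa [(tau_zero x y).1, (tau_zero x y).2] at h1
  obtain ⟨ze, hze⟩ : ∃ ze : ℂ, ze = H98NX.Li x y p := ⟨_, rfl⟩
  have hLze : Lt x y ze = p := by rw [hze, H98NX.lt_li hy]
  obtain ⟨rho1, hrho1, hrho1W, hunif⟩ := lim_unif hX hr hr8 hy hu hpW
  obtain ⟨rho0, hrho0, hrho0O⟩ := Metric.nhds_basis_closedBall.mem_iff.1 (hc.opn.mem_nhds hp)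
  obtain ⟨rho2, hrho2d⟩ : ∃ rho2 : ℝ, rho2 = min rho0 rho1 := ⟨_, rfl⟩
  have hrho2 : 0 < rho2 := by rw [hrho2d]; exact lt_min hrho0 hrho1
  have hSO : closedBall p rho2 ⊆ O :=
    (closedBall_subset_closedBall (by rw [hrho2d]; exact min_le_left _ _)).trans hrho0O
  have hS1 : closedBall p rho2 ⊆ closedBall p rho1 :=
    closedBall_subset_closedBall (by rw [hrho2d]; exact min_le_right _ _)
  have hSW : closedBall p rho2 ⊆ Wg r sg := hS1.trans hrho1W
  have hSc : IsCompact (closedBall p rho2) := isCompact_closedBall _ _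
  obtain ⟨R, hRd⟩ : ∃ R : ℝ, R = rho2 / (2 * c) := ⟨_, rfl⟩
  have hR : 0 < R := by rw [hRd]; positivity
  have hcR : c * R = rho2 / 2 := by rw [hRd]; field_simp
  have hL0 : ∀ z ∈ ball ze R, dist (Lt x y z) p ≤ rho2 / 2 := by
    intro z hz
    rw [← hLze, dist_eq_norm, Lgb_sub]
    refine ((hbd0 _).1).trans ?_
    rw [← hcR]
    rw [mem_ball, dist_eq_norm] at hz
    exact mul_le_mul_of_nonneg_left hz.le hc0.le
  have hL0S : ∀ z ∈ ball ze R, Lt x y z ∈ closedBall p rho2 := by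
    intro z hz
    rw [mem_closedBall]
    linarith [hL0 z hz]
  have hcht := cht_of_chart F hc hy hR (fun z hz => hSO (hL0S z hz))
  obtain ⟨r', hr'0, hr'R, ep, hep, hpert⟩ := pert' F hcht
  obtain ⟨M, hM0, hclose⟩ := ext_close hX hr hr8 hy hu
  -- d1
  obtain ⟨L, hL⟩ := H98NX.ext_lpo hr4 hu.lip hu.glu sg _ hSW hSc
  obtain ⟨d1, hd1d⟩ : ∃ d1 : ℝ, d1 = ep / (2 * (|L| + 1)) := ⟨_, rfl⟩
  have hd1 : 0 < d1 := by rw [hd1d]; positivity
  have hLd : ∀ a ∈ closedBall p rho2, ∀ b ∈ closedBall p rho2, dist a b ≤ d1 →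
      dist (ext A B C sg u a) (ext A B C sg u b) ≤ ep / 2 := by
    intro a ha b hb hab
    refine (hL a ha b hb).trans ?_
    calc L * dist a b ≤ |L| * dist a b := mul_le_mul_of_nonneg_right (le_abs_self L) dist_nonneg
      _ ≤ (|L| + 1) * d1 := mul_le_mul (by linarith) hab dist_nonneg (by positivity)
      _ = ep / 2 := by rw [hd1d]; field_simp
  -- eta and d2
  obtain ⟨A0, hA0d⟩ : ∃ A0 : ℝ, A0 = (volume : Measure ℂ).real (ball ze r') := ⟨_, rfl⟩
  have hA0 : 0 ≤ A0 := by rw [hA0d]; exact measureReal_nonneg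
  obtain ⟨eta, hetad⟩ : ∃ eta : ℝ, eta = Real.sqrt (ep / (8 * (A0 + 1))) := ⟨_, rfl⟩
  have heta : 0 < eta := by rw [hetad]; exact Real.sqrt_pos.2 (by positivity)
  have heta2 : 2 * eta ^ 2 * A0 ≤ ep / 4 := by
    rw [hetad, Real.sq_sqrt (by positivity)]
    have h1 : 2 * (ep / (8 * (A0 + 1))) * A0 = (ep / 4) * (A0 / (A0 + 1)) := by
      field_simp
      ring
    rw [h1]
    have h2 : A0 / (A0 + 1) ≤ 1 := by
      rw [div_le_one (by linarith)]
      linarith
    have h3 : (ep / 4) * (A0 / (A0 + 1)) ≤ (ep / 4) * 1 :=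
      mul_le_mul_of_nonneg_left h2 (by positivity)
    linarith
  obtain ⟨d2, hd2, hcont⟩ := sp_cont F hc hSc hSO c heta
  -- e1
  obtain ⟨m, hmd⟩ : ∃ m : ℝ, m = min (rho2 / 2) (min d1 d2) := ⟨_, rfl⟩
  have hm0 : 0 < m := by rw [hmd]; exact lt_min (by positivity) (lt_min hd1 hd2)
  have hm1 : m ≤ rho2 / 2 := by rw [hmd]; exact min_le_left _ _
  have hm2 : m ≤ d1 := by rw [hmd]; exact (min_le_right _ _).trans (min_le_left _ _)
  have hm3 : m ≤ d2 := by rw [hmd]; exact (min_le_right _ _).trans (min_le_right _ _)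
  have hzn := norm_nonneg ze
  obtain ⟨e1, he1d⟩ : ∃ e1 : ℝ, e1 = min (m / (‖ze‖ + R)) (min d2 (r' / (8 * c * (‖ze‖ + 1)))) :=
    ⟨_, rfl⟩
  have he1 : 0 < e1 := by
    rw [he1d]
    exact lt_min (by positivity) (lt_min hd2 (by positivity))
  have he1a : e1 * (‖ze‖ + R) ≤ m := by
    rw [← le_div_iff₀ (by positivity), he1d]
    exact min_le_left _ _
  have he1b : e1 ≤ d2 := by
    rw [he1d]
    exact (min_le_right _ _).trans (min_le_left _ _)
  have he1c : c * (e1 * ‖ze‖) ≤ r' / 8 := by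
    have h1 : e1 ≤ r' / (8 * c * (‖ze‖ + 1)) := by
      rw [he1d]
      exact (min_le_right _ _).trans (min_le_right _ _)
    calc c * (e1 * ‖ze‖) ≤ c * (r' / (8 * c * (‖ze‖ + 1)) * (‖ze‖ + 1)) := by
          refine mul_le_mul_of_nonneg_left ?_ hc0.le
          exact mul_le_mul h1 (by linarith) hzn (by positivity)
      _ = r' / 8 := by field_simp
  obtain ⟨sa, hsa, hnear⟩ := lt_near x hy he1
  obtain ⟨sb, hsb, hsb1, hun⟩ := hunif (ep / 2) (by positivity)
  obtain ⟨c1, hc1d⟩ : ∃ c1 : ℝ, c1 = (c * c) ^ 2 := ⟨_, rfl⟩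
  have hc10 : 0 ≤ c1 := by rw [hc1d]; positivity
  obtain ⟨sc, hscd⟩ : ∃ sc : ℝ, sc = ep / (8 * (M * c1 + 1)) := ⟨_, rfl⟩
  have hMc : 0 ≤ M * c1 := mul_nonneg hM0 hc10
  have hsc : 0 < sc := by rw [hscd]; positivity
  have hsc1 : 2 * (M * c1 * sc) ≤ ep / 4 := by
    have h1 : 2 * (M * c1 * sc) = (ep / 4) * ((M * c1) / (M * c1 + 1)) := by
      rw [hscd]
      field_simp
      ring
    rw [h1]
    have h2 : (M * c1) / (M * c1 + 1) ≤ 1 := by
      rw [div_le_one (by linarith)]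
      linarith
    have h3 : (ep / 4) * ((M * c1) / (M * c1 + 1)) ≤ (ep / 4) * 1 :=
      mul_le_mul_of_nonneg_left h2 (by positivity)
    linarith
  refine ⟨min rho2 (r' / (8 * c)), min sa (min sb sc), lt_min hrho2 (by positivity),
    lt_min hsa (lt_min hsb hsc), (closedBall_subset_closedBall (min_le_left _ _)).trans hSO,
    (closedBall_subset_closedBall (min_le_left _ _)).trans hSW, ?_⟩
  intro s hs0 hs k w hw
  have hsa' : s ≤ sa := hs.trans (min_le_left _ _)
  have hsb' : s ≤ sb := hs.trans ((min_le_right _ _).trans (min_le_left _ _))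
  have hsc' : s ≤ sc := hs.trans ((min_le_right _ _).trans (min_le_right _ _))
  have hs1 : s ≤ 1 := hsb'.trans hsb1
  have hy' := ty_pos hy s k
  have hcl := hclose s hs0 hs1 k w hw sg (closedBall p rho2) hSW hSc
  have hnr := hnear s hs0.le hsa' k
  have hbk := hbd s hs0.le hs1 k
  have hunk := hun s hs0 hsb' k w hw
  have hlmw := lim_lm hX hr hr8 hy' hw sg
  have hlmu := lim_lm hX hr hr8 hy hu sg
  clear hun hclose hnear hbd hunif hw
  generalize tx x y s k = x' at *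
  generalize ty y s k = y' at *
  -- points of the ball
  have hzR : ∀ z ∈ ball ze R, ‖Lt x' y' z - Lt x y z‖ ≤ m := by
    intro z hz
    refine (hnr z).trans ?_
    refine le_trans (mul_le_mul_of_nonneg_left ?_ he1.le) he1a
    rw [mem_ball, dist_eq_norm] at hz
    calc ‖z‖ = ‖ze + (z - ze)‖ := by congr 1; ring
      _ ≤ ‖ze‖ + ‖z - ze‖ := norm_add_le _ _
      _ ≤ ‖ze‖ + R := by linarith
  have hLkS : ∀ z ∈ ball ze R, Lt x' y' z ∈ closedBall p rho2 := by
    intro z hz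
    rw [mem_closedBall]
    have h1 := hzR z hz
    rw [← dist_eq_norm] at h1
    have h2 := dist_triangle (Lt x' y' z) (Lt x y z) p
    have h3 := hL0 z hz
    linarith
  have hsubR : ball ze r' ⊆ ball ze R := ball_subset_ball hr'R.le
  have key := hpert (fun z => ext A B C sg w (Lt x' y' z)) ?_ ?_ ?_
  · intro q hq
    rw [mem_closedBall, dist_eq_norm] at hq
    have hq1 : Lt x' y' (H98NX.Li x' y' q) = q := H98NX.lt_li hy' q
    have hz : H98NX.Li x' y' q ∈ ball ze (r' / 2) := by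
      rw [mem_ball, dist_eq_norm]
      have h1 := (hbk (H98NX.Li x' y' q - ze)).2
      rw [← Lgb_sub, hq1] at h1
      have h2 : ‖q - Lt x' y' ze‖ ≤ ‖q - p‖ + ‖Lt x' y' ze - Lt x y ze‖ := by
        have h3 : q - Lt x' y' ze = (q - p) - (Lt x' y' ze - Lt x y ze) := by
          rw [hLze]
          abel
        rw [h3]
        exact norm_sub_le _ _
      have h4 := hnr ze
      have h5 : ‖q - p‖ ≤ r' / (8 * c) := hq.trans (min_le_right _ _)
      have h6 : c * ‖q - p‖ ≤ r' / 8 := by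
        calc c * ‖q - p‖ ≤ c * (r' / (8 * c)) := mul_le_mul_of_nonneg_left h5 hc0.le
          _ = r' / 8 := by field_simp
      have h7 : c * ‖Lt x' y' ze - Lt x y ze‖ ≤ r' / 8 :=
        (mul_le_mul_of_nonneg_left h4 hc0.le).trans he1c
      have h8 := mul_le_mul_of_nonneg_left h2 hc0.le
      rw [mul_add] at h8
      linarith
    have h9 := key _ hz
    simp only [hq1] at h9
    exact h9
  · exact lm_mono hlmw isOpen_ball fun z hz => hSW (hLkS z (hsubR hz))
  · intro z hz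
    have h1 := hLkS z (hsubR hz)
    have h2 := hunk _ (hS1 h1)
    have h3 := hzR z (hsubR hz)
    rw [← dist_eq_norm] at h3
    have h4 := hLd _ h1 _ (hL0S z (hsubR hz)) (h3.trans hm2)
    have h5 := dist_triangle (ext A B C sg w (Lt x' y' z)) (ext A B C sg u (Lt x' y' z))
      (ext A B C sg u (Lt x y z))
    rw [dist_comm] at h2
    linarith
  · intro t ht
    obtain ⟨t', ht'd⟩ : ∃ t', t' = Lt x' y' t := ⟨_, rfl⟩
    have ht' : ‖t'‖ ≤ c := by
      have h1 := (hbk t).1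
      rwa [ht, mul_one, ← ht'd] at h1
    have ht0 : ‖Lt x y t‖ ≤ c := by
      have h1 := (hbd0 t).1
      rwa [ht, mul_one] at h1
    have htt : ‖t' - Lt x y t‖ ≤ d2 := by
      have h1 := hnr t
      rw [ht, mul_one, ← ht'd] at h1
      exact h1.trans he1b
    obtain ⟨hi, hib⟩ := hcl.2 (H98NX.Li x y t').re (H98NX.Li x y t').im
    have hteq : (H98NX.Li x y t').re • f1 x y + (H98NX.Li x y t').im • f2 x y = t' :=
      H98NX.lt_li hy t'
    rw [hteq] at hi hib
    have hab : (H98NX.Li x y t').re ^ 2 + (H98NX.Li x y t').im ^ 2 ≤ c1 := by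
      have h1 : (H98NX.Li x y t').re ^ 2 + (H98NX.Li x y t').im ^ 2 =
          ‖H98NX.Li x y t'‖ ^ 2 := by
        rw [← Complex.normSq_eq_norm_sq, Complex.normSq_apply]
        ring
      have h2 := (hbd0 (H98NX.Li x y t')).2
      rw [H98NX.lt_li hy] at h2
      have h3 : ‖H98NX.Li x y t'‖ ≤ c * c := h2.trans (mul_le_mul_of_nonneg_left ht' hc0.le)
      rw [h1, hc1d]
      exact pow_le_pow_left₀ (norm_nonneg _) h3 2
    have hib' : ∫ z in closedBall p rho2,
        (sp (ext A B C sg u) t' z - sp (ext A B C sg w) t' z) ^ 2 ≤ M * c1 * sc := by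
      refine hib.trans ?_
      have h1 : s ^ 2 ≤ sc := by
        have : s ^ 2 ≤ s * 1 := by
          rw [pow_two]
          exact mul_le_mul_of_nonneg_left hs1 hs0.le
        linarith
      exact mul_le_mul (mul_le_mul_of_nonneg_left hab hM0) h1 (sq_nonneg _) hMc
    obtain ⟨hJ, hJb⟩ := Lgb_int x' hy'
      (G := fun z => (sp (ext A B C sg u) t' z - sp (ext A B C sg w) t' z) ^ 2)
      (fun q => sq_nonneg _) hi (B := ball ze r') (fun z hz => hLkS z (hsubR hz))
    have hmw : AEStronglyMeasurable (sp (fun z => ext A B C sg w (Lt x' y' z)) t)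
        (volume.restrict (ball ze r')) :=
      sp_meas isOpen_ball (lm_mono hlmw isOpen_ball fun z hz => hSW (hLkS z (hsubR hz))).lip t
    have hmu : AEStronglyMeasurable (sp (fun z => ext A B C sg u (Lt x y z)) t)
        (volume.restrict (ball ze r')) :=
      sp_meas isOpen_ball (lm_mono hlmu isOpen_ball fun z hz => hSW (hL0S z (hsubR hz))).lip t
    have hbound : ∀ z ∈ ball ze r', (sp (fun z => ext A B C sg w (Lt x' y' z)) t z -
        sp (fun z => ext A B C sg u (Lt x y z)) t z) ^ 2 ≤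
        2 * (sp (ext A B C sg u) t' (Lt x' y' z) - sp (ext A B C sg w) t' (Lt x' y' z)) ^ 2 +
          2 * eta ^ 2 := by
      intro z hz
      rw [Lgb_sp x' y' (ext A B C sg w) t z, Lgb_sp x y (ext A B C sg u) t z, ← ht'd]
      have h3 := hzR z (hsubR hz)
      rw [← dist_eq_norm] at h3
      have h4 := hcont _ (hLkS z (hsubR hz)) _ (hL0S z (hsubR hz)) (h3.trans hm3) t' (Lt x y t)
        ht' ht0 htt
      have h5 : (sp (ext A B C sg u) t' (Lt x' y' z) -
          sp (ext A B C sg u) (Lt x y t) (Lt x y z)) ^ 2 ≤ eta ^ 2 := by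
        rw [← sq_abs]
        exact pow_le_pow_left₀ (abs_nonneg _) h4 2
      nlinarith [sq_nonneg ((sp (ext A B C sg w) t' (Lt x' y' z) -
          sp (ext A B C sg u) t' (Lt x' y' z)) - (sp (ext A B C sg u) t' (Lt x' y' z) -
          sp (ext A B C sg u) (Lt x y t) (Lt x y z)))]
    obtain ⟨k1, k2⟩ := Lgb_sum measurableSet_ball measure_ball_lt_top.ne (hmw.sub hmu) hJ
      (eta := eta) hbound (hJb.trans hib')
    refine ⟨k1, k2.trans ?_⟩
    rw [← hA0d]
    linarith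

end H50NA
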