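import Pool.Agent.H80.NA.Zch
import Pool.Agent.H80.NA.Lgb

set_option autoImplicit false

/-!
# Row Cov: pointwise output of S1 and S2 (form used by helper84)

Z from noch. z in Gd r minus Z: choose sg with z in Ws sg (ws_cov of Exl); z in Wg r sg (rt sg z = z, z not in Zr). HasChart F (ext sg u) z: O1, N, E, T. lim_split at p = z: rho, s1. O := ball z rho: contained in O1. On O cap U: ext sg f = f for f = u, w (ext_D), so everything is a restatement (SpD from hc.spl, cst, lim_split).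
-/

namespace H50NA

open MeasureTheory Set Filter Topology Metric
open H80HM (D U P f1 f2 pk rk)

variable {K : Type} [Field K] (F : VF K) {V : Type} [AddCommGroup V] [Module K V] [Module.Finite K V]
  {A B C : Nm F V ≃ᵢ Nm F V}

theorem cov (hF : Rf F) {r : ℝ} {o : Nm F V} {x y : ℝ} (hr : 0 < r) (hr8 : r < 1 / 8) (hy : 0 < y)
    {u : ℝ × ℝ → Nm F V} (hu : Lim A B C r o x y u) :
    ∃ Z : Set (ℝ × ℝ), Z ⊆ Gd r ∧ (∀ S ⊆ Gd r, IsCompact S → (Z ∩ S).Finite) ∧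
      (∀ v ∈ Ioo (0:ℝ) (1/2), (0, v) ∈ Z ↔ (1, v) ∈ Z) ∧
      (∀ u ∈ Ioo (0:ℝ) 1, (u, 0) ∈ Z ↔ (1 - u, 0) ∈ Z) ∧
      (∀ u ∈ Ioo (0:ℝ) 1, (u, 1/2) ∈ Z ↔ (1 - u, 1/2) ∈ Z) ∧
      ∀ z ∈ Gd r, z ∉ Z → ∃ (O : Set (ℝ × ℝ)) (N : ℕ) (E : Fin N → Submodule K V)
        (T : Fin N → ℝ × ℝ → ℝ) (s0 : ℝ), IsOpen O ∧ z ∈ O ∧ 0 < s0 ∧ DirectSum.IsInternal E ∧
          (∀ b, E b ≠ ⊥) ∧ (∀ p ∈ O ∩ U, SpD E (u p).1) ∧
          (∀ p ∈ O ∩ U, ∀ q ∈ O ∩ U, ∀ b, rs (E b) (u q).1 = trl (rs (E b) (u p).1) (T b q - T b p)) ∧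
          ∀ s : ℝ, 0 < s → s < s0 → ∀ (k : Fin 4) (w : ℝ × ℝ → Nm F V),
            Lim A B C r o (tx x y s k) (ty y s k) w → ∀ p ∈ O ∩ U, SpD E (w p).1 := by
  obtain ⟨Z, hZ, hfin, s1, s2, s3, hch⟩ := noch F hF hr hr8 hy hu
  refine ⟨Z, hZ, hfin, s1, s2, s3, fun z hz hzZ => ?_⟩
  have hzD : z ∈ D := hz.1
  have hzP : z ∉ P := fun h => hz.2 (Or.inl h)
  have hzr : z ∉ Zr r := fun h => hz.2 (Or.inr h)
  obtain ⟨sg, hsg⟩ := ws_cov ⟨hzD, hzP⟩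
  obtain ⟨O1, N, E, T, hzO, hc⟩ := hch z hz hzZ sg hsg
  have hzW : z ∈ Wg r sg := ⟨hsg, by rw [Exl_rt_in hzD]; exact hzr⟩
  obtain ⟨ρ, t1, hρ, ht1, hsub, hsubW, hlim⟩ := lim_split F hr hr8 hy hu hc hzO hzW
  have hUD : ∀ p ∈ U, p ∈ D := by
    rintro p ⟨⟨h1, h2⟩, h3, h4⟩
    exact ⟨⟨h1.le, h2.le⟩, h3.le, h4.le⟩
  have hin : ∀ p ∈ ball z ρ ∩ U, p ∈ O1 := fun p hp => hsub (ball_subset_closedBall hp.1)
  have he : ∀ p ∈ ball z ρ ∩ U, ∀ f : ℝ × ℝ → Nm F V, ext A B C sg f p = f p := fun p hp f =>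
    H98NX.ext_D (hUD p hp.2)
  refine ⟨ball z ρ, N, E, T, t1, isOpen_ball, mem_ball_self hρ, ht1, hc.int, hc.nz, ?_, ?_, ?_⟩
  · intro p hp
    have h := hc.spl p (hin p hp)
    rwa [he p hp] at h
  · intro p hp q hq b
    have h := hc.cst p (hin p hp) q (hin q hq) b
    rwa [he p hp, he q hq] at h
  · intro s hs hs1 k w hw p hp
    have h := hlim s hs hs1.le k w hw p (ball_subset_closedBall hp.1)
    rwa [he p hp] at h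

end H50NA
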