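import Pool.Agent.H80.NA.Cls
import Pool.Agent.H98.NX.Ek
import Pool.Agent.H98.NX.Ee
import Pool.Agent.H98.NX.Eh
import Pool.Agent.H98.NX.El

set_option autoImplicit false

/-!
# Row Exl: the extension across a seam is locally Lipschitz

ext_lip. f Lipschitz on compact subsets of S in D \ P, glued. Claim: ext s f is Lipschitz on compact subsets of {x in Ws s : rt s x in S} if this set W is open.
Use lpo_loc (row Ea of H98/NX): local Lipschitz condition at every point x of W. Cases: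
* s = 0 or x in the interior of D: near x the extension is f, a small closed ball around x is a compact subset of S.
* x not in D: near x, ext f = gs s o f o Rs s (D is closed), Rs s is an isometry, Rs s x = rt s x is in U; a small closed ball around it is a compact subset of S (W open, Rs s open).
* x on the seam (s = 1: x.1 = 1; s = 2: x.1 = 0; s = 3,4: x.2 = 0; s = 5,6: x.2 = 1/2; these are the only points of Ws s in the frontier of D): take a closed ball b around x (sup norm) with b in W.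
  b cap D and Rs s (b \ D) closure = Rs s (b cap {other side}) are compact subsets of S (the points of the other side of the seam line go to points of D by Rs s; those on the seam line too, e.g.
  s = 1: (1,v) -> (0,v)). f is L-Lipschitz on both. Two points y, z of b on the same side of the seam line (closed half balls): dist <= L dist y z, where on the outer closed half ball the extension equals
  gs s (f (Rs s .)), also ON the seam line by the gluing condition: s = 1: f(1,v) = C f(0,v); s = 2: f(0,v) = C^{-1} f(1,v); s = 3: f(u,0) = A^{-1} f(1-u,0), u < 1/2; s = 4: f(u,0) = A f(1-u,0),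
  u > 1/2 (1-u < 1/2); s = 5, 6 the same with B at height 1/2. Points on different sides: the segment meets the seam line in a point w of b (b is convex), dist(y,w) + dist(w,z) <= 2 dist y z
  (each is <= dist y z in the sup norm since w is on the segment), so dist <= 2 L dist y z.
ws_cov: every x in D \ P is in some Ws s: x in U: s = 0; x.1 = 1, 0 < x.2 < 1/2: s = 1; x.1 = 0: s = 2; x.2 = 0: s = 3 (x.1 < 1/2), 4 (x.1 > 1/2); x.2 = 1/2: 5, 6.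
ws_rt: x in Ws s -> rt s x in D \ P. ws_open: Ws s is open. wg_open: Wg r s is open (rt s x in Zr r iff x in Zr r or Rs s x in Zr r, for x in Ws s, r < 1/8: closed conditions: Zr r is inside U; points of
 Ws s outside D are not in Zr r; a point x of D with Rs s x in Zr r is not relevant because rt s x = x; use Ws s \ (Zr r union Rs s^{-1} (Zr r) minus D..): the set {x in Ws s : rt s x in Zr r} equals
 Ws s cap (Zr r union (Rs s)^{-1}(Zr r)) minus {x in D, Rs s x in Zr r}; for s >= 1, x in Ws s cap D, Rs s x in Zr r (inside D): not possible: s = 1: x.1 in [1/2,1], Rs x has first coordinate <= 0; s = 2: >= 1;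
 s = 3..6: Rs s x has second coordinate -x.2 <= 0 resp. 1 - x.2 >= 1/2. So it is Ws s cap (Zr r union (Rs s)^{-1}(Zr r)), closed in Ws s.)
-/

namespace H50NA

open MeasureTheory Set Filter Topology
open H80HM (D U P f1 f2)

variable {X : Type} [MetricSpace X] {A B C : X ≃ᵢ X}

theorem Exl_memD (x : ℝ × ℝ) : x ∈ D ↔ (0 ≤ x.1 ∧ x.1 ≤ 1) ∧ 0 ≤ x.2 ∧ x.2 ≤ 1/2 := Iff.rfl

theorem Exl_memU (x : ℝ × ℝ) : x ∈ U ↔ (0 < x.1 ∧ x.1 < 1) ∧ 0 < x.2 ∧ x.2 < 1/2 := Iff.rfl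

theorem Exl_memP (x : ℝ × ℝ) : x ∈ P ↔ (x.1 = 0 ∨ x.1 = 1/2 ∨ x.1 = 1) ∧ (x.2 = 0 ∨ x.2 = 1/2) := Iff.rfl

theorem Exl_D_closed : IsClosed D := isClosed_Icc.prod isClosed_Icc

theorem Exl_notP1 {x : ℝ × ℝ} (h1 : x.1 ≠ 0) (h2 : x.1 ≠ 1/2) (h3 : x.1 ≠ 1) : x ∉ P := by
  rw [Exl_memP]
  rintro ⟨h | h | h, -⟩
  · exact h1 h
  · exact h2 h
  · exact h3 h

theorem Exl_notP2 {x : ℝ × ℝ} (h1 : x.2 ≠ 0) (h2 : x.2 ≠ 1/2) : x ∉ P := by
  rw [Exl_memP]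
  rintro ⟨-, h | h⟩
  · exact h1 h
  · exact h2 h

/-- the seven cases of the definition of Ws, Rs, gs -/
theorem Exl_cases {Q : Fin 7 → (ℝ × ℝ) → Prop}
    (h0 : ∀ x : ℝ × ℝ, ((0 < x.1 ∧ x.1 < 1) ∧ 0 < x.2 ∧ x.2 < 1/2) → Q 0 x)
    (h1 : ∀ x : ℝ × ℝ, ((1/2 < x.1 ∧ x.1 < 3/2) ∧ 0 < x.2 ∧ x.2 < 1/2) → Q 1 x)
    (h2 : ∀ x : ℝ × ℝ, ((-1/2 < x.1 ∧ x.1 < 1/2) ∧ 0 < x.2 ∧ x.2 < 1/2) → Q 2 x)
    (h3 : ∀ x : ℝ × ℝ, ((0 < x.1 ∧ x.1 < 1/2) ∧ -1/2 < x.2 ∧ x.2 < 1/2) → Q 3 x)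
    (h4 : ∀ x : ℝ × ℝ, ((1/2 < x.1 ∧ x.1 < 1) ∧ -1/2 < x.2 ∧ x.2 < 1/2) → Q 4 x)
    (h5 : ∀ x : ℝ × ℝ, ((0 < x.1 ∧ x.1 < 1/2) ∧ 0 < x.2 ∧ x.2 < 1) → Q 5 x)
    (h6 : ∀ x : ℝ × ℝ, ((1/2 < x.1 ∧ x.1 < 1) ∧ 0 < x.2 ∧ x.2 < 1) → Q 6 x)
    (s : Fin 7) {x : ℝ × ℝ} (hx : x ∈ Ws s) : Q s x := by
  fin_cases s
  · exact h0 x hx
  · exact h1 x hx
  · exact h2 x hx
  · exact h3 x hx
  · exact h4 x hx
  · exact h5 x hx
  · exact h6 x hx

theorem Exl_Rs_dist (s : Fin 7) (x y : ℝ × ℝ) : dist (Rs s x) (Rs s y) = dist x y := by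
  fin_cases s
  · rfl
  · show dist ((x.1 - 1, x.2) : ℝ × ℝ) (y.1 - 1, y.2) = dist x y
    simp only [Prod.dist_eq, Real.dist_eq]
    congr 2
    ring
  · show dist ((x.1 + 1, x.2) : ℝ × ℝ) (y.1 + 1, y.2) = dist x y
    simp only [Prod.dist_eq, Real.dist_eq]
    congr 2
    ring
  all_goals
    first
    | show dist ((1 - x.1, -x.2) : ℝ × ℝ) (1 - y.1, -y.2) = dist x y
      simp only [Prod.dist_eq, Real.dist_eq]
      rw [abs_sub_comm x.1 y.1, abs_sub_comm x.2 y.2]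
      congr 2 <;> ring
    | show dist ((1 - x.1, 1 - x.2) : ℝ × ℝ) (1 - y.1, 1 - y.2) = dist x y
      simp only [Prod.dist_eq, Real.dist_eq]
      rw [abs_sub_comm x.1 y.1, abs_sub_comm x.2 y.2]
      congr 2 <;> ring

theorem Exl_Rs_cont (s : Fin 7) : Continuous (Rs s) :=
  (Isometry.of_dist_eq (Exl_Rs_dist s)).continuous

/-- outside D the reflected point is in D minus P -/
theorem Exl_out (s : Fin 7) {x : ℝ × ℝ} (hx : x ∈ Ws s) (hD : x ∉ D) : Rs s x ∈ D \ P := by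
  revert hD
  refine Exl_cases (Q := fun s x => x ∉ D → Rs s x ∈ D \ P) ?_ ?_ ?_ ?_ ?_ ?_ ?_ s hx
  · rintro x ⟨⟨h1, h2⟩, h3, h4⟩ hD
    exact absurd ⟨⟨h1.le, h2.le⟩, h3.le, h4.le⟩ hD
  · rintro x ⟨⟨h1, h2⟩, h3, h4⟩ hD
    have h5 : 1 < x.1 := by
      by_contra h
      exact hD ⟨⟨by linarith, by linarith⟩, h3.le, h4.le⟩
    show ((x.1 - 1, x.2) : ℝ × ℝ) ∈ D \ P
    exact ⟨⟨⟨by show 0 ≤ x.1 - 1; linarith, by show x.1 - 1 ≤ 1; linarith⟩, h3.le, h4.le⟩,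
      Exl_notP2 (ne_of_gt h3) (ne_of_lt h4)⟩
  · rintro x ⟨⟨h1, h2⟩, h3, h4⟩ hD
    have h5 : x.1 < 0 := by
      by_contra h
      exact hD ⟨⟨by linarith, by linarith⟩, h3.le, h4.le⟩
    show ((x.1 + 1, x.2) : ℝ × ℝ) ∈ D \ P
    exact ⟨⟨⟨by show 0 ≤ x.1 + 1; linarith, by show x.1 + 1 ≤ 1; linarith⟩, h3.le, h4.le⟩,
      Exl_notP2 (ne_of_gt h3) (ne_of_lt h4)⟩
  · rintro x ⟨⟨h1, h2⟩, h3, h4⟩ hD
    have h5 : x.2 < 0 := by
      by_contra h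
      exact hD ⟨⟨by linarith, by linarith⟩, by linarith, h4.le⟩
    show ((1 - x.1, -x.2) : ℝ × ℝ) ∈ D \ P
    refine ⟨⟨⟨by show 0 ≤ 1 - x.1; linarith, by show 1 - x.1 ≤ 1; linarith⟩,
      by show 0 ≤ -x.2; linarith, by show -x.2 ≤ 1/2; linarith⟩, Exl_notP2 ?_ ?_⟩
    · show -x.2 ≠ 0
      intro h
      linarith
    · show -x.2 ≠ 1/2
      intro h
      linarith
  · rintro x ⟨⟨h1, h2⟩, h3, h4⟩ hD
    have h5 : x.2 < 0 := by
      by_contra h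
      exact hD ⟨⟨by linarith, by linarith⟩, by linarith, h4.le⟩
    show ((1 - x.1, -x.2) : ℝ × ℝ) ∈ D \ P
    refine ⟨⟨⟨by show 0 ≤ 1 - x.1; linarith, by show 1 - x.1 ≤ 1; linarith⟩,
      by show 0 ≤ -x.2; linarith, by show -x.2 ≤ 1/2; linarith⟩, Exl_notP2 ?_ ?_⟩
    · show -x.2 ≠ 0
      intro h
      linarith
    · show -x.2 ≠ 1/2
      intro h
      linarith
  · rintro x ⟨⟨h1, h2⟩, h3, h4⟩ hD
    have h5 : 1/2 < x.2 := by
      by_contra h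
      exact hD ⟨⟨by linarith, by linarith⟩, h3.le, by linarith⟩
    show ((1 - x.1, 1 - x.2) : ℝ × ℝ) ∈ D \ P
    refine ⟨⟨⟨by show 0 ≤ 1 - x.1; linarith, by show 1 - x.1 ≤ 1; linarith⟩,
      by show 0 ≤ 1 - x.2; linarith, by show 1 - x.2 ≤ 1/2; linarith⟩, Exl_notP2 ?_ ?_⟩
    · show 1 - x.2 ≠ 0
      intro h
      linarith
    · show 1 - x.2 ≠ 1/2
      intro h
      linarith
  · rintro x ⟨⟨h1, h2⟩, h3, h4⟩ hD
    have h5 : 1/2 < x.2 := by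
      by_contra h
      exact hD ⟨⟨by linarith, by linarith⟩, h3.le, by linarith⟩
    show ((1 - x.1, 1 - x.2) : ℝ × ℝ) ∈ D \ P
    refine ⟨⟨⟨by show 0 ≤ 1 - x.1; linarith, by show 1 - x.1 ≤ 1; linarith⟩,
      by show 0 ≤ 1 - x.2; linarith, by show 1 - x.2 ≤ 1/2; linarith⟩, Exl_notP2 ?_ ?_⟩
    · show 1 - x.2 ≠ 0
      intro h
      linarith
    · show 1 - x.2 ≠ 1/2
      intro h
      linarith

theorem Exl_in (s : Fin 7) {x : ℝ × ℝ} (hx : x ∈ Ws s) : x ∉ P := by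
  refine Exl_cases (Q := fun _ x => x ∉ P) ?_ ?_ ?_ ?_ ?_ ?_ ?_ s hx
  · rintro x ⟨⟨h1, h2⟩, h3, h4⟩
    exact Exl_notP2 (ne_of_gt h3) (ne_of_lt h4)
  · rintro x ⟨⟨h1, h2⟩, h3, h4⟩
    exact Exl_notP2 (ne_of_gt h3) (ne_of_lt h4)
  · rintro x ⟨⟨h1, h2⟩, h3, h4⟩
    exact Exl_notP2 (ne_of_gt h3) (ne_of_lt h4)
  · rintro x ⟨⟨h1, h2⟩, h3, h4⟩
    exact Exl_notP1 (ne_of_gt h1) (ne_of_lt h2) (by intro h; linarith)
  · rintro x ⟨⟨h1, h2⟩, h3, h4⟩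
    exact Exl_notP1 (by intro h; linarith) (ne_of_gt h1) (ne_of_lt h2)
  · rintro x ⟨⟨h1, h2⟩, h3, h4⟩
    exact Exl_notP1 (ne_of_gt h1) (ne_of_lt h2) (by intro h; linarith)
  · rintro x ⟨⟨h1, h2⟩, h3, h4⟩
    exact Exl_notP1 (by intro h; linarith) (ne_of_gt h1) (ne_of_lt h2)

theorem Exl_rt_in {s : Fin 7} {x : ℝ × ℝ} (h : x ∈ D) : rt s x = x := if_pos h

theorem Exl_rt_out {s : Fin 7} {x : ℝ × ℝ} (h : x ∉ D) : rt s x = Rs s x := if_neg h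

theorem Exl_Zr {r : ℝ} (hr : r < 1/8) {x : ℝ × ℝ} (hx : x ∈ Zr r) :
    1/8 < x.1 ∧ x.1 < 3/8 ∧ 1/8 < x.2 ∧ x.2 < 3/8 := by
  have h : dist x ((1/4 : ℝ), (1/4 : ℝ)) ≤ r := hx
  rw [Prod.dist_eq, max_le_iff, Real.dist_eq, Real.dist_eq, abs_le, abs_le] at h
  obtain ⟨⟨h1, h2⟩, h3, h4⟩ := h
  simp only at h1 h2 h3 h4
  exact ⟨by linarith, by linarith, by linarith, by linarith⟩

theorem Exl_Zr_D {r : ℝ} (hr : r < 1/8) {x : ℝ × ℝ} (hx : x ∈ Zr r) : x ∈ D := by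
  obtain ⟨h1, h2, h3, h4⟩ := Exl_Zr hr hx
  exact ⟨⟨by linarith, by linarith⟩, by linarith, by linarith⟩

/-- on the side of D the reflected point is not in the square -/
theorem Exl_side {r : ℝ} (hr : r < 1/8) (s : Fin 7) {x : ℝ × ℝ} (hx : x ∈ Ws s) (hD : x ∈ D)
    (hZ : x ∉ Zr r) : Rs s x ∉ Zr r := by
  revert hD hZ
  refine Exl_cases (Q := fun s x => x ∈ D → x ∉ Zr r → Rs s x ∉ Zr r) ?_ ?_ ?_ ?_ ?_ ?_ ?_ s hx
  · intro x _ _ h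
    exact h
  · rintro x - ⟨⟨h1, h2⟩, h3, h4⟩ - h
    obtain ⟨k1, k2, k3, k4⟩ := Exl_Zr hr h
    have e1 : (Rs 1 x).1 = x.1 - 1 := rfl
    linarith
  · rintro x - ⟨⟨h1, h2⟩, h3, h4⟩ - h
    obtain ⟨k1, k2, k3, k4⟩ := Exl_Zr hr h
    have e1 : (Rs 2 x).1 = x.1 + 1 := rfl
    linarith
  · rintro x - ⟨⟨h1, h2⟩, h3, h4⟩ - h
    obtain ⟨k1, k2, k3, k4⟩ := Exl_Zr hr h
    have e1 : (Rs 3 x).2 = -x.2 := rfl
    linarith
  · rintro x - ⟨⟨h1, h2⟩, h3, h4⟩ - h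
    obtain ⟨k1, k2, k3, k4⟩ := Exl_Zr hr h
    have e1 : (Rs 4 x).2 = -x.2 := rfl
    linarith
  · rintro x - ⟨⟨h1, h2⟩, h3, h4⟩ - h
    obtain ⟨k1, k2, k3, k4⟩ := Exl_Zr hr h
    have e1 : (Rs 5 x).2 = 1 - x.2 := rfl
    linarith
  · rintro x - ⟨⟨h1, h2⟩, h3, h4⟩ - h
    obtain ⟨k1, k2, k3, k4⟩ := Exl_Zr hr h
    have e1 : (Rs 6 x).2 = 1 - x.2 := rfl
    linarith

/-- the gluing condition on the seam -/
theorem Exl_seam {f : ℝ × ℝ → X} (hg : Glu A B C f) (s : Fin 7) {x : ℝ × ℝ} (hx : x ∈ Ws s)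
    (hD : x ∈ D) (hR : Rs s x ∈ D) : f x = gs A B C s (f (Rs s x)) := by
  revert hD hR
  refine Exl_cases (Q := fun s x => x ∈ D → Rs s x ∈ D → f x = gs A B C s (f (Rs s x)))
    ?_ ?_ ?_ ?_ ?_ ?_ ?_ s hx
  · intro x _ _ _
    rfl
  · rintro ⟨u, v⟩ ⟨⟨h1, h2⟩, h3, h4⟩ ⟨⟨k1, k2⟩, k3, k4⟩ ⟨⟨m1, m2⟩, m3, m4⟩
    simp only at h1 h2 h3 h4 k1 k2 k3 k4
    have m1' : 0 ≤ u - 1 := m1
    have hu : u = 1 := by linarith
    subst hu
    show f (1, v) = C (f (1 - 1, v))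
    rw [sub_self]
    exact hg.glC v ⟨h3, h4⟩
  · rintro ⟨u, v⟩ ⟨⟨h1, h2⟩, h3, h4⟩ ⟨⟨k1, k2⟩, k3, k4⟩ ⟨⟨m1, m2⟩, m3, m4⟩
    simp only at h1 h2 h3 h4 k1 k2 k3 k4
    have m2' : u + 1 ≤ 1 := m2
    have hu : u = 0 := by linarith
    subst hu
    show f (0, v) = C.symm (f (0 + 1, v))
    rw [zero_add, hg.glC v ⟨h3, h4⟩, IsometryEquiv.symm_apply_apply]
  · rintro ⟨u, v⟩ ⟨⟨h1, h2⟩, h3, h4⟩ ⟨⟨k1, k2⟩, k3, k4⟩ ⟨⟨m1, m2⟩, m3, m4⟩
    simp only at h1 h2 h3 h4 k1 k2 k3 k4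
    have m3' : 0 ≤ -v := m3
    have hv : v = 0 := by linarith
    subst hv
    show f (u, 0) = A.symm (f (1 - u, -0))
    rw [neg_zero, hg.glA u ⟨h1, h2⟩, IsometryEquiv.symm_apply_apply]
  · rintro ⟨u, v⟩ ⟨⟨h1, h2⟩, h3, h4⟩ ⟨⟨k1, k2⟩, k3, k4⟩ ⟨⟨m1, m2⟩, m3, m4⟩
    simp only at h1 h2 h3 h4 k1 k2 k3 k4
    have m3' : 0 ≤ -v := m3
    have hv : v = 0 := by linarith
    subst hv
    show f (u, 0) = A (f (1 - u, -0))
    have h5 := hg.glA (1 - u) ⟨by linarith, by linarith⟩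
    rw [sub_sub_cancel] at h5
    rw [neg_zero, h5]
  · rintro ⟨u, v⟩ ⟨⟨h1, h2⟩, h3, h4⟩ ⟨⟨k1, k2⟩, k3, k4⟩ ⟨⟨m1, m2⟩, m3, m4⟩
    simp only at h1 h2 h3 h4 k1 k2 k3 k4
    have m4' : 1 - v ≤ 1/2 := m4
    have hv : v = 1/2 := by linarith
    subst hv
    show f (u, 1/2) = B.symm (f (1 - u, 1 - 1/2))
    have e : (1:ℝ) - 1/2 = 1/2 := by norm_num
    rw [e, hg.glB u ⟨h1, h2⟩, IsometryEquiv.symm_apply_apply]
  · rintro ⟨u, v⟩ ⟨⟨h1, h2⟩, h3, h4⟩ ⟨⟨k1, k2⟩, k3, k4⟩ ⟨⟨m1, m2⟩, m3, m4⟩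
    simp only at h1 h2 h3 h4 k1 k2 k3 k4
    have m4' : 1 - v ≤ 1/2 := m4
    have hv : v = 1/2 := by linarith
    subst hv
    show f (u, 1/2) = B (f (1 - u, 1 - 1/2))
    have e : (1:ℝ) - 1/2 = 1/2 := by norm_num
    have h5 := hg.glB (1 - u) ⟨by linarith, by linarith⟩
    rw [sub_sub_cancel] at h5
    rw [e, h5]

theorem ws_open (s : Fin 7) : IsOpen (Ws s) := by
  fin_cases s
  all_goals exact isOpen_Ioo.prod isOpen_Ioo

theorem ws_cov {x : ℝ × ℝ} (hx : x ∈ D \ P) : ∃ s, x ∈ Ws s := by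
  obtain ⟨⟨⟨h1, h2⟩, h3, h4⟩, hP⟩ := hx
  rw [Exl_memP] at hP
  have e1 : x.1 = 0 ∨ x.1 = 1/2 ∨ x.1 = 1 ∨ (x.1 ≠ 0 ∧ x.1 ≠ 1/2 ∧ x.1 ≠ 1) := by tauto
  have hlow : x.2 = 0 ∨ x.2 = 1/2 → x.1 ≠ 0 ∧ x.1 ≠ 1/2 ∧ x.1 ≠ 1 := by
    intro h
    refine ⟨fun h' => hP ⟨Or.inl h', h⟩, fun h' => hP ⟨Or.inr (Or.inl h'), h⟩,
      fun h' => hP ⟨Or.inr (Or.inr h'), h⟩⟩
  by_cases c0 : x.2 = 0
  · obtain ⟨n0, n1, n2⟩ := hlow (Or.inl c0)
    have p0 : 0 < x.1 := lt_of_le_of_ne h1 (Ne.symm n0)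
    have p2 : x.1 < 1 := lt_of_le_of_ne h2 n2
    rcases lt_or_gt_of_ne n1 with h | h
    · exact ⟨3, ⟨p0, h⟩, by rw [c0]; norm_num, by rw [c0]; norm_num⟩
    · exact ⟨4, ⟨h, p2⟩, by rw [c0]; norm_num, by rw [c0]; norm_num⟩
  · by_cases c1 : x.2 = 1/2
    · obtain ⟨n0, n1, n2⟩ := hlow (Or.inr c1)
      have p0 : 0 < x.1 := lt_of_le_of_ne h1 (Ne.symm n0)
      have p2 : x.1 < 1 := lt_of_le_of_ne h2 n2
      rcases lt_or_gt_of_ne n1 with h | h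
      · exact ⟨5, ⟨p0, h⟩, by rw [c1]; norm_num, by rw [c1]; norm_num⟩
      · exact ⟨6, ⟨h, p2⟩, by rw [c1]; norm_num, by rw [c1]; norm_num⟩
    · have q0 : 0 < x.2 := lt_of_le_of_ne h3 (Ne.symm c0)
      have q1 : x.2 < 1/2 := lt_of_le_of_ne h4 c1
      by_cases d0 : x.1 = 0
      · exact ⟨2, ⟨by rw [d0]; norm_num, by rw [d0]; norm_num⟩, q0, q1⟩
      · by_cases d1 : x.1 = 1
        · exact ⟨1, ⟨by rw [d1]; norm_num, by rw [d1]; norm_num⟩, q0, q1⟩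
        · exact ⟨0, ⟨lt_of_le_of_ne h1 (Ne.symm d0), lt_of_le_of_ne h2 d1⟩, q0, q1⟩

theorem ws_rt {s : Fin 7} {x : ℝ × ℝ} (hx : x ∈ Ws s) : rt s x ∈ D \ P := by
  by_cases h : x ∈ D
  · rw [Exl_rt_in h]
    exact ⟨h, Exl_in s hx⟩
  · rw [Exl_rt_out h]
    exact Exl_out s hx h

theorem wg_open {r : ℝ} (hr : r < 1/8) (s : Fin 7) : IsOpen (Wg r s) := by
  have h : Wg r s = Ws s ∩ ((Zr r)ᶜ ∩ (Rs s) ⁻¹' (Zr r)ᶜ) := by
    ext x
    constructor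
    · rintro ⟨h1, h2⟩
      by_cases hD : x ∈ D
      · rw [Exl_rt_in hD] at h2
        exact ⟨h1, h2, Exl_side hr s h1 hD h2⟩
      · rw [Exl_rt_out hD] at h2
        exact ⟨h1, fun h3 => hD (Exl_Zr_D hr h3), h2⟩
    · rintro ⟨h1, h2, h3⟩
      refine ⟨h1, ?_⟩
      by_cases hD : x ∈ D
      · rw [Exl_rt_in hD]
        exact h2
      · rw [Exl_rt_out hD]
        exact h3
  rw [h]
  have hc : IsOpen (Zr r)ᶜ := Metric.isClosed_closedBall.isOpen_compl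
  exact (ws_open s).inter (hc.inter (hc.preimage (Exl_Rs_cont s)))

/-- two different extensions only overlap inside U, where both are f -/
theorem ws_two {s s' : Fin 7} (h : s ≠ s') {x : ℝ × ℝ} (h1 : x ∈ Ws s) (h2 : x ∈ Ws s') : x ∈ U := by
  rw [Exl_memU]
  revert h h1 h2
  fin_cases s <;> fin_cases s' <;>
    first
    | (intro h h1 h2
       exact absurd rfl h)
    | (rintro h ⟨⟨a1, a2⟩, a3, a4⟩ ⟨⟨b1, b2⟩, b3, b4⟩
       refine ⟨⟨?_, ?_⟩, ?_, ?_⟩ <;> linarith)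

theorem ext_lip {f : ℝ × ℝ → X} {S : Set (ℝ × ℝ)} (hS : S ⊆ D \ P) (hf : Lpo f S) (hg : Glu A B C f)
    (s : Fin 7) (hW : IsOpen {x | x ∈ Ws s ∧ rt s x ∈ S})
    (hR : ∀ x ∈ Ws s, x ∈ S → Rs s x ∈ D → Rs s x ∈ S) :
    Lpo (ext A B C s f) {x | x ∈ Ws s ∧ rt s x ∈ S} := by
  have hin : ∀ y : ℝ × ℝ, y ∈ D → ext A B C s f y = f y := fun y hy => if_pos hy
  have hout : ∀ y ∈ Ws s, Rs s y ∈ D → ext A B C s f y = gs A B C s (f (Rs s y)) := by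
    intro y hy hyR
    by_cases hD : y ∈ D
    · rw [hin y hD]
      exact Exl_seam hg s hy hD hyR
    · exact if_neg hD
  refine H98NX.lpo_loc ?_
  intro x hx
  obtain ⟨r, hr, hrb⟩ := Metric.nhds_basis_closedBall.mem_iff.1 (hW.mem_nhds hx)
  have hbc : IsCompact (Metric.closedBall x r) := isCompact_closedBall x r
  have hconv : Convex ℝ (Metric.closedBall x r) := convex_closedBall x r
  -- the two compact sets
  have hK1 : IsCompact (Metric.closedBall x r ∩ D) := hbc.inter_right Exl_D_closed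
  have hK1S : Metric.closedBall x r ∩ D ⊆ S := by
    rintro y ⟨hy, hyD⟩
    have h := (hrb hy).2
    rwa [Exl_rt_in hyD] at h
  have hRc : IsClosed ((Rs s) ⁻¹' D) := Exl_D_closed.preimage (Exl_Rs_cont s)
  have hK2 : IsCompact (Rs s '' (Metric.closedBall x r ∩ (Rs s) ⁻¹' D)) :=
    (hbc.inter_right hRc).image (Exl_Rs_cont s)
  have hK2S : Rs s '' (Metric.closedBall x r ∩ (Rs s) ⁻¹' D) ⊆ S := by
    rintro z ⟨y, ⟨hy, hyR⟩, rfl⟩
    have h := (hrb hy).2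
    by_cases hD : y ∈ D
    · rw [Exl_rt_in hD] at h
      exact hR y (hrb hy).1 h hyR
    · rwa [Exl_rt_out hD] at h
  obtain ⟨L1, hL1, hf1⟩ := H98NX.Ea_pos hf hK1S hK1
  obtain ⟨L2, hL2, hf2⟩ := H98NX.Ea_pos hf hK2S hK2
  have d1 : ∀ y ∈ Metric.closedBall x r, ∀ z ∈ Metric.closedBall x r, y ∈ D → z ∈ D →
      dist (ext A B C s f y) (ext A B C s f z) ≤ max L1 L2 * dist y z := by
    intro y hy z hz hyD hzD
    rw [hin y hyD, hin z hzD]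
    exact (hf1 y ⟨hy, hyD⟩ z ⟨hz, hzD⟩).trans (mul_le_mul_of_nonneg_right (le_max_left _ _) dist_nonneg)
  have d2 : ∀ y ∈ Metric.closedBall x r, ∀ z ∈ Metric.closedBall x r, Rs s y ∈ D → Rs s z ∈ D →
      dist (ext A B C s f y) (ext A B C s f z) ≤ max L1 L2 * dist y z := by
    intro y hy z hz hyD hzD
    rw [hout y (hrb hy).1 hyD, hout z (hrb hz).1 hzD, IsometryEquiv.dist_eq]
    refine (hf2 _ ⟨y, ⟨hy, hyD⟩, rfl⟩ _ ⟨z, ⟨hz, hzD⟩, rfl⟩).trans ?_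
    rw [Exl_Rs_dist]
    exact mul_le_mul_of_nonneg_right (le_max_right _ _) dist_nonneg
  have hcov : ∀ y ∈ Metric.closedBall x r, y ∈ D ∨ Rs s y ∈ D := by
    intro y hy
    by_cases hD : y ∈ D
    · exact Or.inl hD
    · exact Or.inr (Exl_out s (hrb hy).1 hD).1
  have d3 : ∀ y ∈ Metric.closedBall x r, ∀ z ∈ Metric.closedBall x r, y ∈ D → Rs s z ∈ D →
      dist (ext A B C s f y) (ext A B C s f z) ≤ max L1 L2 * dist y z := by
    intro y hy z hz hyD hzD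
    have hseg : segment ℝ y z ⊆ Metric.closedBall x r := hconv.segment_subset hy hz
    have hpre : IsPreconnected (segment ℝ y z) := (convex_segment y z).isPreconnected
    obtain ⟨w, hw, hwD, hwR⟩ := isPreconnected_closed_iff.1 hpre D ((Rs s) ⁻¹' D) Exl_D_closed hRc
      (fun w hw => hcov w (hseg hw)) ⟨y, left_mem_segment ℝ y z, hyD⟩ ⟨z, right_mem_segment ℝ y z, hzD⟩
    calc dist (ext A B C s f y) (ext A B C s f z)
        ≤ dist (ext A B C s f y) (ext A B C s f w) + dist (ext A B C s f w) (ext A B C s f z) :=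
          dist_triangle _ _ _
      _ ≤ max L1 L2 * dist y w + max L1 L2 * dist w z :=
          add_le_add (d1 y hy w (hseg hw) hyD hwD) (d2 w (hseg hw) z hz hwR hzD)
      _ = max L1 L2 * dist y z := by rw [← mul_add, dist_add_dist_of_mem_segment hw]
  refine ⟨r, hr, max L1 L2, ?_⟩
  rintro y ⟨-, hy⟩ z ⟨-, hz⟩
  have hy' := Metric.ball_subset_closedBall hy
  have hz' := Metric.ball_subset_closedBall hz
  rcases hcov y hy' with h1 | h1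
  · rcases hcov z hz' with h2 | h2
    · exact d1 y hy' z hz' h1 h2
    · exact d3 y hy' z hz' h1 h2
  · rcases hcov z hz' with h2 | h2
    · rw [dist_comm (ext A B C s f y), dist_comm y z]
      exact d3 z hz' y hy' h2 h1
    · exact d2 y hy' z hz' h1 h2

end H50NA
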