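import Pool.Agent.H80.NA.Nu

set_option autoImplicit false

/-!
# Row Ivb: irreducible groups with eigenvalues of absolute value 1 are bounded

n = finrank C W > 0. (1) Burnside: the T g span Module.End C W (copy the private lemma Jhd_burnside of Pool/Agent/H80/HM/Jhd.lean, applied to MonoidAlgebra.lift of T; a subspace invariant under all
T g is invariant under the image of the group algebra). So there are g_1..g_r (r = n^2) such that the T g_i form a basis of End W (a spanning set contains a basis: Module.Basis.ofSpan or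
exists_linearIndependent).
(2) nu is nonarchimedean, so nu of a finite sum is at most the maximum. trace (T g) = sum of the roots of the charpoly (splits over C), so nu(trace(T g)) <= 1 for all g.
(3) Trace form: B_ij = trace(T g_i * T g_j) is an invertible matrix: if sum_i x_i B_ij = 0 for all j then A = sum x_i T g_i satisfies trace(A Z) = 0 for all Z in End W, so A = 0
(test with rank one Z), so x = 0. For g in G write T g = sum_i x_i T g_i; then sum_i x_i B_ij = trace(T(g g_j)) =: c_j with nu c_j <= 1, so x = c B^{-1}, nu(x_i) <= M := max nu(B^{-1}_ij).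
(4) Let b be a basis of W, R(w) := max_i nu(b_i^*(w)) (0 <= R). R(T g w) <= M max_i R(T g_i w) <= M' R(w) with M' independent of g, w (R(T g_i w) <= const R(w): matrix entries).
 N(w) := sup over g of R(T g w) (a real number: bounded by M' R(w)); R(w) <= N(w) (g = 1). N(x+y) <= max, N(c x) = nu c N x (nu c >= 0), N(T h x) = N(x) (g -> g h is a bijection of G).
 lo: f(x) = sum f(b_i) b_i^*(x): nu(f x) <= max_i nu(f(b_i)) R(x) <= c N(x).
-/

namespace H80NA

open H80HM

private theorem Ivb_burnside {R : Type} [Ring R] [Algebra ℂ R] {V : Type} [AddCommGroup V]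
    [Module ℂ V] [FiniteDimensional ℂ V]
    [Nontrivial V] (f : R →ₐ[ℂ] Module.End ℂ V)
    (h : ∀ W : Submodule ℂ V, (∀ x, W ≤ W.comap (f x)) → W = ⊥ ∨ W = ⊤) :
    Function.Surjective f := by
  let _ : Module R V := Module.compHom V f.toRingHom
  have hsm : ∀ (x : R) (v : V), x • v = f x v := fun _ _ => rfl
  have : IsScalarTower ℂ R V := ⟨fun c x v => by rw [hsm, hsm, map_smul]; rfl⟩
  have : IsSimpleModule R V := by
    refine (isSimpleModule_iff R V).2 ⟨fun M => ?_⟩
    have h1 := h (M.restrictScalars ℂ) (fun x v hv => M.smul_mem x hv)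
    rcases h1 with h2 | h2
    · left
      exact (Submodule.restrictScalars_eq_bot_iff ℂ R V).1 h2
    · right
      exact (Submodule.restrictScalars_eq_top_iff ℂ R V).1 h2
  intro g
  have hend : ∀ e : Module.End R V, ∃ c : ℂ, ∀ v, e v = c • v := by
    intro e
    obtain ⟨c, hc⟩ :=
      (IsSimpleModule.algebraMap_end_bijective_of_isAlgClosed (A := R) (V := V) ℂ).2 e
    exact ⟨c, fun v => by rw [← hc]; rfl⟩
  let g' : Module.End (Module.End R V) V :=
    { toFun := g
      map_add' := map_add g
      map_smul' := fun e v => by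
        obtain ⟨c, hc⟩ := hend e
        change g (e v) = e (g v)
        rw [hc, hc, map_smul] }
  obtain ⟨s, hs⟩ := Module.finite_def.1 (inferInstance : Module.Finite ℂ V)
  obtain ⟨x, hx⟩ := jacobson_density g' s
  refine ⟨x, LinearMap.ext_on hs fun v hv => (hx v hv).symm⟩

private theorem Ivb_nonneg {nu : ℂ → ℝ} (hn : Na nu) (z : ℂ) : 0 ≤ nu z := by
  by_cases h : z = 0
  · rw [h, hn.zero]
  · exact (hn.mf.pos z h).le

private theorem Ivb_msum {nu : ℂ → ℝ} (hn : Na nu) (s : Multiset ℂ) (h : ∀ z ∈ s, nu z = 1) :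
    nu s.sum ≤ 1 := by
  induction s using Multiset.induction_on with
  | empty =>
    rw [Multiset.sum_zero, hn.zero]
    exact zero_le_one
  | cons a s ih =>
    rw [Multiset.sum_cons]
    refine (hn.add _ _).trans (max_le ?_ ?_)
    · exact (h a (Multiset.mem_cons_self a s)).le
    · exact ih fun z hz => h z (Multiset.mem_cons_of_mem hz)

private theorem Ivb_fsum {nu : ℂ → ℝ} (hn : Na nu) {ι : Type} (s : Finset ι) (z : ι → ℂ)
    {B : ℝ} (hB : 0 ≤ B) (h : ∀ i ∈ s, nu (z i) ≤ B) : nu (∑ i ∈ s, z i) ≤ B := by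
  classical
  induction s using Finset.induction_on with
  | empty =>
    rw [Finset.sum_empty, hn.zero]
    exact hB
  | insert a s ha ih =>
    rw [Finset.sum_insert ha]
    refine (hn.add _ _).trans (max_le ?_ ?_)
    · exact h a (Finset.mem_insert_self a s)
    · exact ih fun i hi => h i (Finset.mem_insert_of_mem hi)

theorem inv_irr {nu : ℂ → ℝ} (hn : Na nu) {G W : Type} [Group G] [AddCommGroup W] [Module ℂ W]
    [FiniteDimensional ℂ W] [Nontrivial W] (T : G →* Module.End ℂ W)
    (hT : ∀ g, ∀ z ∈ (LinearMap.charpoly (T g)).roots, nu z = 1)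
    (hirr : ∀ S : Submodule ℂ W, (∀ g, S ≤ S.comap (T g)) → S = ⊥ ∨ S = ⊤) :
    ∃ N : W → ℝ, Inw nu T N := by
  classical
  have hnn := Ivb_nonneg hn
  -- the trace
  have htr : ∀ g, nu (LinearMap.trace ℂ W (T g)) ≤ 1 := by
    intro g
    have h1 := Module.End.trace_eq_sum_roots_charpoly_of_splits (f := T g)
      (IsAlgClosed.splits _)
    rw [h1]
    exact Ivb_msum hn _ (hT g)
  have hsur := Ivb_burnside (MonoidAlgebra.lift ℂ (Module.End ℂ W) G T) (by
    intro S hS
    refine hirr S fun g => ?_
    have h1 := hS (MonoidAlgebra.of ℂ G g)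
    rw [MonoidAlgebra.lift_of] at h1
    exact h1)
  have hbd : ∀ A : Module.End ℂ W, ∃ C : ℝ, 0 ≤ C ∧
      ∀ g, nu (LinearMap.trace ℂ W (T g * A)) ≤ C := by
    intro A
    obtain ⟨x, rfl⟩ := hsur A
    induction x using MonoidAlgebra.induction_on with
    | of m =>
      refine ⟨1, zero_le_one, fun g => ?_⟩
      rw [MonoidAlgebra.lift_of, ← map_mul]
      exact htr _
    | add x y hx hy =>
      obtain ⟨C, hC, h1⟩ := hx
      obtain ⟨C', hC', h2⟩ := hy
      refine ⟨max C C', le_max_of_le_left hC, fun g => ?_⟩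
      rw [map_add, mul_add, map_add]
      exact (hn.add _ _).trans (max_le_max (h1 g) (h2 g))
    | smul c x hx =>
      obtain ⟨C, hC, h1⟩ := hx
      refine ⟨nu c * C, mul_nonneg (hnn c) hC, fun g => ?_⟩
      rw [map_smul, mul_smul_comm, map_smul, smul_eq_mul, hn.mf.mul]
      exact mul_le_mul_of_nonneg_left (h1 g) (hnn c)
  have hfv : ∀ (f : W →ₗ[ℂ] ℂ) (v : W), ∃ C : ℝ, 0 ≤ C ∧ ∀ g, nu (f (T g v)) ≤ C := by
    intro f v
    obtain ⟨C, hC, h1⟩ := hbd (f.smulRight v)
    refine ⟨C, hC, fun g => ?_⟩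
    have h2 : T g * (f.smulRight v) = f.smulRight (T g v) := by
      ext w
      change T g (f w • v) = f w • T g v
      rw [map_smul]
    have h3 := h1 g
    rw [h2, LinearMap.trace_smulRight] at h3
    exact h3
  let b := Module.finBasis ℂ W
  have hpos : 0 < Module.finrank ℂ W := Module.finrank_pos
  have : Nonempty (Fin (Module.finrank ℂ W)) := ⟨⟨0, hpos⟩⟩
  let F : W → G × Fin (Module.finrank ℂ W) → ℝ := fun w p => nu (b.coord p.2 (T p.1 w))
  have hBdd : ∀ w, BddAbove (Set.range (F w)) := by
    intro w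
    choose C hC h1 using fun i => hfv (b.coord i) w
    refine ⟨∑ i, C i, ?_⟩
    rintro _ ⟨p, rfl⟩
    exact (h1 p.2 p.1).trans
      (Finset.single_le_sum (f := C) (fun i _ => hC i) (Finset.mem_univ p.2))
  have hFN : ∀ w p, F w p ≤ ⨆ q, F w q := fun w p => le_ciSup (hBdd w) p
  have hN0 : ∀ w, 0 ≤ ⨆ q, F w q := fun w =>
    (hnn _).trans (hFN w (1, ⟨0, hpos⟩))
  refine ⟨fun w => ⨆ q, F w q, ⟨?_, ?_, ?_, ?_⟩⟩
  · intro x y
    refine ciSup_le fun p => ?_
    change nu (b.coord p.2 (T p.1 (x + y))) ≤ _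
    rw [map_add, map_add]
    exact (hn.add _ _).trans (max_le_max (hFN x p) (hFN y p))
  · intro c x
    change (⨆ q, F (c • x) q) = nu c * ⨆ q, F x q
    rw [Real.mul_iSup_of_nonneg (hnn c)]
    congr 1
    funext p
    change nu (b.coord p.2 (T p.1 (c • x))) = nu c * nu (b.coord p.2 (T p.1 x))
    rw [map_smul, map_smul, smul_eq_mul, hn.mf.mul]
  · intro f
    refine ⟨1 + ∑ i, nu (f (b i)), ?_, fun x => ?_⟩
    · have : 0 ≤ ∑ i, nu (f (b i)) := Finset.sum_nonneg fun i _ => hnn _
      linarith
    · have h1 : f x = ∑ i, b.coord i x * f (b i) := by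
        conv_lhs => rw [← b.sum_repr x]
        rw [map_sum]
        refine Finset.sum_congr rfl fun i _ => ?_
        rw [map_smul, smul_eq_mul, Module.Basis.coord_apply]
      rw [h1]
      refine Ivb_fsum hn _ _ (mul_nonneg ?_ (hN0 x)) fun i _ => ?_
      · have : 0 ≤ ∑ i, nu (f (b i)) := Finset.sum_nonneg fun i _ => hnn _
        linarith
      · rw [hn.mf.mul, mul_comm]
        refine mul_le_mul ?_ ?_ (hnn _) ?_
        · have := Finset.single_le_sum (f := fun i => nu (f (b i))) (fun i _ => hnn _)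
            (Finset.mem_univ i)
          linarith
        · have h2 := hFN x (1, i)
          change nu (b.coord i (T 1 x)) ≤ _ at h2
          rw [map_one] at h2
          exact h2
        · have : 0 ≤ ∑ i, nu (f (b i)) := Finset.sum_nonneg fun i _ => hnn _
          linarith
  · intro h x
    have hle : ∀ (h : G) (x : W), (⨆ q, F (T h x) q) ≤ ⨆ q, F x q := by
      intro h x
      refine ciSup_le fun p => ?_
      have h2 := hFN x (p.1 * h, p.2)
      change nu (b.coord p.2 (T (p.1 * h) x)) ≤ _ at h2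
      rw [map_mul] at h2
      exact h2
    refine le_antisymm (hle h x) ?_
    have h3 := hle h⁻¹ (T h x)
    rw [← Module.End.mul_apply, ← map_mul, inv_mul_cancel, map_one] at h3
    exact h3

end H80NA
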