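import Pool.Agent.H50.NA.L7
import Pool.Agent.H50.NA.S3
import Pool.Agent.H98.NX.Xh

set_option autoImplicit false

/-!
# Row Lga: charts in linear coordinates; continuity of the speed in a chart

Lt x y : C -> R x R is a linear bijection for y > 0 with inverse Li x y (H98NX.Xh: lt_li, li_lt, lt_add; both are restrictions of continuous linear maps: Lt x y z = z.re f1 + z.im f2, Li x y w = (w.1 + x w.2)/sqrt y + i sqrt y w.2).
cht_of_chart: rpos = hR, int, ne = hc.nz. c1: T b o Lt, composition of the ContDiffOn function T b (on O) with a linear map. dst: fderiv (T b o Lt) z = fderiv (T b) (Lt z) o Lt' (T b is differentiable on the open set O: ContDiffOn.differentiableOn, hc.opn), and Lt' is surjective, so equality for b, b' would give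
 fderiv (T b)(Lt z) = fderiv (T b')(Lt z), contradiction to hc.dis. spl, eq: hc.spl, hc.cst (eq uses y := x0 = ze, z := y).
chart_of_cht: O := Lt x y '' ball ze R = Li x y ^-1 (ball ze R) (open), T b o Li. The same with Li. cst for y, z in O: from eq for both points: rs (E b)(u z) = trl (rs u0) (T z - T 0), rs (E b)(u y) = trl (rs u0) (T y - T 0), so rs (E b)(u z) = trl (rs (u y)) (T z - T y) (unfold trl, funext; trl_trl in S3a).
sp_cont: by s3_b (sp >= 0, H98NX.sp_nonneg) sp u t z = sqrt (sum nn E b (fderiv (T b) z t)^2) for z in O. The function (z, t) -> this is continuous on O x (R x R) (fderiv of a C^1 function on the open set O is continuous on O: ContDiffOn.continuousOn_fderiv_of_isOpen), so uniformly continuous on the compact set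
 S x closedBall 0 c (IsCompact.uniformContinuousOn_of_continuous); unfold with Metric.uniformContinuousOn_iff and the product (sup) metric.
-/

namespace H50NA

open MeasureTheory Set Filter Topology Metric
open H80HM (D U P f1 f2 pk rk)
open H98NX (Li)

/-- Lt as a continuous linear map -/
noncomputable def Lga_L (x y : ℝ) : ℂ →L[ℝ] ℝ × ℝ :=
  Complex.reCLM.smulRight (f1 x y) + Complex.imCLM.smulRight (f2 x y)

/-- Li as a linear map -/
noncomputable def Lga_M (x y : ℝ) : ℝ × ℝ →ₗ[ℝ] ℂ where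
  toFun := Li x y
  map_add' a b := by
    unfold H98NX.Li
    apply Complex.ext
    · change (a.1 + b.1 + x * (a.2 + b.2)) / Real.sqrt y =
        (a.1 + x * a.2) / Real.sqrt y + (b.1 + x * b.2) / Real.sqrt y
      ring
    · change Real.sqrt y * (a.2 + b.2) = Real.sqrt y * a.2 + Real.sqrt y * b.2
      ring
  map_smul' c a := by
    unfold H98NX.Li
    apply Complex.ext
    · simp
      ring
    · simp
      ring

/-- Lt as a continuous linear equivalence -/
noncomputable def Lga_e {y : ℝ} (x : ℝ) (hy : 0 < y) : ℂ ≃L[ℝ] ℝ × ℝ :=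
  ContinuousLinearEquiv.equivOfInverse (Lga_L x y) (LinearMap.toContinuousLinearMap (Lga_M x y))
    (fun z => H98NX.li_lt hy z) (fun w => H98NX.lt_li hy w)

theorem Lga_e_apply {y : ℝ} (x : ℝ) (hy : 0 < y) (z : ℂ) : Lga_e x hy z = Lt x y z := rfl

theorem Lga_e_symm {y : ℝ} (x : ℝ) (hy : 0 < y) (w : ℝ × ℝ) : (Lga_e x hy).symm w = Li x y w := rfl

theorem Lga_comp {A B : Type} [NormedAddCommGroup A] [NormedSpace ℝ A] [NormedAddCommGroup B]
    [NormedSpace ℝ B] (e : A ≃L[ℝ] B) {f g : B →L[ℝ] ℝ}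
    (h : f.comp (e : A →L[ℝ] B) = g.comp (e : A →L[ℝ] B)) : f = g := by
  ext w
  have h1 := congrArg (fun k : A →L[ℝ] ℝ => k (e.symm w)) h
  simpa using h1

variable {K : Type} [Field K] (F : VF K) {V : Type} [AddCommGroup V] [Module K V] [Module.Finite K V]

theorem cht_of_chart {u : ℝ × ℝ → Nm F V} {O : Set (ℝ × ℝ)} {N : ℕ} {E : Fin N → Submodule K V}
    {T : Fin N → ℝ × ℝ → ℝ} (hc : Chart F u O E T) {x y : ℝ} (hy : 0 < y) {ze : ℂ} {R : ℝ} (hR : 0 < R)
    (hRO : ∀ z ∈ ball ze R, Lt x y z ∈ O) :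
    Cht F (fun z => u (Lt x y z)) ze R N E (fun b z => T b (Lt x y z)) where
  rpos := hR
  int := hc.int
  ne := hc.nz
  c1 b := by
    have h1 : ContDiffOn ℝ 1 (Lga_e x hy) (ball ze R) := (Lga_e x hy).contDiff.contDiffOn
    exact (hc.cd b).comp h1 (fun z hz => hRO z hz)
  dst z hz b b' hbb h := by
    apply hc.dis _ (hRO z hz) b b' hbb
    have e1 : ∀ b, fderiv ℝ (fun z => T b (Lt x y z)) z =
        (fderiv ℝ (T b) (Lt x y z)).comp (Lga_e x hy : ℂ →L[ℝ] ℝ × ℝ) := fun b =>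
      (Lga_e x hy).comp_right_fderiv (f := T b) (x := z)
    rw [e1, e1] at h
    exact Lga_comp (Lga_e x hy) h
  spl z hz := hc.spl _ (hRO z hz)
  eq b z hz := hc.cst _ (hRO ze (mem_ball_self hR)) _ (hRO z hz) b

theorem chart_of_cht {u : ℝ × ℝ → Nm F V} {x y : ℝ} (hy : 0 < y) {ze : ℂ} {R : ℝ} {N : ℕ}
    {E : Fin N → Submodule K V} {T : Fin N → ℂ → ℝ} (h : Cht F (fun z => u (Lt x y z)) ze R N E T) :
    Chart F u {w | Li x y w ∈ ball ze R} E (fun b w => T b (Li x y w)) where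
  opn := isOpen_ball.preimage (Lga_e x hy).symm.continuous
  int := h.int
  nz := h.ne
  cd b := by
    have h1 : ContDiffOn ℝ 1 (Lga_e x hy).symm {w | Li x y w ∈ ball ze R} :=
      (Lga_e x hy).symm.contDiff.contDiffOn
    exact (h.c1 b).comp h1 (fun z hz => hz)
  dis w hw b b' hbb hd := by
    apply h.dst _ hw b b' hbb
    have e1 : ∀ b, fderiv ℝ (fun w => T b (Li x y w)) w =
        (fderiv ℝ (T b) (Li x y w)).comp ((Lga_e x hy).symm : ℝ × ℝ →L[ℝ] ℂ) := fun b =>
      (Lga_e x hy).symm.comp_right_fderiv (f := T b) (x := w)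
    rw [e1, e1] at hd
    exact Lga_comp (Lga_e x hy).symm hd
  spl w hw := by
    have h1 := h.spl _ hw
    change SpD E (u (Lt x y (Li x y w))).1 at h1
    rw [H98NX.lt_li hy] at h1
    exact h1
  cst w hw z hz b := by
    have h1 := h.eq b _ hw
    have h2 := h.eq b _ hz
    change rs (E b) (u (Lt x y (Li x y w))).1 = _ at h1
    change rs (E b) (u (Lt x y (Li x y z))).1 = _ at h2
    rw [H98NX.lt_li hy] at h1 h2
    rw [h1, h2, trl_trl]
    congr 1
    ring

theorem sp_cont {u : ℝ × ℝ → Nm F V} {O : Set (ℝ × ℝ)} {N : ℕ} {E : Fin N → Submodule K V}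
    {T : Fin N → ℝ × ℝ → ℝ} (hc : Chart F u O E T) {S : Set (ℝ × ℝ)} (hS : IsCompact S) (hSO : S ⊆ O)
    (c : ℝ) {e : ℝ} (he : 0 < e) :
    ∃ d : ℝ, 0 < d ∧ ∀ z ∈ S, ∀ z' ∈ S, dist z z' ≤ d → ∀ t t' : ℝ × ℝ, ‖t‖ ≤ c → ‖t'‖ ≤ c →
      ‖t - t'‖ ≤ d → |sp u t z - sp u t' z'| ≤ e := by
  have hcomp : IsCompact (S ×ˢ closedBall (0 : ℝ × ℝ) c) := hS.prod (isCompact_closedBall _ _)
  have hcont : ContinuousOn (fun p : (ℝ × ℝ) × (ℝ × ℝ) =>
      Real.sqrt (∑ b, nn E b * (fderiv ℝ (T b) p.1 p.2) ^ 2)) (S ×ˢ closedBall (0 : ℝ × ℝ) c) := by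
    apply Real.continuous_sqrt.comp_continuousOn
    refine continuousOn_finsetSum _ fun b _ => ?_
    refine ContinuousOn.mul continuousOn_const (ContinuousOn.pow ?_ 2)
    have h1 : ContinuousOn (fderiv ℝ (T b)) O :=
      (hc.cd b).continuousOn_fderiv_of_isOpen hc.opn le_rfl
    have h2 : ContinuousOn (fun p : (ℝ × ℝ) × (ℝ × ℝ) => fderiv ℝ (T b) p.1)
        (S ×ˢ closedBall (0 : ℝ × ℝ) c) :=
      h1.comp continuousOn_fst fun p hp => hSO hp.1
    exact h2.clm_apply continuousOn_snd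
  have huc := hcomp.uniformContinuousOn_of_continuous hcont
  obtain ⟨d, hd, h⟩ := Metric.uniformContinuousOn_iff.1 huc e he
  have hsp : ∀ z ∈ S, ∀ t : ℝ × ℝ, sp u t z =
      Real.sqrt (∑ b, nn E b * (fderiv ℝ (T b) z t) ^ 2) := by
    intro z hz t
    rw [← s3_b F hc (hSO hz) t, Real.sqrt_sq (H98NX.sp_nonneg _ _ _)]
  refine ⟨d / 2, half_pos hd, ?_⟩
  intro z hz z' hz' hzz t t' ht ht' htt
  rw [hsp z hz, hsp z' hz']
  have h1 := h (z, t) ⟨hz, by simpa using ht⟩ (z', t') ⟨hz', by simpa using ht'⟩ (by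
    rw [Prod.dist_eq, max_lt_iff]
    refine ⟨lt_of_le_of_lt hzz (half_lt_self hd), ?_⟩
    rw [dist_eq_norm]
    exact lt_of_le_of_lt htt (half_lt_self hd))
  rw [Real.dist_eq] at h1
  exact h1.le

end H50NA
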