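import Pool.Agent.H50.NA.XI
import Pool.Agent.H98.NX.Eh
import Pool.Agent.H80.NA.Sdf

set_option autoImplicit false

/-!
# Row Lla: Lipschitz bound of local minimisers by the energy

lm_lip. Let y, z in closedBall x (R/2), t := z - y, norm t <= R. If t = 0 trivial. Apply dq_avg (XI, H50NA.dq_avg) with r := R/2, s := 1: closedBall y (R/2 + norm t) is contained in closedBall x (2R).
 For 0 <= s' <= 1 the ball (y + s' t) (R/2) is contained in closedBall x (2R) (y + s' t is in closedBall x (R/2)), so the average of sp f t ^2 over it is (1/(pi (R/2)^2)) times the integral, which is at most the integral over closedBall x (2R)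
 (setIntegral_mono_set, integrability of sp^2 on compact subsets: H98NX.sp_sq_int), and almost everywhere on O: sp f t ^2 <= norm t ^2 (sp f 1 ^2 + sp f I ^2) (md_ae and sp_rot of H98NX.Eh: sp f c ^2 + sp f (c I) ^2 = norm c ^2 (sp f 1 ^2 + sp f I ^2)), so the average is
 at most A := 4/(pi R^2) norm t ^2 M <= 4 norm t ^2 M / R^2 (M >= 0 because en >= 0; pi >= 1).  dist^2 <= A, dist <= 2 sqrt M norm t / R.
 (volume of a ball in C: Complex.volume_ball.)

-/

namespace H50NA

open MeasureTheory Set Filter Topology Metric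
open H80HM (D U P f1 f2 pk rk)

variable {X : Type} [MetricSpace X] {gm : X → X → ℝ → X} {A B C : X ≃ᵢ X}

private theorem Lla_avg (H : ℂ → ℝ) (c : ℂ) {s : ℝ} (hs : 0 < s) :
    ⨍ y in ball c s, H y = (Real.pi * s ^ 2)⁻¹ * ∫ y in ball c s, H y := by
  have hv : (volume : Measure ℂ).real (ball c s) = Real.pi * s ^ 2 := by
    rw [Measure.real, Complex.volume_ball, ENNReal.toReal_mul, ENNReal.toReal_pow, ENNReal.toReal_ofReal hs.le]
    simp [mul_comm]
  rw [setAverage_eq, hv, smul_eq_mul]

theorem lm_lip (hX : Npc X gm) {f : ℂ → X} {O : Set ℂ} (h : LM f O) {x : ℂ} {R M : ℝ} (hR : 0 < R)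
    (hx : closedBall x (2 * R) ⊆ O) (hM : en f (closedBall x (2 * R)) ≤ M) :
    ∀ y ∈ closedBall x (R / 2), ∀ z ∈ closedBall x (R / 2),
      dist (f y) (f z) ≤ 2 * Real.sqrt M / R * dist y z := by
  intro y hy z hz
  have hM0 : 0 ≤ M :=
    le_trans (integral_nonneg fun _ => add_nonneg (sq_nonneg _) (sq_nonneg _)) hM
  have hC : IsCompact (closedBall x (2 * R)) := isCompact_closedBall x (2 * R)
  rw [mem_closedBall] at hy hz
  have hdyz : dist y z ≤ R := by
    have := dist_triangle_right y z x
    linarith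
  have ht : ‖z - y‖ = dist y z := by rw [dist_comm, dist_eq_norm]
  have hint := fun t : ℂ => (H98NX.sp_sq_int volume h.opn h.lip hC hx hC.measurableSet subset_rfl t).1
  have htot : ∫ y' in closedBall x (2 * R), sp f (z - y) y' ^ 2 ≤ ‖z - y‖ ^ 2 * M := by
    have h1 : ∫ y' in closedBall x (2 * R), sp f (z - y) y' ^ 2 ≤
        ∫ y' in closedBall x (2 * R), ‖z - y‖ ^ 2 * (sp f 1 y' ^ 2 + sp f Complex.I y' ^ 2) := by
      refine setIntegral_mono_on_ae (hint _) (((hint 1).add (hint Complex.I)).const_mul _) hC.measurableSet ?_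
      filter_upwards [H98NX.md_ae volume hX h.opn h.lip] with w hw hwC
      have h2 := H98NX.sp_rot (hw (hx hwC)) (z - y)
      have h3 := sq_nonneg (sp f ((z - y) * Complex.I) w)
      linarith
    refine h1.trans ?_
    rw [integral_const_mul]
    exact mul_le_mul_of_nonneg_left hM (sq_nonneg _)
  have hsub : closedBall y (R / 2 + 1 * ‖z - y‖) ⊆ closedBall x (2 * R) :=
    closedBall_subset_closedBall' (by rw [ht]; linarith)
  have key := dq_avg hX h (z - y) y (r := R / 2) (s := 1) (A := 4 / R ^ 2 * (‖z - y‖ ^ 2 * M)) (by positivity)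
    one_pos (hsub.trans hx) (fun s' h0 h1 => by
      have hb : ball (y + (s' : ℂ) * (z - y)) (R / 2) ⊆ closedBall x (2 * R) := by
        refine ball_subset_closedBall.trans (closedBall_subset_closedBall' ?_)
        have e1 : dist (y + (s' : ℂ) * (z - y)) y ≤ dist y z := by
          rw [dist_eq_norm, add_sub_cancel_left, norm_mul, Complex.norm_real, Real.norm_eq_abs,
            abs_of_nonneg h0, ht]
          exact mul_le_of_le_one_left dist_nonneg h1
        have e2 := dist_triangle (y + (s' : ℂ) * (z - y)) y x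
        linarith
      have hI : ∫ y' in ball (y + (s' : ℂ) * (z - y)) (R / 2), sp f (z - y) y' ^ 2 ≤ ‖z - y‖ ^ 2 * M :=
        (setIntegral_mono_set (hint (z - y)) (Eventually.of_forall fun _ => sq_nonneg _)
          hb.eventuallyLE).trans htot
      rw [Lla_avg _ _ (by positivity)]
      refine mul_le_mul ?_ hI (integral_nonneg fun _ => sq_nonneg _) (by positivity)
      rw [inv_le_comm₀ (by positivity) (by positivity)]
      have hpi : 1 ≤ Real.pi := by linarith [Real.pi_gt_three]
      have e3 : (4 / R ^ 2)⁻¹ = 1 * (R / 2) ^ 2 := by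
        rw [inv_div]
        ring
      rw [e3]
      exact mul_le_mul_of_nonneg_right hpi (sq_nonneg _))
  rw [Complex.ofReal_one, one_mul, add_sub_cancel, one_pow, one_mul, ht, dist_comm] at key
  have hfin : dist (f y) (f z) ^ 2 ≤ (2 * Real.sqrt M / R * dist y z) ^ 2 := by
    refine key.trans (le_of_eq ?_)
    rw [mul_pow, div_pow, mul_pow, Real.sq_sqrt hM0]
    ring
  have h0 : 0 ≤ 2 * Real.sqrt M / R * dist y z := by positivity
  exact (pow_le_pow_iff_left₀ dist_nonneg h0 two_ne_zero).1 hfin

end H50NA
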