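import Pool.Agent.H80.NA.Si
import Pool.Agent.H80.NA.Lla
import Pool.Agent.H80.NA.Llb
import Pool.Agent.H98.NX.Xc
import Pool.Agent.H98.NX.Xh

set_option autoImplicit false

/-!
# Row Llc: equi-Lipschitz bound of the limit maps at tau_k(s), 0 <= s <= 1

Names: Xa (H98NX): ws_open, rs_..; Xa2: wg_open (needs r < 1/4), zr_sub; Xb: ext_lpo; Xc: e2_int, ext_dis; Xh: Li, lt_li, li_lt, lt_en, lt_mp; Si: lim_lm, lim_en; Llb: lt_bd, E0_tau_le; Lla: lm_lip.
lim_en_ball. u a Lim at (x, y), S compact in Wg r s: int_S e2 x y (ext s u) <= E0 x y: e2_int gives int_S = int_{S cap U} e2 u + int_{Rs s '' (S minus D)} e2 u; by ext_dis the two sets are measurable, disjoint and contained in U; moreover they are contained in U minus Zr r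
 (z in S cap U: rt s z = z not in Zr; z in S minus D: rt s z = Rs s z not in Zr; S in Wg r s), so the sum is the integral over the union and at most the integral over U minus Zr r = E0 (lim_en; setIntegral_mono_set, e2 >= 0).
lim_lip. Choose R0 > 0 with closedBall p R0 in Wg r sg (open). c from lt_bd. R := R0/(2c), rho := min R0 (R/(2c)), M := 3 * E0 A B C r o x y (exp 1 <= 3), L := c * (2 sqrt M / R).
 Given s, k, w put x' = tx x y s k, y' = ty y s k > 0 (ty_pos), zeta := Li x' y' p, f := fun z => ext A B C sg w (Lt x' y' z): LM on Lt x' y' ^-1 (Wg r sg) (lim_lm). closedBall zeta (2R) is mapped by Lt x' y' into closedBall p (c 2R) = closedBall p R0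
 (Lt z - p = Lt (z - zeta), norm <= c norm (z - zeta)). en f (closedBall zeta (2R)) = int over the compact image of e2 x' y' (ext w) (lt_en) <= E0 x' y' (lim_en_ball) <= exp s E0 x y <= M. lm_lip: Lipschitz constant 2 sqrt M/R on closedBall zeta (R/2).
 For z in closedBall p rho: Li z in closedBall zeta (R/2) because norm (Li z - Li p) <= c norm (z - p) (lt_bd applied to Li z - Li p: Lt of it is z - p) <= c rho <= R/2. dist (ext w z)(ext w z') = dist (f (Li z))(f (Li z')) <= (2 sqrt M/R) norm (Li z - Li z') <= L dist z z'.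
 (Lt x' y' is additive: lt_add; Li z - Li z' is mapped to z - z'.)
-/

namespace H50NA

open MeasureTheory Set Filter Topology Metric
open H80HM (D U P f1 f2 pk rk)
open H98NX (e2)

variable {X : Type} [MetricSpace X] {gm : X → X → ℝ → X} {A B C : X ≃ᵢ X}

theorem Llc_E0_nonneg (r : ℝ) (o : X) (x y : ℝ) : 0 ≤ E0 A B C r o x y := by
  refine Real.sInf_nonneg ?_
  rintro _ ⟨f, -, rfl⟩
  exact integral_nonneg fun _ => add_nonneg (sq_nonneg _) (sq_nonneg _)

theorem Llc_cont (x y : ℝ) : Continuous (Lt x y) := by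
  unfold Lt
  fun_prop

theorem Llc_sub (x y : ℝ) (q q' : ℂ) : Lt x y q - Lt x y q' = Lt x y (q - q') := by
  have h := H98NX.lt_add x y (q - q') q'
  rw [sub_add_cancel] at h
  rw [h, add_sub_cancel_right]

theorem lim_en_ball (hX : Npc X gm) {r : ℝ} {o : X} {x y : ℝ} (hr : 0 < r) (hr8 : r < 1 / 8) (hy : 0 < y)
    {u : ℝ × ℝ → X} (hu : Lim A B C r o x y u) {sg : Fin 7} {S : Set (ℝ × ℝ)} (hS : IsCompact S)
    (hSW : S ⊆ Wg r sg) : ∫ z in S, e2 x y (ext A B C sg u) z ≤ E0 A B C r o x y := by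
  obtain ⟨hI, hE⟩ := lim_en hX hr hr8 hy hu
  obtain ⟨-, a2, a3, a4⟩ := H98NX.e2_int (by linarith) hu.lip hu.glu hS hSW x y
  obtain ⟨-, d2, d3, d4⟩ := H98NX.ext_dis (by linarith : r < 1/4) hS hSW
  rw [a4, ← setIntegral_union d3 d2 a2 a3, ← hE]
  refine setIntegral_mono_set hI
    (ae_of_all _ fun z => add_nonneg (sq_nonneg _) (sq_nonneg _)) (LE.le.eventuallyLE ?_)
  intro z hz
  refine ⟨d4 hz, ?_⟩
  rcases hz with ⟨h1, h2⟩ | ⟨w, ⟨h1, h2⟩, rfl⟩
  · have h3 := (hSW h1).2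
    unfold rt at h3
    rwa [if_pos (H98NX.u_sub_D h2).1] at h3
  · have h3 := (hSW h1).2
    unfold rt at h3
    rwa [if_neg h2] at h3

theorem lim_lip (hX : Npc X gm) {r : ℝ} (o : X) (x : ℝ) {y : ℝ} (hr : 0 < r) (hr8 : r < 1 / 8) (hy : 0 < y)
    {sg : Fin 7} {p : ℝ × ℝ} (hp : p ∈ Wg r sg) :
    ∃ ρ L : ℝ, 0 < ρ ∧ 0 ≤ L ∧ closedBall p ρ ⊆ Wg r sg ∧ ∀ s : ℝ, 0 ≤ s → s ≤ 1 →
      ∀ (k : Fin 4) (w : ℝ × ℝ → X), Lim A B C r o (tx x y s k) (ty y s k) w →
        ∀ z ∈ closedBall p ρ, ∀ z' ∈ closedBall p ρ,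
          dist (ext A B C sg w z) (ext A B C sg w z') ≤ L * dist z z' := by
  have hr4 : r < 1 / 4 := by linarith
  obtain ⟨R0, hR0, hR0W⟩ := Metric.nhds_basis_closedBall.mem_iff.1
    ((H98NX.wg_open hr4 sg).mem_nhds hp)
  obtain ⟨c, hc1, hc⟩ := lt_bd x hy
  have hc0 : 0 < c := by linarith
  obtain ⟨R, hRd⟩ : ∃ R : ℝ, R = R0 / (2 * c) := ⟨_, rfl⟩
  have hR : 0 < R := by rw [hRd]; positivity
  obtain ⟨M, hMd⟩ : ∃ M : ℝ, M = 3 * E0 A B C r o x y := ⟨_, rfl⟩
  have hE0 : 0 ≤ E0 A B C r o x y := Llc_E0_nonneg r o x y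
  refine ⟨min R0 (R / (2 * c)), c * (2 * Real.sqrt M / R), lt_min hR0 (by positivity),
    by positivity, (closedBall_subset_closedBall (min_le_left _ _)).trans hR0W, ?_⟩
  intro s hs0 hs1 k w hw z hz z' hz'
  have hy' := ty_pos hy s k
  have hbd := hc s hs0 hs1 k
  have hE1 := E0_tau_le (A := A) (B := B) (C := C) hX r o x hy hs0 k
  generalize tx x y s k = x' at hw hbd hE1
  generalize ty y s k = y' at hw hy' hbd hE1
  have hLM : LM (fun z => ext A B C sg w (Lt x' y' z)) (Lt x' y' ⁻¹' Wg r sg) :=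
    lim_lm hX hr hr8 hy' hw sg
  obtain ⟨ζ, hζ⟩ : ∃ ζ : ℂ, ζ = H98NX.Li x' y' p := ⟨_, rfl⟩
  have hball : ∀ q ∈ closedBall ζ (2 * R), Lt x' y' q ∈ closedBall p R0 := by
    intro q hq
    rw [mem_closedBall, dist_eq_norm] at hq ⊢
    have h1 := (hbd (q - ζ)).1
    rw [← Llc_sub, hζ, H98NX.lt_li hy', ← hζ] at h1
    refine h1.trans ((mul_le_mul_of_nonneg_left hq hc0.le).trans (le_of_eq ?_))
    rw [hRd]
    field_simp
  have hO : closedBall ζ (2 * R) ⊆ Lt x' y' ⁻¹' Wg r sg := fun q hq => hR0W (hball q hq)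
  have hK : IsCompact (closedBall ζ (2 * R)) := isCompact_closedBall _ _
  have hen : en (fun z => ext A B C sg w (Lt x' y' z)) (closedBall ζ (2 * R)) ≤ M := by
    rw [H98NX.lt_en hy' (ext A B C sg w) hK.measurableSet]
    refine (lim_en_ball hX hr hr8 hy' hw (hK.image (Llc_cont x' y')) ?_).trans ?_
    · rintro _ ⟨q, hq, rfl⟩
      exact hO hq
    · refine hE1.trans ?_
      rw [hMd]
      refine mul_le_mul_of_nonneg_right ?_ hE0
      exact (Real.exp_le_exp.2 hs1).trans Real.exp_one_lt_three.le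
  have key := lm_lip hX hLM hR hO hen
  have hLi : ∀ q q' : ℝ × ℝ, ‖H98NX.Li x' y' q - H98NX.Li x' y' q'‖ ≤ c * ‖q - q'‖ := by
    intro q q'
    have h1 := (hbd (H98NX.Li x' y' q - H98NX.Li x' y' q')).2
    rwa [← Llc_sub, H98NX.lt_li hy', H98NX.lt_li hy'] at h1
  have hzb : ∀ q ∈ closedBall p (min R0 (R / (2 * c))),
      H98NX.Li x' y' q ∈ closedBall ζ (R / 2) := by
    intro q hq
    rw [mem_closedBall, dist_eq_norm] at hq ⊢
    rw [hζ]
    refine (hLi q p).trans ((mul_le_mul_of_nonneg_left (hq.trans (min_le_right _ _))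
      hc0.le).trans (le_of_eq ?_))
    field_simp
  have h := key _ (hzb z hz) _ (hzb z' hz')
  simp only [H98NX.lt_li hy'] at h
  refine h.trans ?_
  have h2 : dist (H98NX.Li x' y' z) (H98NX.Li x' y' z') ≤ c * dist z z' := by
    rw [dist_eq_norm, dist_eq_norm]
    exact hLi z z'
  have h3 : 0 ≤ 2 * Real.sqrt M / R := by positivity
  refine (mul_le_mul_of_nonneg_left h2 h3).trans (le_of_eq ?_)
  ring

/-- the limit at x + i y itself -/
theorem tau_zero (x : ℝ) (y : ℝ) : tx x y 0 0 = x ∧ ty y 0 0 = y := by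
  refine ⟨rfl, ?_⟩
  change y * Real.exp 0 = y
  rw [Real.exp_zero, mul_one]

end H50NA
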