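import Pool.Agent.H50.NA.S3
import Pool.Agent.H80.NA.Sdf

set_option autoImplicit false

/-!
# Row Pwa: the pointwise inequality pw2 in a chart

At almost every z in O the following hold (finite intersection of a.e. sets): s3_b for t = f1, f2 (e2 x y u z = sum nn ((D_eT)^2 + (D_fT)^2)); for every k s3_c in the directions e = f1 x y, f = f2 x y, e + f, e - f; MD (w k) z (md_ae of H98NX.Eh with npcN F; O open: hc.opn), so the parallelogram law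
 sp (e+f)^2 + sp (e-f)^2 = 2 sp e^2 + 2 sp f^2 (from the bilinear form of MD, or sp_pair with coordinates of e, f); every Vb F (E b) u (w k) is differentiable at z (s3_a and H98NX.lpo_diff), so fderiv of Xb is half the difference of the fderivs of Vb for w 0 and w 2, same for Yb with w 1, w 3.
 Notation: a_e = fderiv (T b) z e, v^k_e = fderiv (Vb .. (w k)) z e (linear in the direction), R^k_t = sp (w k) t z ^2 - sum nn (a_t + v^k_t)^2 >= 0, Qc = sum nn (v^k_t)^2 + R^k_t, R^k_{e+f} + R^k_{e-f} = 2 R^k_e + 2 R^k_f.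
 cc 0 (w 0) = sum nn ((a_e+v_e)^2 - (a_f+v_f)^2) + R_e - R_f; cc 1 = sum nn 2 (a_e+v_e)(a_f+v_f) + R_{e+f} - R_e - R_f; cc 2 = - (form of cc 0); cc 3 = - (form of cc 1), where -R_{e+f} + R_e + R_f = R_{e-f} - R_e - R_f. In all four cases the R-part is >= -(R_e + R_f), so
 cosh s (R_e + R_f) + sinh s (R-part) >= (cosh s - sinh s)(R_e + R_f) >= 0 (sinh s >= 0). It remains to sum over b (weights nn >= 0) the inequality
alg_b: real numbers a e f-components ae af, v_k: ve k, vf k (k : Fin 4), S = sinh s >= 0, p = exp(-s) > 0, q = exp s, p q = 1, cosh s = S + p, 0 <= l <= 1; X = (v0 - v2)/2, X' = (v1 - v3)/2, j = Xe X'f - Xf X'e: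
 -4 p l j - 2 q S^2 (2 - l)(ae^2 + af^2) <= sum_k (S + p)(ve_k^2 + vf_k^2) + S ( C_0(a+v0) + C_1(a+v1) - C_0(a+v2) - C_1(a+v3) ), C_0(p) = pe^2 - pf^2, C_1(p) = 2 pe pf.
 Proof: C(a+v) = C(a) + 2 B(a,v) + C(v), C(v) >= -(ve^2+vf^2), the C(a) cancel, so rhs >= p sum |v_k|^2 + 2S (B_0(a, v0-v2) + B_1(a, v1-v3)) = p sum |v_k|^2 + 4S (ae N1 + af N2), N1 = Xe + X'f, N2 = X'e - Xf; |v0|^2 + |v2|^2 >= 2|X|^2, |v1|^2+|v3|^2 >= 2|X'|^2.
 N1^2 + N2^2 = |X|^2 + |X'|^2 + 2j and <= 2(|X|^2+|X'|^2).  With weight l: 2p(|X|^2+|X'|^2) + 4S a.N = 2p(N^2 - 2j) + 4S a.N >= -4pj - 2qS^2|a|^2 (2p N^2 + 4S a N + 2 q S^2 a^2 = 2p (N + q S a)^2 >= 0 because p q = 1).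
 With weight 1-l: 2p(..) + 4S a.N >= p N^2 + 4S a.N >= -4 q S^2 |a|^2 (p (N + 2 q S a)^2 >= 0). Add.
-/

namespace H50NA

open MeasureTheory Set Filter Topology
open H80HM (D U P f1 f2 pk rk)
open H98NX (ip e2)

variable {K : Type} [Field K] (F : VF K) {V : Type} [AddCommGroup V] [Module K V] [Module.Finite K V]

theorem alg_b {p q S l ae af : ℝ} {ve vf : Fin 4 → ℝ} (hp : 0 < p) (hpq : p * q = 1) (hS : 0 ≤ S)
    (hl : 0 ≤ l) (hl1 : l ≤ 1) :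
    -(4 * p * l * ((ve 0 - ve 2) / 2 * ((vf 1 - vf 3) / 2) - (vf 0 - vf 2) / 2 * ((ve 1 - ve 3) / 2))) -
        2 * q * S ^ 2 * (2 - l) * (ae ^ 2 + af ^ 2) ≤
      (∑ k, (S + p) * (ve k ^ 2 + vf k ^ 2)) +
        S * (((ae + ve 0) ^ 2 - (af + vf 0) ^ 2) + 2 * (ae + ve 1) * (af + vf 1) -
          ((ae + ve 2) ^ 2 - (af + vf 2) ^ 2) - 2 * (ae + ve 3) * (af + vf 3)) := by
  rw [Fin.sum_univ_four]
  generalize ve 0 = e0
  generalize ve 1 = e1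
  generalize ve 2 = e2
  generalize ve 3 = e3
  generalize vf 0 = g0
  generalize vf 1 = g1
  generalize vf 2 = g2
  generalize vf 3 = g3
  have h1 : 0 ≤ S * (2 * e0 ^ 2 + 2 * g2 ^ 2 + (e1 + g1) ^ 2 + (e3 - g3) ^ 2) := by positivity
  have h2 : 0 ≤ 2 * p * (((e0 + e2) / 2) ^ 2 + ((g0 + g2) / 2) ^ 2 + ((e1 + e3) / 2) ^ 2 +
      ((g1 + g3) / 2) ^ 2) := by positivity
  have h3 : 0 ≤ 2 * l * p * (((e0 - e2) / 2 + (g1 - g3) / 2 + q * S * ae) ^ 2 +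
      ((e1 - e3) / 2 - (g0 - g2) / 2 + q * S * af) ^ 2) := by positivity
  have h4 : 0 ≤ (1 - l) * p * (((e0 - e2) / 2 - (g1 - g3) / 2) ^ 2 +
      ((e1 - e3) / 2 + (g0 - g2) / 2) ^ 2 +
      ((e0 - e2) / 2 + (g1 - g3) / 2 + 2 * q * S * ae) ^ 2 +
      ((e1 - e3) / 2 - (g0 - g2) / 2 + 2 * q * S * af) ^ 2) := by
    have : 0 ≤ 1 - l := by linarith
    positivity
  rw [← sub_nonneg]
  have key := add_nonneg (add_nonneg h1 h2) (add_nonneg h3 h4)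
  refine le_of_le_of_eq key ?_
  have hq2 : p * q ^ 2 = q := by
    rw [pow_two, ← mul_assoc, hpq, one_mul]
  linear_combination (4 * S * (ae * ((e0 - e2) / 2 + (g1 - g3) / 2) +
    af * ((e1 - e3) / 2 - (g0 - g2) / 2))) * hpq +
    (2 * l * S ^ 2 * (ae ^ 2 + af ^ 2) + 4 * (1 - l) * S ^ 2 * (ae ^ 2 + af ^ 2)) * hq2

private theorem Pwa_key {N : ℕ} (n ae af : Fin N → ℝ) (ve vf : Fin N → Fin 4 → ℝ) {p q S l : ℝ}
    (hn : ∀ b, 0 ≤ n b) (hp : 0 < p) (hpq : p * q = 1) (hS : 0 ≤ S) (hl : 0 ≤ l) (hl1 : l ≤ 1) :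
    -(4 * p * (l * ∑ b, n b * ((ve b 0 - ve b 2) / 2 * ((vf b 1 - vf b 3) / 2) -
        (vf b 0 - vf b 2) / 2 * ((ve b 1 - ve b 3) / 2)))) -
        2 * q * S ^ 2 * (2 - l) * (∑ b, n b * ae b ^ 2 + ∑ b, n b * af b ^ 2) ≤
      (∑ k, (S + p) * ((∑ b, n b * ve b k ^ 2) + ∑ b, n b * vf b k ^ 2)) +
        S * (((∑ b, n b * (ae b + ve b 0) ^ 2) - ∑ b, n b * (af b + vf b 0) ^ 2) +
          ((∑ b, n b * ((ae b + ve b 1) + (af b + vf b 1)) ^ 2) -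
            (∑ b, n b * (ae b + ve b 1) ^ 2) - ∑ b, n b * (af b + vf b 1) ^ 2) -
          ((∑ b, n b * (ae b + ve b 2) ^ 2) - ∑ b, n b * (af b + vf b 2) ^ 2) +
          ((∑ b, n b * ((ae b + ve b 3) - (af b + vf b 3)) ^ 2) -
            (∑ b, n b * (ae b + ve b 3) ^ 2) - ∑ b, n b * (af b + vf b 3) ^ 2)) := by
  have h1 := Finset.sum_le_sum fun b (_ : b ∈ Finset.univ) =>
    mul_le_mul_of_nonneg_left (alg_b (ae := ae b) (af := af b) (ve := ve b) (vf := vf b) hp hpq hS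
      hl hl1) (hn b)
  refine le_of_eq_of_le ?_ (le_of_le_of_eq h1 ?_)
  · simp only [Finset.mul_sum, ← Finset.sum_add_distrib, ← Finset.sum_sub_distrib,
      ← Finset.sum_neg_distrib]
    exact Finset.sum_congr rfl fun b _ => by ring
  · simp only [Fin.sum_univ_four]
    simp only [Finset.mul_sum, ← Finset.sum_add_distrib, ← Finset.sum_sub_distrib]
    exact Finset.sum_congr rfl fun b _ => by ring

theorem pw2_c {u : ℝ × ℝ → Nm F V} {w : Fin 4 → ℝ × ℝ → Nm F V} {O : Set (ℝ × ℝ)} {N : ℕ}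
    {E : Fin N → Submodule K V} {T : Fin N → ℝ × ℝ → ℝ} (hc : Chart F u O E T) (hu : Lpo u O)
    (hw : ∀ k, Lpo (w k) O) (hs : ∀ k, ∀ y ∈ O, SpD E (w k y).1) (x : ℝ) {y : ℝ} (hy : 0 < y)
    {s : ℝ} (hs0 : 0 < s) : ∀ᵐ z ∂(volume : Measure (ℝ × ℝ)), z ∈ O → ∀ l : ℝ, 0 ≤ l → l ≤ 1 →
      -(4 * Real.exp (-s) * (l * Jc F E u w (f1 x y) (f2 x y) z)) -
          2 * Real.exp s * Real.sinh s ^ 2 * (2 - l) * e2 x y u z ≤
        ∑ k, (Real.cosh s * (Qc F E T u (w k) (f1 x y) z + Qc F E T u (w k) (f2 x y) z) +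
          Real.sinh s * cc k x y (w k) z) := by
  have hV : ∀ᵐ z ∂(volume : Measure (ℝ × ℝ)), ∀ k b, z ∈ O →
      DifferentiableAt ℝ (Vb F (E b) u (w k)) z :=
    ae_all_iff.2 fun k => ae_all_iff.2 fun b =>
      H98NX.lpo_diff volume hc.opn (s3_a F hc hu (hw k) b)
  have hR : ∀ t : ℝ × ℝ, ∀ᵐ z ∂(volume : Measure (ℝ × ℝ)), ∀ k, z ∈ O →
      0 ≤ sp (w k) t z ^ 2 -
        ∑ b, nn E b * (fderiv ℝ (T b) z t + fderiv ℝ (Vb F (E b) u (w k)) z t) ^ 2 :=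
    fun t => ae_all_iff.2 fun k => s3_c F hc hu (hw k) (hs k) t
  have hM : ∀ᵐ z ∂(volume : Measure (ℝ × ℝ)), ∀ k, z ∈ O → H98NX.MD (w k) z :=
    ae_all_iff.2 fun k => H98NX.md_ae volume (npcN F) hc.opn (hw k)
  filter_upwards [hV, hR (f1 x y), hR (f2 x y), hR (f1 x y + f2 x y), hR (f1 x y - f2 x y), hM]
    with z hz1 hze hzf hzs hzd hzM hz l hl0 hl1
  have hpar : ∀ k, sp (w k) (f1 x y + f2 x y) z ^ 2 + sp (w k) (f1 x y - f2 x y) z ^ 2 =
      2 * sp (w k) (f1 x y) z ^ 2 + 2 * sp (w k) (f2 x y) z ^ 2 := by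
    intro k
    obtain ⟨-, B, hB1, hB2⟩ := hzM k hz
    rw [hB2, hB2, hB2, hB2]
    simp only [map_add, map_sub, LinearMap.add_apply, LinearMap.sub_apply]
    ring
  have hX : ∀ b t, fderiv ℝ (Xb F (E b) u w) z t =
      (fderiv ℝ (Vb F (E b) u (w 0)) z t - fderiv ℝ (Vb F (E b) u (w 2)) z t) / 2 := by
    intro b t
    have h1 : HasFDerivAt (Xb F (E b) u w) ((2 : ℝ)⁻¹ • (fderiv ℝ (Vb F (E b) u (w 0)) z -
        fderiv ℝ (Vb F (E b) u (w 2)) z)) z := by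
      have h2 := ((hz1 0 b hz).hasFDerivAt.sub (hz1 2 b hz).hasFDerivAt).const_smul (2 : ℝ)⁻¹
      refine h2.congr_of_eventuallyEq (Filter.Eventually.of_forall fun y => ?_)
      simp only [Xb, Pi.smul_apply, Pi.sub_apply, smul_eq_mul]
      ring
    rw [h1.fderiv]
    simp only [ContinuousLinearMap.smul_apply, ContinuousLinearMap.sub_apply, smul_eq_mul]
    ring
  have hY : ∀ b t, fderiv ℝ (Yb F (E b) u w) z t =
      (fderiv ℝ (Vb F (E b) u (w 1)) z t - fderiv ℝ (Vb F (E b) u (w 3)) z t) / 2 := by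
    intro b t
    have h1 : HasFDerivAt (Yb F (E b) u w) ((2 : ℝ)⁻¹ • (fderiv ℝ (Vb F (E b) u (w 1)) z -
        fderiv ℝ (Vb F (E b) u (w 3)) z)) z := by
      have h2 := ((hz1 1 b hz).hasFDerivAt.sub (hz1 3 b hz).hasFDerivAt).const_smul (2 : ℝ)⁻¹
      refine h2.congr_of_eventuallyEq (Filter.Eventually.of_forall fun y => ?_)
      simp only [Yb, Pi.smul_apply, Pi.sub_apply, smul_eq_mul]
      ring
    rw [h1.fderiv]
    simp only [ContinuousLinearMap.smul_apply, ContinuousLinearMap.sub_apply, smul_eq_mul]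
    ring
  have hpq : Real.exp (-s) * Real.exp s = 1 := by
    rw [← Real.exp_add, neg_add_cancel, Real.exp_zero]
  have hS : 0 ≤ Real.sinh s := Real.sinh_nonneg_iff.2 hs0.le
  have hcosh : Real.cosh s = Real.sinh s + Real.exp (-s) := by
    rw [Real.cosh_eq, Real.sinh_eq]
    ring
  have hp : 0 < Real.exp (-s) := Real.exp_pos _
  have key := Pwa_key (fun b => nn E b) (fun b => fderiv ℝ (T b) z (f1 x y))
    (fun b => fderiv ℝ (T b) z (f2 x y)) (fun b k => fderiv ℝ (Vb F (E b) u (w k)) z (f1 x y))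
    (fun b k => fderiv ℝ (Vb F (E b) u (w k)) z (f2 x y)) (fun b => (nn_pos F hc b).le)
    hp hpq hS hl0 hl1
  have hs1 : ∀ b k, fderiv ℝ (T b) z (f1 x y + f2 x y) +
      fderiv ℝ (Vb F (E b) u (w k)) z (f1 x y + f2 x y) =
      (fderiv ℝ (T b) z (f1 x y) + fderiv ℝ (Vb F (E b) u (w k)) z (f1 x y)) +
      (fderiv ℝ (T b) z (f2 x y) + fderiv ℝ (Vb F (E b) u (w k)) z (f2 x y)) := by
    intro b k
    rw [map_add, map_add]
    ring
  have hd1 : ∀ b k, fderiv ℝ (T b) z (f1 x y - f2 x y) +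
      fderiv ℝ (Vb F (E b) u (w k)) z (f1 x y - f2 x y) =
      (fderiv ℝ (T b) z (f1 x y) + fderiv ℝ (Vb F (E b) u (w k)) z (f1 x y)) -
      (fderiv ℝ (T b) z (f2 x y) + fderiv ℝ (Vb F (E b) u (w k)) z (f2 x y)) := by
    intro b k
    rw [map_sub, map_sub]
    ring
  have q0e := hze 0 hz
  have q1e := hze 1 hz
  have q2e := hze 2 hz
  have q3e := hze 3 hz
  have q0f := hzf 0 hz
  have q1f := hzf 1 hz
  have q2f := hzf 2 hz
  have q3f := hzf 3 hz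
  have q1s := hzs 1 hz
  have q3d := hzd 3 hz
  have p3 := hpar 3
  simp only [hs1, hd1] at q1s q3d
  unfold Jc
  simp only [hX, hY]
  rw [show e2 x y u z = sp u (f1 x y) z ^ 2 + sp u (f2 x y) z ^ 2 from rfl, s3_b F hc hz,
    s3_b F hc hz]
  refine le_trans key ?_
  simp only [Fin.sum_univ_four, Qc, cc, pk, rk, hcosh, Matrix.cons_val_zero, Matrix.cons_val_one,
    Matrix.cons_val]
  generalize Real.sinh s = S at *
  generalize Real.exp (-s) = p at *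
  have r0 : 0 ≤ 2 * S * (sp (w 0) (f1 x y) z ^ 2 - ∑ b, nn E b * (fderiv ℝ (T b) z (f1 x y) +
      fderiv ℝ (Vb F (E b) u (w 0)) z (f1 x y)) ^ 2) := by positivity
  have r2 : 0 ≤ 2 * S * (sp (w 2) (f2 x y) z ^ 2 - ∑ b, nn E b * (fderiv ℝ (T b) z (f2 x y) +
      fderiv ℝ (Vb F (E b) u (w 2)) z (f2 x y)) ^ 2) := by positivity
  have r1 := mul_nonneg hS q1s
  have r3 := mul_nonneg hS q3d
  have t0 := mul_nonneg hp.le (add_nonneg q0e q0f)
  have t1 := mul_nonneg hp.le (add_nonneg q1e q1f)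
  have t2 := mul_nonneg hp.le (add_nonneg q2e q2f)
  have t3 := mul_nonneg hp.le (add_nonneg q3e q3f)
  have p3' : S * (sp (w 3) (f1 x y + f2 x y) z ^ 2 + sp (w 3) (f1 x y - f2 x y) z ^ 2) =
      S * (2 * sp (w 3) (f1 x y) z ^ 2 + 2 * sp (w 3) (f2 x y) z ^ 2) := by rw [p3]
  nlinarith [r0, r1, r2, r3, t0, t1, t2, t3, p3']

end H50NA
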