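import Pool.Agent.H50.NA.S3
import Pool.Agent.H80.NA.Sdf

set_option autoImplicit false

/-!
# Row Pwb: nonnegativity of Qc and the pointwise bound pw3 of om in a chart

qnn_c: Qc = sum nn (D_tV)^2 + R_t with R_t >= 0 (s3_c), nn >= 0.
pw3_c: at almost every z in O: s3_c for w 1, w 3 in direction t, and the functions Vb F (E b) u (w k) are differentiable at z (s3_a, H98NX.lpo_diff), so D_t Yb = (D_tV^1 - D_tV^3)/2.
 Cauchy-Schwarz with weights nn: (sum nn X_b D_tY_b)^2 <= (sum nn X_b^2)(sum nn (D_tY_b)^2) (Finset.sum_mul_sq_le_sq_mul_sq with sqrt nn X_b).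
 sum nn X_b^2: X_b = (V^0_b - V^2_b)/2. With P = sum nn (V^0)^2 <= dist (u z)(w 0 z)^2 = d0^2, Q = sum nn (V^2)^2 <= d2^2 (s3_e) and the cross term |sum nn V^0 V^2| <= sqrt(P Q) <= d0 d2: sum nn X_b^2 <= (d0 + d2)^2/4.
 sum nn (D_tY_b)^2 <= (1/2)(sum nn (D_tV^1)^2 + sum nn (D_tV^3)^2) <= (Qc(w 1) + Qc(w 3))/2.
-/

namespace H50NA

open MeasureTheory Set Filter Topology
open H80HM (D U P f1 f2 pk rk)
open H98NX (ip e2)

private theorem Pwb_cs {N : ℕ} {n X Y : Fin N → ℝ} (hn : ∀ b, 0 ≤ n b) :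
    (∑ b, n b * (X b * Y b)) ^ 2 ≤ (∑ b, n b * X b ^ 2) * (∑ b, n b * Y b ^ 2) := by
  have h := Finset.sum_mul_sq_le_sq_mul_sq Finset.univ (fun b => Real.sqrt (n b) * X b)
    (fun b => Real.sqrt (n b) * Y b)
  have e1 : ∀ b, Real.sqrt (n b) * X b * (Real.sqrt (n b) * Y b) = n b * (X b * Y b) := by
    intro b
    have := Real.mul_self_sqrt (hn b)
    calc Real.sqrt (n b) * X b * (Real.sqrt (n b) * Y b)
        = (Real.sqrt (n b) * Real.sqrt (n b)) * (X b * Y b) := by ring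
      _ = _ := by rw [this]
  have e2' : ∀ (Z : Fin N → ℝ) b, (Real.sqrt (n b) * Z b) ^ 2 = n b * Z b ^ 2 := by
    intro Z b
    rw [mul_pow, Real.sq_sqrt (hn b)]
  simp only [e1, e2'] at h
  exact h

private theorem Pwb_alg {N : ℕ} {n V0 V2 A1 A3 : Fin N → ℝ} (hn : ∀ b, 0 ≤ n b) {d0 d2 q1 q3 : ℝ}
    (hd0 : 0 ≤ d0) (hd2 : 0 ≤ d2) (h0 : ∑ b, n b * V0 b ^ 2 ≤ d0 ^ 2)
    (h2 : ∑ b, n b * V2 b ^ 2 ≤ d2 ^ 2) (h1 : ∑ b, n b * A1 b ^ 2 ≤ q1)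
    (h3 : ∑ b, n b * A3 b ^ 2 ≤ q3) :
    (∑ b, n b * ((V0 b - V2 b) / 2 * ((A1 b - A3 b) / 2))) ^ 2 ≤
      ((d0 + d2) / 2) ^ 2 * ((q1 + q3) / 2) := by
  have hcs := Pwb_cs (X := fun b => (V0 b - V2 b) / 2) (Y := fun b => (A1 b - A3 b) / 2) hn
  have hR := Pwb_cs (X := V0) (Y := V2) hn
  have hP0 : 0 ≤ ∑ b, n b * V0 b ^ 2 := Finset.sum_nonneg fun b _ => mul_nonneg (hn b) (sq_nonneg _)
  have hQ0 : 0 ≤ ∑ b, n b * V2 b ^ 2 := Finset.sum_nonneg fun b _ => mul_nonneg (hn b) (sq_nonneg _)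
  have hR2 : (∑ b, n b * (V0 b * V2 b)) ^ 2 ≤ (d0 * d2) ^ 2 := by
    refine hR.trans ?_
    rw [mul_pow]
    exact mul_le_mul h0 h2 hQ0 (sq_nonneg _)
  have hRa : -(d0 * d2) ≤ ∑ b, n b * (V0 b * V2 b) :=
    (abs_le.1 (abs_le_of_sq_le_sq hR2 (mul_nonneg hd0 hd2))).1
  have hX : ∑ b, n b * ((V0 b - V2 b) / 2) ^ 2 ≤ ((d0 + d2) / 2) ^ 2 := by
    have e : ∑ b, n b * ((V0 b - V2 b) / 2) ^ 2 =
        (∑ b, n b * V0 b ^ 2 - 2 * ∑ b, n b * (V0 b * V2 b) + ∑ b, n b * V2 b ^ 2) / 4 := by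
      rw [Finset.mul_sum, ← Finset.sum_sub_distrib, ← Finset.sum_add_distrib, Finset.sum_div]
      exact Finset.sum_congr rfl fun b _ => by ring
    rw [e]
    nlinarith
  have hY : ∑ b, n b * ((A1 b - A3 b) / 2) ^ 2 ≤ (q1 + q3) / 2 := by
    have e : ∑ b, n b * ((A1 b - A3 b) / 2) ^ 2 ≤
        (∑ b, n b * A1 b ^ 2 + ∑ b, n b * A3 b ^ 2) / 2 := by
      rw [← Finset.sum_add_distrib, Finset.sum_div]
      refine Finset.sum_le_sum fun b _ => ?_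
      have := mul_nonneg (hn b) (sq_nonneg (A1 b + A3 b))
      nlinarith
    linarith
  have hY0 : 0 ≤ ∑ b, n b * ((A1 b - A3 b) / 2) ^ 2 :=
    Finset.sum_nonneg fun b _ => mul_nonneg (hn b) (sq_nonneg _)
  exact hcs.trans (mul_le_mul hX hY hY0 (sq_nonneg _))

variable {K : Type} [Field K] (F : VF K) {V : Type} [AddCommGroup V] [Module K V] [Module.Finite K V]

theorem qnn_c {u w : ℝ × ℝ → Nm F V} {O : Set (ℝ × ℝ)} {N : ℕ}
    {E : Fin N → Submodule K V} {T : Fin N → ℝ × ℝ → ℝ} (hc : Chart F u O E T) (hu : Lpo u O)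
    (hw : Lpo w O) (hs : ∀ y ∈ O, SpD E (w y).1) (t : ℝ × ℝ) :
    ∀ᵐ z ∂(volume : Measure (ℝ × ℝ)), z ∈ O → 0 ≤ Qc F E T u w t z := by
  filter_upwards [s3_c F hc hu hw hs t] with z hz hzO
  have h1 := hz hzO
  have h2 : 0 ≤ ∑ b, nn E b * (fderiv ℝ (Vb F (E b) u w) z t) ^ 2 :=
    Finset.sum_nonneg fun b _ => mul_nonneg (nn_pos F hc b).le (sq_nonneg _)
  unfold Qc
  linarith

theorem pw3_c {u : ℝ × ℝ → Nm F V} {w : Fin 4 → ℝ × ℝ → Nm F V} {O : Set (ℝ × ℝ)} {N : ℕ}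
    {E : Fin N → Submodule K V} {T : Fin N → ℝ × ℝ → ℝ} (hc : Chart F u O E T) (hu : Lpo u O)
    (hw : ∀ k, Lpo (w k) O) (hs : ∀ k, ∀ y ∈ O, SpD E (w k y).1) (t : ℝ × ℝ) :
    ∀ᵐ z ∂(volume : Measure (ℝ × ℝ)), z ∈ O →
      Oc F E u w t z ^ 2 ≤ ((dist (u z) (w 0 z) + dist (u z) (w 2 z)) / 2) ^ 2 *
        ((Qc F E T u (w 1) t z + Qc F E T u (w 3) t z) / 2) := by
  have hV : ∀ k, ∀ᵐ z ∂(volume : Measure (ℝ × ℝ)), ∀ b, z ∈ O →
      DifferentiableAt ℝ (Vb F (E b) u (w k)) z :=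
    fun k => ae_all_iff.2 fun b => H98NX.lpo_diff volume hc.opn (s3_a F hc hu (hw k) b)
  filter_upwards [s3_c F hc hu (hw 1) (hs 1) t, s3_c F hc hu (hw 3) (hs 3) t, hV 1, hV 3]
    with z h1 h3 d1 d3 hz
  have hn : ∀ b, 0 ≤ nn E b := fun b => (nn_pos F hc b).le
  have hY : ∀ b, fderiv ℝ (Yb F (E b) u w) z t =
      (fderiv ℝ (Vb F (E b) u (w 1)) z t - fderiv ℝ (Vb F (E b) u (w 3)) z t) / 2 := by
    intro b
    have e0 : HasFDerivAt (Yb F (E b) u w) ((1 / 2 : ℝ) •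
        (fderiv ℝ (Vb F (E b) u (w 1)) z - fderiv ℝ (Vb F (E b) u (w 3)) z)) z := by
      have := ((d1 b hz).hasFDerivAt.sub (d3 b hz).hasFDerivAt).const_smul (1 / 2 : ℝ)
      refine this.congr_of_eventuallyEq (Filter.Eventually.of_forall fun y => ?_)
      simp only [Yb, Pi.smul_apply, Pi.sub_apply, smul_eq_mul]
      ring
    rw [e0.fderiv]
    simp only [smul_apply, sub_apply, smul_eq_mul]
    ring
  have hQ1 : ∑ b, nn E b * (fderiv ℝ (Vb F (E b) u (w 1)) z t) ^ 2 ≤ Qc F E T u (w 1) t z := by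
    have := h1 hz
    unfold Qc
    linarith
  have hQ3 : ∑ b, nn E b * (fderiv ℝ (Vb F (E b) u (w 3)) z t) ^ 2 ≤ Qc F E T u (w 3) t z := by
    have := h3 hz
    unfold Qc
    linarith
  have key := Pwb_alg hn (dist_nonneg (x := u z) (y := w 0 z)) (dist_nonneg (x := u z) (y := w 2 z))
    (s3_e F hc (hs 0) hz) (s3_e F hc (hs 2) hz) hQ1 hQ3
  have e : Oc F E u w t z = ∑ b, nn E b * ((Vb F (E b) u (w 0) z - Vb F (E b) u (w 2) z) / 2 *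
      ((fderiv ℝ (Vb F (E b) u (w 1)) z t - fderiv ℝ (Vb F (E b) u (w 3)) z t) / 2)) := by
    unfold Oc
    refine Finset.sum_congr rfl fun b _ => ?_
    rw [hY b]
    rfl
  rw [e]
  exact key

end H50NA
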