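import Pool.Agent.H80.NA.S5
import Pool.Agent.H80.NA.Pwa
import Pool.Agent.H80.NA.Pwb
import Pool.Agent.H98.NX.Xa

set_option autoImplicit false

/-!
# part1: the geometric output PW of block S (assembly)
-/

namespace H50NA

open MeasureTheory Set Filter Topology
open H80HM (D U P f1 f2 pk rk)
open H98NX (ip e2)
open scoped NNReal

variable {K : Type} [Field K] (F : VF K) {V : Type} [AddCommGroup V] [Module K V] [Module.Finite K V]

theorem Prt_gd {r : ℝ} : U \ Zr r ⊆ Gd r := by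
  rintro z ⟨h1, h2⟩
  have h3 := H98NX.u_sub_D h1
  exact ⟨h3.1, fun h => h.elim (fun h => h3.2 h) (fun h => h2 h)⟩

theorem Prt_mono {X : Type} [MetricSpace X] {f : ℝ × ℝ → X} {S S' : Set (ℝ × ℝ)} (h : Lpo f S)
    (hs : S' ⊆ S) : Lpo f S' := fun C hC hc => h C (hC.trans hs) hc

theorem part1 {a b c : V ≃ₗ[K] V} {r : ℝ} {o : Nm F V} {x y : ℝ} (hr : 0 < r) (hr8 : r < 1 / 8)
    (hy : 0 < y) {u : ℝ × ℝ → Nm F V} (hu : Lim (act F a) (act F b) (act F c) r o x y u)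
    {S : Set (ℝ × ℝ)} (hS : IsCompact S) (hSG : S ⊆ Gd r)
    (hch : ∀ z ∈ S, ∀ sg, z ∈ Ws sg → HasChart F (ext (act F a) (act F b) (act F c) sg u) z)
    {l : ℝ × ℝ → ℝ} (hl : ∃ K : ℝ≥0, LipschitzWith K l) (hb : ∀ z, 0 ≤ l z ∧ l z ≤ 1) (hsy : Sy l)
    (hoff : ∀ z ∈ D, z ∉ S → l z = 0) :
    ∃ s1 : ℝ, 0 < s1 ∧ ∀ s : ℝ, 0 < s → s ≤ s1 → ∀ w : Fin 4 → ℝ × ℝ → Nm F V,
      (∀ k, Lim (act F a) (act F b) (act F c) r o (tx x y s k) (ty y s k) (w k)) →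
      ∃ (Q : Fin 4 → ℝ × ℝ → ℝ × ℝ → ℝ) (J : ℝ × ℝ → ℝ) (om : ℝ × ℝ → ℝ × ℝ → ℝ),
        PW (gmN F) l S x y s u w Q J om := by
  obtain ⟨s1, hs1, h5⟩ := s5 F hr hr8 hy hu hS hSG hch hl hb hsy hoff
  refine ⟨s1, hs1, fun s hs hss w hw => ?_⟩
  obtain ⟨M, O, N, E, T, Q, J, om, hc, hO, hcov, hsp, hcon, hQi, hJi, h4⟩ := h5 s hs hss w hw
  have hOG : ∀ i, O i ⊆ Gd r := fun i => (hO i).trans Prt_gd
  have hul : ∀ i, Lpo u (O i) := fun i => Prt_mono hu.lip (hOG i)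
  have hwl : ∀ i k, Lpo (w k) (O i) := fun i k => Prt_mono (hw k).lip (hOG i)
  refine ⟨Q, J, om, ?_⟩
  refine ⟨fun k t _ => hQi k t, fun k t _ => ?_, fun k t _ h h0 h1 => ?_, ?_, fun t _ => ?_, hJi, h4⟩
  · have h := ae_all_iff.2 fun i => qnn_c F (hc i) (hul i) (hwl i k) (hsp i k) t
    filter_upwards [h] with z hz hzS
    obtain ⟨i, hi⟩ := hcov z hzS
    rw [(hcon i z hi).1 k t]
    exact hz i hi
  · have h' := ae_all_iff.2 fun i => s3_d F (hc i) (hul i) (hwl i k) (hsp i k) t h0 h1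
    filter_upwards [h'] with z hz hzS
    obtain ⟨i, hi⟩ := hcov z hzS
    rw [(hcon i z hi).1 k t]
    exact hz i hi
  · have h' := ae_all_iff.2 fun i => pw2_c F (hc i) (hul i) (hwl i) (hsp i) x hy hs
    filter_upwards [h'] with z hz hzS
    obtain ⟨i, hi⟩ := hcov z hzS
    have h2 := hz i hi (l z) (hb z).1 (hb z).2
    rw [(hcon i z hi).2.1]
    refine h2.trans (le_of_eq ?_)
    refine Finset.sum_congr rfl fun k _ => ?_
    rw [(hcon i z hi).1 k, (hcon i z hi).1 k]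
  · have h' := ae_all_iff.2 fun i => pw3_c F (hc i) (hul i) (hwl i) (hsp i) t
    filter_upwards [h'] with z hz hzS
    obtain ⟨i, hi⟩ := hcov z hzS
    rw [(hcon i z hi).2.2 t, (hcon i z hi).1 1 t, (hcon i z hi).1 3 t]
    exact hz i hi

end H50NA
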