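import Pool.Agent.H80.NA.Mvx
import Pool.Agent.H80.HM.Prg

set_option autoImplicit false

/-!
# Row Prv: the five pairs, for nu

Copy of Pool/Agent/H80/HM/Prs.lean (landed, complete; its lemmas are private, so copy them) with Mo replaced by Mv nu, Mp5 by Mp5v nu, pair_mo (file Prg.lean, theorem pair_mo; the lemmas
Prg_conj, Prg_mem, Prg_ta, Prg_form of that file can be imported) replaced by its version for Mv nu (copy its proof, mo_pow replaced by mv_pow hn).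
-/

namespace H80NA

open H80HM Matrix

private theorem Prv_map {G H : Type} [Group G] [Group H] (pi : G →* H) {v w g : G} {a b : H}
    (hv : pi v = a) (hw : pi w = b)
    (hg : g ∈ Subgroup.closure ({v, w} : Set G)) : pi g ∈ Subgroup.closure ({a, b} : Set H) := by
  have h1 : pi g ∈ (Subgroup.closure ({v, w} : Set G)).map pi := Subgroup.mem_map_of_mem pi hg
  rw [MonoidHom.map_closure, Set.image_pair, hv, hw] at h1
  exact h1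

private theorem Prv_succ {k e : ℕ} {j : ℕ} (hj : j < k) :
    Pj k e (j + 1) = Pj k e j * Xb ⟨j, hj⟩ := by
  unfold Pj
  rw [List.prod_take_succ _ _ (by rw [List.length_ofFn]; exact hj)]
  simp

private theorem Prv_zero {k e : ℕ} : Pj k e 0 = 1 := by
  unfold Pj
  simp

private theorem Prv_sgP {k e : ℕ} (hk : 0 < k) {sg : FG k e ≃* FG k e}
    (hX : ∀ j : Fin k, (sg ^ (j : ℕ)) (Xb ⟨0, hk⟩) = Xb j) (j : ℕ) (hj : j + 1 ≤ k) :
    Xb ⟨0, hk⟩ * sg (Pj k e j) = Pj k e (j + 1) := by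
  induction j with
  | zero =>
    rw [Prv_zero, map_one, mul_one, Prv_succ hk, Prv_zero, one_mul]
  | succ j ih =>
    have hj1 : j < k := by omega
    have hj2 : j + 1 < k := by omega
    have h1 : sg (Xb ⟨j, hj1⟩) = Xb ⟨j + 1, hj2⟩ := by
      rw [← hX ⟨j, hj1⟩, ← hX ⟨j + 1, hj2⟩]
      change sg ((sg ^ j) _) = (sg ^ (j + 1)) _
      rw [pow_succ', MulAut.mul_apply]
    rw [Prv_succ hj1, map_mul, ← mul_assoc, ih (by omega), h1, Prv_succ hj2]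

private theorem Prv_inv {k e : ℕ} (hk : 0 < k) {sg : FG k e ≃* FG k e} (hst : sg (tt k e) = tt k e)
    (hsk : ∀ u, (sg ^ k) u = (tt k e)⁻¹ * u * tt k e) (Z : Fin k → FG k e)
    (hZ : ∀ j : Fin k, (sg ^ (j : ℕ)) (Z ⟨0, hk⟩) = Z j)
    (L : Subgroup (FG k e)) (ht : tt k e ∈ L) (hL : ∀ j, Z j ∈ L) (j : ℕ) (hj : j < k) :
    ((sg⁻¹ : MulAut (FG k e)) ^ j) (Z ⟨0, hk⟩) ∈ L := by
  have hstn : ∀ n : ℕ, (sg ^ n) (tt k e) = tt k e := by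
    intro n
    induction n with
    | zero => rfl
    | succ n ih => rw [pow_succ', MulAut.mul_apply, ih, hst]
  rcases Nat.eq_zero_or_pos j with rfl | hj0
  · rw [pow_zero]
    exact hL _
  · have h1 : ((sg⁻¹ : MulAut (FG k e)) ^ j) (Z ⟨0, hk⟩) =
        tt k e * Z ⟨k - j, by omega⟩ * (tt k e)⁻¹ := by
      have h2 : (sg ^ j) (tt k e * Z ⟨k - j, by omega⟩ * (tt k e)⁻¹) = Z ⟨0, hk⟩ := by
        rw [map_mul, map_mul, map_inv, hstn, ← hZ ⟨k - j, by omega⟩]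
        change tt k e * (sg ^ j) ((sg ^ (k - j)) _) * (tt k e)⁻¹ = _
        rw [← MulAut.mul_apply, ← pow_add, show j + (k - j) = k by omega, hsk]
        group
      have h3 : ((sg⁻¹ : MulAut (FG k e)) ^ j) ((sg ^ j)
          (tt k e * Z ⟨k - j, by omega⟩ * (tt k e)⁻¹)) =
          tt k e * Z ⟨k - j, by omega⟩ * (tt k e)⁻¹ := by
        rw [inv_pow]
        exact MulAut.inv_apply_self _ (sg ^ j) _
      rw [h2] at h3
      exact h3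
    rw [h1]
    exact L.mul_mem (L.mul_mem ht (hL _)) (L.inv_mem ht)

private theorem Prv_pair {nu : ℂ → ℝ} (hn : Mf nu) {F : Type} [Group F] {D' k : ℕ} (hk : 0 < k)
    (BD : F →* (Mt D')ˣ)
    (ep : (Mt D')ˣ) (ta : F ≃* F) (E v : F) (he : ∀ u, ep * BD u * ep⁻¹ = BD (ta u))
    (hek : ep ^ k = BD E) (htk : ∀ u, (ta ^ k) u = E * u * E⁻¹) (L : Subgroup F)
    (hE : E ∈ L) (hv : ∀ j : ℕ, j < k → (ta ^ j) v ∈ L)
    (hMo : ∀ l ∈ L, Mv nu ((BD l : (Mt D')ˣ) : Mt D')) :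
    ∀ g ∈ Subgroup.closure ({BD v, ep} : Set (Mt D')ˣ), Mv nu ((g : (Mt D')ˣ) : Mt D') := by
  intro g hg
  obtain ⟨l, hl, i, rfl⟩ := Prg_form BD ep ta he v hg
  obtain ⟨l', hl', h⟩ := Prg_pow BD ep ta he v hl i k
  have hle : Subgroup.closure {y : F | ∃ j : ℤ, y = (ta ^ j) v} ≤ L := by
    rw [Subgroup.closure_le]
    rintro y ⟨j, rfl⟩
    exact Prg_mem hk ta E v htk L hE hv j
  have e : (ep ^ i) ^ k = BD (E ^ i) := by
    rw [← _root_.zpow_natCast, ← _root_.zpow_mul, mul_comm, _root_.zpow_mul, _root_.zpow_natCast, hek, map_zpow]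
  rw [e, ← map_mul] at h
  rw [← mv_pow hn hk, h]
  exact hMo _ (L.mul_mem (hle hl') (L.zpow_mem hE i))

theorem prs_v {nu : ℂ → ℝ} (hn : Mf nu) {k e D' : ℕ} (hk : 0 < k) {sg : FG k e ≃* FG k e}
    (hst : sg (tt k e) = tt k e)
    (hsk : ∀ u, (sg ^ k) u = (tt k e)⁻¹ * u * tt k e)
    (hX : ∀ j : Fin k, (sg ^ (j : ℕ)) (Xb ⟨0, hk⟩) = Xb j)
    (hY : ∀ j : Fin k, (sg ^ (j : ℕ)) (Yb ⟨0, hk⟩) = Yb j)
    (BD : FG k e →* (Mt D')ˣ) (SH : (Mt D')ˣ) (h1 : ∀ u, SH⁻¹ * BD u * SH = BD (sg u))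
    (h2 : SH ^ k = BD (tt k e))
    (m1 : ∀ l ∈ L1 k e, Mv nu ((BD l : (Mt D')ˣ) : Mt D'))
    (m2 : ∀ l ∈ L2 k e, Mv nu ((BD l : (Mt D')ˣ) : Mt D'))
    (m3 : ∀ l ∈ L3 e hk, Mv nu ((BD l : (Mt D')ˣ) : Mt D'))
    (m4 : ∀ l ∈ L4 k e, Mv nu ((BD l : (Mt D')ˣ) : Mt D'))
    (m5 : ∀ l ∈ L5 k e, Mv nu ((BD l : (Mt D')ˣ) : Mt D')) :
    Mp5v nu (pi3 (BD (Xb ⟨0, hk⟩)) (BD (Yb ⟨0, hk⟩)) SH) := by
  obtain ⟨X, hXd⟩ : ∃ X : FG k e, X = Xb ⟨0, hk⟩ := ⟨_, rfl⟩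
  obtain ⟨Y, hYd⟩ : ∃ Y : FG k e, Y = Yb ⟨0, hk⟩ := ⟨_, rfl⟩
  have px : pi3 (BD (Xb ⟨0, hk⟩)) (BD (Yb ⟨0, hk⟩)) SH xx = BD (Xb ⟨0, hk⟩) := by
    simp [pi3, xx]
  have py : pi3 (BD (Xb ⟨0, hk⟩)) (BD (Yb ⟨0, hk⟩)) SH yy = BD (Yb ⟨0, hk⟩) := by
    simp [pi3, yy]
  have pq : pi3 (BD (Xb ⟨0, hk⟩)) (BD (Yb ⟨0, hk⟩)) SH pp = SH := by
    simp [pi3, pp]
  -- conjugation by `SH`
  have he1 : ∀ u, SH * BD u * SH⁻¹ = BD ((sg⁻¹ : MulAut (FG k e)) u) := by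
    intro u
    have h := h1 ((sg⁻¹ : MulAut (FG k e)) u)
    have h' : sg ((sg⁻¹ : MulAut (FG k e)) u) = u := MulAut.apply_inv_self _ sg u
    rw [h'] at h
    rw [← h]
    group
  have htk1 : ∀ u, ((sg⁻¹ : MulAut (FG k e)) ^ k) u = tt k e * u * (tt k e)⁻¹ := by
    intro u
    have hc : (sg ^ k : MulAut (FG k e)) = MulAut.conj (tt k e)⁻¹ := MulEquiv.ext fun u => by
      rw [hsk, MulAut.conj_apply, inv_inv]
    rw [inv_pow, hc, ← map_inv, inv_inv, MulAut.conj_apply]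
  have t1 : tt k e ∈ L1 k e := Subgroup.subset_closure (Or.inl rfl)
  have t2 : tt k e ∈ L2 k e := Subgroup.subset_closure (Or.inl rfl)
  -- the twisted shift
  obtain ⟨ta, hta⟩ : ∃ ta : FG k e ≃* FG k e, ta = (MulAut.conj (Xb ⟨0, hk⟩) * sg : MulAut (FG k e)) :=
    ⟨_, rfl⟩
  have hta1 : ∀ u, ta u = Xb ⟨0, hk⟩ * sg u * (Xb ⟨0, hk⟩)⁻¹ := fun u => by
    rw [hta, MulAut.mul_apply, MulAut.conj_apply]
  have htaj : ∀ j : ℕ, j ≤ k → ∀ u, (ta ^ j) u = Pj k e j * (sg ^ j) u * (Pj k e j)⁻¹ := by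
    intro j
    induction j with
    | zero =>
      intro _ u
      rw [Prv_zero, pow_zero, pow_zero]
      simp
    | succ j ih =>
      intro hj u
      rw [pow_succ', MulAut.mul_apply, ih (by omega), hta1, map_mul, map_mul, map_inv,
        ← Prv_sgP hk hX j hj, pow_succ', MulAut.mul_apply]
      group
  have hep : ∀ u, BD (Xb ⟨0, hk⟩) * SH⁻¹ * BD u * (BD (Xb ⟨0, hk⟩) * SH⁻¹)⁻¹ = BD (ta u) := by
    intro u
    rw [hta1, map_mul, map_mul, map_inv, ← h1]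
    group
  have hpj : ∀ j : ℕ, j ≤ k → (BD (Xb ⟨0, hk⟩) * SH⁻¹) ^ j = BD (Pj k e j) * SH⁻¹ ^ j := by
    intro j
    induction j with
    | zero =>
      intro _
      rw [Prv_zero, pow_zero, pow_zero, map_one, mul_one]
    | succ j ih =>
      intro hj
      rw [pow_succ', ih (by omega), ← Prv_sgP hk hX j hj, map_mul, ← h1, pow_succ' SH⁻¹]
      group
  have hek2 : (BD (Xb ⟨0, hk⟩) * SH⁻¹) ^ k = BD (Pj k e k * (tt k e)⁻¹) := by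
    rw [hpj k le_rfl, inv_pow, h2, map_mul, map_inv]
  have htk2 : ∀ u, (ta ^ k) u = Pj k e k * (tt k e)⁻¹ * u * (Pj k e k * (tt k e)⁻¹)⁻¹ := by
    intro u
    rw [htaj k le_rfl, hsk]
    group
  have e4 : Pj k e k * (tt k e)⁻¹ ∈ L4 k e := Subgroup.subset_closure (Or.inl rfl)
  have e5 : Pj k e k * (tt k e)⁻¹ ∈ L5 k e := Subgroup.subset_closure (Or.inl rfl)
  have hv4 : ∀ j : ℕ, j < k → (ta ^ j) (Yb ⟨0, hk⟩) ∈ L4 k e := by
    intro j hj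
    rw [htaj j hj.le]
    have h := hY ⟨j, hj⟩
    simp only at h
    rw [h]
    exact Subgroup.subset_closure (Or.inr ⟨⟨j, hj⟩, rfl⟩)
  have hv5 : ∀ j : ℕ, j < k → (ta ^ j) (Yb ⟨0, hk⟩ * (Xb ⟨0, hk⟩)⁻¹) ∈ L5 k e := by
    intro j hj
    rw [htaj j hj.le]
    have h := hY ⟨j, hj⟩
    have h' := hX ⟨j, hj⟩
    simp only at h h'
    rw [map_mul, map_inv, h, h']
    exact Subgroup.subset_closure (Or.inr ⟨⟨j, hj⟩, rfl⟩)
  refine ⟨?_, ?_, ?_, ?_, ?_⟩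
  · intro g hg
    refine Prv_pair hn hk BD SH (sg⁻¹ : MulAut (FG k e)) (tt k e) (Yb ⟨0, hk⟩) he1 h2 htk1 (L1 k e) t1
      (Prv_inv hk hst hsk Yb hY (L1 k e) t1 fun j => Subgroup.subset_closure (Or.inr ⟨j, rfl⟩))
      m1 _ (Prv_map _ py pq hg)
  · intro g hg
    have h := Prv_map _ px py hg
    have h' : pi3 (BD (Xb ⟨0, hk⟩)) (BD (Yb ⟨0, hk⟩)) SH g ∈ (L3 e hk).map BD := by
      unfold L3
      rw [MonoidHom.map_closure, Set.image_pair]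
      exact h
    obtain ⟨l, hl, hlg⟩ := h'
    rw [← hlg]
    exact m3 l hl
  · intro g hg
    refine Prv_pair hn hk BD SH (sg⁻¹ : MulAut (FG k e)) (tt k e) (Xb ⟨0, hk⟩) he1 h2 htk1 (L2 k e) t2
      (Prv_inv hk hst hsk Xb hX (L2 k e) t2 fun j => Subgroup.subset_closure (Or.inr ⟨j, rfl⟩))
      m2 _ (Prv_map _ px pq hg)
  · intro g hg
    refine Prv_pair hn hk BD (BD (Xb ⟨0, hk⟩) * SH⁻¹) ta (Pj k e k * (tt k e)⁻¹)
      (Yb ⟨0, hk⟩ * (Xb ⟨0, hk⟩)⁻¹) hep hek2 htk2 (L5 k e) e5 hv5 m5 _ ?_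
    have h := Prv_map (pi3 (BD (Xb ⟨0, hk⟩)) (BD (Yb ⟨0, hk⟩)) SH) (v := yy * pp⁻¹)
      (w := xx * pp⁻¹) (a := BD (Yb ⟨0, hk⟩) * SH⁻¹) (b := BD (Xb ⟨0, hk⟩) * SH⁻¹)
      (by rw [map_mul, map_inv, py, pq]) (by rw [map_mul, map_inv, px, pq]) hg
    refine (Subgroup.closure_le _).2 ?_ h
    rintro z (rfl | rfl)
    · have e : BD (Yb ⟨0, hk⟩) * SH⁻¹ =
          BD (Yb ⟨0, hk⟩ * (Xb ⟨0, hk⟩)⁻¹) * (BD (Xb ⟨0, hk⟩) * SH⁻¹) := by
        rw [map_mul, map_inv]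
        group
      rw [e]
      exact Subgroup.mul_mem _ (Subgroup.subset_closure (Or.inl rfl))
        (Subgroup.subset_closure (Or.inr rfl))
    · exact Subgroup.subset_closure (Or.inr rfl)
  · intro g hg
    refine Prv_pair hn hk BD (BD (Xb ⟨0, hk⟩) * SH⁻¹) ta (Pj k e k * (tt k e)⁻¹)
      (Yb ⟨0, hk⟩) hep hek2 htk2 (L4 k e) e4 hv4 m4 _ ?_
    exact Prv_map (pi3 (BD (Xb ⟨0, hk⟩)) (BD (Yb ⟨0, hk⟩)) SH) py
      (by rw [map_mul, map_inv, px, pq]) hg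

end H80NA
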