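import Pool.Agent.H80.NA.Sdf
import Pool.Agent.H46.SB.Sx
import Pool.Agent.H98.NX.Xq
import Pool.Agent.H98.NX.Xr
import Pool.Agent.H98.NX.Xs

set_option autoImplicit false

/-!
# MP_b319aa_NA: interface of blocks X and S (statements used in block S; proofs by helper98, helper46)
-/

namespace H50NA

open MeasureTheory Set Filter Topology
open H80HM (D U P f1 f2 pk rk)
open H98NX (ip e2)
open H46SB (gr)
open scoped NNReal

variable {X : Type} [MetricSpace X] {gm : X → X → ℝ → X} {A B C : X ≃ᵢ X}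

/-- cutoff functions: l is symmetric, Lipschitz, supported in D by the compact set S, close to 1 in the sense of the energy m,
and of small capacity e -/
structure CutL (r e : ℝ) (m : ℝ × ℝ → ℝ) (l : ℝ × ℝ → ℝ) (S : Set (ℝ × ℝ)) : Prop where
  lip : ∃ K : ℝ≥0, LipschitzWith K l
  bd : ∀ z, 0 ≤ l z ∧ l z ≤ 1
  sy : Sy l
  cpt : IsCompact S
  sub : S ⊆ Gd r
  off : ∀ z ∈ D, z ∉ S → l z = 0
  en : ∫ z in (U \ Zr r) ∩ {z | l z ≠ 1}, m z ≤ e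
  cap : ∀ q : ℝ × ℝ → ℝ, Lpo q (D \ P) → (∀ z ∈ Zr r, q z = 0) → IntegrableOn (fun z => q z ^ 2) U →
    IntegrableOn (gr q) U → IntegrableOn (fun z => gr l z * q z ^ 2) U ∧
      ∫ z in U, gr l z * q z ^ 2 ≤ e * ∫ z in U, (q z ^ 2 + gr q z)

/-- S6: cutoff functions. Z is the set of points of Gd r without chart -/
theorem s6_cut {r : ℝ} (hr : 0 < r) (hr8 : r < 1 / 8) {Z : Set (ℝ × ℝ)} (hZ : Z ⊆ Gd r)
    (hfin : ∀ S ⊆ Gd r, IsCompact S → (Z ∩ S).Finite)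
    (hC : ∀ v ∈ Ioo (0:ℝ) (1/2), (0, v) ∈ Z ↔ (1, v) ∈ Z)
    (hA : ∀ u ∈ Ioo (0:ℝ) 1, (u, 0) ∈ Z ↔ (1 - u, 0) ∈ Z)
    (hB : ∀ u ∈ Ioo (0:ℝ) 1, (u, 1/2) ∈ Z ↔ (1 - u, 1/2) ∈ Z)
    {m : ℝ × ℝ → ℝ} (hm : IntegrableOn m (U \ Zr r)) (hm0 : ∀ z, 0 ≤ m z) {e : ℝ} (he : 0 < e) :
    ∃ (l : ℝ × ℝ → ℝ) (S : Set (ℝ × ℝ)), CutL r e m l S ∧ ∀ z ∈ S, z ∉ Z := by
  obtain ⟨l, S, h1, h2, h3, h4, h5, h6, h7, h8⟩ := H46SB.s6_cut hr hr8 hZ hfin hC hA hB hm hm0 he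
  exact ⟨l, S, ⟨h1, h2, h3, h4, fun z hz => (h5 hz).1, h6, h7, h8⟩, fun z hz => (h5 hz).2⟩

/-- X6: no loss of energy -/
theorem lim_en (hX : Npc X gm) {r : ℝ} {o : X} {x y : ℝ} (hr : 0 < r) (hr8 : r < 1 / 8) (hy : 0 < y)
    {u : ℝ × ℝ → X} (hu : Lim A B C r o x y u) :
    IntegrableOn (e2 x y u) (U \ Zr r) ∧ ∫ z in U \ Zr r, e2 x y u z = E0 A B C r o x y :=
  H98NX.lim_energy hX hr (hr8.trans (by norm_num)) hy hu

/-- X4: existence of limits -/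
theorem lim_ex [CompleteSpace X] (hX : Npc X gm) {r : ℝ} {o : X} {x y : ℝ} (hr : 0 < r) (hr8 : r < 1 / 8)
    (hy : 0 < y) (h : ∃ f, Cl0 A B C r o f) : ∃ u, Lim A B C r o x y u :=
  H98NX.lim_ex hX hr (hr8.trans (by norm_num)) hy h

/-- X5, X6: limits are local minimisers, also across the seams -/
theorem lim_lm (hX : Npc X gm) {r : ℝ} {o : X} {x y : ℝ} (_hr : 0 < r) (hr8 : r < 1 / 8) (hy : 0 < y)
    {u : ℝ × ℝ → X} (hu : Lim A B C r o x y u) (s : Fin 7) :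
    LM (fun z => ext A B C s u (Lt x y z)) ((Lt x y) ⁻¹' Wg r s) :=
  H98NX.lim_lm hX (hr8.trans (by norm_num)) hy hu s

end H50NA
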