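import Pool.Agent.H50.NA.S3
import Pool.Agent.H80.NA.Si

set_option autoImplicit false

/-!
# MP_b319aa_NA, S5: the global functions Q, J, om and Stokes (target; design in H80_NA_S5.md; PI helper46)
-/

namespace H50NA

open MeasureTheory Set Filter Topology
open H80HM (D U P f1 f2 pk rk)
open H98NX (ip e2)
open scoped NNReal

variable {K : Type} [Field K] (F : VF K) {V : Type} [AddCommGroup V] [Module K V] [Module.Finite K V]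

theorem s5 {a b c : V ≃ₗ[K] V} {r : ℝ} {o : Nm F V} {x y : ℝ} (hr : 0 < r) (hr8 : r < 1 / 8) (hy : 0 < y)
    {u : ℝ × ℝ → Nm F V} (hu : Lim (act F a) (act F b) (act F c) r o x y u) {S : Set (ℝ × ℝ)}
    (hS : IsCompact S) (hSG : S ⊆ Gd r)
    (hch : ∀ z ∈ S, ∀ sg, z ∈ Ws sg → HasChart F (ext (act F a) (act F b) (act F c) sg u) z)
    {l : ℝ × ℝ → ℝ} (hl : ∃ K : ℝ≥0, LipschitzWith K l) (hb : ∀ z, 0 ≤ l z ∧ l z ≤ 1) (hsy : Sy l)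
    (hoff : ∀ z ∈ D, z ∉ S → l z = 0) :
    ∃ s1 : ℝ, 0 < s1 ∧ ∀ s : ℝ, 0 < s → s ≤ s1 → ∀ w : Fin 4 → ℝ × ℝ → Nm F V,
      (∀ k, Lim (act F a) (act F b) (act F c) r o (tx x y s k) (ty y s k) (w k)) →
      ∃ (M : ℕ) (O : Fin M → Set (ℝ × ℝ)) (N : Fin M → ℕ) (E : (i : Fin M) → Fin (N i) → Submodule K V)
        (T : (i : Fin M) → Fin (N i) → ℝ × ℝ → ℝ) (Q : Fin 4 → ℝ × ℝ → ℝ × ℝ → ℝ) (J : ℝ × ℝ → ℝ)
        (om : ℝ × ℝ → ℝ × ℝ → ℝ),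
        (∀ i, Chart F u (O i) (E i) (T i)) ∧ (∀ i, O i ⊆ U \ Zr r) ∧ (∀ z ∈ S ∩ U, ∃ i, z ∈ O i) ∧
        (∀ i k, ∀ z ∈ O i, SpD (E i) (w k z).1) ∧
        (∀ i, ∀ z ∈ O i, (∀ k t, Q k t z = Qc F (E i) (T i) u (w k) t z) ∧
          J z = Jc F (E i) u w (f1 x y) (f2 x y) z ∧ ∀ t, om t z = Oc F (E i) u w t z) ∧
        (∀ k t, IntegrableOn (Q k t) (S ∩ U)) ∧ IntegrableOn (fun z => l z * J z) (S ∩ U) ∧
        |∫ z in S ∩ U, l z * J z| ≤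
          ∫ z in S ∩ U, (|fderiv ℝ l z (f1 x y)| * |om (f2 x y) z| +
            |fderiv ℝ l z (f2 x y)| * |om (f1 x y) z|) := by
  sorry

end H50NA
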