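import Pool.Agent.H80.NA.Si
import Pool.Agent.H46.NS.Se

set_option autoImplicit false

/-!
# MP_b319aa_NA, S7: the integrated inequality (blueprint: helper46; proof text: H50_NA_S.md section S7)
-/

namespace H50NA

open MeasureTheory Set Filter Topology
open H80HM (D U P f1 f2 pk rk)
open H98NX (ip e2)
open H46SB (gr)
open scoped NNReal

variable {X : Type} [MetricSpace X] {gm : X → X → ℝ → X} {A B C : X ≃ᵢ X}

theorem s7 (hX : Npc X gm) {r : ℝ} {o : X} {x y : ℝ} (hr : 0 < r) (hr8 : r < 1 / 8) (hy : 0 < y)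
    {u : ℝ × ℝ → X} (hu : Lim A B C r o x y u) :
    ∃ M : ℝ, 0 ≤ M ∧ ∀ e s : ℝ, 0 < e → e ≤ 1 → 0 < s → s ≤ 1 / 2 →
      ∀ (l : ℝ × ℝ → ℝ) (S : Set (ℝ × ℝ)), CutL r e (e2 x y u) l S →
      ∀ w : Fin 4 → ℝ × ℝ → X, (∀ k, Lim A B C r o (tx x y s k) (ty y s k) (w k)) →
      ∀ (Q : Fin 4 → ℝ × ℝ → ℝ × ℝ → ℝ) (J : ℝ × ℝ → ℝ) (om : ℝ × ℝ → ℝ × ℝ → ℝ),
        PW gm l S x y s u w Q J om →
        4 * E0 A B C r o x y - M * Real.sqrt e * s ^ 2 - M * s ^ 3 ≤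
          ∑ k, E0 A B C r o (tx x y s k) (ty y s k) :=
  H46NS.s7 hX hr hr8 hy hu

end H50NA
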