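import Pool.Agent.H80.NA.Nu
import Pool.Agent.H80.HM.Sta

set_option autoImplicit false

/-!
# Row Stv: step A for a multiplicative function nu

Copy of Pool/Agent/H80/HM/Sta.lean (landed, complete; the auxiliary lemmas Sta_cp, Sta_roots, Sta_spl, Sta_card, Sta_smul, Sta_one, Sta_det, Sta_nz may be imported by
importing that file) with Real.log of the norm replaced by Real.log (nu z): Sta_P z := (Real.log (nu z))^2. Only multiplicativity and positivity on non zero numbers are used
(all eigenvalues of invertible matrices are non zero). At the end: sum of (log nu(om))^2 = 0, so nu(om) = 1 because nu(om) > 0.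
-/

namespace H80NA

open H80HM Matrix Module Polynomial

/-- the square of the logarithm of nu -/
noncomputable def Stv_P (nu : ℂ → ℝ) (z : ℂ) : ℝ := (Real.log (nu z)) ^ 2

theorem Stv_ms {nu : ℂ → ℝ} (hn : Mf nu) (m : Multiset ℂ) (hm : ∀ z ∈ m, z ≠ 0) (q : ℂ) (hq : q ≠ 0) :
    ((m.map (fun z => q * z)).map (Stv_P nu)).sum = (Multiset.card m : ℝ) * Stv_P nu q
      + 2 * Real.log (nu q) * Real.log (nu m.prod) + (m.map (Stv_P nu)).sum := by
  induction m using Multiset.induction with
  | empty => simp [hn.one]
  | cons a s ih =>
    have ha : a ≠ 0 := hm a (Multiset.mem_cons_self a s)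
    have hs : ∀ z ∈ s, z ≠ 0 := fun z hz => hm z (Multiset.mem_cons_of_mem hz)
    have hp : s.prod ≠ 0 := by
      intro h0
      rw [Multiset.prod_eq_zero_iff] at h0
      exact hs 0 h0 rfl
    simp only [Multiset.map_cons, Multiset.sum_cons, Multiset.prod_cons, Multiset.card_cons]
    rw [ih hs]
    have h1 : Real.log (nu (q * a)) = Real.log (nu q) + Real.log (nu a) := by
      rw [hn.mul, Real.log_mul (hn.pos q hq).ne' (hn.pos a ha).ne']
    have h2 : Real.log (nu (a * s.prod)) = Real.log (nu a) + Real.log (nu s.prod) := by
      rw [hn.mul, Real.log_mul (hn.pos a ha).ne' (hn.pos _ hp).ne']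
    have h3 : Stv_P nu (q * a) = (Real.log (nu q) + Real.log (nu a)) ^ 2 := by rw [Stv_P, h1]
    rw [h3, h2]
    simp only [Stv_P]
    push_cast
    ring

theorem Stv_main {nu : ℂ → ℝ} (hn : Mf nu) {k : ℕ} (n : ℕ) : ∀ (V : Type) [AddCommGroup V] [Module ℂ V]
    [Module.Finite ℂ V], finrank ℂ V = n →
    ∀ (T : FreeGroup (Fin k) → End ℂ V) (g : End ℂ V), T 1 = 1 →
    (∀ a b, T (a * b) = T a * T b) →
    (∀ i, ∀ z ∈ LinearMap.charpoly (T (FreeGroup.of i)) |>.roots, nu z = 1) →
    (∀ z ∈ (LinearMap.charpoly g).roots, z ≠ 0) → (∀ h, g * T h = T h * g) → ∀ w,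
    ((LinearMap.charpoly (T w * g)).roots.map (Stv_P nu)).sum
      = ((LinearMap.charpoly g).roots.map (Stv_P nu)).sum
        + ((LinearMap.charpoly (T w)).roots.map (Stv_P nu)).sum := by
  induction n using Nat.strong_induction_on with
  | _ n ih =>
    intro V _ _ _ hdn T g hT1 hTm hTg hg hc w
    by_cases hV : Nontrivial V
    · obtain ⟨q, hq⟩ := Module.End.exists_eigenvalue g
      have hqr : q ∈ (LinearMap.charpoly g).roots := by
        rw [mem_roots (LinearMap.charpoly_monic g).ne_zero]
        exact (Module.End.hasEigenvalue_iff_isRoot_charpoly g q).1 hq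
      have hq0 : q ≠ 0 := hg q hqr
      set U : Submodule ℂ V := Module.End.eigenspace g q with hUdef
      have hUg : U ≤ U.comap g := by
        intro x hx
        rw [hUdef, Module.End.mem_eigenspace_iff] at hx
        rw [Submodule.mem_comap, hx]
        apply U.smul_mem
        rw [hUdef, Module.End.mem_eigenspace_iff]
        exact hx
      have hUT : ∀ h, U ≤ U.comap (T h) := by
        intro h x hx
        rw [hUdef, Module.End.mem_eigenspace_iff] at hx
        rw [Submodule.mem_comap, hUdef, Module.End.mem_eigenspace_iff]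
        have := congrArg (fun f : End ℂ V => f x) (hc h)
        simp only [Module.End.mul_apply] at this
        rw [this, hx, map_smul]
      have hUTg : U ≤ U.comap (T w * g) := by
        intro x hx
        exact hUT w (hUg hx)
      have hUb : 0 < finrank ℂ U := by
        rw [Module.finrank_pos_iff]
        rw [Submodule.nontrivial_iff_ne_bot]
        exact hq
      have hdim : finrank ℂ (V ⧸ U) < n := by
        have := Submodule.finrank_quotient_add_finrank U
        omega
      -- the restricted family
      have hR1 : Sta_r (T 1) U (hUT 1) = 1 := by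
        ext x
        simp [Sta_r_apply, hT1]
      have hRm : ∀ a b, Sta_r (T (a * b)) U (hUT (a * b))
          = Sta_r (T a) U (hUT a) * Sta_r (T b) U (hUT b) := by
        intro a b
        ext x
        simp [Sta_r_apply, hTm]
      have hdet : ∀ h, nu (LinearMap.det (Sta_r (T h) U (hUT h))) = 1 := by
        have hmul : ∀ a b, LinearMap.det (Sta_r (T (a * b)) U (hUT (a * b)))
            = LinearMap.det (Sta_r (T a) U (hUT a)) * LinearMap.det (Sta_r (T b) U (hUT b)) := by
          intro a b
          rw [hRm, ← LinearMap.det_comp]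
          rfl
        have hgen : ∀ i, nu (LinearMap.det (Sta_r (T (FreeGroup.of i)) U (hUT (FreeGroup.of i))))
            = 1 := by
          intro i
          have hall : ∀ z ∈ (LinearMap.charpoly
              (Sta_r (T (FreeGroup.of i)) U (hUT (FreeGroup.of i)))).roots, nu z = 1 := by
            intro z hz
            apply hTg i z
            rw [Sta_roots _ U (hUT _)]
            exact Multiset.mem_add.2 (Or.inl hz)
          rw [Sta_det]
          generalize (LinearMap.charpoly
              (Sta_r (T (FreeGroup.of i)) U (hUT (FreeGroup.of i)))).roots = m at hall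
          induction m using Multiset.induction with
          | empty => rw [Multiset.prod_zero, hn.one]
          | cons a s ih2 =>
            rw [Multiset.prod_cons, hn.mul, hall a (Multiset.mem_cons_self a s), one_mul]
            exact ih2 (fun z hz => hall z (Multiset.mem_cons_of_mem hz))
        have h1 : nu (LinearMap.det (Sta_r (T 1) U (hUT 1))) = 1 := by
          rw [hR1, map_one, hn.one]
        intro h
        induction h using FreeGroup.induction_on with
        | C1 => exact h1
        | of i => exact hgen i
        | inv_of i _ =>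
          have h2 := hmul (FreeGroup.of i)⁻¹ (FreeGroup.of i)
          have h3 : nu (LinearMap.det (Sta_r (T ((FreeGroup.of i)⁻¹ * FreeGroup.of i)) U (hUT _)))
              = 1 := by
            have : ∀ u, u = 1 → nu (LinearMap.det (Sta_r (T u) U (hUT u))) = 1 := by
              rintro u rfl
              exact h1
            exact this _ (inv_mul_cancel _)
          rw [h2, hn.mul, hgen i, mul_one] at h3
          exact h3
        | mul x y hx hy => rw [hmul, hn.mul, hx, hy, one_mul]
      -- the quotient
      have hQ := ih (finrank ℂ (V ⧸ U)) hdim (V ⧸ U) rfl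
        (fun h => U.mapQ U (T h) (hUT h)) (U.mapQ U g hUg)
        (by
          ext x
          simp [hT1])
        (by
          intro a b
          ext x
          simp [hTm])
        (by
          intro i z hz
          apply hTg i z
          rw [Sta_roots _ U (hUT _)]
          exact Multiset.mem_add.2 (Or.inr hz))
        (by
          intro z hz
          apply hg z
          rw [Sta_roots _ U hUg]
          exact Multiset.mem_add.2 (Or.inr hz))
        (by
          intro h
          ext x
          have := congrArg (fun f : End ℂ V => f x) (hc h)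
          simp only [Module.End.mul_apply] at this
          simp [this])
        w
      have hQ2 : U.mapQ U (T w * g) hUTg = U.mapQ U (T w) (hUT w) * U.mapQ U g hUg := by
        ext x
        simp
      -- the restriction
      have hR2 : Sta_r (T w * g) U hUTg = q • Sta_r (T w) U (hUT w) := by
        ext x
        have hx : g (x : V) = q • (x : V) := Module.End.mem_eigenspace_iff.1 x.2
        simp only [Sta_r_apply, Module.End.mul_apply, LinearMap.smul_apply,
          Submodule.coe_smul]
        rw [hx, map_smul]
      have hR3 : Sta_r g U hUg = q • (1 : End ℂ U) := by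
        ext x
        have hx : g (x : V) = q • (x : V) := Module.End.mem_eigenspace_iff.1 x.2
        simp only [Sta_r_apply, LinearMap.smul_apply,
          Submodule.coe_smul, Module.End.one_apply]
        exact hx
      have hnz : ∀ z ∈ (LinearMap.charpoly (Sta_r (T w) U (hUT w))).roots, z ≠ 0 := by
        apply Sta_nz (f' := Sta_r (T w⁻¹) U (hUT w⁻¹))
        rw [← hRm]
        have : ∀ u, u = 1 → (Sta_r (T u) U (hUT u)) = 1 := by
          rintro u rfl
          exact hR1
        exact this _ (mul_inv_cancel _)
      rw [Sta_roots (T w * g) U hUTg, Sta_roots g U hUg, Sta_roots (T w) U (hUT w), hQ2, hR2, hR3,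
        Sta_smul _ hq0, Sta_smul _ hq0, Sta_one]
      simp only [Multiset.map_add, Multiset.sum_add]
      rw [hQ, Stv_ms hn _ hnz q hq0, ← Sta_det, hdet w, Sta_card]
      simp
      ring
    · rw [not_nontrivial_iff_subsingleton] at hV
      have h0 : ∀ f : End ℂ V, (LinearMap.charpoly f).roots = 0 := by
        intro f
        rw [← Multiset.card_eq_zero, Sta_card]
        exact Module.finrank_zero_of_subsingleton
      rw [h0, h0, h0]
      simp

theorem stepA_v {nu : ℂ → ℝ} (hn : Mf nu) {k D' : ℕ} (tau : FreeGroup (Fin k) →* (Mt D')ˣ)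
    (hgen : ∀ i, Mv nu ((tau (FreeGroup.of i) : (Mt D')ˣ) : Mt D')) (z g : (Mt D')ˣ)
    (w : FreeGroup (Fin k)) (hc : ∀ h, g * tau h = tau h * g) (hz : z⁻¹ * g * z = tau w * g) :
    Mv nu ((tau w : (Mt D')ˣ) : Mt D') := by
  have key := Stv_main hn (k := k) D' (Fin D' → ℂ) (by simp)
    (fun h => Matrix.toLin' ((tau h : (Mt D')ˣ) : Mt D')) (Matrix.toLin' ((g : (Mt D')ˣ) : Mt D'))
    (by
      rw [map_one, Units.val_one, Matrix.toLin'_one]
      rfl)
    (by
      intro a b
      rw [map_mul, Units.val_mul, Matrix.toLin'_mul]
      rfl)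
    (by
      intro i y hy
      rw [Sta_toLin] at hy
      exact hgen i y hy)
    (by
      apply Sta_nz (f' := Matrix.toLin' ((g⁻¹ : (Mt D')ˣ) : Mt D'))
      rw [Module.End.mul_eq_comp, ← Matrix.toLin'_mul, ← Units.val_mul, mul_inv_cancel,
        Units.val_one, Matrix.toLin'_one]
      rfl)
    (by
      intro h
      rw [Module.End.mul_eq_comp, Module.End.mul_eq_comp, ← Matrix.toLin'_mul,
        ← Matrix.toLin'_mul, ← Units.val_mul, ← Units.val_mul, hc])
    w
  rw [Module.End.mul_eq_comp, ← Matrix.toLin'_mul, Sta_toLin, Sta_toLin, Sta_toLin,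
    ← Units.val_mul, ← hz] at key
  have hcp : (((z⁻¹ * g * z : (Mt D')ˣ)) : Mt D').charpoly = ((g : (Mt D')ˣ) : Mt D').charpoly := by
    rw [mul_assoc, Units.val_mul, Matrix.charpoly_mul_comm, ← Units.val_mul, mul_assoc,
      mul_inv_cancel, mul_one]
  rw [hcp] at key
  have hsum : (((tau w : (Mt D')ˣ) : Mt D').charpoly.roots.map (Stv_P nu)).sum = 0 := by linarith
  intro y hy
  have hnz : y ≠ 0 := by
    have := Sta_nz (f := Matrix.toLin' ((tau w : (Mt D')ˣ) : Mt D'))
      (f' := Matrix.toLin' (((tau w)⁻¹ : (Mt D')ˣ) : Mt D')) (by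
        rw [Module.End.mul_eq_comp, ← Matrix.toLin'_mul, ← Units.val_mul, mul_inv_cancel,
          Units.val_one, Matrix.toLin'_one]
        rfl)
    rw [Sta_toLin] at this
    exact this y hy
  have h0 : Stv_P nu y = 0 := by
    have hle : ∀ x ∈ ((tau w : (Mt D')ˣ) : Mt D').charpoly.roots.map (Stv_P nu), 0 ≤ x := by
      intro x hx
      obtain ⟨a, _, rfl⟩ := Multiset.mem_map.1 hx
      exact sq_nonneg _
    have h1 := Multiset.single_le_sum hle (Stv_P nu y) (Multiset.mem_map_of_mem _ hy)
    rw [hsum] at h1
    exact le_antisymm h1 (sq_nonneg _)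
  have h2 : Real.log (nu y) = 0 := pow_eq_zero_iff (two_ne_zero) |>.1 h0
  have hpos : 0 < nu y := hn.pos y hnz
  exact Real.eq_one_of_pos_of_log_eq_zero hpos h2

end H80NA
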