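import Pool.Agent.H84.NS.Vsf

set_option autoImplicit false

/-!
# The four point inequality for the regularised energy (used in Na3)
-/

namespace H50NA

open H80HM (VS)

theorem vs_fin {K : Type} [Field K] (F : VF K) (hF : Rf F) {V : Type} [AddCommGroup V] [Module K V]
    [Module.Finite K V] (a b c : V ≃ₗ[K] V) {r : ℝ} (o : Nm F V) (hr : 0 < r) (hr8 : r < 1 / 8) :
    VS (fun x y => E0 (act F a) (act F b) (act F c) r o x y) :=
  H84NS.vs_all F hF (act F a) (act F b) (act F c) o hr hr8

end H50NA
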