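import Pool.Agent.H80.NA.Lga
import Pool.Agent.H80.NA.Si
import Pool.Agent.H80.NA.Exl
import Pool.Agent.H36.NA.Nc
import Pool.Agent.H98.NX.Xa2
import Pool.Agent.H98.NX.Xh

set_option autoImplicit false

/-!
# Row Zch: the exceptional set (points without chart) is finite on compact subsets of Gd r and can be taken symmetric under the gluing

chart_mono: restriction of a chart to a smaller open set and to a map that agrees with u there (all fields are restrictions; spl, cst by rewriting with the equality).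
ch_iso: z in Wg r sg. f := fun ze => ext A B C sg u (Lt x y ze) is LM on Lt x y ^-1 (Wg r sg) (lim_lm; npcN is Npc (Nm F V)). ze := Li x y z. H36NA.str: r1 > 0 such that every ze' <> ze in ball ze r1 has a chart Cht F f ze' rho N E T; chart_of_cht gives Chart F (ext sg u) {w | Li w in ball ze' rho}, which contains Lt x y ze'.
 So every w <> z with Li x y w in ball ze r1 has HasChart F (ext sg u) w. {w | Li x y w in ball ze r1} is an open neighbourhood of z.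
noch. N0 := {z in Gd r | exists sg, z in Ws sg and not HasChart F (ext A B C sg u) z}.
 Every z in Gd r has a neighbourhood W with N0 cap W contained in {z}: choose sg0 with z in Ws sg0 (ws_cov of Exl), z in Wg r sg0 (rt sg0 z = z because z in D, and z not in Zr r), W := the open set of ch_iso intersected with Ws sg0 (open). Let w in N0 cap W, w <> z: there is sg' with w in Ws sg' and no chart of ext sg' u at w;
 sg' = sg0 is impossible by ch_iso; if sg' <> sg0 then w in U (ws_two of Exl); on the open set U both extensions are u (ext_D of H98NX.Xb: U in D), so a chart of ext sg0 u at w restricts (chart_mono with O cap U) to a chart of ext sg' u at w, contradiction.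
 Hence N0 cap S is finite for compact S in Gd r (IsCompact.elim_nhds_subcover; a finite union of subsets of singletons).
 Z := {z in Gd r | z in N0 or exists sg, z in Ws sg and z not in U and Rs sg z in N0}. Finite on compact S: for every sg the set {z in S | z in Ws sg, z not in U, Rs sg z in N0}: Rs sg maps it injectively into N0 cap Rs sg '' S'. Its image may approach punctures? no: z stays in the compact S in Gd r, which has positive distance from P;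
   use S'_sg := Rs sg '' (S cap D minus U ...): simplest: the image of {z in S cap the closed seam sg} under Rs sg is a compact subset of Gd r: S cap D minus U is compact (U open), its points that lie in Ws sg are exactly those on the open side sg; the closed side minus S-punctures: S cap (closed side sg) is compact and contains no puncture, so it lies in Ws sg;
   Rs sg of it is compact, contained in D minus P (ws_seam of Xa) and not in U, so not in Zr (Zr in U, zr_sub of Xa2): contained in Gd r. Closed sides: 1: {(1,v)}, 2: {(0,v)}, 3: {(u,0), u <= 1/2}, 4: {(u,0), u >= 1/2}, 5: {(u,1/2), u <= 1/2}, 6: {(u,1/2), u >= 1/2}.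
 Symmetry: (0,v), 0 < v < 1/2, lies in Ws 2 and in no other Ws sg; Rs 2 (0,v) = (1,v), which lies in Ws 1 only, Rs 1 (1,v) = (0,v); both are in Gd r (not in Zr because Zr in U). So (0,v) in Z iff (0,v) in N0 or (1,v) in N0 iff (1,v) in Z. The same for (u,0), 0 < u < 1/2 (Ws 3) and (1-u,0) (Ws 4); u = 1/2 is a puncture: both sides of the iff are
 the same point; u > 1/2 by symmetry. The same for (u,1/2) with Ws 5, Ws 6.
 Last claim: z in Gd r, z not in Z: z not in N0, so HasChart for every sg with z in Ws sg.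
-/

namespace H50NA

open MeasureTheory Set Filter Topology Metric
open H80HM (D U P f1 f2 pk rk)

variable {K : Type} [Field K] (F : VF K) {V : Type} [AddCommGroup V] [Module K V] [Module.Finite K V]
  {A B C : Nm F V ≃ᵢ Nm F V}

theorem chart_mono {u u' : ℝ × ℝ → Nm F V} {O O' : Set (ℝ × ℝ)} {N : ℕ} {E : Fin N → Submodule K V}
    {T : Fin N → ℝ × ℝ → ℝ} (h : Chart F u O E T) (hO : IsOpen O') (hs : O' ⊆ O)
    (he : ∀ z ∈ O', u z = u' z) : Chart F u' O' E T where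
  opn := hO
  int := h.int
  nz := h.nz
  cd b := (h.cd b).mono hs
  dis y hy := h.dis y (hs hy)
  spl y hy := by
    rw [← he y hy]
    exact h.spl y (hs hy)
  cst y hy z hz b := by
    rw [← he y hy, ← he z hz]
    exact h.cst y (hs hy) z (hs hz) b

theorem Zch_li_cont (x y : ℝ) : Continuous (H98NX.Li x y) := by
  obtain ⟨L, hL, h⟩ := H98NX.li_lip x y
  refine (LipschitzWith.of_dist_le_mul (K := Real.toNNReal L) ?_).continuous
  intro a b
  rw [Real.coe_toNNReal L hL.le]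
  exact h a b

theorem ch_iso (hF : Rf F) {r : ℝ} {o : Nm F V} {x y : ℝ} (hr : 0 < r) (hr8 : r < 1 / 8) (hy : 0 < y)
    {u : ℝ × ℝ → Nm F V} (hu : Lim A B C r o x y u) {sg : Fin 7} {z : ℝ × ℝ} (hz : z ∈ Wg r sg) :
    ∃ W : Set (ℝ × ℝ), IsOpen W ∧ z ∈ W ∧ ∀ w ∈ W, w ≠ z → HasChart F (ext A B C sg u) w := by
  have hLM : LM (fun z => ext A B C sg u (Lt x y z)) ((Lt x y) ⁻¹' Wg r sg) :=
    lim_lm (npcN F) hr hr8 hy hu sg
  have hx : H98NX.Li x y z ∈ (Lt x y) ⁻¹' Wg r sg := by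
    rw [mem_preimage, H98NX.lt_li hy]
    exact hz
  obtain ⟨r1, hr1, -, hch⟩ := H36NA.str F hF hLM hx
  refine ⟨(H98NX.Li x y) ⁻¹' ball (H98NX.Li x y z) r1, isOpen_ball.preimage (Zch_li_cont x y),
    mem_ball_self hr1, ?_⟩
  intro w hw hwz
  have hne : H98NX.Li x y w ≠ H98NX.Li x y z := by
    intro h
    apply hwz
    rw [← H98NX.lt_li hy w, h, H98NX.lt_li hy]
  obtain ⟨rho, N, E, T, h⟩ := hch _ hw hne
  refine ⟨{w' | H98NX.Li x y w' ∈ ball (H98NX.Li x y w) rho}, N, E, _, ?_, chart_of_cht F hy h⟩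
  exact mem_ball_self h.rpos

/-- a chart of one extension at a point of U is a chart of the other ones -/
theorem Zch_swap {u : ℝ × ℝ → Nm F V} {s s' : Fin 7} {w : ℝ × ℝ} (hw : w ∈ U)
    (h : HasChart F (ext A B C s u) w) : HasChart F (ext A B C s' u) w := by
  obtain ⟨O, N, E, T, hwO, hc⟩ := h
  refine ⟨O ∩ U, N, E, T, ⟨hwO, hw⟩,
    chart_mono F hc (hc.opn.inter H98NX.u_open) inter_subset_left ?_⟩
  intro z hz
  have hzD : z ∈ D := (H98NX.u_sub_D hz.2).1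
  unfold ext
  rw [if_pos hzD, if_pos hzD]

theorem Zch_gd {r : ℝ} {z : ℝ × ℝ} : z ∈ Gd r ↔ z ∈ D \ P ∧ z ∉ Zr r := by
  constructor
  · rintro ⟨h1, h2⟩
    exact ⟨⟨h1, fun h => h2 (Or.inl h)⟩, fun h => h2 (Or.inr h)⟩
  · rintro ⟨⟨h1, h2⟩, h3⟩
    refine ⟨h1, ?_⟩
    rintro (h | h)
    · exact h2 h
    · exact h3 h

theorem Zch_fin {Z S : Set (ℝ × ℝ)} (hS : IsCompact S)
    (h : ∀ z ∈ S, ∃ W : Set (ℝ × ℝ), IsOpen W ∧ z ∈ W ∧ ∀ w ∈ W, w ∈ Z → w = z) : (Z ∩ S).Finite := by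
  have h' : ∀ z : ℝ × ℝ, ∃ W : Set (ℝ × ℝ), z ∈ S → (IsOpen W ∧ z ∈ W ∧ ∀ w ∈ W, w ∈ Z → w = z) := by
    intro z
    by_cases hz : z ∈ S
    · obtain ⟨W, hW⟩ := h z hz
      exact ⟨W, fun _ => hW⟩
    · exact ⟨∅, fun h => absurd h hz⟩
  choose W hW using h'
  obtain ⟨t, ht, hcov⟩ := hS.elim_nhds_subcover W fun z hz => (hW z hz).1.mem_nhds (hW z hz).2.1
  refine t.finite_toSet.subset ?_
  rintro w ⟨hwZ, hwS⟩
  have h1 := hcov hwS
  simp only [mem_iUnion] at h1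
  obtain ⟨z, hz, hwz⟩ := h1
  rw [(hW z (ht z hz)).2.2 w hwz hwZ]
  exact hz

/-- the points without chart -/
def Zch_N0 (A B C : Nm F V ≃ᵢ Nm F V) (r : ℝ) (u : ℝ × ℝ → Nm F V) : Set (ℝ × ℝ) :=
  {z | z ∈ Gd r ∧ ∃ s, z ∈ Ws s ∧ ¬ HasChart F (ext A B C s u) z}

theorem Zch_loc (hF : Rf F) {r : ℝ} {o : Nm F V} {x y : ℝ} (hr : 0 < r) (hr8 : r < 1 / 8) (hy : 0 < y)
    {u : ℝ × ℝ → Nm F V} (hu : Lim A B C r o x y u) {z : ℝ × ℝ} (hz : z ∈ Gd r) :
    ∃ W : Set (ℝ × ℝ), IsOpen W ∧ z ∈ W ∧ ∀ w ∈ W, w ∈ Zch_N0 F A B C r u → w = z := by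
  obtain ⟨hzD, hzZ⟩ := Zch_gd.1 hz
  obtain ⟨s, hs⟩ := ws_cov hzD
  have hzW : z ∈ Wg r s := by
    refine ⟨hs, ?_⟩
    rw [Exl_rt_in hzD.1]
    exact hzZ
  obtain ⟨W, hWo, hzW', hW⟩ := ch_iso F hF hr hr8 hy hu hzW
  refine ⟨W ∩ Ws s, hWo.inter (ws_open s), ⟨hzW', hs⟩, ?_⟩
  rintro w ⟨hwW, hws⟩ ⟨-, s', hws', hno⟩
  by_contra hne
  have h0 := hW w hwW hne
  by_cases hss : s = s'
  · rw [hss] at h0
    exact hno h0
  · exact hno (Zch_swap F (ws_two hss hws hws') h0)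

/-- the points without chart and their partners on the seams -/
def Zch_Z (A B C : Nm F V ≃ᵢ Nm F V) (r : ℝ) (u : ℝ × ℝ → Nm F V) : Set (ℝ × ℝ) :=
  {z | z ∈ Gd r ∧ (z ∈ Zch_N0 F A B C r u ∨
    ∃ s, z ∈ Ws s ∧ z ∉ U ∧ Rs s z ∈ Zch_N0 F A B C r u)}

theorem Zch_locZ (hF : Rf F) {r : ℝ} {o : Nm F V} {x y : ℝ} (hr : 0 < r) (hr8 : r < 1 / 8) (hy : 0 < y)
    {u : ℝ × ℝ → Nm F V} (hu : Lim A B C r o x y u) {z : ℝ × ℝ} (hz : z ∈ Gd r) :
    ∃ W : Set (ℝ × ℝ), IsOpen W ∧ z ∈ W ∧ ∀ w ∈ W, w ∈ Zch_Z F A B C r u → w = z := by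
  obtain ⟨W, hWo, hzW, hW⟩ := Zch_loc F hF hr hr8 hy hu hz
  by_cases hzU : z ∈ U
  · refine ⟨W ∩ U, hWo.inter H98NX.u_open, ⟨hzW, hzU⟩, ?_⟩
    rintro w ⟨hwW, hwU⟩ ⟨-, h | ⟨s, -, h, -⟩⟩
    · exact hW w hwW h
    · exact absurd hwU h
  · obtain ⟨hzD, hzZ⟩ := Zch_gd.1 hz
    obtain ⟨s, hs⟩ := ws_cov hzD
    obtain ⟨h1, h2⟩ := H98NX.ws_seam hs hzD.1 hzU
    have h3 : Rs s z ∈ Gd r :=
      Zch_gd.2 ⟨h1, fun h => h2 (H98NX.zr_sub (by linarith) h)⟩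
    obtain ⟨W', hWo', hzW', hW'⟩ := Zch_loc F hF hr hr8 hy hu h3
    refine ⟨(W ∩ Ws s) ∩ (Rs s) ⁻¹' W', (hWo.inter (ws_open s)).inter (hWo'.preimage (Exl_Rs_cont s)),
      ⟨⟨hzW, hs⟩, hzW'⟩, ?_⟩
    rintro w ⟨⟨hwW, hws⟩, hwW'⟩ ⟨-, h | ⟨s', hws', hwU, h⟩⟩
    · exact hW w hwW h
    · have hss : s = s' := by
        by_contra hne
        exact hwU (ws_two hne hws hws')
      subst hss
      have h4 := hW' (Rs s w) hwW' h
      have h5 := Exl_Rs_dist s w z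
      rw [h4, dist_self] at h5
      exact dist_eq_zero.1 h5.symm

theorem Zch_half {r : ℝ} {u : ℝ × ℝ → Nm F V} {p q : ℝ × ℝ} {s s' : Fin 7} (hq : q ∈ Gd r)
    (hps : p ∈ Ws s) (hqs : q ∈ Ws s') (hqU : q ∉ U) (h1 : Rs s p = q) (h2 : Rs s' q = p)
    (h : p ∈ Zch_Z F A B C r u) : q ∈ Zch_Z F A B C r u := by
  obtain ⟨-, h | ⟨t, hpt, hpU, h⟩⟩ := h
  · refine ⟨hq, Or.inr ⟨s', hqs, hqU, ?_⟩⟩
    rw [h2]
    exact h
  · have hst : s = t := by
      by_contra hne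
      exact hpU (ws_two hne hps hpt)
    subst hst
    rw [h1] at h
    exact ⟨hq, Or.inl h⟩

theorem Zch_sym {r : ℝ} {u : ℝ × ℝ → Nm F V} {p q : ℝ × ℝ} {s s' : Fin 7} (hp : p ∈ Gd r) (hq : q ∈ Gd r)
    (hps : p ∈ Ws s) (hqs : q ∈ Ws s') (hpU : p ∉ U) (hqU : q ∉ U) (h1 : Rs s p = q) (h2 : Rs s' q = p) :
    p ∈ Zch_Z F A B C r u ↔ q ∈ Zch_Z F A B C r u :=
  ⟨Zch_half F hq hps hqs hqU h1 h2, Zch_half F hp hqs hps hpU h2 h1⟩

theorem Zch_sd {r : ℝ} (hr8 : r < 1 / 8) {p : ℝ × ℝ} {s : Fin 7} (hps : p ∈ Ws s) (hpD : p ∈ D)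
    (hpU : p ∉ U) : p ∈ Gd r :=
  Zch_gd.2 ⟨H98NX.ws_D hps hpD, fun h => hpU (H98NX.zr_sub (by linarith) h)⟩

theorem noch (hF : Rf F) {r : ℝ} {o : Nm F V} {x y : ℝ} (hr : 0 < r) (hr8 : r < 1 / 8) (hy : 0 < y)
    {u : ℝ × ℝ → Nm F V} (hu : Lim A B C r o x y u) :
    ∃ Z : Set (ℝ × ℝ), Z ⊆ Gd r ∧ (∀ S ⊆ Gd r, IsCompact S → (Z ∩ S).Finite) ∧
      (∀ v ∈ Ioo (0:ℝ) (1/2), (0, v) ∈ Z ↔ (1, v) ∈ Z) ∧
      (∀ u ∈ Ioo (0:ℝ) 1, (u, 0) ∈ Z ↔ (1 - u, 0) ∈ Z) ∧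
      (∀ u ∈ Ioo (0:ℝ) 1, (u, 1/2) ∈ Z ↔ (1 - u, 1/2) ∈ Z) ∧
      ∀ z ∈ Gd r, z ∉ Z → ∀ sg, z ∈ Ws sg → HasChart F (ext A B C sg u) z := by
  refine ⟨Zch_Z F A B C r u, fun z hz => hz.1,
    fun S hS hc => Zch_fin hc fun z hz => Zch_locZ F hF hr hr8 hy hu (hS hz), ?_, ?_, ?_, ?_⟩
  · rintro v ⟨hv0, hv1⟩
    have a1 : ((0:ℝ), v) ∈ Ws 2 := ⟨⟨by norm_num, by norm_num⟩, hv0, hv1⟩
    have a2 : ((1:ℝ), v) ∈ Ws 1 := ⟨⟨by norm_num, by norm_num⟩, hv0, hv1⟩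
    have a3 : ((0:ℝ), v) ∉ U := fun h => absurd h.1.1 (lt_irrefl _)
    have a4 : ((1:ℝ), v) ∉ U := fun h => absurd h.1.2 (lt_irrefl _)
    have a5 : ((0:ℝ), v) ∈ D := (Exl_memD _).2 ⟨⟨le_refl _, zero_le_one⟩, hv0.le, hv1.le⟩
    have a6 : ((1:ℝ), v) ∈ D := (Exl_memD _).2 ⟨⟨zero_le_one, le_refl _⟩, hv0.le, hv1.le⟩
    refine Zch_sym F (Zch_sd hr8 a1 a5 a3) (Zch_sd hr8 a2 a6 a4) a1 a2 a3 a4 ?_ ?_
    · show ((0:ℝ) + 1, v) = (1, v)
      rw [zero_add]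
    · show ((1:ℝ) - 1, v) = (0, v)
      rw [sub_self]
  · have key : ∀ t : ℝ, 0 < t → t < 1/2 → ((t, (0:ℝ)) ∈ Zch_Z F A B C r u ↔ (1 - t, (0:ℝ)) ∈ Zch_Z F A B C r u) := by
      intro t ht0 ht1
      have a1 : (t, (0:ℝ)) ∈ Ws 3 := ⟨⟨ht0, ht1⟩, by norm_num, by norm_num⟩
      have a2 : (1 - t, (0:ℝ)) ∈ Ws 4 :=
        ⟨⟨by show (1/2:ℝ) < 1 - t; linarith, by show 1 - t < 1; linarith⟩, by norm_num, by norm_num⟩
      have a3 : (t, (0:ℝ)) ∉ U := fun h => absurd h.2.1 (lt_irrefl _)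
      have a4 : (1 - t, (0:ℝ)) ∉ U := fun h => absurd h.2.1 (lt_irrefl _)
      have a5 : (t, (0:ℝ)) ∈ D := (Exl_memD _).2 ⟨⟨ht0.le, by show t ≤ 1; linarith⟩, le_refl _, by norm_num⟩
      have a6 : (1 - t, (0:ℝ)) ∈ D := (Exl_memD _).2
        ⟨⟨by show 0 ≤ 1 - t; linarith, by show 1 - t ≤ 1; linarith⟩, le_refl _, by norm_num⟩
      refine Zch_sym F (Zch_sd hr8 a1 a5 a3) (Zch_sd hr8 a2 a6 a4) a1 a2 a3 a4 ?_ ?_
      · show (1 - t, -(0:ℝ)) = (1 - t, 0)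
        rw [neg_zero]
      · show (1 - (1 - t), -(0:ℝ)) = (t, 0)
        rw [neg_zero, sub_sub_cancel]
    rintro t ⟨ht0, ht1⟩
    rcases lt_trichotomy t (1/2) with h | h | h
    · exact key t ht0 h
    · have e : 1 - t = t := by linarith
      rw [e]
    · have := key (1 - t) (by linarith) (by linarith)
      rw [sub_sub_cancel] at this
      exact this.symm
  · have key : ∀ t : ℝ, 0 < t → t < 1/2 →
        ((t, (1/2:ℝ)) ∈ Zch_Z F A B C r u ↔ (1 - t, (1/2:ℝ)) ∈ Zch_Z F A B C r u) := by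
      intro t ht0 ht1
      have a1 : (t, (1/2:ℝ)) ∈ Ws 5 := ⟨⟨ht0, ht1⟩, by norm_num, by norm_num⟩
      have a2 : (1 - t, (1/2:ℝ)) ∈ Ws 6 :=
        ⟨⟨by show (1/2:ℝ) < 1 - t; linarith, by show 1 - t < 1; linarith⟩, by norm_num, by norm_num⟩
      have a3 : (t, (1/2:ℝ)) ∉ U := fun h => absurd h.2.2 (lt_irrefl _)
      have a4 : (1 - t, (1/2:ℝ)) ∉ U := fun h => absurd h.2.2 (lt_irrefl _)
      have a5 : (t, (1/2:ℝ)) ∈ D := (Exl_memD _).2 ⟨⟨ht0.le, by show t ≤ 1; linarith⟩, by norm_num, le_refl _⟩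
      have a6 : (1 - t, (1/2:ℝ)) ∈ D := (Exl_memD _).2
        ⟨⟨by show 0 ≤ 1 - t; linarith, by show 1 - t ≤ 1; linarith⟩, by norm_num, le_refl _⟩
      refine Zch_sym F (Zch_sd hr8 a1 a5 a3) (Zch_sd hr8 a2 a6 a4) a1 a2 a3 a4 ?_ ?_
      · show (1 - t, 1 - (1/2:ℝ)) = (1 - t, 1/2)
        norm_num
      · show (1 - (1 - t), 1 - (1/2:ℝ)) = (t, 1/2)
        rw [sub_sub_cancel]
        norm_num
    rintro t ⟨ht0, ht1⟩
    rcases lt_trichotomy t (1/2) with h | h | h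
    · exact key t ht0 h
    · have e : 1 - t = t := by linarith
      rw [e]
    · have := key (1 - t) (by linarith) (by linarith)
      rw [sub_sub_cancel] at this
      exact this.symm
  · intro z hz hzZ s hs
    by_contra hno
    exact hzZ ⟨hz, Or.inl ⟨hz, s, hs, hno⟩⟩

end H50NA
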