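import Pool.Agent.H80.NA.Prt
import Pool.Agent.H80.NA.S7
import Pool.Agent.H80.NA.Zch
import Pool.Agent.H80.NA.Ske
import Pool.Agent.H31.NA.Cpl

set_option autoImplicit false

/-!
# vs_e0: the regularised energy satisfies the four point inequality (assembly)
-/

namespace H50NA

open MeasureTheory Set Filter Topology
open H80HM (D U P f1 f2 pk rk VS)
open H98NX (ip e2)
open scoped NNReal

variable {K : Type} [Field K] (F : VF K) {V : Type} [AddCommGroup V] [Module K V] [Module.Finite K V]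

theorem Vse_empty {X : Type} [MetricSpace X] {A B C : X ≃ᵢ X} {r : ℝ} {o : X}
    (h : ¬ ∃ f, Cl0 A B C r o f) (x y : ℝ) : E0 A B C r o x y = 0 := by
  have h1 : {e | ∃ f, Cl0 A B C r o f ∧ e = Ex x y f} = ∅ := by
    ext e
    constructor
    · rintro ⟨f, hf, _⟩
      exact absurd ⟨f, hf⟩ h
    · intro he
      exact absurd he (Set.notMem_empty e)
  unfold E0
  rw [h1, Real.sInf_empty]

theorem vs_e0 (hF : Rf F) (a b c : V ≃ₗ[K] V) {r : ℝ} (o : Nm F V) (hr : 0 < r) (hr8 : r < 1 / 8) :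
    VS (fun x y => E0 (act F a) (act F b) (act F c) r o x y) := by
  intro x y hy ep hep
  by_cases hne : ∃ f, Cl0 (act F a) (act F b) (act F c) r o f
  swap
  · refine ⟨1, one_pos, fun s _ _ => ?_⟩
    simp only [Vse_empty hne]
    nlinarith [sq_nonneg s]
  obtain ⟨u, hu⟩ := lim_ex (x := x) (npcN F) hr hr8 hy hne
  obtain ⟨Z, hZ, hZf, hZC, hZA, hZB, hZc⟩ := noch F hF hr hr8 hy hu
  obtain ⟨M, hM, h7⟩ := s7 (npcN F) hr hr8 hy hu
  -- choice of e
  obtain ⟨e, he, he1, heM⟩ : ∃ e : ℝ, 0 < e ∧ e ≤ 1 ∧ M * Real.sqrt e ≤ ep / 2 := by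
    refine ⟨min 1 ((ep / (2 * (M + 1))) ^ 2), lt_min one_pos (by positivity), min_le_left _ _, ?_⟩
    have h1 : Real.sqrt (min 1 ((ep / (2 * (M + 1))) ^ 2)) ≤ ep / (2 * (M + 1)) := by
      rw [Real.sqrt_le_left (by positivity)]
      exact min_le_right _ _
    calc M * Real.sqrt (min 1 ((ep / (2 * (M + 1))) ^ 2)) ≤ M * (ep / (2 * (M + 1))) :=
          mul_le_mul_of_nonneg_left h1 hM
      _ ≤ (M + 1) * (ep / (2 * (M + 1))) :=
          mul_le_mul_of_nonneg_right (by linarith) (by positivity)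
      _ = ep / 2 := by field_simp
  obtain ⟨hei, _⟩ := lim_en (npcN F) hr hr8 hy hu
  have hm0 : ∀ z, 0 ≤ e2 x y u z := fun z => add_nonneg (sq_nonneg _) (sq_nonneg _)
  obtain ⟨l, S, hcut, hSZ⟩ := s6_cut hr hr8 hZ hZf hZC hZA hZB hei hm0 he
  obtain ⟨s1, hs1, hp⟩ := part1 F hr hr8 hy hu hcut.cpt hcut.sub
    (fun z hz sg hsg => hZc z (hcut.sub hz) (hSZ z hz) sg hsg) hcut.lip hcut.bd hcut.sy hcut.off
  refine ⟨min s1 (min (1 / 2) (ep / (2 * (M + 1)))), lt_min hs1 (lt_min (by norm_num) (by positivity)),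
    fun s hs hss => ?_⟩
  have hss1 : s ≤ s1 := (hss.trans_le (min_le_left _ _)).le
  have hss2 : s ≤ 1 / 2 := (hss.trans_le ((min_le_right _ _).trans (min_le_left _ _))).le
  have hss3 : s ≤ ep / (2 * (M + 1)) :=
    (hss.trans_le ((min_le_right _ _).trans (min_le_right _ _))).le
  choose w hw using fun k : Fin 4 =>
    lim_ex (x := tx x y s k) (npcN F) hr hr8 (ty_pos hy s k) hne
  obtain ⟨Q, J, om, hPW⟩ := hp s hs hss1 w hw
  have h8 := h7 e s he he1 hs hss2 l S hcut w hw Q J om hPW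
  rw [Fin.sum_univ_four] at h8
  have h9 : M * s ^ 3 ≤ ep / 2 * s ^ 2 := by
    have h10 : M * s ≤ ep / 2 := by
      calc M * s ≤ (M + 1) * s := mul_le_mul_of_nonneg_right (by linarith) hs.le
        _ ≤ (M + 1) * (ep / (2 * (M + 1))) := mul_le_mul_of_nonneg_left hss3 (by linarith)
        _ = ep / 2 := by field_simp
    calc M * s ^ 3 = (M * s) * s ^ 2 := by ring
      _ ≤ ep / 2 * s ^ 2 := mul_le_mul_of_nonneg_right h10 (sq_nonneg s)
  have h11 : M * Real.sqrt e * s ^ 2 ≤ ep / 2 * s ^ 2 :=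
    mul_le_mul_of_nonneg_right heM (sq_nonneg s)
  have e0 : tx x y s 0 = x ∧ ty y s 0 = y * Real.exp s := ⟨rfl, rfl⟩
  have e1 : tx x y s 1 = x - y * Real.tanh s ∧ ty y s 1 = y / Real.cosh s := ⟨rfl, rfl⟩
  have e2' : tx x y s 2 = x ∧ ty y s 2 = y * Real.exp (-s) := ⟨rfl, rfl⟩
  have e3 : tx x y s 3 = x + y * Real.tanh s ∧ ty y s 3 = y / Real.cosh s := ⟨rfl, rfl⟩
  rw [e0.1, e0.2, e1.1, e1.2, e2'.1, e2'.2, e3.1, e3.2] at h8
  show 4 * E0 (act F a) (act F b) (act F c) r o x y - ep * s ^ 2 ≤ _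
  linarith

end H50NA
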